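import Mathlib

/-! Independence of blocks of independent events. -/

set_option autoImplicit false

open MeasureTheory ProbabilityTheory Filter Finset

namespace Pool.Agent.K4H77.Noise

variable {Ω : Type*} [MeasurableSpace Ω]

/-- the sigma-algebra generated by the events `A n`, `n ∈ S` -/
def sg (A : ℕ → Set Ω) (S : Set ℕ) : MeasurableSpace Ω :=
  MeasurableSpace.generateFrom {t | ∃ n ∈ S, A n = t}

theorem sg_mono (A : ℕ → Set Ω) {S T : Set ℕ} (h : S ⊆ T) : sg A S ≤ sg A T := by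
  apply MeasurableSpace.generateFrom_mono
  rintro t ⟨n, hn, rfl⟩
  exact ⟨n, h hn, rfl⟩

theorem sg_le {A : ℕ → Set Ω} (hA : ∀ n, MeasurableSet (A n)) (S : Set ℕ) :
    sg A S ≤ (inferInstance : MeasurableSpace Ω) := by
  apply MeasurableSpace.generateFrom_le
  rintro t ⟨n, _, rfl⟩
  exact hA n

theorem sg_self (A : ℕ → Set Ω) {S : Set ℕ} {n : ℕ} (hn : n ∈ S) : MeasurableSet[sg A S] (A n) :=
  MeasurableSpace.measurableSet_generateFrom ⟨n, hn, rfl⟩

theorem prod_blocks (P : Measure Ω) [IsProbabilityMeasure P] {A : ℕ → Set Ω}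
    (hA : ∀ n, MeasurableSet (A n)) (hi : iIndepSet A P) {ι : Type*} (B : ι → Set ℕ)
    (G : ι → Set Ω) (s : Finset ι) (hG : ∀ j ∈ s, MeasurableSet[sg A (B j)] (G j))
    (hd : ∀ i ∈ s, ∀ j ∈ s, i ≠ j → Disjoint (B i) (B j)) :
    P (⋂ j ∈ s, G j) = ∏ j ∈ s, P (G j) := by
  classical
  induction s using Finset.induction_on with
  | empty => simp
  | insert a s ha ih =>
    rw [Finset.prod_insert ha, Finset.set_biInter_insert]
    rw [← ih (fun j hj => hG j (Finset.mem_insert_of_mem hj))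
      (fun i hi j hj => hd i (Finset.mem_insert_of_mem hi) j (Finset.mem_insert_of_mem hj))]
    have hdis : Disjoint (B a) (⋃ j ∈ s, B j) := by
      rw [Set.disjoint_iUnion₂_right]
      intro j hj
      exact hd a (Finset.mem_insert_self a s) j (Finset.mem_insert_of_mem hj)
        (fun h => ha (h ▸ hj))
    have h1 := hi.indep_generateFrom_of_disjoint hA (B a) (⋃ j ∈ s, B j) hdis
    rw [ProbabilityTheory.Indep_iff] at h1
    apply h1
    · exact hG a (Finset.mem_insert_self a s)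
    · apply Finset.measurableSet_biInter
      intro j hj
      have h2 : sg A (B j) ≤ sg A (⋃ j ∈ s, B j) := sg_mono A (by
        intro n hn
        exact Set.mem_iUnion₂.2 ⟨j, hj, hn⟩)
      exact h2 _ (hG j (Finset.mem_insert_of_mem hj))

/-- none of the events of independent blocks occurs -/
theorem none_blocks (P : Measure Ω) [IsProbabilityMeasure P] {A : ℕ → Set Ω}
    (hA : ∀ n, MeasurableSet (A n)) (hi : iIndepSet A P) {ι : Type*} (B : ι → Set ℕ)
    (G : ι → Set Ω) (s : Finset ι) (hG : ∀ j ∈ s, MeasurableSet[sg A (B j)] (G j))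
    (hd : ∀ i ∈ s, ∀ j ∈ s, i ≠ j → Disjoint (B i) (B j)) (a : ℝ) (ha0 : 0 ≤ a)
    (ha : ∀ j ∈ s, ENNReal.ofReal a ≤ P (G j)) :
    P (⋂ j ∈ s, (G j)ᶜ) ≤ ENNReal.ofReal (Real.exp (-(s.card * a))) := by
  rw [prod_blocks P hA hi B (fun j => (G j)ᶜ) s (fun j hj => (hG j hj).compl) hd]
  have h1 : ∀ j ∈ s, P ((G j)ᶜ) ≤ ENNReal.ofReal (Real.exp (-a)) := by
    intro j hj
    have hm : MeasurableSet (G j) := sg_le hA _ _ (hG j hj)
    rw [prob_compl_eq_one_sub hm]
    have h2 : (1 : ENNReal) - P (G j) ≤ 1 - ENNReal.ofReal a := tsub_le_tsub_left (ha j hj) 1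
    refine h2.trans ?_
    rw [← ENNReal.ofReal_one, ← ENNReal.ofReal_sub 1 ha0]
    apply ENNReal.ofReal_le_ofReal
    have := Real.add_one_le_exp (-a)
    linarith
  refine (Finset.prod_le_prod' h1).trans ?_
  rw [Finset.prod_const, ← ENNReal.ofReal_pow (Real.exp_pos _).le, ← Real.exp_nat_mul]
  apply le_of_eq
  congr 2
  ring

end Pool.Agent.K4H77.Noise
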