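import Mathlib
import Pool.Agent.K4H77.NA

/-! Many independent windows: one of the rare events occurs. -/

set_option autoImplicit false

open MeasureTheory ProbabilityTheory Filter Finset

namespace Pool.Agent.K4H77.Noise

variable {Ω : Type*} [MeasurableSpace Ω]

theorem logsq_le_rpow (c δ : ℝ) (hδ : 0 < δ) :
    ∀ᶠ x : ℕ in atTop, 2 * (c * (Real.log x) ^ 2 + 1) ≤ (x : ℝ) ^ δ := by
  have h1 := (isLittleO_log_rpow_atTop (show (0 : ℝ) < δ / 2 by positivity)).comp_tendsto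
    (tendsto_natCast_atTop_atTop (R := ℝ))
  have h2 := h1.bound (show (0 : ℝ) < 1 / (2 * (|c| + 1)) by positivity)
  have h3 : Tendsto (fun x : ℕ => (x : ℝ) ^ δ) atTop atTop :=
    (tendsto_rpow_atTop hδ).comp (tendsto_natCast_atTop_atTop (R := ℝ))
  filter_upwards [h2, h3.eventually_ge_atTop 4, eventually_ge_atTop 1] with x h4 h5 h6
  have hx : (1 : ℝ) ≤ x := by exact_mod_cast h6
  simp only [Function.comp] at h4
  rw [Real.norm_of_nonneg (Real.log_nonneg hx), Real.norm_of_nonneg (by positivity)] at h4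
  have h7 : 0 ≤ Real.log x := Real.log_nonneg hx
  have h8 : (Real.log x) ^ 2 ≤ (1 / (2 * (|c| + 1))) ^ 2 * (x : ℝ) ^ δ := by
    calc (Real.log x) ^ 2 ≤ (1 / (2 * (|c| + 1)) * (x : ℝ) ^ (δ / 2)) ^ 2 := by gcongr
      _ = (1 / (2 * (|c| + 1))) ^ 2 * (x : ℝ) ^ δ := by
        rw [mul_pow, ← Real.rpow_natCast ((x : ℝ) ^ (δ / 2)) 2, ← Real.rpow_mul (by positivity)]
        congr 2
        push_cast; ring
  have h9 : c * (Real.log x) ^ 2 ≤ |c| * (Real.log x) ^ 2 :=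
    mul_le_mul_of_nonneg_right (le_abs_self c) (sq_nonneg _)
  have hc0 : 0 ≤ |c| := abs_nonneg c
  have h10 : |c| * ((1 / (2 * (|c| + 1))) ^ 2 * (x : ℝ) ^ δ) ≤ 1 / 4 * (x : ℝ) ^ δ := by
    rw [← mul_assoc]
    apply mul_le_mul_of_nonneg_right _ (by positivity)
    rw [div_pow, one_pow, mul_one_div, div_le_div_iff₀ (by positivity) (by norm_num)]
    nlinarith
  have h11 : |c| * (Real.log x) ^ 2 ≤ |c| * ((1 / (2 * (|c| + 1))) ^ 2 * (x : ℝ) ^ δ) := by gcongr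
  linarith

theorem exists_residue (F : Finset ℕ) (K : ℕ) (hK : 0 < K) :
    ∃ r < K, F.card ≤ K * (F.filter (fun n => n % K = r)).card := by
  by_contra hcon
  push Not at hcon
  have h1 : F.card = ∑ r ∈ Finset.range K, (F.filter (fun n => n % K = r)).card :=
    Finset.card_eq_sum_card_fiberwise (fun n _ => by simpa using Nat.mod_lt n hK)
  have h2 : ∑ r ∈ Finset.range K, K * (F.filter (fun n => n % K = r)).card <
      ∑ r ∈ Finset.range K, F.card :=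
    Finset.sum_lt_sum_of_nonempty ⟨0, Finset.mem_range.2 hK⟩
      (fun r hr => hcon r (Finset.mem_range.1 hr))
  rw [← Finset.mul_sum, ← h1, Finset.sum_const, Finset.card_range, smul_eq_mul] at h2
  exact lt_irrefl _ h2

theorem core (P : Measure Ω) [IsProbabilityMeasure P] {A : ℕ → Set Ω}
    (hA : ∀ n, MeasurableSet (A n)) (hi : iIndepSet A P) (W : ℕ → Prop) [DecidablePred W]
    (H : ℕ → ℕ) (G : ℕ → Set Ω) (σ : ℝ) (hσ0 : 0 ≤ σ) (c : ℝ) (hc : 0 ≤ c)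
    (hH : ∀ᶠ n : ℕ in atTop, (H n : ℝ) ≤ c * (Real.log n) ^ 2)
    (hG : ∀ n, MeasurableSet[sg A (Set.Icc n (n + H n))] (G n))
    (hP : ∀ᶠ n : ℕ in atTop, W n → ENNReal.ofReal ((n : ℝ) ^ (-σ)) ≤ P (G n))
    (hW : ∀ η : ℝ, 0 < η → ∀ᶠ x : ℕ in atTop, (x : ℝ) ^ (1 - η) ≤ (((Icc 1 x).filter W).card : ℝ))
    (θ : ℝ) (hθ0 : 0 < θ) (hθ : θ < 1) (η : ℝ) (hη : η < 1 - σ) :
    ∀ᶠ x : ℕ in atTop, P (⋂ n ∈ (Icc 1 x).filter (fun n => W n ∧ (x : ℝ) ^ θ < n), (G n)ᶜ) ≤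
      ENNReal.ofReal (Real.exp (-(x : ℝ) ^ η)) := by
  set δ := min ((1 - σ - η) / 2) ((1 - θ) / 2) with hδ
  have hδ0 : 0 < δ := lt_min (by linarith) (by linarith)
  have hδ1 : δ ≤ (1 - σ - η) / 2 := min_le_left _ _
  have hδ2 : δ ≤ (1 - θ) / 2 := min_le_right _ _
  have e1 := hW δ hδ0
  obtain ⟨n0, hn0⟩ := eventually_atTop.1 (hH.and hP)
  have e2 : ∀ᶠ x : ℕ in atTop, (n0 : ℝ) ≤ (x : ℝ) ^ θ :=
    ((tendsto_rpow_atTop hθ0).comp (tendsto_natCast_atTop_atTop (R := ℝ))).eventually_ge_atTop _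
  have e3 : ∀ᶠ x : ℕ in atTop, (2 : ℝ) ≤ (x : ℝ) ^ (1 - δ - θ) :=
    ((tendsto_rpow_atTop (by linarith)).comp (tendsto_natCast_atTop_atTop (R := ℝ))).eventually_ge_atTop _
  have e4 := logsq_le_rpow c δ hδ0
  filter_upwards [e1, e2, e3, e4, eventually_ge_atTop 1] with x h1 h2 h3 h4 h5
  have hx1 : (1 : ℝ) ≤ x := by exact_mod_cast h5
  have hx0 : (0 : ℝ) < x := by linarith
  set F := (Icc 1 x).filter (fun n => W n ∧ (x : ℝ) ^ θ < n) with hF
  set K : ℕ := ⌊c * (Real.log x) ^ 2⌋₊ + 1 with hK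
  have hKpos : 0 < K := Nat.succ_pos _
  have hKle : (K : ℝ) ≤ c * (Real.log x) ^ 2 + 1 := by
    rw [hK]; push_cast
    have := Nat.floor_le (show 0 ≤ c * (Real.log x) ^ 2 by positivity)
    linarith
  have hFcard : (x : ℝ) ^ (1 - δ) / 2 ≤ (F.card : ℝ) := by
    have a1 : (Icc 1 x).filter W ⊆ F ∪ (Icc 1 ⌊(x : ℝ) ^ θ⌋₊) := by
      intro n hn
      rw [Finset.mem_filter] at hn
      rw [Finset.mem_union]
      by_cases h : (x : ℝ) ^ θ < n
      · exact Or.inl (Finset.mem_filter.2 ⟨hn.1, hn.2, h⟩)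
      · refine Or.inr (Finset.mem_Icc.2 ⟨(Finset.mem_Icc.1 hn.1).1, Nat.le_floor ?_⟩)
        exact not_lt.1 h
    have a2 := Finset.card_le_card a1
    have a3 := a2.trans (Finset.card_union_le _ _)
    rw [Nat.card_Icc, Nat.add_sub_cancel] at a3
    have a4 : ((((Icc 1 x).filter W).card : ℕ) : ℝ) ≤ (F.card : ℝ) + (⌊(x : ℝ) ^ θ⌋₊ : ℕ) := by
      exact_mod_cast a3
    have a5 : ((⌊(x : ℝ) ^ θ⌋₊ : ℕ) : ℝ) ≤ (x : ℝ) ^ θ := Nat.floor_le (by positivity)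
    have a6 : 2 * (x : ℝ) ^ θ ≤ (x : ℝ) ^ (1 - δ) := by
      calc 2 * (x : ℝ) ^ θ ≤ (x : ℝ) ^ (1 - δ - θ) * (x : ℝ) ^ θ := by gcongr
        _ = (x : ℝ) ^ (1 - δ) := by
          rw [← Real.rpow_add hx0]; congr 1; ring
    linarith
  obtain ⟨r, -, hr⟩ := exists_residue F K hKpos
  set s := F.filter (fun n => n % K = r) with hs
  have hsF : s ⊆ F := Finset.filter_subset _ _
  have hmem : ∀ n ∈ s, n0 ≤ n ∧ n ≤ x ∧ 1 ≤ n ∧ W n := by
    intro n hn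
    have b1 := Finset.mem_filter.1 (hsF hn)
    have b2 := Finset.mem_Icc.1 b1.1
    refine ⟨?_, b2.2, b2.1, b1.2.1⟩
    have b3 : (n0 : ℝ) ≤ n := h2.trans b1.2.2.le
    exact_mod_cast b3
  have hHK : ∀ n ∈ s, H n < K := by
    intro n hn
    obtain ⟨b1, b2, b3, -⟩ := hmem n hn
    have b4 := (hn0 n b1).1
    have b5 : Real.log n ≤ Real.log x :=
      Real.log_le_log (by exact_mod_cast b3) (by exact_mod_cast b2)
    have b6 : 0 ≤ Real.log n := Real.log_nonneg (by exact_mod_cast b3)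
    have b7 : (H n : ℝ) ≤ c * (Real.log x) ^ 2 := b4.trans (by gcongr)
    exact Nat.lt_succ_of_le (Nat.le_floor b7)
  have hdis : ∀ i ∈ s, ∀ j ∈ s, i ≠ j → Disjoint (Set.Icc i (i + H i)) (Set.Icc j (j + H j)) := by
    have key : ∀ i ∈ s, ∀ j ∈ s, i < j → Disjoint (Set.Icc i (i + H i)) (Set.Icc j (j + H j)) := by
      intro i hi' j hj' hij
      rw [Set.disjoint_left]
      rintro m ⟨m1, m2⟩ ⟨m3, m4⟩
      have d1 := (Finset.mem_filter.1 hi').2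
      have d2 := (Finset.mem_filter.1 hj').2
      have d3 := hHK i hi'
      have d4 : i ≡ j [MOD K] := by unfold Nat.ModEq; rw [d1, d2]
      have d5 : K ∣ j - i := (Nat.modEq_iff_dvd' hij.le).1 d4
      have d6 := Nat.le_of_dvd (by omega) d5
      omega
    intro i hi' j hj' hij
    rcases lt_or_gt_of_ne hij with h | h
    · exact key i hi' j hj' h
    · exact (key j hj' i hi' h).symm
  have hprob := none_blocks P hA hi (fun n => Set.Icc n (n + H n)) G s (fun j _ => hG j) hdis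
    ((x : ℝ) ^ (-σ)) (by positivity) (by
      intro n hn
      obtain ⟨b1, b2, b3, b4⟩ := hmem n hn
      refine le_trans ?_ ((hn0 n b1).2 b4)
      apply ENNReal.ofReal_le_ofReal
      exact Real.rpow_le_rpow_of_nonpos (by exact_mod_cast b3) (by exact_mod_cast b2) (by linarith))
  have hsub : (⋂ n ∈ F, (G n)ᶜ) ⊆ ⋂ n ∈ s, (G n)ᶜ := by
    intro ω hω
    rw [Set.mem_iInter₂] at hω ⊢
    exact fun n hn => hω n (hsF hn)
  refine (measure_mono hsub).trans (hprob.trans ?_)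
  apply ENNReal.ofReal_le_ofReal
  apply Real.exp_le_exp.2
  apply neg_le_neg
  have hscard : (x : ℝ) ^ (1 - δ) / 2 ≤ K * (s.card : ℝ) := by
    refine hFcard.trans ?_
    exact_mod_cast hr
  have f1 : (x : ℝ) ^ (1 - δ) ≤ (x : ℝ) ^ δ * s.card := by
    have : 2 * (K : ℝ) ≤ (x : ℝ) ^ δ := by linarith
    calc (x : ℝ) ^ (1 - δ) = 2 * ((x : ℝ) ^ (1 - δ) / 2) := by ring
      _ ≤ 2 * (K * (s.card : ℝ)) := by gcongr
      _ = (2 * K) * s.card := by ring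
      _ ≤ (x : ℝ) ^ δ * s.card := by gcongr
  have f2 : (x : ℝ) ^ (1 - 2 * δ) ≤ s.card := by
    have : (x : ℝ) ^ (1 - 2 * δ) * (x : ℝ) ^ δ ≤ s.card * (x : ℝ) ^ δ := by
      rw [← Real.rpow_add hx0, show 1 - 2 * δ + δ = 1 - δ by ring, mul_comm (s.card : ℝ)]
      exact f1
    exact le_of_mul_le_mul_right this (by positivity)
  calc (x : ℝ) ^ η ≤ (x : ℝ) ^ (1 - 2 * δ + -σ) :=
        Real.rpow_le_rpow_of_exponent_le hx1 (by linarith)
    _ = (x : ℝ) ^ (1 - 2 * δ) * (x : ℝ) ^ (-σ) := by rw [Real.rpow_add hx0]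
    _ ≤ s.card * (x : ℝ) ^ (-σ) := by gcongr

theorem summable_exp (η : ℝ) (hη : 0 < η) : Summable (fun x : ℕ => Real.exp (-(x : ℝ) ^ η)) := by
  have h1 := (isLittleO_exp_neg_mul_rpow_atTop one_pos (-2 / η)).comp_tendsto
    ((tendsto_rpow_atTop hη).comp (tendsto_natCast_atTop_atTop (R := ℝ)))
  have h2 : Summable (fun x : ℕ => (x : ℝ) ^ (-2 : ℝ)) := by
    rw [Real.summable_nat_rpow]; norm_num
  apply summable_of_isBigO_nat h2
  refine (h1.isBigO.congr_left (fun x => ?_)).trans_eventuallyEq ?_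
  · simp [Function.comp]
  · filter_upwards [eventually_ge_atTop 1] with x hx
    simp only [Function.comp]
    rw [← Real.rpow_mul (by positivity)]
    congr 1
    field_simp

theorem ae_often (P : Measure Ω) [IsProbabilityMeasure P] {A : ℕ → Set Ω}
    (hA : ∀ n, MeasurableSet (A n)) (hi : iIndepSet A P) (W : ℕ → Prop)
    (H : ℕ → ℕ) (G : ℕ → Set Ω) (σ : ℝ) (hσ0 : 0 ≤ σ) (hσ1 : σ < 1) (c : ℝ) (hc : 0 ≤ c)
    (hH : ∀ᶠ n : ℕ in atTop, (H n : ℝ) ≤ c * (Real.log n) ^ 2)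
    (hG : ∀ n, MeasurableSet[sg A (Set.Icc n (n + H n))] (G n))
    (hP : ∀ᶠ n : ℕ in atTop, W n → ENNReal.ofReal ((n : ℝ) ^ (-σ)) ≤ P (G n))
    (hW : ∀ [DecidablePred W], ∀ η : ℝ, 0 < η → ∀ᶠ x : ℕ in atTop,
      (x : ℝ) ^ (1 - η) ≤ (((Icc 1 x).filter W).card : ℝ)) :
    ∀ᵐ ω ∂P, ∃ᶠ n in atTop, W n ∧ ω ∈ G n := by
  classical
  have hc1 := core P hA hi W H G σ hσ0 c hc hH hG hP hW (1 / 2) (by norm_num) (by norm_num)
    ((1 - σ) / 2) (by linarith)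
  set E : ℕ → Set Ω := fun x =>
    ⋂ n ∈ (Icc 1 x).filter (fun n => W n ∧ (x : ℝ) ^ (1 / 2 : ℝ) < n), (G n)ᶜ with hE
  obtain ⟨x0, hx0⟩ := eventually_atTop.1 hc1
  have hsum : (∑' x, P (E (x + x0))) ≠ ⊤ := by
    have h1 : ∀ x, P (E (x + x0)) ≤ ENNReal.ofReal (Real.exp (-((x + x0 : ℕ) : ℝ) ^ ((1 - σ) / 2))) :=
      fun x => hx0 (x + x0) (Nat.le_add_left _ _)
    have h2 := (summable_nat_add_iff x0).2 (summable_exp ((1 - σ) / 2) (by linarith))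
    exact ne_top_of_le_ne_top h2.tsum_ofReal_ne_top (ENNReal.tsum_le_tsum h1)
  have h3 := ae_eventually_notMem hsum
  filter_upwards [h3] with ω hω
  rw [Filter.frequently_atTop]
  intro N
  obtain ⟨x1, hx1⟩ := eventually_atTop.1 hω
  obtain ⟨x, hxa, hxb⟩ : ∃ x : ℕ, x1 ≤ x ∧ (N : ℝ) ≤ ((x + x0 : ℕ) : ℝ) ^ (1 / 2 : ℝ) := by
    refine ⟨max x1 (N * N), le_max_left _ _, ?_⟩
    rw [← Real.sqrt_eq_rpow]
    apply Real.le_sqrt_of_sq_le
    have : N * N ≤ max x1 (N * N) + x0 := (le_max_right _ _).trans (Nat.le_add_right _ _)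
    have h5 : ((N * N : ℕ) : ℝ) ≤ ((max x1 (N * N) + x0 : ℕ) : ℝ) := by exact_mod_cast this
    rw [sq]
    push_cast at h5 ⊢
    exact h5
  have h4 := hx1 x hxa
  rw [hE] at h4
  simp only [Set.mem_iInter, not_forall] at h4
  obtain ⟨n, hn, hn2⟩ := h4
  rw [Finset.mem_filter] at hn
  refine ⟨n, ?_, hn.2.1, ?_⟩
  · have : (N : ℝ) ≤ n := hxb.trans hn.2.2.le
    exact_mod_cast this
  · by_contra hcon
    exact hn2 hcon

end Pool.Agent.K4H77.Noise
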