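import Mathlib
import Pool.Agent.K4H77.NB

/-! Randomly displaced primes: the model, the probability that a window is missed, negative
correlation and the second moment method. -/

set_option autoImplicit false

open MeasureTheory ProbabilityTheory Filter Finset

namespace Pool.Agent.K4H77.Displ

variable {Ω : Type*} [MeasurableSpace Ω]

/-- `X p` is the new position of the prime `p`: the `X p` are independent, and `X p` is uniformly
distributed on the `2 w(p) + 1` integers of the interval `[p - w(p), p + w(p)]` -/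
structure Displaced (w : ℕ → ℕ) {Ω : Type*} [MeasurableSpace Ω] (P : Measure Ω)
    (X : ℕ → Ω → ℕ) : Prop where
  meas : ∀ p, Measurable (X p)
  indep : iIndepFun X P
  mem : ∀ p ω, X p ω ∈ Icc (p - w p) (p + w p)
  unif : ∀ p, ∀ t ∈ Icc (p - w p) (p + w p), P (X p ⁻¹' {t}) = ENNReal.ofReal (1 / (2 * w p + 1))

/-- the displaced primes -/
def dset {Ω : Type*} (X : ℕ → Ω → ℕ) (ω : Ω) : Set ℕ := {n | ∃ p : ℕ, p.Prime ∧ X p ω = n}

/-- no displaced prime lies in `U` -/
def miss {Ω : Type*} (X : ℕ → Ω → ℕ) (U : Finset ℕ) : Set Ω := {ω | ∀ p : ℕ, p.Prime → X p ω ∉ U}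

/-- the probability that `p` is moved into `U` -/
noncomputable def pr (w : ℕ → ℕ) (p : ℕ) (U : Finset ℕ) : ℝ :=
  ((U ∩ Icc (p - w p) (p + w p)).card : ℝ) / (2 * w p + 1)

section basic

variable {w : ℕ → ℕ}

theorem card_rg (hw : ∀ n, 4 * w n ≤ n) (p : ℕ) : (Icc (p - w p) (p + w p)).card = 2 * w p + 1 := by
  rw [Nat.card_Icc]
  have := hw p
  omega

theorem pr_nonneg (p : ℕ) (U : Finset ℕ) : 0 ≤ pr w p U := by
  unfold pr
  positivity

theorem pr_le_one (hw : ∀ n, 4 * w n ≤ n) (p : ℕ) (U : Finset ℕ) : pr w p U ≤ 1 := by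
  unfold pr
  rw [div_le_one (by positivity)]
  have h1 : (U ∩ Icc (p - w p) (p + w p)).card ≤ 2 * w p + 1 := by
    rw [← card_rg hw p]
    exact Finset.card_le_card Finset.inter_subset_right
  exact_mod_cast h1

theorem pr_le_card (p : ℕ) (U : Finset ℕ) : pr w p U ≤ U.card / (2 * w p + 1) := by
  unfold pr
  gcongr
  exact Finset.inter_subset_left

theorem pr_union (p : ℕ) {U V : Finset ℕ} (h : Disjoint U V) :
    pr w p (U ∪ V) = pr w p U + pr w p V := by
  unfold pr
  rw [Finset.union_inter_distrib_right, Finset.card_union_of_disjoint, Nat.cast_add, add_div]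
  exact Finset.disjoint_of_subset_left Finset.inter_subset_left
    (Finset.disjoint_of_subset_right Finset.inter_subset_left h)

theorem pr_eq_zero {p : ℕ} {U : Finset ℕ} (h : Disjoint U (Icc (p - w p) (p + w p))) :
    pr w p U = 0 := by
  unfold pr
  rw [Finset.disjoint_iff_inter_eq_empty.1 h]
  simp

theorem far (hw : ∀ n, 4 * w n ≤ n) {U : Finset ℕ} {N : ℕ} (hU : ∀ u ∈ U, u ≤ N) {p : ℕ}
    (hp : 2 * N < p) : Disjoint U (Icc (p - w p) (p + w p)) := by
  rw [Finset.disjoint_left]
  intro u hu hu2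
  have h1 := hU u hu
  rw [Finset.mem_Icc] at hu2
  have := hw p
  omega

variable {P : Measure Ω} [IsProbabilityMeasure P] {X : ℕ → Ω → ℕ}

theorem prob_in (hw : ∀ n, 4 * w n ≤ n) (hX : Displaced w P X) (p : ℕ) (U : Finset ℕ) :
    P.real (X p ⁻¹' (U : Set ℕ)) = pr w p U := by
  have h1 : X p ⁻¹' (U : Set ℕ) = X p ⁻¹' ((U ∩ Icc (p - w p) (p + w p) : Finset ℕ) : Set ℕ) := by
    ext ω
    simp only [Set.mem_preimage, Finset.mem_coe, Finset.mem_inter]
    exact ⟨fun h => ⟨h, hX.mem p ω⟩, fun h => h.1⟩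
  have h2 : P (X p ⁻¹' (U : Set ℕ)) = ENNReal.ofReal (pr w p U) := by
    rw [h1, ← sum_measure_preimage_singleton]
    · rw [Finset.sum_congr rfl (fun t ht => hX.unif p t (Finset.mem_inter.1 ht).2)]
      rw [Finset.sum_const, nsmul_eq_mul]
      unfold pr
      rw [← ENNReal.ofReal_natCast, ← ENNReal.ofReal_mul (by positivity)]
      congr 1
      ring
    · intro y _
      exact hX.meas p (measurableSet_singleton y)
  rw [Measure.real, h2, ENNReal.toReal_ofReal (pr_nonneg p U)]

theorem prob_out (hw : ∀ n, 4 * w n ≤ n) (hX : Displaced w P X) (p : ℕ) (U : Finset ℕ) :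
    P.real (X p ⁻¹' (U : Set ℕ)ᶜ) = 1 - pr w p U := by
  rw [Set.preimage_compl, probReal_compl_eq_one_sub, prob_in hw hX]
  exact hX.meas p U.measurableSet

omit [MeasurableSpace Ω] in
theorem miss_eq (hmem : ∀ p ω, X p ω ∈ Icc (p - w p) (p + w p)) {U : Finset ℕ} {M : ℕ}
    (hM : ∀ p : ℕ, p.Prime → M < p → Disjoint U (Icc (p - w p) (p + w p))) :
    miss X U = ⋂ p ∈ (Iic M).filter Nat.Prime, X p ⁻¹' (U : Set ℕ)ᶜ := by
  ext ω
  simp only [miss, Set.mem_setOf_eq, Set.mem_iInter, Finset.mem_filter, Finset.mem_Iic,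
    Set.mem_preimage, Set.mem_compl_iff, Finset.mem_coe]
  constructor
  · intro h p hp
    exact h p hp.2
  · intro h p hp
    by_cases hpM : p ≤ M
    · exact h p ⟨hpM, hp⟩
    · intro hu
      exact (Finset.disjoint_left.1 (hM p hp (by omega))) hu (hmem p ω)

theorem miss_meas (hw : ∀ n, 4 * w n ≤ n) (hX : Displaced w P X) (U : Finset ℕ) :
    MeasurableSet (miss X U) := by
  rw [miss_eq hX.mem (M := 2 * U.sup id) (fun p _ hp => far hw (fun u hu => Finset.le_sup (f := id) hu) hp)]
  apply Finset.measurableSet_biInter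
  intro p _
  exact hX.meas p U.measurableSet.compl

theorem prob_miss (hw : ∀ n, 4 * w n ≤ n) (hX : Displaced w P X) {U : Finset ℕ} {M : ℕ}
    (hM : ∀ p : ℕ, p.Prime → M < p → Disjoint U (Icc (p - w p) (p + w p))) :
    P.real (miss X U) = ∏ p ∈ (Iic M).filter Nat.Prime, (1 - pr w p U) := by
  rw [miss_eq hX.mem hM, Measure.real]
  rw [hX.indep.measure_inter_preimage_eq_mul _ (fun p _ => U.measurableSet.compl)]
  rw [ENNReal.toReal_prod]
  exact Finset.prod_congr rfl fun p _ => prob_out hw hX p U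

omit [MeasurableSpace Ω] in
theorem miss_union (U V : Finset ℕ) : miss X (U ∪ V) = miss X U ∩ miss X V := by
  ext ω
  simp only [miss, Set.mem_setOf_eq, Set.mem_inter_iff, Finset.mem_union, not_or]
  exact ⟨fun h => ⟨fun p hp => (h p hp).1, fun p hp => (h p hp).2⟩,
    fun h p hp => ⟨h.1 p hp, h.2 p hp⟩⟩

/-- missing disjoint windows is negatively correlated -/
theorem neg_corr (hw : ∀ n, 4 * w n ≤ n) (hX : Displaced w P X) {U V : Finset ℕ}
    (h : Disjoint U V) :
    P.real (miss X U ∩ miss X V) ≤ P.real (miss X U) * P.real (miss X V) := by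
  set N := (U ∪ V).sup id with hN
  have hU : ∀ u ∈ U, u ≤ N := fun u hu => Finset.le_sup (f := id) (Finset.mem_union_left _ hu)
  have hV : ∀ u ∈ V, u ≤ N := fun u hu => Finset.le_sup (f := id) (Finset.mem_union_right _ hu)
  have hUV : ∀ u ∈ U ∪ V, u ≤ N := fun u hu => Finset.le_sup (f := id) hu
  rw [← miss_union, prob_miss hw hX (M := 2 * N) (fun p _ hp => far hw hUV hp),
    prob_miss hw hX (M := 2 * N) (fun p _ hp => far hw hU hp),
    prob_miss hw hX (M := 2 * N) (fun p _ hp => far hw hV hp), ← Finset.prod_mul_distrib]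
  apply Finset.prod_le_prod
  · intro p _
    have := pr_le_one hw p (U ∪ V)
    linarith
  · intro p _
    rw [pr_union p h]
    nlinarith [mul_nonneg (pr_nonneg (w := w) p U) (pr_nonneg (w := w) p V)]

end basic

/-- the second moment method for pairwise negatively correlated events -/
theorem second_moment (P : Measure Ω) [IsProbabilityMeasure P] {ι : Type*} (s : Finset ι)
    (E : ι → Set Ω) (hE : ∀ i ∈ s, MeasurableSet (E i))
    (hneg : ∀ i ∈ s, ∀ j ∈ s, i ≠ j → P.real (E i ∩ E j) ≤ P.real (E i) * P.real (E j)) :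
    P.real (⋂ i ∈ s, (E i)ᶜ) * ∑ i ∈ s, P.real (E i) ≤ 1 := by
  classical
  set μ := ∑ i ∈ s, P.real (E i) with hμ
  have hμ0 : 0 ≤ μ := Finset.sum_nonneg fun i _ => measureReal_nonneg
  set A : Set Ω := ⋂ i ∈ s, (E i)ᶜ with hA
  have hAm : MeasurableSet A := Finset.measurableSet_biInter _ fun i hi => (hE i hi).compl
  set N : Ω → ℝ := fun ω => ∑ i ∈ s, (E i).indicator 1 ω with hN
  have hint1 : ∀ i ∈ s, Integrable (fun ω => (E i).indicator (1 : Ω → ℝ) ω) P := fun i hi =>
    (integrable_const (1 : ℝ)).indicator (hE i hi)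
  have hint2 : ∀ i ∈ s, ∀ j ∈ s,
      Integrable (fun ω => (E i ∩ E j).indicator (1 : Ω → ℝ) ω) P := fun i hi j hj =>
    (integrable_const (1 : ℝ)).indicator ((hE i hi).inter (hE j hj))
  have hNint : Integrable N P := integrable_finset_sum _ hint1
  have hN1 : ∫ ω, N ω ∂P = μ := by
    rw [hN, integral_finset_sum _ hint1]
    exact Finset.sum_congr rfl fun i hi => integral_indicator_one (hE i hi)
  have hsq : (fun ω => N ω ^ 2) = fun ω => ∑ i ∈ s, ∑ j ∈ s, (E i ∩ E j).indicator (1 : Ω → ℝ) ω := by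
    funext ω
    rw [hN]
    simp only
    rw [sq, Finset.sum_mul_sum]
    refine Finset.sum_congr rfl fun i _ => Finset.sum_congr rfl fun j _ => ?_
    rw [Set.inter_indicator_one]
    rfl
  have hN2int : Integrable (fun ω => N ω ^ 2) P := by
    rw [hsq]
    exact integrable_finset_sum _ fun i hi => integrable_finset_sum _ fun j hj => hint2 i hi j hj
  have hN2 : ∫ ω, N ω ^ 2 ∂P ≤ μ + μ ^ 2 := by
    rw [hsq, integral_finset_sum _ (fun i hi => integrable_finset_sum _ fun j hj => hint2 i hi j hj)]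
    have h1 : ∀ i ∈ s, ∫ ω, ∑ j ∈ s, (E i ∩ E j).indicator (1 : Ω → ℝ) ω ∂P ≤
        P.real (E i) + ∑ j ∈ s, P.real (E i) * P.real (E j) := by
      intro i hi
      rw [integral_finset_sum _ (hint2 i hi)]
      have h2 : ∀ j ∈ s, ∫ ω, (E i ∩ E j).indicator (1 : Ω → ℝ) ω ∂P ≤
          (if i = j then P.real (E i) else 0) + P.real (E i) * P.real (E j) := by
        intro j hj
        rw [integral_indicator_one ((hE i hi).inter (hE j hj))]
        split_ifs with hij
        · subst hij
          rw [Set.inter_self]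
          have : 0 ≤ P.real (E i) * P.real (E i) := by positivity
          linarith
        · rw [zero_add]
          exact hneg i hi j hj hij
      refine (Finset.sum_le_sum h2).trans ?_
      rw [Finset.sum_add_distrib, Finset.sum_ite_eq]
      rw [if_pos hi]
    refine (Finset.sum_le_sum h1).trans (le_of_eq ?_)
    rw [Finset.sum_add_distrib, sq]
    congr 1
    rw [hμ, Finset.sum_mul_sum]
  have hvar : ∫ ω, (N ω - μ) ^ 2 ∂P ≤ μ := by
    have e1 : (fun ω => (N ω - μ) ^ 2) = fun ω => N ω ^ 2 - 2 * μ * N ω + μ ^ 2 := by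
      funext ω; ring
    have e3 : ∫ ω, (N ω ^ 2 - 2 * μ * N ω + μ ^ 2) ∂P = ∫ ω, N ω ^ 2 ∂P - 2 * μ * μ + μ ^ 2 := by
      have i1 : Integrable (fun ω => 2 * μ * N ω) P := hNint.const_mul _
      have i2 : Integrable (fun ω => N ω ^ 2 - 2 * μ * N ω) P := hN2int.sub i1
      rw [integral_add (f := fun ω => N ω ^ 2 - 2 * μ * N ω) (g := fun _ => μ ^ 2) i2
        (integrable_const _), integral_sub (f := fun ω => N ω ^ 2) (g := fun ω => 2 * μ * N ω)
        hN2int i1, integral_const_mul, hN1, integral_const]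
      simp only [probReal_univ, one_smul]
    rw [e1, e3]
    nlinarith
  have hlow : μ ^ 2 * P.real A ≤ ∫ ω, (N ω - μ) ^ 2 ∂P := by
    have e2 : ∫ ω, A.indicator (fun _ => μ ^ 2) ω ∂P = μ ^ 2 * P.real A := by
      rw [integral_indicator hAm, setIntegral_const, smul_eq_mul, mul_comm]
    rw [← e2]
    apply integral_mono_of_nonneg
    · exact Filter.Eventually.of_forall fun ω => Set.indicator_nonneg (fun _ _ => sq_nonneg μ) ω
    · have e1 : (fun ω => (N ω - μ) ^ 2) = fun ω => N ω ^ 2 - 2 * μ * N ω + μ ^ 2 := by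
        funext ω; ring
      rw [e1]
      exact (hN2int.sub (hNint.const_mul _)).add (integrable_const _)
    · refine Filter.Eventually.of_forall fun ω => ?_
      by_cases hω : ω ∈ A
      · rw [Set.indicator_of_mem hω]
        have hN0 : N ω = 0 := by
          rw [hN]
          apply Finset.sum_eq_zero
          intro i hi
          apply Set.indicator_of_notMem
          exact (Set.mem_iInter₂.1 hω i hi)
        simp only [hN0]
        linarith [sq_nonneg μ, show (0 - μ) ^ 2 = μ ^ 2 by ring]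
      · rw [Set.indicator_of_notMem hω]
        positivity
  rcases hμ0.eq_or_lt with h | h
  · rw [← h, mul_zero]
    exact zero_le_one
  · have h1 : μ ^ 2 * P.real A ≤ μ := hlow.trans hvar
    have h2 : μ * (P.real A * μ) ≤ μ * 1 := by nlinarith
    exact le_of_mul_le_mul_left h2 h

end Pool.Agent.K4H77.Displ
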