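import Mathlib
import Pool.Agent.K4H77.DA

/-! Many disjoint windows: one of them is missed. -/

set_option autoImplicit false

open MeasureTheory ProbabilityTheory Filter Finset

namespace Pool.Agent.K4H77.Displ

open Pool.Agent.K4H77.Noise (logsq_le_rpow exists_residue)

variable {Ω : Type*} [MeasurableSpace Ω]

theorem core {w : ℕ → ℕ} (hw : ∀ n, 4 * w n ≤ n) (P : Measure Ω) [IsProbabilityMeasure P]
    {X : ℕ → Ω → ℕ} (hX : Displaced w P X) (W : ℕ → Prop) [DecidablePred W]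
    (K : ℕ → ℕ) (U : ℕ → Finset ℕ) (σ c : ℝ) (hσ0 : 0 ≤ σ) (hc : 0 ≤ c)
    (hK : ∀ᶠ n : ℕ in atTop, (K n : ℝ) ≤ c * (Real.log n) ^ 2)
    (hU : ∀ n, U n ⊆ Icc n (n + K n))
    (hP : ∀ᶠ n : ℕ in atTop, W n → (n : ℝ) ^ (-σ) ≤ P.real (miss X (U n)))
    (hW : ∀ η : ℝ, 0 < η → ∀ᶠ x : ℕ in atTop, (x : ℝ) ^ (1 - η) ≤ (((Icc 1 x).filter W).card : ℝ))
    (η : ℝ) (hη : η < 1 - σ) :
    ∀ᶠ x : ℕ in atTop, P.real (⋂ n ∈ (Icc 1 x).filter (fun n => W n ∧ (x : ℝ) ^ (1 / 2 : ℝ) < n),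
      (miss X (U n))ᶜ) ≤ (x : ℝ) ^ (-η) := by
  obtain ⟨θ, hθ'⟩ : ∃ θ : ℝ, θ = 1 / 2 := ⟨_, rfl⟩
  rw [← hθ']
  have hθ0 : 0 < θ := by rw [hθ']; norm_num
  have hθ : θ < 1 := by rw [hθ']; norm_num
  set δ := min ((1 - σ - η) / 2) ((1 - θ) / 2) with hδ
  have hδ0 : 0 < δ := lt_min (by linarith) (by linarith)
  have hδ1 : δ ≤ (1 - σ - η) / 2 := min_le_left _ _
  have hδ2 : δ ≤ (1 - θ) / 2 := min_le_right _ _
  have e1 := hW δ hδ0
  obtain ⟨n0, hn0⟩ := eventually_atTop.1 (hK.and hP)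
  have e2 : ∀ᶠ x : ℕ in atTop, (n0 : ℝ) ≤ (x : ℝ) ^ θ :=
    ((tendsto_rpow_atTop hθ0).comp (tendsto_natCast_atTop_atTop (R := ℝ))).eventually_ge_atTop _
  have hdt : 0 < 1 - δ - θ := by linarith
  have e3 : ∀ᶠ x : ℕ in atTop, (2 : ℝ) ≤ (x : ℝ) ^ (1 - δ - θ) :=
    ((tendsto_rpow_atTop hdt).comp (tendsto_natCast_atTop_atTop (R := ℝ))).eventually_ge_atTop _
  have e4 := logsq_le_rpow c δ hδ0
  filter_upwards [e1, e2, e3, e4, eventually_ge_atTop 1] with x h1 h2 h3 h4 h5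
  have hx1 : (1 : ℝ) ≤ x := by exact_mod_cast h5
  have hx0 : (0 : ℝ) < x := by linarith
  set F := (Icc 1 x).filter (fun n => W n ∧ (x : ℝ) ^ θ < n) with hF
  set L : ℕ := ⌊c * (Real.log x) ^ 2⌋₊ + 1 with hL
  have hLpos : 0 < L := Nat.succ_pos _
  have hLle : (L : ℝ) ≤ c * (Real.log x) ^ 2 + 1 := by
    rw [hL]; push_cast
    have := Nat.floor_le (show 0 ≤ c * (Real.log x) ^ 2 by positivity)
    linarith
  have hFcard : (x : ℝ) ^ (1 - δ) / 2 ≤ (F.card : ℝ) := by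
    have a1 : (Icc 1 x).filter W ⊆ F ∪ (Icc 1 ⌊(x : ℝ) ^ θ⌋₊) := by
      intro n hn
      rw [Finset.mem_filter] at hn
      rw [Finset.mem_union]
      by_cases h : (x : ℝ) ^ θ < n
      · exact Or.inl (Finset.mem_filter.2 ⟨hn.1, hn.2, h⟩)
      · refine Or.inr (Finset.mem_Icc.2 ⟨(Finset.mem_Icc.1 hn.1).1, Nat.le_floor ?_⟩)
        exact not_lt.1 h
    have a2 := Finset.card_le_card a1
    have a3 := a2.trans (Finset.card_union_le _ _)
    rw [Nat.card_Icc, Nat.add_sub_cancel] at a3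
    have a4 : ((((Icc 1 x).filter W).card : ℕ) : ℝ) ≤ (F.card : ℝ) + (⌊(x : ℝ) ^ θ⌋₊ : ℕ) := by
      exact_mod_cast a3
    have a5 : ((⌊(x : ℝ) ^ θ⌋₊ : ℕ) : ℝ) ≤ (x : ℝ) ^ θ := Nat.floor_le (by positivity)
    have a6 : 2 * (x : ℝ) ^ θ ≤ (x : ℝ) ^ (1 - δ) := by
      calc 2 * (x : ℝ) ^ θ ≤ (x : ℝ) ^ (1 - δ - θ) * (x : ℝ) ^ θ := by gcongr
        _ = (x : ℝ) ^ (1 - δ) := by
          rw [← Real.rpow_add hx0]; congr 1; ring
    linarith
  obtain ⟨r, -, hr⟩ := exists_residue F L hLpos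
  set s := F.filter (fun n => n % L = r) with hs
  have hsF : s ⊆ F := Finset.filter_subset _ _
  have hmem : ∀ n ∈ s, n0 ≤ n ∧ n ≤ x ∧ 1 ≤ n ∧ W n := by
    intro n hn
    have b1 := Finset.mem_filter.1 (hsF hn)
    have b2 := Finset.mem_Icc.1 b1.1
    refine ⟨?_, b2.2, b2.1, b1.2.1⟩
    have b3 : (n0 : ℝ) ≤ n := h2.trans b1.2.2.le
    exact_mod_cast b3
  have hKL : ∀ n ∈ s, K n < L := by
    intro n hn
    obtain ⟨b1, b2, b3, -⟩ := hmem n hn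
    have b4 := (hn0 n b1).1
    have b5 : Real.log n ≤ Real.log x :=
      Real.log_le_log (by exact_mod_cast b3) (by exact_mod_cast b2)
    have b6 : 0 ≤ Real.log n := Real.log_nonneg (by exact_mod_cast b3)
    have b7 : (K n : ℝ) ≤ c * (Real.log x) ^ 2 := b4.trans (by gcongr)
    exact Nat.lt_succ_of_le (Nat.le_floor b7)
  have hdis : ∀ i ∈ s, ∀ j ∈ s, i ≠ j → Disjoint (U i) (U j) := by
    have key : ∀ i ∈ s, ∀ j ∈ s, i < j → Disjoint (U i) (U j) := by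
      intro i hi' j hj' hij
      rw [Finset.disjoint_left]
      intro m m12 m34
      obtain ⟨m1, m2⟩ := Finset.mem_Icc.1 (hU i m12)
      obtain ⟨m3, m4⟩ := Finset.mem_Icc.1 (hU j m34)
      have d1 := (Finset.mem_filter.1 hi').2
      have d2 := (Finset.mem_filter.1 hj').2
      have d3 := hKL i hi'
      have d4 : i ≡ j [MOD L] := by unfold Nat.ModEq; rw [d1, d2]
      have d5 : L ∣ j - i := (Nat.modEq_iff_dvd' hij.le).1 d4
      have d6 := Nat.le_of_dvd (by omega) d5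
      omega
    intro i hi' j hj' hij
    rcases lt_or_gt_of_ne hij with h | h
    · exact key i hi' j hj' h
    · exact (key j hj' i hi' h).symm
  have hprob := second_moment P s (fun n => miss X (U n)) (fun n _ => miss_meas hw hX (U n))
    (fun i hi j hj hij => neg_corr hw hX (hdis i hi j hj hij))
  have hterm : ∀ n ∈ s, (x : ℝ) ^ (-σ) ≤ P.real (miss X (U n)) := by
    intro n hn
    obtain ⟨b1, b2, b3, b4⟩ := hmem n hn
    refine le_trans ?_ ((hn0 n b1).2 b4)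
    exact Real.rpow_le_rpow_of_nonpos (by exact_mod_cast b3) (by exact_mod_cast b2) (by linarith)
  have hsum : s.card * (x : ℝ) ^ (-σ) ≤ ∑ n ∈ s, P.real (miss X (U n)) := by
    rw [← nsmul_eq_mul, ← Finset.sum_const]
    exact Finset.sum_le_sum hterm
  have hsub : (⋂ n ∈ F, (miss X (U n))ᶜ) ⊆ ⋂ n ∈ s, (miss X (U n))ᶜ := by
    intro ω hω
    rw [Set.mem_iInter₂] at hω ⊢
    exact fun n hn => hω n (hsF hn)
  refine (measureReal_mono hsub).trans ?_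
  have hscard : (x : ℝ) ^ (1 - δ) / 2 ≤ L * (s.card : ℝ) := by
    refine hFcard.trans ?_
    exact_mod_cast hr
  have f1 : (x : ℝ) ^ (1 - δ) ≤ (x : ℝ) ^ δ * s.card := by
    have : 2 * (L : ℝ) ≤ (x : ℝ) ^ δ := by linarith
    calc (x : ℝ) ^ (1 - δ) = 2 * ((x : ℝ) ^ (1 - δ) / 2) := by ring
      _ ≤ 2 * (L * (s.card : ℝ)) := by gcongr
      _ = (2 * L) * s.card := by ring
      _ ≤ (x : ℝ) ^ δ * s.card := by gcongr
  have f2 : (x : ℝ) ^ (1 - 2 * δ) ≤ s.card := by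
    have : (x : ℝ) ^ (1 - 2 * δ) * (x : ℝ) ^ δ ≤ s.card * (x : ℝ) ^ δ := by
      rw [← Real.rpow_add hx0, show 1 - 2 * δ + δ = 1 - δ by ring, mul_comm (s.card : ℝ)]
      exact f1
    exact le_of_mul_le_mul_right this (by positivity)
  have f3 : (x : ℝ) ^ η ≤ ∑ n ∈ s, P.real (miss X (U n)) := by
    calc (x : ℝ) ^ η ≤ (x : ℝ) ^ (1 - 2 * δ + -σ) :=
          Real.rpow_le_rpow_of_exponent_le hx1 (by linarith)
      _ = (x : ℝ) ^ (1 - 2 * δ) * (x : ℝ) ^ (-σ) := by rw [Real.rpow_add hx0]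
      _ ≤ s.card * (x : ℝ) ^ (-σ) := by gcongr
      _ ≤ _ := hsum
  have hxη : 0 < (x : ℝ) ^ η := Real.rpow_pos_of_pos hx0 _
  rw [Real.rpow_neg hx0.le, ← one_div, le_div_iff₀ hxη]
  exact le_trans (mul_le_mul_of_nonneg_left f3 measureReal_nonneg) hprob

theorem ae_often {w : ℕ → ℕ} (hw : ∀ n, 4 * w n ≤ n) (P : Measure Ω) [IsProbabilityMeasure P]
    {X : ℕ → Ω → ℕ} (hX : Displaced w P X) (W : ℕ → Prop)
    (K : ℕ → ℕ) (U : ℕ → Finset ℕ) (σ c : ℝ) (hσ0 : 0 ≤ σ) (hσ1 : σ < 1) (hc : 0 ≤ c)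
    (hK : ∀ᶠ n : ℕ in atTop, (K n : ℝ) ≤ c * (Real.log n) ^ 2)
    (hU : ∀ n, U n ⊆ Icc n (n + K n))
    (hP : ∀ᶠ n : ℕ in atTop, W n → (n : ℝ) ^ (-σ) ≤ P.real (miss X (U n)))
    (hW : ∀ [DecidablePred W], ∀ η : ℝ, 0 < η → ∀ᶠ x : ℕ in atTop,
      (x : ℝ) ^ (1 - η) ≤ (((Icc 1 x).filter W).card : ℝ)) :
    ∀ᵐ ω ∂P, ∃ᶠ n in atTop, W n ∧ ω ∈ miss X (U n) := by
  classical
  set η := (1 - σ) / 2 with hη
  have hη0 : 0 < η := by rw [hη]; linarith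
  have hc1 := core hw P hX W K U σ c hσ0 hc hK hU hP hW η (by linarith)
  set E : ℕ → Set Ω := fun x =>
    ⋂ n ∈ (Icc 1 x).filter (fun n => W n ∧ (x : ℝ) ^ (1 / 2 : ℝ) < n), (miss X (U n))ᶜ with hE
  obtain ⟨x0, hx0⟩ := eventually_atTop.1 hc1
  have hpow : ∀ j : ℕ, x0 ≤ 2 ^ (j + x0) := fun j =>
    (Nat.lt_two_pow_self (n := x0)).le.trans (Nat.pow_le_pow_right (by norm_num) (by omega))
  have hsum : (∑' j : ℕ, P (E (2 ^ (j + x0)))) ≠ ⊤ := by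
    set r : ℝ := 2 ^ (-η) with hr
    have hr0 : 0 ≤ r := by positivity
    have hr1 : r < 1 := Real.rpow_lt_one_of_one_lt_of_neg (by norm_num) (by linarith)
    have h1 : ∀ j : ℕ, P (E (2 ^ (j + x0))) ≤ ENNReal.ofReal (r ^ (j + x0)) := by
      intro j
      rw [← ENNReal.ofReal_toReal (measure_ne_top P (E (2 ^ (j + x0))))]
      apply ENNReal.ofReal_le_ofReal
      refine (hx0 _ (hpow j)).trans (le_of_eq ?_)
      rw [hr, ← Real.rpow_natCast ((2 : ℝ) ^ (-η)), ← Real.rpow_mul (by norm_num)]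
      push_cast
      rw [← Real.rpow_natCast (2 : ℝ) (j + x0), ← Real.rpow_mul (by norm_num)]
      push_cast
      congr 1
      ring
    have h2 : Summable (fun j : ℕ => r ^ (j + x0)) :=
      (summable_nat_add_iff x0).2 (summable_geometric_of_lt_one hr0 hr1)
    exact ne_top_of_le_ne_top h2.tsum_ofReal_ne_top (ENNReal.tsum_le_tsum h1)
  filter_upwards [ae_eventually_notMem hsum] with ω hω
  rw [Filter.frequently_atTop]
  intro N
  obtain ⟨j1, hj1⟩ := eventually_atTop.1 hω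
  set j := max j1 (2 * N) with hj
  have h4 := hj1 j (le_max_left _ _)
  rw [hE] at h4
  simp only [Set.mem_iInter, not_forall] at h4
  obtain ⟨n, hn, hn2⟩ := h4
  rw [Finset.mem_filter] at hn
  refine ⟨n, ?_, hn.2.1, ?_⟩
  · have h5 : (N : ℝ) ≤ (((2 ^ (j + x0) : ℕ) : ℝ)) ^ (1 / 2 : ℝ) := by
      rw [← Real.sqrt_eq_rpow]
      apply Real.le_sqrt_of_sq_le
      have h6 : N ^ 2 ≤ 2 ^ (j + x0) := by
        calc N ^ 2 ≤ (2 ^ N) ^ 2 := Nat.pow_le_pow_left (Nat.lt_two_pow_self).le 2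
          _ = 2 ^ (2 * N) := by rw [← pow_mul]; congr 1; ring
          _ ≤ 2 ^ (j + x0) := Nat.pow_le_pow_right (by norm_num)
            ((le_max_right _ _).trans (Nat.le_add_right _ _))
      exact_mod_cast h6
    have : (N : ℝ) ≤ n := h5.trans hn.2.2.le
    exact_mod_cast this
  · by_contra hcon
    exact hn2 hcon

end Pool.Agent.K4H77.Displ
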