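import Mathlib
import Pool.Agent.K4H77.NB
import Pool.Agent.H510R2.Maier.MB9

/-! The random perturbation of the primes: probability of an empty window. -/

set_option autoImplicit false

open MeasureTheory ProbabilityTheory Filter Finset
open Pool.Agent.H510R2.Maier

namespace Pool.Agent.K4H77.Noise

/-- `κ / log n`, at most `1` (and `0` for `n ≤ 1`): the probability that `n` is inserted -/
noncomputable def ins (κ : ℝ) (n : ℕ) : ℝ := min 1 (κ / Real.log n)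

/-- the probability that `n` belongs to the random set: a prime `n` is deleted with probability
`exp (- ℓ n)`, afterwards every natural number `n` is inserted with probability `ins κ n` -/
noncomputable def prb (ℓ : ℕ → ℝ) (κ : ℝ) (n : ℕ) : ℝ :=
  if n.Prime then 1 - Real.exp (-ℓ n) * (1 - ins κ n) else ins κ n

/-- `A n` is the event that `n` belongs to the random set; these events are independent and have the
probabilities `prb ℓ κ n` -/
structure Perturbed (ℓ : ℕ → ℝ) (κ : ℝ) {Ω : Type*} [MeasurableSpace Ω] (P : Measure Ω)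
    (A : ℕ → Set Ω) : Prop where
  meas : ∀ n, MeasurableSet (A n)
  indep : iIndepSet A P
  prob : ∀ n, P (A n) = ENNReal.ofReal (prb ℓ κ n)

variable {Ω : Type*} [MeasurableSpace Ω]

theorem ins_nonneg {κ : ℝ} (hκ : 0 ≤ κ) (n : ℕ) : 0 ≤ ins κ n :=
  le_min zero_le_one (div_nonneg hκ (Real.log_natCast_nonneg n))

theorem ins_le_one (κ : ℝ) (n : ℕ) : ins κ n ≤ 1 := min_le_left _ _

theorem one_sub_prb (ℓ : ℕ → ℝ) (κ : ℝ) (n : ℕ) :
    1 - prb ℓ κ n = (if n.Prime then Real.exp (-ℓ n) else 1) * (1 - ins κ n) := by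
  unfold prb
  split_ifs <;> ring

theorem prb_le_one (ℓ : ℕ → ℝ) (κ : ℝ) (n : ℕ) : prb ℓ κ n ≤ 1 := by
  have h := one_sub_prb ℓ κ n
  have h1 := ins_le_one κ n
  have h2 := (Real.exp_pos (-ℓ n)).le
  have : 0 ≤ (if n.Prime then Real.exp (-ℓ n) else 1) * (1 - ins κ n) := by
    apply mul_nonneg _ (by linarith)
    split_ifs <;> linarith
  linarith

theorem ins_le_prb {ℓ : ℕ → ℝ} {κ : ℝ} (hℓ : ∀ n, 0 ≤ ℓ n) (n : ℕ) : ins κ n ≤ prb ℓ κ n := by
  have h := one_sub_prb ℓ κ n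
  have h1 := ins_le_one κ n
  have h2 : Real.exp (-ℓ n) ≤ 1 := Real.exp_le_one_iff.2 (by linarith [hℓ n])
  have : (if n.Prime then Real.exp (-ℓ n) else 1) * (1 - ins κ n) ≤ 1 * (1 - ins κ n) := by
    apply mul_le_mul_of_nonneg_right _ (by linarith)
    split_ifs <;> linarith
  linarith

theorem prb_nonneg {ℓ : ℕ → ℝ} {κ : ℝ} (hℓ : ∀ n, 0 ≤ ℓ n) (hκ : 0 ≤ κ) (n : ℕ) :
    0 ≤ prb ℓ κ n := (ins_nonneg hκ n).trans (ins_le_prb hℓ n)

theorem compl_prob {ℓ : ℕ → ℝ} {κ : ℝ} (hℓ : ∀ n, 0 ≤ ℓ n) (hκ : 0 ≤ κ) {P : Measure Ω}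
    [IsProbabilityMeasure P] {A : ℕ → Set Ω} (hA : Perturbed ℓ κ P A) (n : ℕ) :
    P ((A n)ᶜ) = ENNReal.ofReal (1 - prb ℓ κ n) := by
  rw [prob_compl_eq_one_sub (hA.meas n), hA.prob n, ENNReal.ofReal_sub, ENNReal.ofReal_one]
  exact prb_nonneg hℓ hκ n

/-- no element in `(n, n + H]` -/
def emp (A : ℕ → Set Ω) (n H : ℕ) : Set Ω := ⋂ h ∈ Icc 1 H, (A (n + h))ᶜ

omit [MeasurableSpace Ω] in
theorem emp_meas (A : ℕ → Set Ω) (n H : ℕ) (S : Set ℕ) (hS : ∀ h ∈ Icc 1 H, n + h ∈ S) :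
    MeasurableSet[sg A S] (emp A n H) := by
  unfold emp
  let _ : MeasurableSpace Ω := sg A S
  apply Finset.measurableSet_biInter
  intro h hh
  exact (sg_self A (hS h hh)).compl

theorem emp_prob {ℓ : ℕ → ℝ} {κ : ℝ} (hℓ : ∀ n, 0 ≤ ℓ n) (hκ : 0 ≤ κ) {P : Measure Ω}
    [IsProbabilityMeasure P] {A : ℕ → Set Ω} (hA : Perturbed ℓ κ P A) (n H : ℕ) :
    P (emp A n H) = ENNReal.ofReal (∏ h ∈ Icc 1 H, (1 - prb ℓ κ (n + h))) := by
  unfold emp
  rw [prod_blocks P hA.meas hA.indep (fun h => {n + h}) (fun h => (A (n + h))ᶜ) (Icc 1 H)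
    (fun h _ => (sg_self A (Set.mem_singleton _)).compl)]
  · rw [ENNReal.ofReal_prod_of_nonneg]
    · exact Finset.prod_congr rfl fun h _ => compl_prob hℓ hκ hA _
    · intro h _
      have := prb_le_one ℓ κ (n + h)
      linarith
  · intro i _ j _ hij
    rw [Set.disjoint_singleton]
    omega

theorem prod_one_sub (ℓ : ℕ → ℝ) (κ : ℝ) (n H : ℕ) (M : ℝ) (hM : ∀ h ∈ Icc 1 H, ℓ (n + h) ≤ M) :
    Real.exp (-(M * cnt n H)) * ∏ h ∈ Icc 1 H, (1 - ins κ (n + h)) ≤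
    ∏ h ∈ Icc 1 H, (1 - prb ℓ κ (n + h)) := by
  simp_rw [one_sub_prb]
  rw [Finset.prod_mul_distrib]
  apply mul_le_mul_of_nonneg_right
  · have h1 : Real.exp (-(M * cnt n H)) = ∏ h ∈ Icc 1 H, (if (n + h).Prime then Real.exp (-M) else 1) := by
      rw [← Finset.prod_filter, Finset.prod_const, ← Real.exp_nat_mul]
      congr 1
      unfold cnt
      ring
    rw [h1]
    apply Finset.prod_le_prod
    · intro h _
      split_ifs
      · exact (Real.exp_pos _).le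
      · exact zero_le_one
    · intro h hh
      split_ifs
      · exact Real.exp_le_exp.2 (neg_le_neg (hM h hh))
      · exact le_rfl
  · exact Finset.prod_nonneg fun h _ => by
      have := ins_le_one κ (n + h)
      linarith

theorem exp_le_one_sub {u : ℝ} (h0 : 0 ≤ u) (h1 : u ≤ 1 / 2) : Real.exp (-(u + 2 * u ^ 2)) ≤ 1 - u := by
  have h2 : 0 < 1 - u := by linarith
  rw [← Real.le_log_iff_exp_le h2]
  refine le_trans ?_ (Real.one_sub_inv_le_log_of_pos h2)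
  have h3 : (1 - u)⁻¹ ≤ 1 + u + 2 * u ^ 2 := by
    rw [inv_le_comm₀ h2 (by positivity), inv_eq_one_div, div_le_iff₀ (by positivity)]
    nlinarith [mul_nonneg h0 h0, mul_nonneg (mul_nonneg h0 h0) (show 0 ≤ 1 - 2 * u by linarith)]
  linarith

theorem prod_ins_ge {κ : ℝ} (hκ : 0 ≤ κ) : ∀ᶠ n : ℕ in atTop, ∀ m H : ℕ, n ≤ m →
    Real.exp (-(H * (κ / Real.log n) + 2 * H * (κ / Real.log n) ^ 2)) ≤
      ∏ h ∈ Icc 1 H, (1 - ins κ (m + h)) := by
  have t1 : Tendsto (fun n : ℕ => Real.log n) atTop atTop :=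
    Real.tendsto_log_atTop.comp (tendsto_natCast_atTop_atTop (R := ℝ))
  filter_upwards [t1.eventually_ge_atTop (2 * κ + 1), eventually_ge_atTop 2] with n h1 h2 m H hnm
  have hn : (2 : ℝ) ≤ n := by exact_mod_cast h2
  have hl : 0 < Real.log n := by linarith
  set u := κ / Real.log n with hu
  have hu0 : 0 ≤ u := by positivity
  have hu1 : u ≤ 1 / 2 := by
    rw [hu, div_le_iff₀ hl]; linarith
  have h3 : ∀ h ∈ Icc 1 H, Real.exp (-(u + 2 * u ^ 2)) ≤ 1 - ins κ (m + h) := by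
    intro h _
    refine (exp_le_one_sub hu0 hu1).trans ?_
    have h4 : Real.log n ≤ Real.log ((m + h : ℕ) : ℝ) :=
      Real.log_le_log (by linarith) (by exact_mod_cast hnm.trans (Nat.le_add_right m h))
    have h5 : ins κ (m + h) ≤ u := by
      refine (min_le_right _ _).trans ?_
      rw [hu]
      exact div_le_div_of_nonneg_left hκ hl h4
    linarith
  have h4 : ∏ _h ∈ Icc 1 H, Real.exp (-(u + 2 * u ^ 2)) ≤ ∏ h ∈ Icc 1 H, (1 - ins κ (m + h)) :=
    Finset.prod_le_prod (fun _ _ => (Real.exp_pos _).le) h3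
  refine le_trans ?_ h4
  rw [Finset.prod_const, Nat.card_Icc, Nat.add_sub_cancel, ← Real.exp_nat_mul]
  apply Real.exp_le_exp.2
  apply le_of_eq
  ring

/-- the probability of an empty window -/
theorem emp_ge {κ : ℝ} (hκ : 0 ≤ κ) :
    ∀ᶠ n : ℕ in atTop, ∀ (ℓ : ℕ → ℝ) (M : ℝ) (m H : ℕ), n ≤ m → (∀ h ∈ Icc 1 H, ℓ (m + h) ≤ M) →
    Real.exp (-(M * cnt m H + H * (κ / Real.log n) + 2 * H * (κ / Real.log n) ^ 2)) ≤
      ∏ h ∈ Icc 1 H, (1 - prb ℓ κ (m + h)) := by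
  filter_upwards [prod_ins_ge hκ] with n h1 ℓ M m H hnm hM
  refine le_trans ?_ (prod_one_sub ℓ κ m H M hM)
  calc Real.exp (-(M * cnt m H + H * (κ / Real.log n) + 2 * H * (κ / Real.log n) ^ 2))
      = Real.exp (-(M * cnt m H)) *
          Real.exp (-(H * (κ / Real.log n) + 2 * H * (κ / Real.log n) ^ 2)) := by
        rw [← Real.exp_add]; congr 1; ring
    _ ≤ _ := mul_le_mul_of_nonneg_left (h1 m H hnm) (Real.exp_pos _).le

/-- constant deletion probability: a window of length at most `c (log n)^2` with at most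
`κ₁ log n` primes -/
theorem emp_ge_const {lam κ κ₁ c : ℝ} (hlam : 0 ≤ lam) (hκ : 0 ≤ κ) (hc : 0 ≤ c) :
    ∀ᶠ n : ℕ in atTop, ∀ H : ℕ, (H : ℝ) ≤ c * (Real.log n) ^ 2 → (cnt n H : ℝ) ≤ κ₁ * Real.log n →
    Real.exp (-((κ₁ * lam + c * κ) * Real.log n + 2 * c * κ ^ 2)) ≤
      ∏ h ∈ Icc 1 H, (1 - prb (fun _ => lam) κ (n + h)) := by
  have t1 : Tendsto (fun n : ℕ => Real.log n) atTop atTop :=
    Real.tendsto_log_atTop.comp (tendsto_natCast_atTop_atTop (R := ℝ))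
  filter_upwards [emp_ge hκ, t1.eventually_ge_atTop 1] with n h1 h2 H hH hcnt
  refine le_trans ?_ (h1 (fun _ => lam) lam n H le_rfl (fun _ _ => le_rfl))
  apply Real.exp_le_exp.2
  apply neg_le_neg
  have hl : 0 < Real.log n := by linarith
  have h3 : lam * cnt n H ≤ lam * (κ₁ * Real.log n) := by gcongr
  have h4 : (H : ℝ) * (κ / Real.log n) ≤ c * (Real.log n) ^ 2 * (κ / Real.log n) := by gcongr
  have h5 : c * (Real.log n) ^ 2 * (κ / Real.log n) = c * κ * Real.log n := by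
    field_simp
  have h6 : 2 * (H : ℝ) * (κ / Real.log n) ^ 2 ≤ 2 * (c * (Real.log n) ^ 2) * (κ / Real.log n) ^ 2 := by
    gcongr
  have h7 : 2 * (c * (Real.log n) ^ 2) * (κ / Real.log n) ^ 2 = 2 * c * κ ^ 2 := by
    field_simp
  linarith

end Pool.Agent.K4H77.Noise
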