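import Mathlib
import Pool.Agent.K4H77.NC

/-! The random perturbation of the primes: long empty windows occur, very long ones do not. -/

set_option autoImplicit false

open MeasureTheory ProbabilityTheory Filter Finset
open Pool.Agent.H510R2.Maier

namespace Pool.Agent.K4H77.Noise

variable {Ω : Type*} [MeasurableSpace Ω]

/-- the cost of an empty window of length `(log n)^2`, in units of `log n` -/
noncomputable def cost (lam κ : ℝ) : ℝ :=
  κ + Real.exp Real.eulerMascheroniConstant / 2 * lam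

theorem cost_nonneg {lam κ : ℝ} (hlam : 0 ≤ lam) (hκ : 0 ≤ κ) : 0 ≤ cost lam κ := by
  unfold cost
  positivity

theorem cost_pos {lam κ : ℝ} (hlam : 0 ≤ lam) (hκ : 0 ≤ κ) (h : 0 < lam ∨ 0 < κ) :
    0 < cost lam κ := by
  unfold cost
  rcases h with h | h <;> positivity

/-- the starts of the windows with few primes -/
def Wn (κ₁ c : ℝ) (n : ℕ) : Prop :=
  (cnt n ⌊c * (Real.log n) ^ 2⌋₊ : ℝ) ≤ κ₁ * Real.log n

theorem Wn_many (κ₁ c : ℝ) (hκ₁ : 0 < κ₁)
    (hc : c < 2 * Real.exp (-Real.eulerMascheroniConstant) * κ₁) [DecidablePred (Wn κ₁ c)]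
    (η : ℝ) (hη : 0 < η) :
    ∀ᶠ x : ℕ in atTop, (x : ℝ) ^ (1 - η) ≤ (((Icc 1 x).filter (Wn κ₁ c)).card : ℝ) := by
  filter_upwards [G.few_freq κ₁ c η hκ₁ hc hη] with x hx
  refine hx.trans (le_of_eq ?_)
  unfold G.NF
  norm_cast
  congr 1
  apply Finset.filter_congr
  intro n _
  unfold Wn
  rw [cntP_prime]

/-- choice of the parameters -/
theorem params {lam κ c : ℝ} (hlam : 0 ≤ lam) (hc0 : 0 < c) {τ : ℝ}
    (hc : c * cost lam κ < τ) : ∃ κ₁ : ℝ, 0 < κ₁ ∧
      c < 2 * Real.exp (-Real.eulerMascheroniConstant) * κ₁ ∧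
      κ₁ * lam + c * κ < τ := by
  set E := Real.exp Real.eulerMascheroniConstant with hE
  have hE0 : 0 < E := Real.exp_pos _
  have hEi : Real.exp (-Real.eulerMascheroniConstant) = 1 / E := by
    rw [Real.exp_neg, one_div]
  have hcost : c * cost lam κ = c * κ + c * E / 2 * lam := by
    unfold cost; ring
  rw [hcost] at hc
  set ε := (τ - (c * κ + c * E / 2 * lam)) / (2 * (lam + 1)) with hε
  have hε0 : 0 < ε := div_pos (by linarith) (by positivity)
  have hε1 : ε * (2 * (lam + 1)) = τ - (c * κ + c * E / 2 * lam) := by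
    rw [hε]; field_simp
  refine ⟨c * E / 2 + ε, by positivity, ?_, ?_⟩
  · rw [hEi]
    have : 2 * (1 / E) * (c * E / 2 + ε) = c + 2 * ε / E := by field_simp
    rw [this]
    have : 0 < 2 * ε / E := by positivity
    linarith
  · nlinarith

theorem floor_le_logsq {c : ℝ} (hc : 0 ≤ c) (n : ℕ) :
    ((⌊c * (Real.log n) ^ 2⌋₊ : ℕ) : ℝ) ≤ c * (Real.log n) ^ 2 := Nat.floor_le (by positivity)

/-- `exp(-(a log n + b)) ≥ n^{-σ}`, with a factor `(log n)^2` to spare -/
theorem rpow_le_exp {a b σ k : ℝ} (hk : 0 < k) (h : a < σ) : ∀ᶠ n : ℕ in atTop,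
    (n : ℝ) ^ (-σ) ≤ Real.exp (-(a * Real.log n + b)) ∧
    (n : ℝ) ^ (-σ) ≤ Real.exp (-(a * Real.log n + b)) * (k / Real.log n) ^ 2 := by
  have t1 : Tendsto (fun n : ℕ => Real.log n) atTop atTop :=
    Real.tendsto_log_atTop.comp (tendsto_natCast_atTop_atTop (R := ℝ))
  have t2 : ∀ᶠ L : ℝ in atTop, b ≤ (σ - a) * L :=
    (tendsto_id.const_mul_atTop (show 0 < σ - a by linarith)).eventually_ge_atTop b
  have t3 : ∀ᶠ L : ℝ in atTop, Real.exp (-((σ - a) * L)) * (Real.exp b * (L / k) ^ 2) ≤ 1 := by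
    have h1 := Real.tendsto_pow_mul_exp_neg_atTop_nhds_zero 2
    have h2 := h1.comp (tendsto_id.const_mul_atTop (show 0 < σ - a by linarith))
    have h3 := h2.const_mul (Real.exp b / ((σ - a) * k) ^ 2)
    rw [mul_zero] at h3
    filter_upwards [h3.eventually_le_const (show (0 : ℝ) < 1 by norm_num)] with L hL
    refine le_trans (le_of_eq ?_) hL
    simp only [Function.comp, id]
    have : σ - a ≠ 0 := by linarith
    field_simp
  filter_upwards [t1.eventually t2, t1.eventually t3, t1.eventually_gt_atTop 0,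
    eventually_ge_atTop 1] with n h1 h2 h3 h4
  have hn : (0 : ℝ) < n := by exact_mod_cast h4
  have e1 : (n : ℝ) ^ (-σ) = Real.exp (-(a * Real.log n + b)) *
      (Real.exp (-((σ - a) * Real.log n)) * Real.exp b) := by
    rw [Real.rpow_def_of_pos hn, ← Real.exp_add, ← Real.exp_add]
    congr 1; ring
  constructor
  · rw [e1]
    have : Real.exp (-((σ - a) * Real.log n)) * Real.exp b ≤ 1 := by
      rw [← Real.exp_add]
      apply Real.exp_le_one_iff.2
      linarith
    calc _ ≤ Real.exp (-(a * Real.log n + b)) * 1 := by gcongr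
      _ = _ := mul_one _
  · rw [e1]
    gcongr
    have h5 : 0 < (k / Real.log n) ^ 2 := by positivity
    have h6 : Real.exp (-((σ - a) * Real.log n)) * (Real.exp b * (Real.log n / k) ^ 2) *
        (k / Real.log n) ^ 2 ≤ 1 * (k / Real.log n) ^ 2 := by gcongr
    rw [one_mul] at h6
    refine le_trans (le_of_eq ?_) h6
    field_simp

/-- infinitely many empty windows -/
theorem windows {lam κ c : ℝ} (hlam : 0 ≤ lam) (hκ : 0 ≤ κ) (hc0 : 0 < c)
    (hc : c * cost lam κ < 1) (P : Measure Ω) [IsProbabilityMeasure P] {A : ℕ → Set Ω}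
    (hA : Perturbed (fun _ => lam) κ P A) :
    ∀ᵐ ω ∂P, ∃ᶠ n : ℕ in atTop, ω ∈ emp A n ⌊c * (Real.log n) ^ 2⌋₊ := by
  classical
  obtain ⟨κ₁, h1, h2, h3⟩ := params hlam hc0 hc
  obtain ⟨σ, h4, h5⟩ := exists_between (max_lt h3 one_pos)
  have h6 : 0 < σ := (le_max_right _ _).trans_lt h4
  have h7 := (le_max_left _ _).trans_lt h4
  have key := ae_often P hA.meas hA.indep (Wn κ₁ c) (fun n => ⌊c * (Real.log n) ^ 2⌋₊)
    (fun n => emp A n ⌊c * (Real.log n) ^ 2⌋₊) σ h6.le h5 c hc0.le
    (Eventually.of_forall fun n => floor_le_logsq hc0.le n)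
    (fun n => emp_meas A n _ _ (fun h hh => by
      rw [Finset.mem_Icc] at hh
      exact ⟨by omega, by omega⟩))
    (by
      filter_upwards [emp_ge_const (κ₁ := κ₁) hlam hκ hc0.le,
        rpow_le_exp (b := 2 * c * κ ^ 2) one_pos h7] with n h8 h9 h10
      rw [emp_prob (fun _ => hlam) hκ hA]
      apply ENNReal.ofReal_le_ofReal
      exact h9.1.trans (h8 _ (floor_le_logsq hc0.le n) h10))
    (fun η hη => Wn_many κ₁ c h1 h2 η hη)
  filter_upwards [key] with ω hω
  exact hω.mono fun n hn => hn.2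

/-- the probability that there is no empty window of length `c (log x)^2` up to `x` -/
theorem windows_prob {lam κ c η : ℝ} (hlam : 0 ≤ lam) (hκ : 0 ≤ κ) (hc0 : 0 < c)
    (hc : η < 1 - c * cost lam κ) (P : Measure Ω) [IsProbabilityMeasure P] {A : ℕ → Set Ω}
    (hA : Perturbed (fun _ => lam) κ P A) :
    ∀ᶠ x : ℕ in atTop,
      P {ω | ¬ ∃ n ≤ x, ∀ m : ℕ, n < m → (m : ℝ) ≤ n + c * (Real.log x) ^ 2 → ω ∉ A m} ≤
        ENNReal.ofReal (Real.exp (-(x : ℝ) ^ η)) := by
  classical
  have hcost := cost_nonneg hlam hκ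
  -- choose `θ < 1` and `c' = c / θ²`
  obtain ⟨θ, hθ0, hθ1, hθ⟩ : ∃ θ : ℝ, 0 < θ ∧ θ < 1 ∧ c / θ ^ 2 * cost lam κ < 1 - η := by
    have h1 : Tendsto (fun θ : ℝ => c / θ ^ 2 * cost lam κ) (nhdsWithin 1 (Set.Iio 1))
        (nhds (c / 1 ^ 2 * cost lam κ)) := by
      apply Tendsto.mono_left _ nhdsWithin_le_nhds
      apply Tendsto.mul_const
      apply Tendsto.div tendsto_const_nhds
      · exact (continuous_pow 2).tendsto 1
      · norm_num
    have h2 : c / 1 ^ 2 * cost lam κ < 1 - η := by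
      rw [one_pow, div_one]; linarith
    have h3 := h1.eventually_lt_const h2
    have h4 : ∀ᶠ θ : ℝ in nhdsWithin 1 (Set.Iio 1), 0 < θ :=
      nhdsWithin_le_nhds (lt_mem_nhds one_pos)
    obtain ⟨θ, h5, h6, h7⟩ := (h3.and (h4.and self_mem_nhdsWithin)).exists
    exact ⟨θ, h6, h7, h5⟩
  set c' := c / θ ^ 2 with hc'
  have hc'0 : 0 < c' := by positivity
  obtain ⟨κ₁, h1, h2, h3⟩ := params hlam hc'0 hθ
  obtain ⟨σ, h4, h5⟩ := exists_between h3
  rcases le_or_gt σ 0 with hσ | h6
  · -- the cost would be negative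
    exfalso
    have : 0 ≤ κ₁ * lam + c' * κ := by
            positivity
    linarith
  have key := core P hA.meas hA.indep (Wn κ₁ c') (fun n => ⌊c' * (Real.log n) ^ 2⌋₊)
    (fun n => emp A n ⌊c' * (Real.log n) ^ 2⌋₊) σ h6.le c' hc'0.le
    (Eventually.of_forall fun n => floor_le_logsq hc'0.le n)
    (fun n => emp_meas A n _ _ (fun h hh => by
      rw [Finset.mem_Icc] at hh
      exact ⟨by omega, by omega⟩))
    (by
      filter_upwards [emp_ge_const (κ₁ := κ₁) hlam hκ hc'0.le,
        rpow_le_exp (b := 2 * c' * κ ^ 2) one_pos h4] with n h8 h9 h10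
      rw [emp_prob (fun _ => hlam) hκ hA]
      apply ENNReal.ofReal_le_ofReal
      exact h9.1.trans (h8 _ (floor_le_logsq hc'0.le n) h10))
    (fun η hη => Wn_many κ₁ c' h1 h2 η hη) θ hθ0 hθ1 η (by linarith)
  filter_upwards [key, eventually_ge_atTop 1] with x hx hx1
  refine le_trans (measure_mono ?_) hx
  intro ω hω
  rw [Set.mem_iInter₂]
  intro n hn hcon
  apply hω
  rw [Finset.mem_filter, Finset.mem_Icc] at hn
  refine ⟨n, hn.1.2, fun m hm1 hm2 => ?_⟩
  have hx1' : (1 : ℝ) ≤ x := by exact_mod_cast hx1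
  have hlogn : θ * Real.log x ≤ Real.log n := by
    rw [← Real.log_rpow (by linarith)]
    exact Real.log_le_log (by positivity) hn.2.2.le
  have hlogx : 0 ≤ Real.log x := Real.log_nonneg hx1'
  have h8 : c * (Real.log x) ^ 2 ≤ c' * (Real.log n) ^ 2 := by
    calc c * (Real.log x) ^ 2 = c' * (θ * Real.log x) ^ 2 := by
          rw [hc']; field_simp
      _ ≤ c' * (Real.log n) ^ 2 := by gcongr
  have h9 : m - n ≤ ⌊c' * (Real.log n) ^ 2⌋₊ := by
    apply Nat.le_floor
    rw [Nat.cast_sub hm1.le]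
    linarith
  have h10 := Set.mem_iInter₂.1 hcon (m - n) (Finset.mem_Icc.2 ⟨by omega, h9⟩)
  rwa [show n + (m - n) = m by omega] at h10

/-- infinitely many gaps close to `c (log n)^2` -/
theorem windows_ends {lam κ c : ℝ} (hlam : 0 ≤ lam) (hκ : 0 < κ) (hc0 : 0 < c)
    (hc : c * cost lam κ < 1) (P : Measure Ω) [IsProbabilityMeasure P] {A : ℕ → Set Ω}
    (hA : Perturbed (fun _ => lam) κ P A) :
    ∀ᵐ ω ∂P, ∃ᶠ n : ℕ in atTop, ω ∈ A n ∧ ω ∈ emp A n ⌊c * (Real.log n) ^ 2⌋₊ ∧
      ω ∈ A (n + (⌊c * (Real.log n) ^ 2⌋₊ + 1)) := by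
  classical
  obtain ⟨κ₁, h1, h2, h3⟩ := params hlam hc0 hc
  obtain ⟨σ, h4, h5⟩ := exists_between (max_lt h3 one_pos)
  have h6 : 0 < σ := (le_max_right _ _).trans_lt h4
  have h7 := (le_max_left _ _).trans_lt h4
  set H : ℕ → ℕ := fun n => ⌊c * (Real.log n) ^ 2⌋₊ with hH
  have t1 : Tendsto (fun n : ℕ => Real.log n) atTop atTop :=
    Real.tendsto_log_atTop.comp (tendsto_natCast_atTop_atTop (R := ℝ))
  have key := ae_often P hA.meas hA.indep (Wn κ₁ c) (fun n => H n + 1)
    (fun n => A n ∩ emp A n (H n) ∩ A (n + (H n + 1))) σ h6.le h5 (c + 1) (by linarith)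
    (by
      filter_upwards [t1.eventually_ge_atTop 1] with n hn
      push_cast
      have := floor_le_logsq hc0.le n
      nlinarith)
    (fun n => by
      refine @MeasurableSet.inter _ (sg A (Set.Icc n (n + (H n + 1)))) _ _
        (@MeasurableSet.inter _ (sg A (Set.Icc n (n + (H n + 1)))) _ _ (sg_self A ⟨le_rfl, by omega⟩)
          (emp_meas A n _ _ (fun h hh => by
            rw [Finset.mem_Icc] at hh
            exact ⟨by omega, by omega⟩))) (sg_self A ⟨by omega, le_rfl⟩))
    (by
      have e1 : ∀ᶠ n : ℕ in atTop, Real.log ((n + (H n + 1) : ℕ) : ℝ) ≤ 2 * Real.log n := by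
        filter_upwards [logsq_le_rpow (c + 1) 1 one_pos, t1.eventually_ge_atTop 1,
          eventually_ge_atTop 2] with n e2 e3 e4
        have hn : (2 : ℝ) ≤ n := by exact_mod_cast e4
        rw [Real.rpow_one] at e2
        have e5 := floor_le_logsq hc0.le n
        have e6 : ((n + (H n + 1) : ℕ) : ℝ) ≤ (n : ℝ) ^ 2 := by
          push_cast
          have : (H n : ℝ) ≤ c * (Real.log n) ^ 2 := e5
          nlinarith [sq_nonneg (Real.log n)]
        calc Real.log ((n + (H n + 1) : ℕ) : ℝ) ≤ Real.log ((n : ℝ) ^ 2) := by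
              apply Real.log_le_log _ e6
              push_cast; positivity
          _ = 2 * Real.log n := by rw [Real.log_pow]; norm_num
      filter_upwards [emp_ge_const (κ₁ := κ₁) hlam hκ.le hc0.le,
        rpow_le_exp (b := 2 * c * κ ^ 2) (show 0 < κ / 2 by positivity) h7, e1,
        t1.eventually_ge_atTop (κ + 1), eventually_ge_atTop 2] with n h8 h9 h10 h11 hn2 h12
      have hn2' : (2 : ℝ) ≤ n := by exact_mod_cast hn2
      have hl : 0 < Real.log n := by linarith
      have hp : P (A n ∩ emp A n (H n) ∩ A (n + (H n + 1))) =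
          P (A n) * P (emp A n (H n)) * P (A (n + (H n + 1))) := by
        have h13 := prod_blocks P hA.meas hA.indep
          (fun i : Fin 3 => if i = 0 then {n} else if i = 1 then Set.Icc (n + 1) (n + H n) else
            {n + (H n + 1)})
          (fun i : Fin 3 => if i = 0 then A n else if i = 1 then emp A n (H n) else
            A (n + (H n + 1))) Finset.univ
          (by
            intro i _
            fin_cases i
            · simpa using sg_self A (Set.mem_singleton n)
            · simpa using emp_meas A n (H n) (Set.Icc (n + 1) (n + H n)) (fun h hh => by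
                rw [Finset.mem_Icc] at hh
                exact ⟨by omega, by omega⟩)
            · simpa using sg_self A (Set.mem_singleton (n + (H n + 1))))
          (by
            intro i _ j _ hij
            rw [Set.disjoint_left]
            intro m hm1 hm2
            fin_cases i <;> fin_cases j <;> simp at hij hm1 hm2 <;> omega)
        rw [Fin.prod_univ_three] at h13
        have h14 : (⋂ j ∈ (Finset.univ : Finset (Fin 3)), (fun i : Fin 3 => if i = 0 then A n else
            if i = 1 then emp A n (H n) else A (n + (H n + 1))) j) =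
            A n ∩ emp A n (H n) ∩ A (n + (H n + 1)) := by
          ext ω
          simp only [Set.mem_iInter, Finset.mem_univ, true_implies, Set.mem_inter_iff]
          rw [Fin.forall_fin_succ, Fin.forall_fin_two]
          simp [and_assoc]
        rw [h14] at h13
        simpa using h13
      rw [hp, emp_prob (fun _ => hlam) hκ.le hA, hA.prob, hA.prob, ← ENNReal.ofReal_mul, ← ENNReal.ofReal_mul]
      · apply ENNReal.ofReal_le_ofReal
        have i1 : κ / 2 / Real.log n ≤ prb (fun _ => lam) κ n := by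
          refine le_trans ?_ (ins_le_prb (fun _ => hlam) n)
          apply le_min
          · rw [div_le_one hl]; linarith
          · gcongr; linarith
        have i2 : κ / 2 / Real.log n ≤ prb (fun _ => lam) κ (n + (H n + 1)) := by
          refine le_trans ?_ (ins_le_prb (fun _ => hlam) _)
          have hl2 : 0 < Real.log ((n + (H n + 1) : ℕ) : ℝ) := by
            apply Real.log_pos
            push_cast
            have : (0 : ℝ) ≤ H n := Nat.cast_nonneg _
            linarith
          apply le_min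
          · rw [div_le_one hl]; linarith
          · rw [div_div]
            exact div_le_div_of_nonneg_left hκ.le hl2 h10
        have i3 := h8 (H n) (floor_le_logsq hc0.le n) h12
        have i4 : 0 < κ / 2 / Real.log n := by positivity
        refine h9.2.trans ?_
        calc Real.exp (-((κ₁ * lam + c * κ) * Real.log n + 2 * c * κ ^ 2)) *
              (κ / 2 / Real.log n) ^ 2
            = (κ / 2 / Real.log n) * Real.exp (-((κ₁ * lam + c * κ) * Real.log n + 2 * c * κ ^ 2)) *
              (κ / 2 / Real.log n) := by ring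
          _ ≤ _ := mul_le_mul (mul_le_mul i1 i3 (Real.exp_pos _).le (i4.le.trans i1)) i2 i4.le
                (mul_nonneg (i4.le.trans i1) ((Real.exp_pos _).le.trans i3))
      · exact mul_nonneg ((ins_nonneg hκ.le _).trans (ins_le_prb (fun _ => hlam) _))
          (Finset.prod_nonneg fun h _ => by
            have := prb_le_one (fun _ => lam) κ (n + h)
            linarith)
      · exact (ins_nonneg hκ.le _).trans (ins_le_prb (fun _ => hlam) _))
    (fun η hη => Wn_many κ₁ c h1 h2 η hη)
  filter_upwards [key] with ω hω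
  exact hω.mono fun n hn => ⟨hn.2.1.1, hn.2.1.2, hn.2.2⟩

/-- no longer windows are empty -/
theorem no_windows {ℓ : ℕ → ℝ} {κ C : ℝ} (hℓ : ∀ n, 0 ≤ ℓ n) (hκ : 0 < κ)
    (hC : 1 < C * κ) (P : Measure Ω) [IsProbabilityMeasure P] {A : ℕ → Set Ω}
    (hA : Perturbed ℓ κ P A) :
    ∀ᵐ ω ∂P, ∀ᶠ n : ℕ in atTop, ω ∉ emp A n ⌊C * (Real.log n) ^ 2⌋₊ := by
  have hC0 : 0 < C := by
    by_contra h
    push Not at h
    nlinarith
  obtain ⟨τ, hτ1, hτ2⟩ := exists_between hC
  have t1 : Tendsto (fun n : ℕ => Real.log n) atTop atTop :=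
    Real.tendsto_log_atTop.comp (tendsto_natCast_atTop_atTop (R := ℝ))
  set H : ℕ → ℕ := fun n => ⌊C * (Real.log n) ^ 2⌋₊ with hH
  -- the bound for the probability
  have hb : ∀ᶠ n : ℕ in atTop, P (emp A n (H n)) ≤ ENNReal.ofReal ((n : ℝ) ^ (-τ)) := by
    set δ := (C * κ - τ) / (2 * τ) with hδ
    have hδ0 : 0 < δ := div_pos (by linarith) (by linarith)
    filter_upwards [logsq_le_rpow (C + 1) 1 one_pos, t1.eventually_ge_atTop 1,
      t1.eventually_ge_atTop (2 * κ), t1.eventually_ge_atTop (2 / δ),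
      t1.eventually_ge_atTop ((κ + 1) / (τ * δ) + 1), eventually_ge_atTop 2]
      with n e2 e3 e4 e6 e7 e8
    have hn : (2 : ℝ) ≤ n := by exact_mod_cast e8
    rw [Real.rpow_one] at e2
    have hl : 0 < Real.log n := by linarith
    have hHle : (H n : ℝ) ≤ C * (Real.log n) ^ 2 := floor_le_logsq hC0.le n
    have hHge : C * (Real.log n) ^ 2 - 1 < H n := by
      have := Nat.lt_floor_add_one (C * (Real.log n) ^ 2)
      linarith
    have hlog2 : ∀ h ∈ Icc 1 (H n), Real.log ((n + h : ℕ) : ℝ) ≤ Real.log n + 1 := by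
      intro h hh
      have g1 : (h : ℝ) ≤ H n := by exact_mod_cast (Finset.mem_Icc.1 hh).2
      have g2 : ((n + h : ℕ) : ℝ) ≤ 2 * n := by
        push_cast
        nlinarith [sq_nonneg (Real.log n)]
      calc Real.log ((n + h : ℕ) : ℝ) ≤ Real.log (2 * n) := Real.log_le_log (by push_cast; positivity) g2
        _ = Real.log 2 + Real.log n := Real.log_mul (by norm_num) (by positivity)
        _ ≤ Real.log n + 1 := by have := Real.log_two_lt_d9; linarith
    rw [emp_prob hℓ hκ.le hA]
    apply ENNReal.ofReal_le_ofReal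
    have g3 : ∀ h ∈ Icc 1 (H n), 1 - prb ℓ κ (n + h) ≤ Real.exp (-(κ / (Real.log n + 1))) := by
      intro h hh
      have g4 := ins_le_prb (κ := κ) hℓ (n + h)
      have g5 : κ / (Real.log n + 1) ≤ ins κ (n + h) := by
        apply le_min
        · rw [div_le_one (by linarith)]; linarith
        · have g6 : 0 < Real.log ((n + h : ℕ) : ℝ) := by
            apply Real.log_pos
            push_cast
            have : (0 : ℝ) ≤ h := Nat.cast_nonneg _
            linarith
          exact div_le_div_of_nonneg_left hκ.le g6 (hlog2 h hh)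
      have g7 := Real.add_one_le_exp (-(κ / (Real.log n + 1)))
      linarith
    have g8 : ∏ h ∈ Icc 1 (H n), (1 - prb ℓ κ (n + h)) ≤
        ∏ _h ∈ Icc 1 (H n), Real.exp (-(κ / (Real.log n + 1))) :=
      Finset.prod_le_prod (fun h _ => by
        have := prb_le_one ℓ κ (n + h)
        linarith) g3
    refine g8.trans ?_
    rw [Finset.prod_const, Nat.card_Icc, Nat.add_sub_cancel, ← Real.exp_nat_mul,
      Real.rpow_def_of_pos (by linarith)]
    apply Real.exp_le_exp.2
    -- `τ log n ≤ H κ / (log n + 1)`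
    have g9 : τ * Real.log n * (Real.log n + 1) ≤ (C * (Real.log n) ^ 2 - 1) * κ := by
      have k1 : C * κ = τ + 2 * τ * δ := by rw [hδ]; field_simp; ring
      have k2 : 2 ≤ δ * Real.log n := by
        rw [div_le_iff₀ hδ0] at e6; linarith
      have k3 : (κ + 1) / (τ * δ) ≤ Real.log n - 1 := by linarith
      rw [div_le_iff₀ (by nlinarith [mul_pos (show 0 < τ by linarith) hδ0])] at k3
      have k4 : 0 < τ := by linarith
      have k5 : (C * (Real.log n) ^ 2 - 1) * κ = (τ + 2 * τ * δ) * (Real.log n) ^ 2 - κ := by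
        rw [← k1]; ring
      rw [k5]
      have k6 : τ * Real.log n ≤ τ * δ * (Real.log n) ^ 2 / 2 := by
        have : τ * Real.log n * 2 ≤ τ * Real.log n * (δ * Real.log n) := by gcongr
        nlinarith
      have k7 : κ ≤ τ * δ * (Real.log n) ^ 2 := by
        have k8 : κ ≤ (Real.log n - 1) * (τ * δ) := by linarith
        have k9 : (Real.log n - 1) * (τ * δ) ≤ (Real.log n) ^ 2 * (τ * δ) := by
          apply mul_le_mul_of_nonneg_right _ (by positivity)
          nlinarith
        linarith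
      have k10 : 0 ≤ τ * δ * (Real.log n) ^ 2 := by positivity
      nlinarith
    have g10 : τ * Real.log n ≤ H n * (κ / (Real.log n + 1)) := by
      rw [mul_div_assoc', le_div_iff₀ (by linarith)]
      calc τ * Real.log n * (Real.log n + 1) ≤ (C * (Real.log n) ^ 2 - 1) * κ := g9
        _ ≤ H n * κ := by gcongr
    linarith
  obtain ⟨n0, hn0⟩ := eventually_atTop.1 hb
  have hsum : (∑' n, P (emp A (n + n0) (H (n + n0)))) ≠ ⊤ := by
    have h1 : ∀ n, P (emp A (n + n0) (H (n + n0))) ≤ ENNReal.ofReal (((n + n0 : ℕ) : ℝ) ^ (-τ)) :=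
      fun n => hn0 (n + n0) (Nat.le_add_left _ _)
    have h2 : Summable (fun n : ℕ => (n : ℝ) ^ (-τ)) := by
      rw [Real.summable_nat_rpow]; linarith
    have h3 := (summable_nat_add_iff n0).2 h2
    exact ne_top_of_le_ne_top h3.tsum_ofReal_ne_top (ENNReal.tsum_le_tsum h1)
  filter_upwards [ae_eventually_notMem hsum] with ω hω
  obtain ⟨n1, hn1⟩ := eventually_atTop.1 hω
  rw [eventually_atTop]
  refine ⟨n1 + n0, fun n hn => ?_⟩
  have := hn1 (n - n0) (by omega)
  rwa [Nat.sub_add_cancel (by omega)] at this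

/-- the random set is infinite -/
theorem inf_set {ℓ : ℕ → ℝ} {κ : ℝ} (hℓ : ∀ n, 0 ≤ ℓ n) (hmono : Monotone ℓ) (hκ : 0 ≤ κ)
    (h : 0 < ℓ 0 ∨ 0 < κ)
    (P : Measure Ω) [IsProbabilityMeasure P] {A : ℕ → Set Ω}
    (hA : Perturbed ℓ κ P A) :
    ∀ᵐ ω ∂P, ∃ᶠ n : ℕ in atTop, ω ∈ A n := by
  rcases h with h | h
  · have hsum : (∑' n, P (A n)) = ⊤ := by
      have h1 : ∀ n, ENNReal.ofReal (if n.Prime then (1 - Real.exp (-ℓ 0) : ℝ) else 0) ≤ P (A n) := by
        intro n
        rw [hA.prob n]
        apply ENNReal.ofReal_le_ofReal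
        unfold prb
        have h2 := ins_le_one κ n
        have h3 := ins_nonneg hκ n
        have h4 : Real.exp (-ℓ n) ≤ Real.exp (-ℓ 0) :=
          Real.exp_le_exp.2 (neg_le_neg (hmono (Nat.zero_le n)))
        have h5 := Real.exp_pos (-ℓ n)
        split_ifs
        · nlinarith
        · exact h3
      rw [eq_top_iff]
      refine le_trans ?_ (ENNReal.tsum_le_tsum h1)
      have h4 : (∑' n : ℕ, ENNReal.ofReal (if n.Prime then (1 - Real.exp (-ℓ 0) : ℝ) else 0)) =
          ∑' _p : {n : ℕ // n.Prime}, ENNReal.ofReal (1 - Real.exp (-ℓ 0)) := by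
        have h5 : (fun n : ℕ => ENNReal.ofReal (if n.Prime then (1 - Real.exp (-ℓ 0) : ℝ) else 0)) =
            Set.indicator {n : ℕ | n.Prime} (fun _ => ENNReal.ofReal (1 - Real.exp (-ℓ 0))) := by
          funext n
          by_cases hn : n.Prime
          · simp [hn]
          · simp [hn]
        rw [h5, ← _root_.tsum_subtype]
        rfl
      rw [h4]
      have : Infinite {n : ℕ // n.Prime} := Nat.infinite_setOfPred_prime.to_subtype
      rw [ENNReal.tsum_const_eq_top_of_ne_zero]
      rw [Ne, ENNReal.ofReal_eq_zero]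
      have h6 : Real.exp (-ℓ 0) < 1 := Real.exp_lt_one_iff.2 (by linarith)
      linarith
    have h6 := measure_limsup_eq_one hA.meas hA.indep hsum
    have h7 : ∀ᵐ ω ∂P, ω ∈ limsup A atTop := by
      rw [← prob_compl_eq_zero_iff (MeasurableSet.measurableSet_limsup hA.meas)] at h6
      exact h6
    filter_upwards [h7] with ω hω
    rwa [Filter.mem_limsup_iff_frequently_mem] at hω
  · have h1 := no_windows (C := 2 / κ) hℓ h (by rw [div_mul_cancel₀ _ h.ne']; norm_num) P hA
    filter_upwards [h1] with ω hω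
    rw [Filter.frequently_atTop]
    intro N
    obtain ⟨n, hn1, hn2⟩ := (hω.and (eventually_ge_atTop N)).exists
    unfold emp at hn1
    simp only [Set.mem_iInter, not_forall, Set.mem_compl_iff, not_not] at hn1
    obtain ⟨k, _, hk⟩ := hn1
    exact ⟨n + k, by omega, hk⟩

end Pool.Agent.K4H77.Noise
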