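import Mathlib
import Pool.Agent.K4H77.ND

/-! Slowly varying deletion exponents: windows. -/

set_option autoImplicit false

open MeasureTheory ProbabilityTheory Filter Finset
open Pool.Agent.H510R2.Maier
open scoped Topology

namespace Pool.Agent.K4H77.Noise

variable {Ω : Type*} [MeasurableSpace Ω]

/-- the weight `κ + (e^γ / 2) ℓ n` -/
noncomputable def wt (ℓ : ℕ → ℝ) (κ : ℝ) (n : ℕ) : ℝ :=
  κ + Real.exp Real.eulerMascheroniConstant / 2 * ℓ n

theorem cnt_split (n K J : ℕ) : ∑ j ∈ range J, cnt (n + j * K) K = cnt n (J * K) := by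
  induction J with
  | zero => simp [cnt]
  | succ J ih =>
    rw [Finset.sum_range_succ, ih]
    have h1 := cnt_pi n (J * K)
    have h2 := cnt_pi (n + J * K) K
    have h3 := cnt_pi n ((J + 1) * K)
    rw [show n + (J + 1) * K = n + J * K + K by ring] at h3
    have h4 : (cnt n (J * K) : ℝ) + cnt (n + J * K) K = cnt n ((J + 1) * K) := by
      rw [h1, h2, h3]; ring
    exact_mod_cast h4

/-- a short window with few primes inside a long one -/
theorem exists_sub (n K J : ℕ) (hJ : 0 < J) :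
    ∃ j < J, J * cnt (n + j * K) K ≤ cnt n (J * K) := by
  by_contra hcon
  push Not at hcon
  have h1 : ∑ _j ∈ range J, cnt n (J * K) < ∑ j ∈ range J, J * cnt (n + j * K) K :=
    Finset.sum_lt_sum_of_nonempty ⟨0, Finset.mem_range.2 hJ⟩
      (fun j hj => hcon j (Finset.mem_range.1 hj))
  rw [← Finset.mul_sum, cnt_split, Finset.sum_const, Finset.card_range, smul_eq_mul] at h1
  exact lt_irrefl _ h1

/-- the length of the window at `n` -/
noncomputable def len (ℓ : ℕ → ℝ) (κ c : ℝ) (n : ℕ) : ℕ :=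
  ⌊c * (Real.log n) ^ 2 / wt ℓ κ n⌋₊ + 1

theorem len_gt (ℓ : ℕ → ℝ) (κ c : ℝ) (n : ℕ) :
    c * (Real.log n) ^ 2 / wt ℓ κ n < len ℓ κ c n := by
  unfold len
  push_cast
  exact Nat.lt_floor_add_one _

theorem cnt_mono' (n : ℕ) {Y Y' : ℕ} (h : Y ≤ Y') : cnt n Y ≤ cnt n Y' := by
  unfold cnt
  apply Finset.card_le_card
  apply Finset.filter_subset_filter
  exact Finset.Icc_subset_Icc_right h

theorem wt_mono {ℓ : ℕ → ℝ} (κ : ℝ) (hmono : Monotone ℓ) : Monotone (wt ℓ κ) := by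
  intro a b hab
  unfold wt
  have := hmono hab
  have := Real.exp_pos Real.eulerMascheroniConstant
  gcongr

set_option maxHeartbeats 1000000 in
theorem gen_windows {ℓ : ℕ → ℝ} {κ c C : ℝ} (hℓ : ∀ n, 0 ≤ ℓ n) (hmono : Monotone ℓ) (hκ : 0 ≤ κ)
    (hw : 0 < wt ℓ κ 0) (hsv : Tendsto (fun n => wt ℓ κ (2 * n) / wt ℓ κ n) atTop (𝓝 1))
    (hC0 : 0 ≤ C) (hC : ∀ᶠ n : ℕ in atTop, ℓ n ≤ C * Real.log n)
    (hc0 : 0 < c) (hc : c < 1) (P : Measure Ω) [IsProbabilityMeasure P] {A : ℕ → Set Ω}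
    (hA : Perturbed ℓ κ P A) :
    ∀ᵐ ω ∂P, ∃ᶠ n : ℕ in atTop, ∃ m : ℕ, n ≤ m ∧ m ≤ 2 * n ∧ ω ∈ emp A m (len ℓ κ c n) := by
  classical
  set E := Real.exp Real.eulerMascheroniConstant with hE
  have hE0 : 0 < E := Real.exp_pos _
  have hEi : Real.exp (-Real.eulerMascheroniConstant) = 1 / E := by
    rw [Real.exp_neg, one_div]
  have hwpos : ∀ n, 0 < wt ℓ κ n := fun n => hw.trans_le (wt_mono κ hmono (Nat.zero_le n))
  set w0 := wt ℓ κ 0 with hw0
  -- parameters
  obtain ⟨σ, hσ1, hσ2⟩ := exists_between hc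
  obtain ⟨ε, hε0, hε1, hε⟩ : ∃ ε : ℝ, 0 < ε ∧ ε < 1 ∧ c * ((1 + ε) / (1 - ε)) * (1 + ε) < σ := by
    have h1 : Tendsto (fun ε : ℝ => c * ((1 + ε) / (1 - ε)) * (1 + ε)) (𝓝[>] 0)
        (𝓝 (c * ((1 + 0) / (1 - 0)) * (1 + 0))) := by
      apply Tendsto.mono_left _ nhdsWithin_le_nhds
      apply ContinuousAt.tendsto
      apply ContinuousAt.mul
      · apply ContinuousAt.mul continuousAt_const
        apply ContinuousAt.div
        · fun_prop
        · fun_prop
        · norm_num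
      · fun_prop
    rw [show c * ((1 + 0) / (1 - 0)) * (1 + 0) = c by ring] at h1
    have h2 := h1.eventually_lt_const hσ1
    have h3 : ∀ᶠ ε : ℝ in 𝓝[>] 0, ε < 1 := nhdsWithin_le_nhds (gt_mem_nhds one_pos)
    obtain ⟨ε, h4, h5, h6⟩ := (h2.and (h3.and self_mem_nhdsWithin)).exists
    exact ⟨ε, h6, h5, h4⟩
  set c₁ := (2 / ε) * (c / w0 + 1) with hc₁
  have hc₁0 : 0 < c₁ := by positivity
  set κ₁ := (1 + ε) * (c₁ * E / 2) with hκ₁
  have hκ₁0 : 0 < κ₁ := by positivity
  have hcκ : c₁ < 2 * Real.exp (-Real.eulerMascheroniConstant) * κ₁ := by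
    rw [hEi, hκ₁]
    have : 2 * (1 / E) * ((1 + ε) * (c₁ * E / 2)) = c₁ + ε * c₁ := by field_simp
    rw [this]
    have : 0 < ε * c₁ := by positivity
    linarith
  have t1 : Tendsto (fun n : ℕ => Real.log n) atTop atTop :=
    Real.tendsto_log_atTop.comp (tendsto_natCast_atTop_atTop (R := ℝ))
  -- the choice of the short window
  set K : ℕ → ℕ := fun n => len ℓ κ c n with hK
  set J : ℕ → ℕ := fun n => ⌊c₁ * (Real.log n) ^ 2⌋₊ / K n with hJ
  have hKpos : ∀ n, 0 < K n := fun n => Nat.succ_pos _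
  have hex : ∀ n, ∃ j, j ≤ J n ∧ (j + 1) * K n ≤ J n * K n + K n ∧
      (0 < J n → j < J n ∧ J n * cnt (n + j * K n) (K n) ≤ cnt n (J n * K n)) := by
    intro n
    rcases Nat.eq_zero_or_pos (J n) with h | h
    · exact ⟨0, by omega, by simp [h], fun h' => by omega⟩
    · obtain ⟨j, h1, h2⟩ := exists_sub n (K n) (J n) h
      refine ⟨j, h1.le, ?_, fun _ => ⟨h1, h2⟩⟩
      nlinarith [Nat.mul_le_mul_right (K n) h1]
  choose j hj1 hj2 hj3 using hex
  have hblock : ∀ n, n + j n * K n + K n ≤ n + (⌊c₁ * (Real.log n) ^ 2⌋₊ + K n) := by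
    intro n
    have h1 := hj2 n
    have h2 : J n * K n ≤ ⌊c₁ * (Real.log n) ^ 2⌋₊ := Nat.div_mul_le_self _ _
    nlinarith
  -- asymptotics
  have eK : ∀ᶠ n : ℕ in atTop, (K n : ℝ) ≤ (c / w0 + 1) * (Real.log n) ^ 2 := by
    filter_upwards [t1.eventually_ge_atTop 1] with n hn
    have h1 : c * (Real.log n) ^ 2 / wt ℓ κ n ≤ c * (Real.log n) ^ 2 / w0 :=
      div_le_div_of_nonneg_left (by positivity) hw (wt_mono κ hmono (Nat.zero_le n))
    have h2 : (K n : ℝ) ≤ c * (Real.log n) ^ 2 / wt ℓ κ n + 1 := by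
      rw [hK]
      unfold len
      push_cast
      have := Nat.floor_le (show 0 ≤ c * (Real.log n) ^ 2 / wt ℓ κ n from
        div_nonneg (by positivity) (hwpos n).le)
      linarith
    have h3 : 1 ≤ (Real.log n) ^ 2 := by nlinarith
    calc (K n : ℝ) ≤ c * (Real.log n) ^ 2 / w0 + 1 := by linarith
      _ ≤ c / w0 * (Real.log n) ^ 2 + (Real.log n) ^ 2 := by
        rw [mul_div_right_comm]; linarith
      _ = _ := by ring
  have eJ : ∀ᶠ n : ℕ in atTop, (1 - ε) * (c₁ * (Real.log n) ^ 2) ≤ J n * K n ∧ 0 < J n := by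
    filter_upwards [eK, t1.eventually_ge_atTop 1,
      t1.eventually_ge_atTop (4 / (ε * c₁) + 1)] with n h1 h2 h3
    have hKn : (1 : ℝ) ≤ K n := by exact_mod_cast hKpos n
    have h4 : ⌊c₁ * (Real.log n) ^ 2⌋₊ < J n * K n + K n := by
      have := Nat.lt_div_mul_add (a := ⌊c₁ * (Real.log n) ^ 2⌋₊) (hKpos n)
      simpa [hJ] using this
    have h5 : (⌊c₁ * (Real.log n) ^ 2⌋₊ : ℝ) + 1 ≤ J n * K n + K n := by exact_mod_cast h4
    have h6 := Nat.lt_floor_add_one (c₁ * (Real.log n) ^ 2)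
    have h7 : (K n : ℝ) ≤ ε / 2 * (c₁ * (Real.log n) ^ 2) := by
      calc (K n : ℝ) ≤ (c / w0 + 1) * (Real.log n) ^ 2 := h1
        _ = ε / 2 * (c₁ * (Real.log n) ^ 2) := by rw [hc₁]; field_simp
    have h8 : 0 < ε * (c₁ * (Real.log n) ^ 2) := by positivity
    have h9 : (1 - ε) * (c₁ * (Real.log n) ^ 2) ≤ J n * K n := by nlinarith
    refine ⟨h9, ?_⟩
    rcases Nat.eq_zero_or_pos (J n) with h | h
    · exfalso
      rw [h] at h9
      have : 0 < (1 - ε) * (c₁ * (Real.log n) ^ 2) := by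
        have : 0 < 1 - ε := by linarith
        positivity
      simp at h9
      linarith
    · exact h
  have esv : ∀ᶠ n : ℕ in atTop, wt ℓ κ (2 * n) ≤ (1 + ε) * wt ℓ κ n := by
    filter_upwards [hsv.eventually_le_const (show (1 : ℝ) < 1 + ε by linarith)] with n hn
    rwa [div_le_iff₀ (hwpos n)] at hn
  have e2n : ∀ᶠ n : ℕ in atTop, n + (⌊c₁ * (Real.log n) ^ 2⌋₊ + K n) ≤ 2 * n := by
    filter_upwards [logsq_le_rpow (c₁ + (c / w0 + 1)) 1 one_pos, eK] with n h1 h2
    rw [Real.rpow_one] at h1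
    have h3 := floor_le_logsq hc₁0.le n
    have h4 : ((⌊c₁ * (Real.log n) ^ 2⌋₊ + K n : ℕ) : ℝ) ≤ n := by
      push_cast
      nlinarith
    have h5 : ⌊c₁ * (Real.log n) ^ 2⌋₊ + K n ≤ n := by exact_mod_cast h4
    omega
  -- a bound for the cost
  set b : ℝ := (1 + ε) / (1 - ε) * (κ + E / 2 * (2 * C)) + 2 * (c / w0 + 1) * κ ^ 2 with hb
  have hC' : ∀ᶠ n : ℕ in atTop, ℓ (2 * n) ≤ (2 * C) * Real.log n := by
    have h2n : Tendsto (fun n : ℕ => 2 * n) atTop atTop :=
      tendsto_id.const_mul_atTop' (by norm_num)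
    filter_upwards [h2n.eventually hC, eventually_ge_atTop 2] with n h1 h3
    have hn : (2 : ℝ) ≤ n := by exact_mod_cast h3
    have h4 : Real.log ((2 * n : ℕ) : ℝ) ≤ 2 * Real.log n := by
      push_cast
      rw [Real.log_mul (by norm_num) (by linarith)]
      have : Real.log 2 ≤ Real.log n := Real.log_le_log (by norm_num) hn
      linarith
    calc ℓ (2 * n) ≤ C * Real.log ((2 * n : ℕ) : ℝ) := h1
      _ ≤ C * (2 * Real.log n) := by gcongr
      _ = _ := by ring
  have key := ae_often P hA.meas hA.indep (Wn κ₁ c₁)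
    (fun n => ⌊c₁ * (Real.log n) ^ 2⌋₊ + K n)
    (fun n => emp A (n + j n * K n) (K n)) σ (by nlinarith) hσ2 (c₁ + (c / w0 + 1))
    (by positivity)
    (by
      filter_upwards [eK] with n hn
      have := floor_le_logsq hc₁0.le n
      push_cast
      linarith)
    (fun n => emp_meas A _ _ _ (fun h hh => by
      rw [Finset.mem_Icc] at hh
      have := hblock n
      constructor
      · have : 0 ≤ j n * K n := Nat.zero_le _
        omega
      · omega))
    (by
      filter_upwards [emp_ge hκ, rpow_le_exp (b := b) one_pos hε, eK, eJ, esv, e2n,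
        t1.eventually_ge_atTop 1, hC'] with n h1 h2 h3 h4 h5 h6 h7 hCn h8
      rw [emp_prob hℓ hκ hA]
      apply ENNReal.ofReal_le_ofReal
      refine h2.1.trans ?_
      have h9 := h1 ℓ (ℓ (2 * n)) (n + j n * K n) (K n) (Nat.le_add_right _ _) (by
        intro h hh
        apply hmono
        have := hblock n
        rw [Finset.mem_Icc] at hh
        omega)
      refine le_trans ?_ h9
      apply Real.exp_le_exp.2
      apply neg_le_neg
      set L := Real.log n with hL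
      have hL0 : 0 < L := by linarith
      obtain ⟨h10, h11⟩ := hj3 n h4.2
      -- number of primes in the short window
      have h12 : (J n : ℝ) * cnt (n + j n * K n) (K n) ≤ κ₁ * L := by
        have h13 : cnt n (J n * K n) ≤ cnt n ⌊c₁ * L ^ 2⌋₊ :=
          cnt_mono' n (Nat.div_mul_le_self _ _)
        have h14 : (cnt n ⌊c₁ * L ^ 2⌋₊ : ℝ) ≤ κ₁ * L := h8
        have h15 : ((J n * cnt (n + j n * K n) (K n) : ℕ) : ℝ) ≤ cnt n ⌊c₁ * L ^ 2⌋₊ := by
          exact_mod_cast h11.trans h13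
        push_cast at h15
        linarith
      set q : ℝ := ((cnt (n + j n * K n) (K n) : ℕ) : ℝ) with hq
      have hq0 : 0 ≤ q := Nat.cast_nonneg _
      have hKn : (1 : ℝ) ≤ K n := by exact_mod_cast hKpos n
      have h1ε : 0 < 1 - ε := by linarith
      -- `q ≤ (1+ε)/(1-ε) (E/2) K / L`
      have h16 : q ≤ (1 + ε) / (1 - ε) * (E / 2) * (K n / L) := by
        have h17 : (1 - ε) * (c₁ * L ^ 2) * q ≤ K n * (κ₁ * L) := by
          calc (1 - ε) * (c₁ * L ^ 2) * q ≤ J n * K n * q := mul_le_mul_of_nonneg_right h4.1 hq0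
            _ = K n * (J n * q) := by ring
            _ ≤ K n * (κ₁ * L) := by gcongr
        have h18 : (1 + ε) / (1 - ε) * (E / 2) * (K n / L) =
            K n * (κ₁ * L) / ((1 - ε) * (c₁ * L ^ 2)) := by
          rw [hκ₁]; field_simp
        rw [h18, le_div_iff₀ (by positivity)]
        linarith
      have h19 : (K n : ℝ) / L ≤ c * L / wt ℓ κ n + 1 / L := by
        have h20 : (K n : ℝ) ≤ c * L ^ 2 / wt ℓ κ n + 1 := by
          rw [hK]
          unfold len
          push_cast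
          have := Nat.floor_le (show 0 ≤ c * (Real.log n) ^ 2 / wt ℓ κ n from
            div_nonneg (by positivity) (hwpos n).le)
          linarith
        rw [div_le_iff₀ hL0]
        calc (K n : ℝ) ≤ c * L ^ 2 / wt ℓ κ n + 1 := h20
          _ = (c * L / wt ℓ κ n + 1 / L) * L := by
            field_simp
      have hℓ2 : 0 ≤ ℓ (2 * n) := hℓ _
      have hw2 : wt ℓ κ (2 * n) = κ + E / 2 * ℓ (2 * n) := rfl
      have h1le : 1 ≤ (1 + ε) / (1 - ε) := by
        rw [le_div_iff₀ h1ε]; linarith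
      have h21 : ℓ (2 * n) * q + K n * (κ / L) ≤ (1 + ε) / (1 - ε) * (wt ℓ κ (2 * n) * (K n / L)) := by
        have h22 : ℓ (2 * n) * q ≤ ℓ (2 * n) * ((1 + ε) / (1 - ε) * (E / 2) * (K n / L)) := by gcongr
        have h23 : K n * (κ / L) ≤ (1 + ε) / (1 - ε) * (κ * (K n / L)) := by
          have h24 : K n * (κ / L) = 1 * (κ * (K n / L)) := by ring
          rw [h24]
          gcongr
        rw [hw2]
        calc ℓ (2 * n) * q + K n * (κ / L) ≤
            ℓ (2 * n) * ((1 + ε) / (1 - ε) * (E / 2) * (K n / L)) +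
              (1 + ε) / (1 - ε) * (κ * (K n / L)) := by linarith
          _ = _ := by ring
      have hwn := hwpos n
      have h25 : wt ℓ κ (2 * n) * (K n / L) ≤ c * (1 + ε) * L + (κ + E / 2 * (2 * C)) := by
        have h26 : wt ℓ κ (2 * n) * (c * L / wt ℓ κ n) ≤ c * (1 + ε) * L := by
          calc wt ℓ κ (2 * n) * (c * L / wt ℓ κ n) ≤ (1 + ε) * wt ℓ κ n * (c * L / wt ℓ κ n) := by
                gcongr
            _ = c * (1 + ε) * L := by field_simp
        have h27 : wt ℓ κ (2 * n) * (1 / L) ≤ κ + E / 2 * (2 * C) := by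
          rw [mul_one_div, div_le_iff₀ hL0, hw2]
          have h28 : κ ≤ κ * L := by nlinarith
          have h29 : ℓ (2 * n) ≤ (2 * C) * L := hCn
          nlinarith
        calc wt ℓ κ (2 * n) * (K n / L) ≤ wt ℓ κ (2 * n) * (c * L / wt ℓ κ n + 1 / L) := by
              gcongr
              rw [hw2]; positivity
          _ = wt ℓ κ (2 * n) * (c * L / wt ℓ κ n) + wt ℓ κ (2 * n) * (1 / L) := by ring
          _ ≤ _ := by linarith
      have h30 : 2 * (K n : ℝ) * (κ / L) ^ 2 ≤ 2 * (c / w0 + 1) * κ ^ 2 := by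
        calc 2 * (K n : ℝ) * (κ / L) ^ 2 ≤ 2 * ((c / w0 + 1) * L ^ 2) * (κ / L) ^ 2 := by gcongr
          _ = 2 * (c / w0 + 1) * κ ^ 2 := by field_simp
      have h31 : (1 + ε) / (1 - ε) * (wt ℓ κ (2 * n) * (K n / L)) ≤
          (1 + ε) / (1 - ε) * (c * (1 + ε) * L + (κ + E / 2 * (2 * C))) := by gcongr
      have h32 : (1 + ε) / (1 - ε) * (c * (1 + ε) * L + (κ + E / 2 * (2 * C))) =
          c * ((1 + ε) / (1 - ε)) * (1 + ε) * L +
            (1 + ε) / (1 - ε) * (κ + E / 2 * (2 * C)) := by ring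
      linarith)
    (fun η hη => Wn_many κ₁ c₁ hκ₁0 hcκ η hη)
  filter_upwards [key] with ω hω
  refine (hω.and_eventually e2n).mono fun n hn => ?_
  refine ⟨n + j n * K n, Nat.le_add_right _ _, ?_, hn.1.2⟩
  have := hblock n
  omega

end Pool.Agent.K4H77.Noise
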