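import Mathlib
import Pool.Agent.K4H77.NF

/-! Gaps between consecutive elements; the limit superior and the limit points. -/

set_option autoImplicit false

open MeasureTheory ProbabilityTheory Filter Finset
open Pool.Agent.H510R2.Maier
open scoped Topology

namespace Pool.Agent.K4H77.Noise

/-- the normalised gaps `(s_{k+1} - s_k) / (log s_k)^2` of a set `S = {s_0 < s_1 < ...}` of natural
numbers -/
noncomputable def ngap (S : Set ℕ) (k : ℕ) : ℝ :=
  ((Nat.nth (· ∈ S) (k + 1) : ℝ) - Nat.nth (· ∈ S) k) / (Real.log (Nat.nth (· ∈ S) k)) ^ 2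

/-- the limit superior of the normalised gaps, in `[0, ∞]`; for the set of the primes this is the
number `L` of the problem -/
noncomputable def supGap (S : Set ℕ) : ENNReal :=
  limsup (fun k => ENNReal.ofReal (ngap S k)) atTop

section

variable {S : Set ℕ} (hS : S.Infinite)

include hS

theorem nth_gap [DecidablePred (· ∈ S)] {n H : ℕ} (he : ∀ h ∈ Icc 1 H, n + h ∉ S)
    (h0 : 0 < Nat.count (· ∈ S) (n + 1)) :
    Nat.nth (· ∈ S) (Nat.count (· ∈ S) (n + 1) - 1) ≤ n ∧
      n + H + 1 ≤ Nat.nth (· ∈ S) (Nat.count (· ∈ S) (n + 1) - 1 + 1) := by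
  have hS' : (Set.ofPred (· ∈ S)).Infinite := hS
  constructor
  · have h1 : Nat.count (· ∈ S) (n + 1) - 1 < Nat.count (· ∈ S) (n + 1) := by omega
    have h2 := Nat.nth_lt_of_lt_count h1
    omega
  · have h1 : Nat.count (· ∈ S) (n + 1 + H) = Nat.count (· ∈ S) (n + 1) := by
      rw [Nat.count_add]
      have : Nat.count (fun k => n + 1 + k ∈ S) H = 0 := by
        rw [Nat.count_eq_card_filter_range, Finset.card_eq_zero, Finset.filter_eq_empty_iff]
        intro k hk
        have := he (k + 1) (by rw [Finset.mem_Icc]; have := Finset.mem_range.1 hk; omega)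
        rwa [show n + 1 + k = n + (k + 1) by ring]
      omega
    have h2 : Nat.count (· ∈ S) (n + 1 + H) ≤ Nat.count (· ∈ S) (n + 1) - 1 + 1 := by omega
    have h3 := (Nat.count_le_iff_le_nth hS').1 h2
    omega

theorem count_large [DecidablePred (· ∈ S)] (K : ℕ) : ∀ᶠ n in atTop, K < Nat.count (· ∈ S) (n + 1) := by
  have hS' : (Set.ofPred (· ∈ S)).Infinite := hS
  filter_upwards [eventually_ge_atTop (Nat.nth (· ∈ S) K)] with n hn
  exact (Nat.lt_nth_iff_count_lt hS').2 (by omega)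

theorem nth_large (N : ℕ) : ∀ᶠ k in atTop, N ≤ Nat.nth (· ∈ S) k := by
  have hS' : (Set.ofPred (· ∈ S)).Infinite := hS
  filter_upwards [eventually_ge_atTop N] with k hk
  exact hk.trans ((Nat.nth_strictMono hS').id_le k)

/-- long empty windows give large normalised gaps -/
theorem freq_gap {c : ℝ} (hc : 0 ≤ c)
    (h : ∃ᶠ n : ℕ in atTop, ∀ j ∈ Icc 1 ⌊c * (Real.log n) ^ 2⌋₊, n + j ∉ S) :
    ∃ᶠ k in atTop, c ≤ ngap S k := by
  classical
  have hS' : (Set.ofPred (· ∈ S)).Infinite := hS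
  rw [Filter.frequently_atTop]
  intro K
  obtain ⟨n, hn, hn2, hn3⟩ := (h.and_eventually ((count_large hS (K + 2)).and
    (eventually_ge_atTop 2))).exists
  set H := ⌊c * (Real.log n) ^ 2⌋₊ with hH
  set k := Nat.count (· ∈ S) (n + 1) - 1 with hk
  obtain ⟨h1, h2⟩ := nth_gap hS hn (by omega)
  refine ⟨k, by omega, ?_⟩
  have h3 : 2 ≤ Nat.nth (· ∈ S) k := by
    have := (Nat.nth_strictMono hS').id_le k
    simp only [id] at this
    omega
  have h4 : (2 : ℝ) ≤ Nat.nth (· ∈ S) k := by exact_mod_cast h3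
  have h5 : 0 < Real.log (Nat.nth (· ∈ S) k) := Real.log_pos (by linarith)
  have h6 : Real.log (Nat.nth (· ∈ S) k) ≤ Real.log n :=
    Real.log_le_log (by linarith) (by exact_mod_cast h1)
  unfold ngap
  rw [le_div_iff₀ (by positivity)]
  have h7 : c * (Real.log n) ^ 2 < H + 1 := Nat.lt_floor_add_one _
  have h8 : ((n + H + 1 : ℕ) : ℝ) ≤ Nat.nth (· ∈ S) (k + 1) := by exact_mod_cast h2
  have h9 : (Nat.nth (· ∈ S) k : ℝ) ≤ n := by exact_mod_cast h1
  push_cast at h8
  calc c * (Real.log (Nat.nth (· ∈ S) k)) ^ 2 ≤ c * (Real.log n) ^ 2 := by gcongr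
    _ ≤ _ := by linarith

/-- long empty windows give large weighted gaps -/
theorem freq_gap_w {w : ℕ → ℝ} (hw0 : ∀ n, 0 < w n) (hmono : Monotone w)
    (hsv : Tendsto (fun n => w (2 * n) / w n) atTop (𝓝 1)) {c c' : ℝ} (hc : 0 < c') (hcc : c' < c)
    {K : ℕ → ℕ} (hK : ∀ n : ℕ, c * (Real.log n) ^ 2 / w n < K n)
    (h : ∃ᶠ n : ℕ in atTop, ∃ m : ℕ, n ≤ m ∧ m ≤ 2 * n ∧ ∀ j ∈ Icc 1 (K n), m + j ∉ S) :
    ∃ᶠ k in atTop, c' ≤ ngap S k * w (Nat.nth (· ∈ S) k) := by
  classical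
  have hS' : (Set.ofPred (· ∈ S)).Infinite := hS
  obtain ⟨ε, hε0, hε⟩ : ∃ ε : ℝ, 0 < ε ∧ c' * (1 + ε) ^ 3 < c := by
    have h1 : Tendsto (fun ε : ℝ => c' * (1 + ε) ^ 3) (𝓝[>] 0) (𝓝 (c' * (1 + 0) ^ 3)) := by
      apply Tendsto.mono_left _ nhdsWithin_le_nhds
      apply ContinuousAt.tendsto
      fun_prop
    rw [show c' * (1 + 0) ^ 3 = c' by ring] at h1
    obtain ⟨ε, h2, h3⟩ := ((h1.eventually_lt_const hcc).and self_mem_nhdsWithin).exists
    exact ⟨ε, h3, h2⟩
  have t1 : Tendsto (fun n : ℕ => Real.log n) atTop atTop :=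
    Real.tendsto_log_atTop.comp (tendsto_natCast_atTop_atTop (R := ℝ))
  obtain ⟨N, hN⟩ := eventually_atTop.1
    (hsv.eventually_le_const (show (1 : ℝ) < 1 + ε by linarith))
  rw [Filter.frequently_atTop]
  intro K0
  have e1 := logsq_le_rpow (2 * c' / w 0) 1 one_pos
  obtain ⟨n, ⟨m, hnm, hm2, hm⟩, hn2, hn3, hn4, hn5, hn6⟩ := (h.and_eventually
    ((count_large hS (K0 + 2)).and ((t1.eventually_ge_atTop (1 / ε)).and
      ((t1.eventually_ge_atTop 1).and (e1.and (eventually_ge_atTop (2 * N + 2))))))).exists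
  set k := Nat.count (· ∈ S) (m + 1) - 1 with hk
  have hcm : Nat.count (· ∈ S) (n + 1) ≤ Nat.count (· ∈ S) (m + 1) :=
    Nat.count_monotone _ (by omega)
  obtain ⟨h1, h2⟩ := nth_gap hS hm (by omega)
  refine ⟨k, by omega, ?_⟩
  set a := Nat.nth (· ∈ S) k with ha
  set b := Nat.nth (· ∈ S) (k + 1) with hb
  have h3 : 2 ≤ a := by
    have := (Nat.nth_strictMono hS').id_le k
    simp only [id] at this
    omega
  have h4 : (2 : ℝ) ≤ a := by exact_mod_cast h3
  have h5 : 0 < Real.log a := Real.log_pos (by linarith)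
  have hn0 : (2 : ℝ) ≤ n := by
    have : 2 ≤ n := by omega
    exact_mod_cast this
  have hln : 0 < Real.log n := by linarith
  unfold ngap
  rw [← ha, ← hb, div_mul_eq_mul_div, le_div_iff₀ (by positivity)]
  have hba : ((m + K n + 1 : ℕ) : ℝ) ≤ b := by exact_mod_cast h2
  push_cast at hba
  have ham : (a : ℝ) ≤ m := by exact_mod_cast h1
  have hmn : (n : ℝ) ≤ m := by exact_mod_cast hnm
  have hm2' : (m : ℝ) ≤ 2 * n := by exact_mod_cast hm2
  have hwa := hw0 a
  have hKn : (0 : ℝ) ≤ K n := Nat.cast_nonneg _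
  rcases le_or_gt (2 * a) n with hcase | hcase
  · -- a very large gap
    have hcase' : 2 * (a : ℝ) ≤ n := by exact_mod_cast hcase
    have g1 : (n : ℝ) / 2 ≤ b - a := by linarith
    have g2 : Real.log a ≤ Real.log n := Real.log_le_log (by linarith) (by linarith)
    rw [Real.rpow_one] at hn5
    have g3 : c' * (Real.log n) ^ 2 ≤ n / 2 * w 0 := by
      have g4 : 2 * (2 * c' / w 0 * (Real.log n) ^ 2) ≤ n := by linarith
      have hw00 := hw0 0
      have g5 : 2 * c' / w 0 * (Real.log n) ^ 2 * w 0 = 2 * c' * (Real.log n) ^ 2 := by field_simp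
      nlinarith
    calc c' * (Real.log a) ^ 2 ≤ c' * (Real.log n) ^ 2 := by gcongr
      _ ≤ n / 2 * w 0 := g3
      _ ≤ (b - a) * w a := by
        apply mul_le_mul g1 (hmono (Nat.zero_le a)) (hw0 0).le
        linarith
  · have g1 : w n ≤ (1 + ε) * w a := by
      have g2 := hN a (by omega)
      rw [div_le_iff₀ hwa] at g2
      exact (hmono hcase.le).trans g2
    have g2 : Real.log a ≤ (1 + ε) * Real.log n := by
      have g3 : Real.log a ≤ Real.log (2 * n) := Real.log_le_log (by linarith) (by linarith)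
      rw [Real.log_mul (by norm_num) (by linarith)] at g3
      have g4 := Real.log_two_lt_d9
      rw [div_le_iff₀ hε0] at hn3
      nlinarith
    have g3 : c * (Real.log n) ^ 2 ≤ (b - a) * w n := by
      have g4 := hK n
      rw [div_lt_iff₀ (hw0 n)] at g4
      have g5 : (K n : ℝ) ≤ b - a := by linarith
      have := mul_le_mul_of_nonneg_right g5 (hw0 n).le
      linarith
    have g4 : (b - a) * w n ≤ (b - a) * ((1 + ε) * w a) := by
      apply mul_le_mul_of_nonneg_left g1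
      linarith
    have g5 : (Real.log a) ^ 2 ≤ (1 + ε) ^ 2 * (Real.log n) ^ 2 := by
      rw [← mul_pow]
      exact pow_le_pow_left₀ h5.le g2 2
    have g6 : (1 + ε) * (c' * (Real.log a) ^ 2) ≤ (1 + ε) * ((b - a) * w a) := by
      calc (1 + ε) * (c' * (Real.log a) ^ 2) ≤ (1 + ε) * (c' * ((1 + ε) ^ 2 * (Real.log n) ^ 2)) := by
            gcongr
        _ = c' * (1 + ε) ^ 3 * (Real.log n) ^ 2 := by ring
        _ ≤ c * (Real.log n) ^ 2 := by gcongr
        _ ≤ (1 + ε) * ((b - a) * w a) := by linarith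
    exact le_of_mul_le_mul_left g6 (by linarith)

/-- gaps of prescribed size -/
theorem cluster_gap {c : ℝ}
    (h : ∃ᶠ n : ℕ in atTop, n ∈ S ∧ (∀ j ∈ Icc 1 ⌊c * (Real.log n) ^ 2⌋₊, n + j ∉ S) ∧
      n + (⌊c * (Real.log n) ^ 2⌋₊ + 1) ∈ S) (hc : 0 ≤ c) :
    MapClusterPt c atTop (ngap S) := by
  classical
  have hS' : (Set.ofPred (· ∈ S)).Infinite := hS
  rw [mapClusterPt_iff_frequently]
  intro U hU
  obtain ⟨ε, hε, hball⟩ := Metric.mem_nhds_iff.1 hU
  have t1 : Tendsto (fun n : ℕ => Real.log n) atTop atTop :=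
    Real.tendsto_log_atTop.comp (tendsto_natCast_atTop_atTop (R := ℝ))
  have t2 : ∀ᶠ n : ℕ in atTop, 1 / ε < (Real.log n) ^ 2 :=
    ((tendsto_pow_atTop (two_ne_zero)).comp t1).eventually_gt_atTop _
  rw [Filter.frequently_atTop]
  intro K
  obtain ⟨n, ⟨hn0, hn, hn1⟩, hn2, hn3, hn4⟩ := (h.and_eventually ((count_large hS (K + 2)).and
    (t2.and (eventually_ge_atTop 2)))).exists
  set H := ⌊c * (Real.log n) ^ 2⌋₊ with hH
  have hk : Nat.count (· ∈ S) (n + 1) = Nat.count (· ∈ S) n + 1 := by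
    rw [Nat.count_succ, if_pos hn0]
  set k := Nat.count (· ∈ S) n with hkdef
  have e1 : Nat.nth (· ∈ S) k = n := Nat.nth_count hn0
  obtain ⟨h1, h2⟩ := nth_gap hS hn (by omega)
  rw [hk, Nat.add_sub_cancel] at h2
  have e2 : Nat.nth (· ∈ S) (k + 1) = n + H + 1 := by
    apply le_antisymm _ h2
    have h3 : k + 1 < Nat.count (· ∈ S) (n + H + 1 + 1) := by
      have h4 : Nat.count (· ∈ S) (n + 1) ≤ Nat.count (· ∈ S) (n + H + 1) :=
        Nat.count_monotone _ (by omega)
      have h5 : Nat.count (· ∈ S) (n + H + 1 + 1) = Nat.count (· ∈ S) (n + H + 1) + 1 := by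
        rw [Nat.count_succ, if_pos]
        rwa [show n + (H + 1) = n + H + 1 by ring] at hn1
      omega
    have := Nat.nth_lt_of_lt_count h3
    omega
  refine ⟨k, by omega, hball ?_⟩
  rw [Metric.mem_ball, Real.dist_eq]
  unfold ngap
  rw [e1, e2]
  have hl : 0 < (Real.log n) ^ 2 := lt_trans (by positivity) hn3
  have h7 : c * (Real.log n) ^ 2 < H + 1 := Nat.lt_floor_add_one _
  have h8 : (H : ℝ) ≤ c * (Real.log n) ^ 2 := Nat.floor_le (by positivity)
  have hl' : Real.log (n : ℝ) ≠ 0 := fun h0 => by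
    rw [h0] at hl
    norm_num at hl
  have h9 : (((n + H + 1 : ℕ) : ℝ) - n) / (Real.log n) ^ 2 - c =
      (H + 1 - c * (Real.log n) ^ 2) / (Real.log n) ^ 2 := by
    push_cast
    field_simp
    ring
  rw [h9, abs_of_nonneg (div_nonneg (by linarith) hl.le)]
  calc (H + 1 - c * (Real.log n) ^ 2) / (Real.log n) ^ 2 ≤ 1 / (Real.log n) ^ 2 := by
        gcongr; linarith
    _ < ε := by
      rw [div_lt_iff₀ hl]
      rw [div_lt_iff₀ hε] at hn3
      linarith

/-- no empty windows: small normalised gaps -/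
theorem ev_gap {C : ℝ} (hC : 0 ≤ C)
    (h : ∀ᶠ n : ℕ in atTop, ¬ ∀ j ∈ Icc 1 ⌊C * (Real.log n) ^ 2⌋₊, n + j ∉ S) :
    ∀ᶠ k in atTop, ngap S k ≤ C := by
  classical
  have hS' : (Set.ofPred (· ∈ S)).Infinite := hS
  obtain ⟨N, hN⟩ := eventually_atTop.1 h
  filter_upwards [nth_large hS (max N 2)] with k hk
  have h1 := hN _ ((le_max_left _ _).trans hk)
  push Not at h1
  obtain ⟨j, hj, hj2⟩ := h1
  rw [Finset.mem_Icc] at hj
  set n := Nat.nth (· ∈ S) k with hn
  have h2 : Nat.nth (· ∈ S) (k + 1) ≤ n + j := by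
    have h3 : k + 1 < Nat.count (· ∈ S) (n + j + 1) := by
      have h4 : Nat.count (· ∈ S) (n + 1) = k + 1 := Nat.count_nth_succ_of_infinite hS' k
      have h5 : Nat.count (· ∈ S) (n + j + 1) = Nat.count (· ∈ S) (n + j) + 1 := by
        rw [Nat.count_succ, if_pos hj2]
      have h6 : Nat.count (· ∈ S) (n + 1) ≤ Nat.count (· ∈ S) (n + j) :=
        Nat.count_monotone _ (by omega)
      omega
    have := Nat.nth_lt_of_lt_count h3
    omega
  have h3 : 2 ≤ n := (le_max_right _ _).trans hk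
  have h4 : (2 : ℝ) ≤ n := by exact_mod_cast h3
  have h5 : 0 < Real.log n := Real.log_pos (by linarith)
  unfold ngap
  rw [← hn, div_le_iff₀ (by positivity)]
  have h6 : (Nat.nth (· ∈ S) (k + 1) : ℝ) ≤ n + j := by exact_mod_cast h2
  have h7 : (j : ℝ) ≤ C * (Real.log n) ^ 2 :=
    (Nat.cast_le.2 hj.2).trans (Nat.floor_le (by positivity))
  linarith

end

theorem le_limsup_seq {u : ℕ → ℝ} {a : ℝ}
    (h : ∀ j : ℕ, ∃ᶠ k in atTop, a * (1 - 1 / ((j : ℝ) + 2)) ≤ u k) :
    ENNReal.ofReal a ≤ limsup (fun k => ENNReal.ofReal (u k)) atTop := by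
  have h1 : ∀ j : ℕ, ENNReal.ofReal (a * (1 - 1 / ((j : ℝ) + 2))) ≤
      limsup (fun k => ENNReal.ofReal (u k)) atTop := by
    intro j
    apply Filter.le_limsup_of_frequently_le'
    exact (h j).mono fun k hk => ENNReal.ofReal_le_ofReal hk
  have h2 : Tendsto (fun j : ℕ => ENNReal.ofReal (a * (1 - 1 / ((j : ℝ) + 2)))) atTop
      (𝓝 (ENNReal.ofReal a)) := by
    apply ENNReal.tendsto_ofReal
    have h3 : Tendsto (fun j : ℕ => 1 / ((j : ℝ) + 2)) atTop (𝓝 0) := by
      have : Tendsto (fun j : ℕ => (j : ℝ) + 2) atTop atTop :=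
        tendsto_atTop_add_const_right _ _ (tendsto_natCast_atTop_atTop (R := ℝ))
      exact this.const_div_atTop 1
    have h4 := (h3.const_sub 1).const_mul a
    simpa using h4
  exact le_of_tendsto' h2 h1

theorem limsup_seq_le {u : ℕ → ℝ} {a : ℝ}
    (h : ∀ j : ℕ, ∀ᶠ k in atTop, u k ≤ a * (1 + 1 / ((j : ℝ) + 1))) :
    limsup (fun k => ENNReal.ofReal (u k)) atTop ≤ ENNReal.ofReal a := by
  have h1 : ∀ j : ℕ, limsup (fun k => ENNReal.ofReal (u k)) atTop ≤
      ENNReal.ofReal (a * (1 + 1 / ((j : ℝ) + 1))) := by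
    intro j
    apply Filter.limsup_le_of_le (by isBoundedDefault)
    exact (h j).mono fun k hk => ENNReal.ofReal_le_ofReal hk
  have h2 : Tendsto (fun j : ℕ => ENNReal.ofReal (a * (1 + 1 / ((j : ℝ) + 1)))) atTop
      (𝓝 (ENNReal.ofReal a)) := by
    apply ENNReal.tendsto_ofReal
    have h3 := tendsto_one_div_add_atTop_nhds_zero_nat (𝕜 := ℝ)
    have h4 := (h3.const_add 1).const_mul a
    simpa using h4
  exact ge_of_tendsto' h2 h1

/-- numerical bound for `e^γ` -/
theorem gamma_lt : Real.eulerMascheroniConstant < 0.58118 := by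
  refine (Real.eulerMascheroniConstant_lt_eulerMascheroniSeq' 128).trans_le ?_
  unfold Real.eulerMascheroniSeq'
  rw [if_neg (by norm_num)]
  have h1 : (harmonic 128 : ℚ) ≤ 5.4332 := by
    unfold harmonic
    norm_num [Finset.sum_range_succ]
  have h2 : ((harmonic 128 : ℚ) : ℝ) ≤ 5.4332 := by
    have : ((harmonic 128 : ℚ) : ℝ) ≤ ((5.4332 : ℚ) : ℝ) := by exact_mod_cast h1
    refine this.trans (le_of_eq ?_)
    norm_num
  have h3 : Real.log ((128 : ℕ) : ℝ) = 7 * Real.log 2 := by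
    rw [show ((128 : ℕ) : ℝ) = 2 ^ 7 by norm_num, Real.log_pow]
    norm_num
  rw [h3]
  have := Real.log_two_gt_d9
  linarith

theorem exp_gamma_lt : Real.exp Real.eulerMascheroniConstant < 1.789 := by
  refine (Real.exp_lt_exp.2 gamma_lt).trans_le ?_
  refine (Real.exp_bound' (by norm_num) (by norm_num) (n := 7) (by norm_num)).trans ?_
  simp only [Finset.sum_range_succ, Finset.sum_range_zero, Nat.factorial]
  norm_num

theorem neg_log_le {θ : ℝ} (h0 : 0 < θ) (h1 : θ ≤ 1 / 5) : Real.log (1 / (1 - θ)) ≤ 1.1174 * θ := by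
  have h2 := Real.abs_log_sub_add_sum_range_le (x := θ) (by rw [abs_of_pos h0]; linarith) 4
  rw [abs_le] at h2
  have h3 := h2.1
  rw [one_div, Real.log_inv]
  simp only [Finset.sum_range_succ, Finset.sum_range_zero] at h3
  rw [abs_of_pos h0] at h3
  have h4 : θ ^ (4 + 1) / (1 - θ) ≤ 0.002 * θ := by
    rw [div_le_iff₀ (by linarith)]
    have h5 : θ ^ 4 ≤ (1 / 5) ^ 4 := pow_le_pow_left₀ h0.le h1 4
    have h6 : θ ^ (4 + 1) = θ ^ 4 * θ := by ring
    rw [h6]
    nlinarith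
  have h7 : θ ^ 2 ≤ 1 / 5 * θ := by nlinarith
  have h8 : θ ^ 3 ≤ 1 / 25 * θ := by nlinarith
  have h9 : θ ^ 4 ≤ 1 / 125 * θ := by nlinarith [pow_pos h0 3]
  norm_num at h3 ⊢
  linarith

/-- for `0 < lam ≤ log (5/4)` the lower bound exceeds `1 / (1 - exp (-lam))` -/
theorem cost_lt {lam : ℝ} (h0 : 0 < lam) (h1 : Real.exp (-lam) ≥ 4 / 5) :
    cost lam 0 < 1 - Real.exp (-lam) := by
  unfold cost
  have h5 : Real.exp (-lam) < 1 := Real.exp_lt_one_iff.2 (by linarith)
  have h2 := neg_log_le (θ := 1 - Real.exp (-lam)) (by linarith) (by linarith)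
  rw [sub_sub_cancel, one_div, Real.log_inv, Real.log_exp, neg_neg] at h2
  have h3 := exp_gamma_lt
  have h4 := Real.exp_pos Real.eulerMascheroniConstant
  have h6 : Real.exp Real.eulerMascheroniConstant / 2 * lam ≤
      Real.exp Real.eulerMascheroniConstant / 2 * (1.1174 * (1 - Real.exp (-lam))) := by gcongr
  have h7 : Real.exp Real.eulerMascheroniConstant / 2 * (1.1174 * (1 - Real.exp (-lam))) <
      1 - Real.exp (-lam) := by
    have : 0 < 1 - Real.exp (-lam) := by linarith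
    nlinarith
  linarith

end Pool.Agent.K4H77.Noise
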