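import Mathlib
import Pool.Agent.K4H77.DB
import Pool.Agent.K4H77.NE
import Pool.Agent.Helper601.PNT

/-! Displaced primes: the average of the expected number of points of a window. -/

set_option autoImplicit false

open MeasureTheory ProbabilityTheory Filter Finset
open scoped Topology

namespace Pool.Agent.K4H77.Displ

open Pool.Agent.K4H77.Noise (logsq_le_rpow exp_le_one_sub)

variable {Ω : Type*} [MeasurableSpace Ω] {w : ℕ → ℕ}

theorem tlog : Tendsto (fun n : ℕ => Real.log n) atTop atTop :=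
  Real.tendsto_log_atTop.comp (tendsto_natCast_atTop_atTop (R := ℝ))

/-- lower bound for the probability to miss a window -/
theorem miss_ge (hw : ∀ n, 4 * w n ≤ n) {P : Measure Ω} [IsProbabilityMeasure P]
    {X : ℕ → Ω → ℕ} (hX : Displaced w P X) {U : Finset ℕ} {M : ℕ}
    (hM : ∀ p : ℕ, p.Prime → M < p → Disjoint U (Icc (p - w p) (p + w p))) {θ : ℝ}
    (hθ : θ ≤ 1 / 2) (hpr : ∀ p, pr w p U ≤ θ) :
    Real.exp (-((1 + 2 * θ) * ∑ p ∈ (Iic M).filter Nat.Prime, pr w p U)) ≤ P.real (miss X U) := by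
  rw [prob_miss hw hX hM, Finset.mul_sum, ← Finset.sum_neg_distrib, Real.exp_sum]
  apply Finset.prod_le_prod
  · intro p _
    exact (Real.exp_pos _).le
  · intro p _
    refine le_trans ?_ (exp_le_one_sub (pr_nonneg p U) ((hpr p).trans hθ))
    apply Real.exp_le_exp.2
    have h1 := pr_nonneg (w := w) p U
    have h2 := hpr p
    nlinarith

/-- upper bound for the probability to miss a window -/
theorem miss_le (hw : ∀ n, 4 * w n ≤ n) {P : Measure Ω} [IsProbabilityMeasure P]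
    {X : ℕ → Ω → ℕ} (hX : Displaced w P X) {U : Finset ℕ} {M : ℕ}
    (hM : ∀ p : ℕ, p.Prime → M < p → Disjoint U (Icc (p - w p) (p + w p))) :
    P.real (miss X U) ≤ Real.exp (-∑ p ∈ (Iic M).filter Nat.Prime, pr w p U) := by
  rw [prob_miss hw hX hM, ← Finset.sum_neg_distrib, Real.exp_sum]
  apply Finset.prod_le_prod
  · intro p _
    have := pr_le_one hw p U
    linarith
  · intro p _
    have := Real.add_one_le_exp (-pr w p U)
    linarith

/-- the prime number theorem on `(0, b x]` -/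
theorem pnt_scale {b : ℝ} (hb : 0 < b) :
    Tendsto (fun x : ℕ => (Nat.primeCounting ⌊b * x⌋₊ : ℝ) * (Real.log x / x)) atTop (𝓝 b) := by
  have h1 : Tendsto (fun x : ℕ => b * (x : ℝ)) atTop atTop :=
    (tendsto_natCast_atTop_atTop (R := ℝ)).const_mul_atTop hb
  have h2 := Pool.Agent.Helper601.PNT.pi_tendsto.comp h1
  have h3 : Tendsto (fun x : ℕ => Real.log x / Real.log (b * x)) atTop (𝓝 1) := by
    have h4 : Tendsto (fun x : ℕ => 1 - Real.log b / Real.log (b * x)) atTop (𝓝 (1 - 0)) :=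
      tendsto_const_nhds.sub ((Real.tendsto_log_atTop.comp h1).const_div_atTop _)
    rw [sub_zero] at h4
    refine h4.congr' ?_
    filter_upwards [(Real.tendsto_log_atTop.comp h1).eventually_gt_atTop 0,
      eventually_ge_atTop 1] with x hx hx1
    simp only [Function.comp] at hx
    have hx0 : (0 : ℝ) < x := by exact_mod_cast hx1
    rw [eq_div_iff hx.ne', sub_mul, one_mul, div_mul_cancel₀ _ hx.ne',
      Real.log_mul hb.ne' hx0.ne']
    ring
  have h5 := (h2.mul h3).const_mul b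
  rw [mul_one, mul_one] at h5
  refine h5.congr' ?_
  filter_upwards [(Real.tendsto_log_atTop.comp h1).eventually_gt_atTop 0,
    eventually_ge_atTop 1] with x hx hx1
  simp only [Function.comp] at hx ⊢
  have hx0 : (0 : ℝ) < x := by exact_mod_cast hx1
  field_simp

/-- the primes between `a x` and `b x` -/
theorem pnt_diff {a b ε : ℝ} (ha : 0 < a) (hb : 0 < b) (hε : b - a < ε) :
    ∀ᶠ x : ℕ in atTop, (Nat.primeCounting ⌊b * x⌋₊ : ℝ) - Nat.primeCounting ⌊a * x⌋₊ ≤
      ε * (x / Real.log x) := by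
  have h1 := (pnt_scale hb).sub (pnt_scale ha)
  filter_upwards [h1.eventually_le_const hε, tlog.eventually_gt_atTop 0,
    eventually_ge_atTop 1] with x hx hl hx1
  have hx0 : (0 : ℝ) < x := by exact_mod_cast hx1
  rw [← sub_mul, ← mul_div_assoc, div_le_iff₀ hx0] at hx
  rw [← mul_div_assoc, le_div_iff₀ hl]
  exact hx

/-- the expected number of displaced primes in `U` -/
noncomputable def ex (w : ℕ → ℕ) (U : Finset ℕ) (M : ℕ) : ℝ :=
  ∑ p ∈ (Iic M).filter Nat.Prime, pr w p U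

theorem ex_nonneg (U : Finset ℕ) (M : ℕ) : 0 ≤ ex w U M :=
  Finset.sum_nonneg fun p _ => pr_nonneg p U

theorem ex_eq (hw : ∀ n, 4 * w n ≤ n) {U : Finset ℕ} {N M : ℕ} (hU : ∀ u ∈ U, u ≤ N)
    (h : 2 * N ≤ M) : ex w U M = ex w U (2 * N) := by
  unfold ex
  symm
  apply Finset.sum_subset
  · intro p hp
    rw [Finset.mem_filter, Finset.mem_Iic] at hp ⊢
    exact ⟨hp.1.trans h, hp.2⟩
  · intro p hp hp2
    rw [Finset.mem_filter, Finset.mem_Iic] at hp hp2
    exact pr_eq_zero (far hw hU (by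
      by_contra hcon
      exact hp2 ⟨by omega, hp.2⟩))

/-- number of pairs -/
theorem pairs (I : Finset ℕ) (x Y : ℕ) (H : ℕ → ℕ) (L : ℕ) (hH : ∀ n ∈ Ioc x Y, H n ≤ L) :
    ∑ n ∈ Ioc x Y, (Ioc n (n + H n) ∩ I).card ≤ L * (I ∩ Ioc x (Y + L)).card := by
  have h1 : ∀ n ∈ Ioc x Y, (Ioc n (n + H n) ∩ I).card ≤
      ∑ u ∈ I ∩ Ioc x (Y + L), (if n < u ∧ u ≤ n + L then 1 else 0) := by
    intro n hn
    rw [← Finset.card_filter]
    apply Finset.card_le_card
    intro u hu
    rw [Finset.mem_inter, Finset.mem_Ioc] at hu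
    have h2 := hH n hn
    rw [Finset.mem_Ioc] at hn
    rw [Finset.mem_filter, Finset.mem_inter, Finset.mem_Ioc]
    exact ⟨⟨hu.2, by omega, by omega⟩, by omega, by omega⟩
  refine (Finset.sum_le_sum h1).trans ?_
  rw [Finset.sum_comm, mul_comm]
  rw [← smul_eq_mul, ← Finset.sum_const]
  apply Finset.sum_le_sum
  intro u _
  rw [← Finset.card_filter]
  have h2 : (Ioc x Y).filter (fun n => n < u ∧ u ≤ n + L) ⊆ Ico (u - L) u := by
    intro n hn
    rw [Finset.mem_filter, Finset.mem_Ioc] at hn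
    rw [Finset.mem_Ico]
    omega
  refine (Finset.card_le_card h2).trans ?_
  rw [Nat.card_Ico]
  omega

/-- the windows with few expected points -/
def Few (w : ℕ → ℕ) (c κ : ℝ) (n : ℕ) : Prop :=
  ex w (Ioc n (n + ⌊c * (Real.log n) ^ 2⌋₊)) (2 * (n + ⌊c * (Real.log n) ^ 2⌋₊)) ≤ κ * Real.log n

/-- sum of the expectations -/
theorem sum_ex (hw : ∀ n, 4 * w n ≤ n) (x Y : ℕ) (H : ℕ → ℕ) (L : ℕ)
    (hH : ∀ n ∈ Ioc x Y, H n ≤ L) :
    ∑ n ∈ Ioc x Y, ex w (Ioc n (n + H n)) (2 * (n + H n)) ≤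
      L * (((Iic (2 * (Y + L))).filter (fun p => p.Prime ∧ x < p + w p ∧ p - w p ≤ Y + L)).card : ℝ) := by
  have h1 : ∀ n ∈ Ioc x Y, ex w (Ioc n (n + H n)) (2 * (n + H n)) =
      ex w (Ioc n (n + H n)) (2 * (Y + L)) := by
    intro n hn
    rw [ex_eq hw (N := n + H n) (M := 2 * (Y + L))]
    · intro u hu
      exact (Finset.mem_Ioc.1 hu).2
    · have := hH n hn
      rw [Finset.mem_Ioc] at hn
      omega
  rw [Finset.sum_congr rfl h1]
  unfold ex
  rw [Finset.sum_comm]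
  have h2 : ∀ p ∈ (Iic (2 * (Y + L))).filter Nat.Prime,
      ∑ n ∈ Ioc x Y, pr w p (Ioc n (n + H n)) ≤
      (if x < p + w p ∧ p - w p ≤ Y + L then (L : ℝ) else 0) := by
    intro p _
    unfold pr
    rw [← Finset.sum_div, div_le_iff₀ (by positivity)]
    have h3 := pairs (Icc (p - w p) (p + w p)) x Y H L hH
    have h4 : (∑ n ∈ Ioc x Y, ((Ioc n (n + H n) ∩ Icc (p - w p) (p + w p)).card : ℝ)) ≤
        L * (Icc (p - w p) (p + w p) ∩ Ioc x (Y + L)).card := by exact_mod_cast h3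
    refine h4.trans ?_
    split_ifs with h
    · have h5 : (Icc (p - w p) (p + w p) ∩ Ioc x (Y + L)).card ≤ 2 * w p + 1 := by
        rw [← card_rg hw p]
        exact Finset.card_le_card Finset.inter_subset_left
      have h6 : ((Icc (p - w p) (p + w p) ∩ Ioc x (Y + L)).card : ℝ) ≤ 2 * w p + 1 := by
        exact_mod_cast h5
      gcongr
    · have h5 : (Icc (p - w p) (p + w p) ∩ Ioc x (Y + L)) = ∅ := by
        rw [← Finset.disjoint_iff_inter_eq_empty, Finset.disjoint_left]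
        intro u hu1 hu2
        rw [Finset.mem_Icc] at hu1
        rw [Finset.mem_Ioc] at hu2
        apply h
        constructor <;> omega
      rw [h5]
      simp
  refine (Finset.sum_le_sum h2).trans ?_
  rw [← Finset.sum_filter, Finset.filter_filter, Finset.sum_const, nsmul_eq_mul, mul_comm]

/-- the primes that can be moved into `(x, 2x + L]` -/
theorem near_primes (hw : ∀ n, 4 * w n ≤ n) (hlin : Tendsto (fun n : ℕ => (w n : ℝ) / n) atTop (𝓝 0))
    {ε c : ℝ} (hε : 0 < ε) (hc : 0 ≤ c) :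
    ∀ᶠ x : ℕ in atTop, ∀ L : ℕ, (L : ℝ) ≤ c * (Real.log x) ^ 2 →
      (((Iic (2 * (2 * x + L))).filter (fun p => p.Prime ∧ x < p + w p ∧ p - w p ≤ 2 * x + L)).card : ℝ)
        ≤ (1 + ε) * (x / Real.log x) := by
  -- choose `δ`
  obtain ⟨δ, hδ0, hδ1, hδ⟩ : ∃ δ : ℝ, 0 < δ ∧ δ < 1 / 2 ∧ (2 + δ) / (1 - δ) - (1 - δ) < 1 + ε := by
    have h1 : Tendsto (fun δ : ℝ => (2 + δ) / (1 - δ) - (1 - δ)) (𝓝[>] 0)
        (𝓝 ((2 + 0) / (1 - 0) - (1 - 0))) := by
      apply Tendsto.mono_left _ nhdsWithin_le_nhds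
      have : ContinuousAt (fun δ : ℝ => (2 + δ) / (1 - δ) - (1 - δ)) 0 := by
        apply ContinuousAt.sub
        · apply ContinuousAt.div (by fun_prop) (by fun_prop)
          norm_num
        · fun_prop
      exact this.tendsto
    have h2 := h1.eventually_lt_const (show (2 + 0) / (1 - 0) - (1 - 0) < 1 + ε by linarith)
    have h3 : ∀ᶠ δ : ℝ in 𝓝[>] 0, δ < 1 / 2 :=
      nhdsWithin_le_nhds (gt_mem_nhds (by norm_num))
    obtain ⟨δ, h4, h5, h6⟩ := (h2.and (h3.and self_mem_nhdsWithin)).exists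
    exact ⟨δ, h6, h5, h4⟩
  obtain ⟨p0, hp0⟩ := eventually_atTop.1 (hlin.eventually_le_const hδ0)
  have hb : 0 < (2 + δ) / (1 - δ) := div_pos (by linarith) (by linarith)
  filter_upwards [pnt_diff (show 0 < 1 - δ by linarith) hb hδ, eventually_ge_atTop (2 * p0 + 1),
    logsq_le_rpow (c / δ) 1 one_pos] with x hx hx0 hx1 L hL
  have hxpos : (0 : ℝ) < x := by
    have : 0 < x := by omega
    exact_mod_cast this
  rw [Real.rpow_one] at hx1
  have hLδ : (L : ℝ) ≤ δ * x := by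
    have h1 : c / δ * (Real.log x) ^ 2 ≤ x := by
      have : 0 ≤ c / δ * (Real.log x) ^ 2 := by positivity
      linarith
    rw [div_mul_eq_mul_div, div_le_iff₀ hδ0] at h1
    linarith
  refine le_trans ?_ hx
  have hsub : (Iic (2 * (2 * x + L))).filter (fun p => p.Prime ∧ x < p + w p ∧ p - w p ≤ 2 * x + L) ⊆
      (Ioc ⌊(1 - δ) * x⌋₊ ⌊(2 + δ) / (1 - δ) * x⌋₊).filter Nat.Prime := by
    intro p hp
    rw [Finset.mem_filter, Finset.mem_Iic] at hp
    obtain ⟨hp1, hp2, hp3, hp4⟩ := hp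
    have hwp := hw p
    have hpp : p0 ≤ p := by omega
    have hppos : (0 : ℝ) < p := by exact_mod_cast hp2.pos
    have h1 := hp0 p hpp
    rw [div_le_iff₀ hppos] at h1
    rw [Finset.mem_filter, Finset.mem_Ioc]
    refine ⟨⟨?_, ?_⟩, hp2⟩
    · rw [Nat.floor_lt (by nlinarith)]
      have h2 : (x : ℝ) < p + w p := by exact_mod_cast hp3
      have h3 : (x : ℝ) < (1 + δ) * p := by linarith
      have h4 : (1 - δ) * x < (1 - δ) * ((1 + δ) * p) := mul_lt_mul_of_pos_left h3 (by linarith)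
      have h5 : (1 - δ) * ((1 + δ) * p) = p - δ ^ 2 * p := by ring
      have h6 : 0 < δ ^ 2 * (p : ℝ) := by positivity
      linarith
    · apply Nat.le_floor
      have h2 : (p : ℝ) - w p ≤ 2 * x + L := by
        have : p ≤ 2 * x + L + w p := by omega
        have : (p : ℝ) ≤ 2 * x + L + w p := by exact_mod_cast this
        linarith
      rw [div_mul_eq_mul_div, le_div_iff₀ (by linarith)]
      nlinarith
  have h1 := Finset.card_le_card hsub
  have h2 : (((Ioc ⌊(1 - δ) * x⌋₊ ⌊(2 + δ) / (1 - δ) * x⌋₊).filter Nat.Prime).card : ℝ) ≤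
      (Nat.primeCounting ⌊(2 + δ) / (1 - δ) * x⌋₊ : ℝ) - Nat.primeCounting ⌊(1 - δ) * x⌋₊ := by
    have hle : ⌊(1 - δ) * x⌋₊ ≤ ⌊(2 + δ) / (1 - δ) * x⌋₊ := by
      apply Nat.floor_le_floor
      have : (1 - δ) ≤ (2 + δ) / (1 - δ) := by
        rw [le_div_iff₀ (by linarith)]
        nlinarith
      gcongr
    have h3 : Nat.primeCounting ⌊(2 + δ) / (1 - δ) * x⌋₊ = Nat.primeCounting ⌊(1 - δ) * x⌋₊ +
        ((Ioc ⌊(1 - δ) * x⌋₊ ⌊(2 + δ) / (1 - δ) * x⌋₊).filter Nat.Prime).card := by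
      have e : ∀ m : ℕ, Nat.primeCounting m = ((Iic m).filter Nat.Prime).card := by
        intro m
        rw [Nat.primeCounting, Nat.primeCounting', Nat.count_eq_card_filter_range]
        congr 2
        ext k
        simp [Nat.lt_succ_iff]
      rw [e, e, ← Finset.card_union_of_disjoint]
      · congr 1
        ext k
        simp only [Finset.mem_filter, Finset.mem_Iic, Finset.mem_union, Finset.mem_Ioc]
        constructor
        · rintro ⟨h, h'⟩
          rcases le_or_gt k ⌊(1 - δ) * x⌋₊ with h'' | h''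
          · exact Or.inl ⟨h'', h'⟩
          · exact Or.inr ⟨⟨h'', h⟩, h'⟩
        · rintro (⟨h, h'⟩ | ⟨⟨h, h''⟩, h'⟩)
          · exact ⟨h.trans hle, h'⟩
          · exact ⟨h'', h'⟩
      · rw [Finset.disjoint_left]
        intro k hk1 hk2
        rw [Finset.mem_filter, Finset.mem_Iic] at hk1
        rw [Finset.mem_filter, Finset.mem_Ioc] at hk2
        omega
    rw [h3]
    push_cast
    linarith
  have h3 : ((((Iic (2 * (2 * x + L))).filter
      (fun p => p.Prime ∧ x < p + w p ∧ p - w p ≤ 2 * x + L)).card : ℕ) : ℝ) ≤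
      (((Ioc ⌊(1 - δ) * x⌋₊ ⌊(2 + δ) / (1 - δ) * x⌋₊).filter Nat.Prime).card : ℕ) := by
    exact_mod_cast h1
  linarith

end Pool.Agent.K4H77.Displ
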