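import Mathlib
import Pool.Agent.K4H77.DC

/-! Displaced primes: ranges larger than `(log n)^2` give `L ≥ 1`. -/

set_option autoImplicit false

open MeasureTheory ProbabilityTheory Filter Finset
open scoped Topology

namespace Pool.Agent.K4H77.Displ

open Pool.Agent.K4H77.Noise (logsq_le_rpow exp_le_one_sub floor_le_logsq freq_gap ev_gap
  le_limsup_seq limsup_seq_le ngap supGap)

variable {Ω : Type*} [MeasurableSpace Ω] {w : ℕ → ℕ}

/-- `log (2 x) ≤ (1 + ε) log x` -/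
theorem log_two_mul_le {ε : ℝ} (hε : 0 < ε) :
    ∀ᶠ x : ℕ in atTop, Real.log (2 * x) ≤ (1 + ε) * Real.log x := by
  filter_upwards [tlog.eventually_ge_atTop (1 / ε), eventually_ge_atTop 1] with x hx hx1
  have hx0 : (0 : ℝ) < x := by exact_mod_cast hx1
  rw [Real.log_mul (by norm_num) hx0.ne']
  have := Real.log_two_lt_d9
  rw [div_le_iff₀ hε] at hx
  nlinarith

theorem few_block (hw : ∀ n, 4 * w n ≤ n) (hlin : Tendsto (fun n : ℕ => (w n : ℝ) / n) atTop (𝓝 0))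
    {c κ : ℝ} (hc : 0 < c) (hcκ : c < κ) [DecidablePred (Few w c κ)] :
    ∃ ρ : ℝ, 0 < ρ ∧ ∀ᶠ x : ℕ in atTop,
      ρ * x ≤ (((Ioc x (2 * x)).filter (Few w c κ)).card : ℝ) := by
  have hκ : 0 < κ := hc.trans hcκ
  obtain ⟨ε, hε0, hε⟩ : ∃ ε : ℝ, 0 < ε ∧ (1 + ε) ^ 3 * (c / κ) < 1 := by
    have h1 : Tendsto (fun ε : ℝ => (1 + ε) ^ 3 * (c / κ)) (𝓝[>] 0) (𝓝 ((1 + 0) ^ 3 * (c / κ))) := by
      apply Tendsto.mono_left _ nhdsWithin_le_nhds
      apply ContinuousAt.tendsto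
      fun_prop
    have h0 : (1 + 0) ^ 3 * (c / κ) < 1 := by
      rw [add_zero, one_pow, one_mul, div_lt_one hκ]
      exact hcκ
    obtain ⟨ε, h2, h3⟩ := ((h1.eventually_lt_const h0).and self_mem_nhdsWithin).exists
    exact ⟨ε, h3, h2⟩
  refine ⟨1 - (1 + ε) ^ 3 * (c / κ), by linarith, ?_⟩
  filter_upwards [near_primes hw hlin hε0 (show 0 ≤ (1 + ε) ^ 2 * c by positivity),
    log_two_mul_le hε0, tlog.eventually_gt_atTop 0, eventually_ge_atTop 1] with x hx hx2 hl hx1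
  have hx0 : (0 : ℝ) < x := by exact_mod_cast hx1
  have hx1' : (1 : ℝ) ≤ x := by exact_mod_cast hx1
  set L : ℕ := ⌊c * (Real.log (2 * x)) ^ 2⌋₊ with hL
  have hlog2 : 0 ≤ Real.log (2 * (x : ℝ)) := Real.log_nonneg (by linarith)
  have hLle : (L : ℝ) ≤ (1 + ε) ^ 2 * c * (Real.log x) ^ 2 := by
    calc (L : ℝ) ≤ c * (Real.log (2 * x)) ^ 2 := Nat.floor_le (by positivity)
      _ ≤ c * ((1 + ε) * Real.log x) ^ 2 := by gcongr
      _ = _ := by ring
  have h1 := sum_ex hw x (2 * x) (fun n => ⌊c * (Real.log n) ^ 2⌋₊) L (by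
    intro n hn
    rw [Finset.mem_Ioc] at hn
    apply Nat.floor_le_floor
    have hn0 : (0 : ℝ) < n := by
      have : 0 < n := by omega
      exact_mod_cast this
    have hn2 : (n : ℝ) ≤ 2 * x := by exact_mod_cast hn.2
    have hn1 : (x : ℝ) ≤ n := by exact_mod_cast hn.1.le
    have h3 : 0 ≤ Real.log (n : ℝ) := Real.log_nonneg (by linarith)
    have h4 := Real.log_le_log hn0 hn2
    gcongr)
  have h2 := hx L hLle
  have h3 : ∑ n ∈ Ioc x (2 * x), ex w (Ioc n (n + ⌊c * (Real.log n) ^ 2⌋₊))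
      (2 * (n + ⌊c * (Real.log n) ^ 2⌋₊)) ≤ (1 + ε) ^ 3 * c * (x * Real.log x) := by
    refine h1.trans ?_
    calc _ ≤ ((1 + ε) ^ 2 * c * (Real.log x) ^ 2) * ((1 + ε) * (x / Real.log x)) := by
          gcongr
      _ = _ := by field_simp
  -- Markov
  set B := (Ioc x (2 * x)).filter (fun n => ¬ Few w c κ n) with hB
  have h4 : (B.card : ℝ) * (κ * Real.log x) ≤ (1 + ε) ^ 3 * c * (x * Real.log x) := by
    refine le_trans ?_ h3
    calc (B.card : ℝ) * (κ * Real.log x) = ∑ n ∈ B, κ * Real.log x := by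
          rw [Finset.sum_const, nsmul_eq_mul]
      _ ≤ ∑ n ∈ B, ex w (Ioc n (n + ⌊c * (Real.log n) ^ 2⌋₊)) (2 * (n + ⌊c * (Real.log n) ^ 2⌋₊)) := by
          apply Finset.sum_le_sum
          intro n hn
          rw [hB, Finset.mem_filter, Finset.mem_Ioc] at hn
          have h5 := hn.2
          unfold Few at h5
          push Not at h5
          refine le_trans ?_ h5.le
          have h6 : (x : ℝ) ≤ n := by exact_mod_cast hn.1.1.le
          gcongr
      _ ≤ _ := Finset.sum_le_sum_of_subset_of_nonneg (Finset.filter_subset _ _)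
          (fun n _ _ => ex_nonneg _ _)
  have h5 : (B.card : ℝ) ≤ (1 + ε) ^ 3 * (c / κ) * x := by
    have h6 : (B.card : ℝ) * (κ * Real.log x) ≤ ((1 + ε) ^ 3 * (c / κ) * x) * (κ * Real.log x) := by
      refine h4.trans (le_of_eq ?_)
      field_simp
    exact le_of_mul_le_mul_right h6 (by positivity)
  have h7 : ((Ioc x (2 * x)).filter (Few w c κ)).card + B.card = x := by
    rw [hB, Finset.card_filter_add_card_filter_not, Nat.card_Ioc]
    omega
  have h8 : ((((Ioc x (2 * x)).filter (Few w c κ)).card : ℕ) : ℝ) + (B.card : ℕ) = x := by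
    exact_mod_cast h7
  linarith

theorem few_many (hw : ∀ n, 4 * w n ≤ n) (hlin : Tendsto (fun n : ℕ => (w n : ℝ) / n) atTop (𝓝 0))
    {c κ : ℝ} (hc : 0 < c) (hcκ : c < κ) [DecidablePred (Few w c κ)] (η : ℝ) (hη : 0 < η) :
    ∀ᶠ x : ℕ in atTop, (x : ℝ) ^ (1 - η) ≤ (((Icc 1 x).filter (Few w c κ)).card : ℝ) := by
  obtain ⟨ρ, hρ, h⟩ := few_block hw hlin hc hcκ
  have hhalf : Tendsto (fun x : ℕ => x / 2) atTop atTop :=
    Nat.tendsto_div_const_atTop (by norm_num)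
  have e1 : ∀ᶠ x : ℕ in atTop, 4 / ρ ≤ (x : ℝ) ^ η :=
    ((tendsto_rpow_atTop hη).comp (tendsto_natCast_atTop_atTop (R := ℝ))).eventually_ge_atTop _
  filter_upwards [hhalf.eventually h, e1, eventually_ge_atTop 2] with x h1 h2 h3
  have hx0 : (0 : ℝ) < x := by
    have : 0 < x := by omega
    exact_mod_cast this
  have h4 : (x : ℝ) / 4 ≤ ((x / 2 : ℕ) : ℝ) := by
    have : x ≤ 4 * (x / 2) := by omega
    have : (x : ℝ) ≤ 4 * ((x / 2 : ℕ) : ℝ) := by exact_mod_cast this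
    linarith
  have h5 : (Ioc (x / 2) (2 * (x / 2))).filter (Few w c κ) ⊆ (Icc 1 x).filter (Few w c κ) := by
    intro n hn
    rw [Finset.mem_filter, Finset.mem_Ioc] at hn
    rw [Finset.mem_filter, Finset.mem_Icc]
    exact ⟨⟨by omega, by omega⟩, hn.2⟩
  have h6 : ((((Ioc (x / 2) (2 * (x / 2))).filter (Few w c κ)).card : ℕ) : ℝ) ≤
      (((Icc 1 x).filter (Few w c κ)).card : ℕ) := by
    exact_mod_cast Finset.card_le_card h5
  refine le_trans ?_ (h1.trans h6)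
  have h7 : (x : ℝ) ^ (1 - η) * (x : ℝ) ^ η = x := by
    rw [← Real.rpow_add hx0, sub_add_cancel, Real.rpow_one]
  have h8 : 0 < (x : ℝ) ^ η := by positivity
  have h9 : (x : ℝ) ^ (1 - η) = x / (x : ℝ) ^ η := by
    rw [eq_div_iff h8.ne', h7]
  rw [h9, div_le_iff₀ h8]
  calc (x : ℝ) = ρ * (x / 4) * (4 / ρ) := by field_simp
    _ ≤ ρ * ((x / 2 : ℕ) : ℝ) * (x : ℝ) ^ η := by gcongr

/-- if the range is larger than `(log n)^2`, no single prime matters -/
theorem pr_small (hw : ∀ n, 4 * w n ≤ n)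
    (hbig : Tendsto (fun n : ℕ => (w n : ℝ) / (Real.log n) ^ 2) atTop atTop) {c θ : ℝ} (hc : 0 < c)
    (hθ : 0 < θ) :
    ∀ᶠ n : ℕ in atTop, ∀ p : ℕ, pr w p (Ioc n (n + ⌊c * (Real.log n) ^ 2⌋₊)) ≤ θ := by
  obtain ⟨p0, hp0⟩ := eventually_atTop.1 (hbig.eventually_ge_atTop (2 * c / θ))
  filter_upwards [eventually_ge_atTop (2 * p0 + 4), eventually_ge_atTop 4] with n hn hn4 p
  by_cases hd : Disjoint (Ioc n (n + ⌊c * (Real.log n) ^ 2⌋₊)) (Icc (p - w p) (p + w p))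
  · rw [pr_eq_zero hd]
    exact hθ.le
  · rw [Finset.not_disjoint_iff] at hd
    obtain ⟨u, hu1, hu2⟩ := hd
    rw [Finset.mem_Ioc] at hu1
    rw [Finset.mem_Icc] at hu2
    have h1 := hw p
    have h2 : n ≤ 2 * p := by omega
    have h3 := hp0 p (by omega)
    have hn0 : (4 : ℝ) ≤ n := by exact_mod_cast hn4
    have hp' : (n : ℝ) / 2 ≤ p := by
      have : (n : ℝ) ≤ 2 * p := by exact_mod_cast h2
      linarith
    have h4 : Real.log n / 2 ≤ Real.log p := by
      have h5 : Real.log n ≤ Real.log ((p : ℝ) ^ 2) := by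
        apply Real.log_le_log (by linarith)
        nlinarith
      rw [Real.log_pow] at h5
      push_cast at h5
      linarith
    have hl : 0 < Real.log n := Real.log_pos (by linarith)
    have hlp : 0 < Real.log p := by linarith
    rw [le_div_iff₀ (by positivity)] at h3
    have h6 : 2 * c / θ * (Real.log n / 2) ^ 2 ≤ w p := by
      refine le_trans ?_ h3
      gcongr
    have h7 : c * (Real.log n) ^ 2 ≤ θ * (2 * w p + 1) := by
      have h8 : 2 * c / θ * (Real.log n / 2) ^ 2 * θ = c * (Real.log n) ^ 2 / 2 := by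
        field_simp
      have h9 : 2 * c / θ * (Real.log n / 2) ^ 2 * θ ≤ w p * θ := by gcongr
      nlinarith
    refine (pr_le_card p _).trans ?_
    rw [div_le_iff₀ (by positivity), Nat.card_Ioc, Nat.add_sub_cancel_left]
    exact (floor_le_logsq hc.le n).trans h7

omit [MeasurableSpace Ω] in
/-- the displaced set is infinite -/
theorem dset_inf (hw : ∀ n, 4 * w n ≤ n) {X : ℕ → Ω → ℕ}
    (hmem : ∀ p ω, X p ω ∈ Icc (p - w p) (p + w p)) (ω : Ω) : (dset X ω).Infinite := by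
  rw [Set.infinite_iff_exists_gt]
  intro N
  obtain ⟨p, hp1, hp2⟩ := Nat.exists_infinite_primes (2 * N + 2)
  refine ⟨X p ω, ⟨p, hp2, rfl⟩, ?_⟩
  have h1 := hmem p ω
  rw [Finset.mem_Icc] at h1
  have := hw p
  omega

omit [MeasurableSpace Ω] in
theorem miss_dset {X : ℕ → Ω → ℕ} {n H : ℕ} {ω : Ω} (h : ω ∈ miss X (Ioc n (n + H))) :
    ∀ j ∈ Icc 1 H, n + j ∉ dset X ω := by
  rintro j hj ⟨p, hp, hpj⟩
  rw [Finset.mem_Icc] at hj
  refine h p hp ?_
  rw [hpj, Finset.mem_Ioc]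
  omega

theorem rpow_le_exp_mul {a σ : ℝ} (h : a ≤ σ) {n : ℕ} (hn : 1 ≤ n) :
    (n : ℝ) ^ (-σ) ≤ Real.exp (-(a * Real.log n)) := by
  have hn' : (0 : ℝ) < n := by exact_mod_cast hn
  have hl : 0 ≤ Real.log n := Real.log_natCast_nonneg n
  rw [Real.rpow_def_of_pos hn']
  apply Real.exp_le_exp.2
  nlinarith

/-- ranges larger than `(log n)^2` -/
theorem lower_one (hw : ∀ n, 4 * w n ≤ n)
    (hlin : Tendsto (fun n : ℕ => (w n : ℝ) / n) atTop (𝓝 0))
    (hbig : Tendsto (fun n : ℕ => (w n : ℝ) / (Real.log n) ^ 2) atTop atTop)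
    (P : Measure Ω) [IsProbabilityMeasure P] {X : ℕ → Ω → ℕ} (hX : Displaced w P X) :
    ∀ᵐ ω ∂P, 1 ≤ supGap (dset X ω) := by
  have key : ∀ c : ℝ, 0 < c → c < 1 → ∀ᵐ ω ∂P, ∃ᶠ k in atTop, c ≤ ngap (dset X ω) k := by
    intro c hc hc1
    obtain ⟨κ, hκ, hκ1⟩ := exists_between hc1
    obtain ⟨σ, hσ, hσ1⟩ := exists_between hκ1
    have hκ0 : 0 < κ := hc.trans hκ
    set θ := min (1 / 2) ((σ - κ) / (2 * κ)) with hθ
    have hθ0 : 0 < θ := lt_min (by norm_num) (div_pos (by linarith) (by linarith))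
    have hθ1 : θ ≤ 1 / 2 := min_le_left _ _
    have hθ2 : (1 + 2 * θ) * κ ≤ σ := by
      have h1 : θ ≤ (σ - κ) / (2 * κ) := min_le_right _ _
      rw [le_div_iff₀ (by linarith)] at h1
      nlinarith
    have h := ae_often hw P hX (Few w c κ) (fun n => ⌊c * (Real.log n) ^ 2⌋₊)
      (fun n => Ioc n (n + ⌊c * (Real.log n) ^ 2⌋₊)) σ c (by linarith) hσ1 hc.le
      (Eventually.of_forall fun n => floor_le_logsq hc.le n)
      (fun n => Finset.Ioc_subset_Icc_self)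
      (by
        filter_upwards [pr_small hw hbig hc hθ0, eventually_ge_atTop 1] with n h1 hn h2
        refine le_trans ?_ (miss_ge hw hX (M := 2 * (n + ⌊c * (Real.log n) ^ 2⌋₊))
          (fun p _ hp => far hw (fun u hu => (Finset.mem_Ioc.1 hu).2) hp) hθ1 h1)
        refine (rpow_le_exp_mul hθ2 hn).trans ?_
        apply Real.exp_le_exp.2
        unfold Few at h2
        have h3 : (1 + 2 * θ) * ex w (Ioc n (n + ⌊c * (Real.log n) ^ 2⌋₊))
            (2 * (n + ⌊c * (Real.log n) ^ 2⌋₊)) ≤ (1 + 2 * θ) * (κ * Real.log n) := by gcongr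
        unfold ex at h3
        linarith)
      (fun η hη => few_many hw hlin hc hκ η hη)
    filter_upwards [h] with ω hω
    apply freq_gap (dset_inf hw hX.mem ω) hc.le
    exact hω.mono fun n hn => miss_dset hn.2
  have h2 : ∀ᵐ ω ∂P, ∀ j : ℕ, ∃ᶠ k in atTop, 1 * (1 - 1 / ((j : ℝ) + 2)) ≤ ngap (dset X ω) k := by
    rw [ae_all_iff]
    intro j
    have hj : (0 : ℝ) ≤ j := Nat.cast_nonneg j
    have h3 : 1 / ((j : ℝ) + 2) < 1 := by
      rw [div_lt_one (by positivity)]; linarith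
    have h4 : 0 < 1 / ((j : ℝ) + 2) := by positivity
    rw [one_mul]
    exact key _ (by linarith) (by linarith)
  filter_upwards [h2] with ω hω
  have h3 := le_limsup_seq hω
  rw [ENNReal.ofReal_one] at h3
  exact h3

end Pool.Agent.K4H77.Displ
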