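import Mathlib
import Pool.Agent.K4H77.DD

/-! Displaced primes: ranges comparable to `(log n)^2`. -/

set_option autoImplicit false

open MeasureTheory ProbabilityTheory Filter Finset
open Pool.Agent.H510R2.Maier
open scoped Topology

namespace Pool.Agent.K4H77.Displ

open Pool.Agent.K4H77.Noise (logsq_le_rpow exp_le_one_sub floor_le_logsq freq_gap ev_gap
  le_limsup_seq limsup_seq_le ngap supGap Wn Wn_many exp_gamma_lt)

variable {Ω : Type*} [MeasurableSpace Ω] {w : ℕ → ℕ}

/-- the cost, in units of `log n`, of an empty window of length `c (log n)^2` when the range is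
`lam (log n)^2` -/
noncomputable def dcost (lam c : ℝ) : ℝ :=
  Real.exp Real.eulerMascheroniConstant / 2 * (2 * lam + c) * Real.log (2 * lam / (2 * lam - c))

/-- choice of the parameters -/
theorem dparams {lam c : ℝ} (hlam : 0 < lam) (hc0 : 0 < c) (hc2 : c < 2 * lam)
    (hcost : dcost lam c < 1) : ∃ ε κ₁ : ℝ, 0 < ε ∧ ε < 1 ∧ 0 < κ₁ ∧
      c * (1 + ε) < 2 * lam * (1 - ε) ∧
      2 * (lam * (1 + 2 * ε)) + c * (1 + ε) < 2 * Real.exp (-Real.eulerMascheroniConstant) * κ₁ ∧
      κ₁ * Real.log (1 / (1 - c * (1 + ε) / (2 * lam * (1 - ε)))) < 1 := by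
  set E := Real.exp Real.eulerMascheroniConstant with hE
  have hE0 : 0 < E := Real.exp_pos _
  have hEi : Real.exp (-Real.eulerMascheroniConstant) = 1 / E := by
    rw [Real.exp_neg, one_div]
  have hne : 2 * lam - c ≠ 0 := by linarith
  have hpos : 1 - c * (1 + 0) / (2 * lam * (1 - 0)) ≠ 0 := by
    rw [add_zero, sub_zero, mul_one, mul_one]
    have : c / (2 * lam) < 1 := by
      rw [div_lt_one (by positivity)]; exact hc2
    linarith
  have hcont : ContinuousAt (fun ε : ℝ => (E / 2 * (2 * (lam * (1 + 2 * ε)) + c * (1 + ε)) + ε) *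
      Real.log (1 / (1 - c * (1 + ε) / (2 * lam * (1 - ε))))) 0 := by
    have h1 : ContinuousAt (fun ε : ℝ => 1 - c * (1 + ε) / (2 * lam * (1 - ε))) 0 := by
      apply ContinuousAt.sub (by fun_prop)
      apply ContinuousAt.div (by fun_prop) (by fun_prop)
      rw [sub_zero, mul_one]
      positivity
    apply ContinuousAt.mul (by fun_prop)
    apply ContinuousAt.log
    · exact ContinuousAt.div (by fun_prop) h1 hpos
    · exact one_div_ne_zero hpos
  have hval : (E / 2 * (2 * (lam * (1 + 2 * 0)) + c * (1 + 0)) + 0) *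
      Real.log (1 / (1 - c * (1 + 0) / (2 * lam * (1 - 0)))) < 1 := by
    refine lt_of_le_of_lt (le_of_eq ?_) hcost
    unfold dcost
    rw [← hE]
    have : 1 / (1 - c * (1 + 0) / (2 * lam * (1 - 0))) = 2 * lam / (2 * lam - c) := by
      rw [add_zero, sub_zero, mul_one, mul_one]
      field_simp
    rw [this]
    ring
  have h1 : Tendsto (fun ε : ℝ => (E / 2 * (2 * (lam * (1 + 2 * ε)) + c * (1 + ε)) + ε) *
      Real.log (1 / (1 - c * (1 + ε) / (2 * lam * (1 - ε))))) (𝓝[>] 0) (𝓝 _) :=
    hcont.tendsto.mono_left nhdsWithin_le_nhds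
  have h2 := h1.eventually_lt_const hval
  have h3 : Tendsto (fun ε : ℝ => 2 * lam * (1 - ε) - c * (1 + ε)) (𝓝[>] 0)
      (𝓝 (2 * lam * (1 - 0) - c * (1 + 0))) := by
    apply Tendsto.mono_left _ nhdsWithin_le_nhds
    apply ContinuousAt.tendsto
    fun_prop
  have h4 := h3.eventually_const_lt (show (0 : ℝ) < 2 * lam * (1 - 0) - c * (1 + 0) by linarith)
  have h5 : ∀ᶠ ε : ℝ in 𝓝[>] 0, ε < 1 := nhdsWithin_le_nhds (gt_mem_nhds (by norm_num))
  obtain ⟨ε, g1, g2, g3, g4⟩ := (h2.and (h4.and (h5.and self_mem_nhdsWithin))).exists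
  have g4' : 0 < ε := g4
  refine ⟨ε, E / 2 * (2 * (lam * (1 + 2 * ε)) + c * (1 + ε)) + ε, g4, g3, by positivity,
    by linarith, ?_, g1⟩
  rw [hEi]
  have : 2 * (1 / E) * (E / 2 * (2 * (lam * (1 + 2 * ε)) + c * (1 + ε)) + ε) =
      (2 * (lam * (1 + 2 * ε)) + c * (1 + ε)) + 2 * ε / E := by field_simp
  rw [this]
  have : 0 < 2 * ε / E := by positivity
  linarith

/-- `n ≤ 2 p` implies that the logarithms are close, if `p ≤ 2 n` -/
theorem logsq_close {ε : ℝ} (hε : 0 < ε) : ∀ᶠ n : ℕ in atTop, ∀ p : ℕ, n ≤ 2 * p → p ≤ 2 * n →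
    (1 - ε) * (Real.log n) ^ 2 ≤ (Real.log p) ^ 2 ∧ (Real.log p) ^ 2 ≤ (1 + ε) * (Real.log n) ^ 2 := by
  filter_upwards [tlog.eventually_ge_atTop (4 / ε), tlog.eventually_ge_atTop 2,
    eventually_ge_atTop 4] with n h1 h2 h3 p hp1 hp2
  have hn : (4 : ℝ) ≤ n := by exact_mod_cast h3
  have hp1' : (n : ℝ) ≤ 2 * p := by exact_mod_cast hp1
  have hp2' : (p : ℝ) ≤ 2 * n := by exact_mod_cast hp2
  have hp0 : (0 : ℝ) < p := by linarith
  have hl2 := Real.log_two_lt_d9
  have hl2' := Real.log_two_gt_d9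
  have e1 : Real.log n ≤ Real.log p + 1 := by
    have : Real.log n ≤ Real.log (2 * p) := Real.log_le_log (by linarith) hp1'
    rw [Real.log_mul (by norm_num) hp0.ne'] at this
    linarith
  have e2 : Real.log p ≤ Real.log n + 1 := by
    have : Real.log p ≤ Real.log (2 * n) := Real.log_le_log hp0 hp2'
    rw [Real.log_mul (by norm_num) (by linarith)] at this
    linarith
  rw [div_le_iff₀ hε] at h1
  constructor
  · have e3 : (Real.log n - 1) ^ 2 ≤ (Real.log p) ^ 2 :=
      pow_le_pow_left₀ (by linarith) (by linarith) 2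
    nlinarith
  · have e3 : (Real.log p) ^ 2 ≤ (Real.log n + 1) ^ 2 :=
      pow_le_pow_left₀ (by linarith) e2 2
    nlinarith

/-- the range near `n` -/
theorem range_close {lam : ℝ} (hlam : 0 < lam)
    (hlim : Tendsto (fun n : ℕ => (w n : ℝ) / (Real.log n) ^ 2) atTop (𝓝 lam)) {ε : ℝ} (hε : 0 < ε)
    (hε1 : ε < 1) :
    ∀ᶠ n : ℕ in atTop, ∀ p : ℕ, n ≤ 2 * p → p ≤ 2 * n →
      lam * (1 - ε) * (Real.log n) ^ 2 ≤ w p ∧ (w p : ℝ) ≤ lam * (1 + ε) * (Real.log n) ^ 2 := by
  have h1 : ∀ᶠ p : ℕ in atTop, lam * (1 - ε / 3) < (w p : ℝ) / (Real.log p) ^ 2 :=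
    hlim.eventually_const_lt (by nlinarith)
  have h2 : ∀ᶠ p : ℕ in atTop, (w p : ℝ) / (Real.log p) ^ 2 < lam * (1 + ε / 3) :=
    hlim.eventually_lt_const (by nlinarith)
  obtain ⟨p0, hp0⟩ := eventually_atTop.1 (h1.and h2)
  filter_upwards [logsq_close (show 0 < ε / 3 by positivity), eventually_ge_atTop (2 * p0),
    tlog.eventually_ge_atTop 2, eventually_ge_atTop 4] with n h3 h4 h5 h6 p hp1 hp2
  obtain ⟨h7, h8⟩ := h3 p hp1 hp2
  obtain ⟨h9, h10⟩ := hp0 p (by omega)
  have hlp : 0 < (Real.log p) ^ 2 := by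
    refine lt_of_lt_of_le ?_ h7
    have : 0 < 1 - ε / 3 := by linarith
    positivity
  rw [lt_div_iff₀ hlp] at h9
  rw [div_lt_iff₀ hlp] at h10
  have hL : 0 < (Real.log n) ^ 2 := by positivity
  constructor
  · calc lam * (1 - ε) * (Real.log n) ^ 2 ≤ lam * ((1 - ε / 3) * ((1 - ε / 3) * (Real.log n) ^ 2)) := by
          have : (1 - ε) ≤ (1 - ε / 3) * (1 - ε / 3) := by nlinarith
          have := mul_le_mul_of_nonneg_right this hL.le
          nlinarith
      _ ≤ lam * ((1 - ε / 3) * (Real.log p) ^ 2) := by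
          have : 0 ≤ 1 - ε / 3 := by linarith
          gcongr
      _ ≤ w p := by linarith
  · calc (w p : ℝ) ≤ lam * ((1 + ε / 3) * (Real.log p) ^ 2) := by linarith
      _ ≤ lam * ((1 + ε / 3) * ((1 + ε / 3) * (Real.log n) ^ 2)) := by gcongr
      _ ≤ lam * (1 + ε) * (Real.log n) ^ 2 := by
          have : (1 + ε / 3) * (1 + ε / 3) ≤ (1 + ε) := by nlinarith
          have := mul_le_mul_of_nonneg_right this hL.le
          nlinarith

/-- ranges comparable to `(log n)^2`: the windows after few primes -/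
theorem small_range (hw : ∀ n, 4 * w n ≤ n) {lam c : ℝ} (hlam : 0 < lam) (hc0 : 0 < c)
    (hc2 : c < 2 * lam) (hcost : dcost lam c < 1)
    (hlim : Tendsto (fun n : ℕ => (w n : ℝ) / (Real.log n) ^ 2) atTop (𝓝 lam))
    (P : Measure Ω) [IsProbabilityMeasure P] {X : ℕ → Ω → ℕ} (hX : Displaced w P X) :
    ∀ᵐ ω ∂P, ENNReal.ofReal c ≤ supGap (dset X ω) := by
  obtain ⟨ε, κ₁, hε, hε1, hκ₁, hp1, hp2, hp3⟩ := dparams hlam hc0 hc2 hcost
  set c' := c * (1 + ε) with hc'
  have hc'0 : 0 < c' := by positivity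
  set c₂ := 2 * (lam * (1 + 2 * ε)) + c' with hc₂
  set θ := c' / (2 * lam * (1 - ε)) with hθ
  have hden : 0 < 2 * lam * (1 - ε) := by
    have : 0 < 1 - ε := by linarith
    positivity
  have hθ0 : 0 < θ := by positivity
  have hθ1 : θ < 1 := by rw [hθ, div_lt_one hden]; exact hp1
  obtain ⟨σ, hσ1, hσ2⟩ := exists_between hp3
  have hlogθ : 0 ≤ Real.log (1 / (1 - θ)) := by
    apply Real.log_nonneg
    rw [le_div_iff₀ (by linarith)]
    linarith
  set s : ℕ → ℕ := fun n => ⌊lam * (1 + 2 * ε) * (Real.log n) ^ 2⌋₊ with hs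
  set H : ℕ → ℕ := fun n => ⌊c' * (Real.log n) ^ 2⌋₊ with hH
  have hlam2 : 0 ≤ lam * (1 + 2 * ε) := by positivity
  have key := ae_often hw P hX (Wn κ₁ c₂) (fun n => s n + H n)
    (fun n => Ioc (n + s n) (n + s n + H n)) σ c₂ (by
      have : 0 ≤ κ₁ * Real.log (1 / (1 - θ)) := by positivity
      linarith) hσ2 (by positivity)
    (by
      filter_upwards with n
      push_cast
      have h1 := floor_le_logsq hlam2 n
      have h2 := floor_le_logsq hc'0.le n
      have h3 : 0 ≤ lam * (1 + 2 * ε) * (Real.log n) ^ 2 := by positivity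
      rw [hc₂]
      simp only [hs, hH]
      linarith)
    (fun n => by
      intro u hu
      rw [Finset.mem_Ioc] at hu
      rw [Finset.mem_Icc]
      omega)
    (by
      filter_upwards [range_close hlam hlim hε hε1, logsq_le_rpow (c₂ + 1) 1 one_pos,
        tlog.eventually_ge_atTop 1, tlog.eventually_ge_atTop (1 / (lam * ε)),
        eventually_ge_atTop 4] with n h1 h2 h3 h3' h4 h5
      rw [Real.rpow_one] at h2
      have hn0 : (4 : ℝ) ≤ n := by exact_mod_cast h4
      have hL1 : 1 ≤ (Real.log n) ^ 2 := by nlinarith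
      have hsH : ((s n + H n : ℕ) : ℝ) ≤ c₂ * (Real.log n) ^ 2 := by
        push_cast
        have g1 := floor_le_logsq hlam2 n
        have g2 := floor_le_logsq hc'0.le n
        have g3 : 0 ≤ lam * (1 + 2 * ε) * (Real.log n) ^ 2 := by positivity
        rw [hc₂]
        simp only [hs, hH]
        linarith
      have hsH2 : 2 * (s n + H n) ≤ n := by
        have : 2 * ((s n + H n : ℕ) : ℝ) ≤ n := by nlinarith
        exact_mod_cast this
      -- the relevant primes
      have hrel : ∀ p : ℕ, ¬ Disjoint (Ioc (n + s n) (n + s n + H n)) (Icc (p - w p) (p + w p)) →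
          n < p ∧ p ≤ n + ⌊c₂ * (Real.log n) ^ 2⌋₊ ∧ pr w p (Ioc (n + s n) (n + s n + H n)) ≤ θ := by
        intro p hp
        rw [Finset.not_disjoint_iff] at hp
        obtain ⟨u, hu1, hu2⟩ := hp
        rw [Finset.mem_Ioc] at hu1
        rw [Finset.mem_Icc] at hu2
        have hwp := hw p
        obtain ⟨g1, g2⟩ := h1 p (by omega) (by omega)
        have g3 : w p ≤ s n := by
          rw [hs]
          apply Nat.le_floor
          nlinarith
        refine ⟨by omega, ?_, ?_⟩
        · have g4 : s n + H n + w p ≤ ⌊c₂ * (Real.log n) ^ 2⌋₊ := by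
            apply Nat.le_floor
            push_cast
            have g5 := floor_le_logsq hlam2 n
            have g6 := floor_le_logsq hc'0.le n
            have g7 : lam * (1 + ε) * (Real.log n) ^ 2 ≤ lam * (1 + 2 * ε) * (Real.log n) ^ 2 := by
              gcongr
              linarith
            rw [hc₂]
            simp only [hs, hH]
            linarith
          omega
        · refine (pr_le_card p _).trans ?_
          rw [Nat.card_Ioc, Nat.add_sub_cancel_left, hθ, div_le_div_iff₀ (by positivity) hden]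
          have g5 := floor_le_logsq hc'0.le n
          have g6 : ((H n : ℕ) : ℝ) ≤ c' * (Real.log n) ^ 2 := g5
          calc ((H n : ℕ) : ℝ) * (2 * lam * (1 - ε)) ≤ c' * (Real.log n) ^ 2 * (2 * lam * (1 - ε)) := by
                gcongr
            _ = c' * (2 * (lam * (1 - ε) * (Real.log n) ^ 2)) := by ring
            _ ≤ c' * (2 * w p + 1) := by
                apply mul_le_mul_of_nonneg_left _ hc'0.le
                linarith
      rw [prob_miss hw hX (M := 2 * (n + s n + H n))
        (fun p _ hp => far hw (fun u hu => (Finset.mem_Ioc.1 hu).2) hp)]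
      set T := (Ioc n (n + ⌊c₂ * (Real.log n) ^ 2⌋₊)).filter Nat.Prime with hT
      have hcard : T.card = cnt n ⌊c₂ * (Real.log n) ^ 2⌋₊ := by
        unfold cnt
        rw [hT]
        symm
        apply Finset.card_bij (fun h _ => n + h)
        · intro h hh
          rw [Finset.mem_filter, Finset.mem_Icc] at hh
          rw [Finset.mem_filter, Finset.mem_Ioc]
          exact ⟨by omega, hh.2⟩
        · intro a _ b _ hab
          omega
        · intro b hb
          rw [Finset.mem_filter, Finset.mem_Ioc] at hb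
          refine ⟨b - n, ?_, by omega⟩
          rw [Finset.mem_filter, Finset.mem_Icc]
          refine ⟨by omega, ?_⟩
          rw [show n + (b - n) = b by omega]
          exact hb.2
      have hprod : (1 - θ) ^ T.card ≤
          ∏ p ∈ (Iic (2 * (n + s n + H n))).filter Nat.Prime,
            (1 - pr w p (Ioc (n + s n) (n + s n + H n))) := by
        have g1 : ∏ p ∈ (Iic (2 * (n + s n + H n))).filter Nat.Prime, (if p ∈ T then (1 - θ) else 1) ≤
            ∏ p ∈ (Iic (2 * (n + s n + H n))).filter Nat.Prime,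
              (1 - pr w p (Ioc (n + s n) (n + s n + H n))) := by
          apply Finset.prod_le_prod
          · intro p _
            split_ifs <;> linarith
          · intro p hp
            rw [Finset.mem_filter] at hp
            by_cases hd : Disjoint (Ioc (n + s n) (n + s n + H n)) (Icc (p - w p) (p + w p))
            · rw [pr_eq_zero hd]
              split_ifs <;> linarith
            · obtain ⟨g2, g3, g4⟩ := hrel p hd
              rw [if_pos (by
                rw [hT, Finset.mem_filter, Finset.mem_Ioc]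
                exact ⟨⟨g2, g3⟩, hp.2⟩)]
              linarith
        refine le_trans ?_ g1
        rw [Finset.prod_ite, Finset.prod_const, Finset.prod_const_one, mul_one]
        apply pow_le_pow_of_le_one (by linarith) (by linarith)
        apply Finset.card_le_card
        intro p hp
        exact (Finset.mem_filter.1 hp).2
      refine le_trans ?_ hprod
      have hW : ((cnt n ⌊c₂ * (Real.log n) ^ 2⌋₊ : ℕ) : ℝ) ≤ κ₁ * Real.log n := h5
      rw [hcard]
      have hθp : 0 < 1 - θ := by linarith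
      have e1 : (1 - θ) ^ (cnt n ⌊c₂ * (Real.log n) ^ 2⌋₊) =
          Real.exp (-((cnt n ⌊c₂ * (Real.log n) ^ 2⌋₊ : ℕ) * Real.log (1 / (1 - θ)))) := by
        rw [one_div, Real.log_inv, mul_neg, neg_neg, Real.exp_nat_mul, Real.exp_log hθp]
      rw [e1]
      refine (rpow_le_exp_mul (a := κ₁ * Real.log (1 / (1 - θ))) hσ1.le (by omega)).trans ?_
      apply Real.exp_le_exp.2
      apply neg_le_neg
      calc ((cnt n ⌊c₂ * (Real.log n) ^ 2⌋₊ : ℕ) : ℝ) * Real.log (1 / (1 - θ)) ≤
            (κ₁ * Real.log n) * Real.log (1 / (1 - θ)) := by gcongr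
        _ = _ := by ring)
    (fun η hη => Wn_many κ₁ c₂ hκ₁ hp2 η hη)
  -- conclusion
  have hshift : ∀ᶠ n : ℕ in atTop, ⌊c * (Real.log ((n + s n : ℕ) : ℝ)) ^ 2⌋₊ ≤ H n := by
    filter_upwards [logsq_close hε, logsq_le_rpow c₂ 1 one_pos, eventually_ge_atTop 4]
      with n h1 h2 h3
    rw [Real.rpow_one] at h2
    have hsn : s n ≤ n := by
      have g1 := floor_le_logsq hlam2 n
      have g3 : 0 ≤ (lam * (1 + 2 * ε) + c') * (Real.log n) ^ 2 := by positivity
      have : ((s n : ℕ) : ℝ) ≤ n := by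
        simp only [hs]
        rw [hc₂] at h2
        have g4 : 0 ≤ lam * (1 + 2 * ε) * (Real.log n) ^ 2 := by positivity
        nlinarith
      exact_mod_cast this
    have h4 := (h1 (n + s n) (by omega) (by omega)).2
    simp only [hH]
    apply Nat.floor_le_floor
    calc c * (Real.log ((n + s n : ℕ) : ℝ)) ^ 2 ≤ c * ((1 + ε) * (Real.log n) ^ 2) := by gcongr
      _ = c' * (Real.log n) ^ 2 := by rw [hc']; ring
  filter_upwards [key] with ω hω
  have h2 : ∃ᶠ k in atTop, c ≤ ngap (dset X ω) k := by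
    apply freq_gap (dset_inf hw hX.mem ω) hc0.le
    have h3 := hω.and_eventually hshift
    rw [Filter.frequently_atTop] at h3 ⊢
    intro N
    obtain ⟨n, hn, ⟨_, hn2⟩, hn3⟩ := h3 N
    refine ⟨n + s n, by omega, fun j hj => ?_⟩
    apply miss_dset hn2
    rw [Finset.mem_Icc] at hj ⊢
    exact ⟨hj.1, hj.2.trans hn3⟩
  apply Filter.le_limsup_of_frequently_le'
  exact h2.mono fun k hk => ENNReal.ofReal_le_ofReal hk

end Pool.Agent.K4H77.Displ
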