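import Mathlib
import Pool.Agent.K4H77.DE

/-! Displaced primes: no long windows are missed if the range is large. -/

set_option autoImplicit false

open MeasureTheory ProbabilityTheory Filter Finset
open scoped Topology

namespace Pool.Agent.K4H77.Displ

open Pool.Agent.K4H77.Noise (logsq_le_rpow exp_le_one_sub floor_le_logsq freq_gap ev_gap
  le_limsup_seq limsup_seq_le ngap supGap)

variable {Ω : Type*} [MeasurableSpace Ω] {w : ℕ → ℕ}

/-- the range varies slowly: `w(m) - w(n) = o(m - n + w(n))` for `m ≥ n → ∞` -/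
def Regular (w : ℕ → ℕ) : Prop := ∀ ε : ℝ, 0 < ε → ∀ᶠ n : ℕ in atTop, ∀ m : ℕ, n ≤ m →
  |(w m : ℝ) - w n| ≤ ε * ((m - n) + w n)

theorem reg_lin (hreg : Regular w) : Tendsto (fun n : ℕ => (w n : ℝ) / n) atTop (𝓝 0) := by
  rw [Metric.tendsto_atTop]
  intro ε hε
  obtain ⟨n0, hn0⟩ := eventually_atTop.1 (hreg (ε / 4) (by positivity))
  have h1 := hn0 n0 le_rfl
  obtain ⟨N, hN⟩ := exists_nat_gt ((w n0 : ℝ) * (1 + ε / 4) / (ε / 4))
  refine ⟨max (n0 + 1) N, fun m hm => ?_⟩
  have hm0 : n0 + 1 ≤ m := (le_max_left _ _).trans hm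
  have hm1 : N ≤ m := (le_max_right _ _).trans hm
  have hmpos : (0 : ℝ) < m := by
    have : 0 < m := by omega
    exact_mod_cast this
  have hm1' : (N : ℝ) ≤ m := by exact_mod_cast hm1
  have h2 := h1 m (by omega)
  rw [abs_le] at h2
  rw [div_lt_iff₀ (by positivity)] at hN
  have hn0' : (0 : ℝ) ≤ n0 := Nat.cast_nonneg _
  rw [Real.dist_eq, sub_zero, abs_of_nonneg (by positivity), div_lt_iff₀ hmpos]
  nlinarith [h2.2]

theorem reg_near (hw : ∀ n, 4 * w n ≤ n) (hreg : Regular w) {ε : ℝ} (hε : 0 < ε) (hε1 : ε ≤ 1) :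
    ∀ᶠ n : ℕ in atTop, ∀ p : ℕ, n ≤ p + w n → p ≤ n + w n →
      (w p : ℝ) ≤ (1 + ε) * w n ∧ (1 - ε) * w n ≤ w p := by
  obtain ⟨n0, hn0⟩ := eventually_atTop.1 (hreg (ε / 4) (by positivity))
  filter_upwards [eventually_ge_atTop (2 * n0)] with n hn p hp1 hp2
  have hwn := hw n
  have hn' : (0 : ℝ) ≤ w n := Nat.cast_nonneg _
  rcases le_total n p with h | h
  · have h1 := hn0 n (by omega) p h
    rw [abs_le] at h1
    have h2 : (p : ℝ) ≤ n + w n := by exact_mod_cast hp2
    have h3 : ε / 4 * (((p : ℝ) - n) + w n) ≤ ε * w n := by nlinarith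
    constructor <;> linarith [h1.1, h1.2]
  · have h1 := hn0 p (by omega) n h
    rw [abs_le] at h1
    have h2 : (n : ℝ) ≤ p + w n := by exact_mod_cast hp1
    have hp' : (0 : ℝ) ≤ w p := Nat.cast_nonneg _
    have h3 : ε / 4 * (((n : ℝ) - p) + w p) ≤ ε / 4 * (w n + w p) := by
      apply mul_le_mul_of_nonneg_left _ (by positivity)
      linarith
    constructor
    · have h4 : (1 - ε / 4) * w p ≤ (1 + ε / 4) * w n := by nlinarith [h1.1]
      have h5 : (1 + ε / 4) * (w n : ℝ) ≤ (1 - ε / 4) * ((1 + ε) * w n) := by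
        have : (1 + ε / 4) ≤ (1 - ε / 4) * (1 + ε) := by nlinarith
        calc (1 + ε / 4) * (w n : ℝ) ≤ ((1 - ε / 4) * (1 + ε)) * w n := by gcongr
          _ = _ := by ring
      exact le_of_mul_le_mul_left (h4.trans h5) (by linarith)
    · have h4 : (1 - ε / 4) * w n ≤ (1 + ε / 4) * w p := by nlinarith [h1.2]
      have h5 : (1 + ε / 4) * ((1 - ε) * (w n : ℝ)) ≤ (1 - ε / 4) * w n := by
        have : (1 + ε / 4) * (1 - ε) ≤ (1 - ε / 4) := by nlinarith
        calc (1 + ε / 4) * ((1 - ε) * (w n : ℝ)) = ((1 + ε / 4) * (1 - ε)) * w n := by ring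
          _ ≤ _ := by gcongr
      exact le_of_mul_le_mul_left (h5.trans h4) (by linarith)

/-- a lower bound `η / log n` for the density of the primes near `n` at the scale `w n` -/
def Dense (w : ℕ → ℕ) (η : ℝ) : Prop := ∀ᶠ n : ℕ in atTop, ∀ a b : ℕ, n ≤ 2 * a → b ≤ 2 * a →
  b ≤ 2 * n → a + w n ≤ b → η * ((b : ℝ) - a) / Real.log n ≤ (((Ioc a b).filter Nat.Prime).card : ℝ)

/-- choice of the parameter -/
theorem uparam {T : ℝ} (hT : 1 < T) : ∃ ε : ℝ, 0 < ε ∧ ε < 1 / 8 ∧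
    1 < T * ((1 - ε) * (2 - 5 * ε) / (2 + 3 * ε)) := by
  have h1 : ContinuousAt (fun ε : ℝ => T * ((1 - ε) * (2 - 5 * ε) / (2 + 3 * ε))) 0 := by
    apply ContinuousAt.mul (by fun_prop)
    apply ContinuousAt.div (by fun_prop) (by fun_prop)
    norm_num
  have h2 : Tendsto (fun ε : ℝ => T * ((1 - ε) * (2 - 5 * ε) / (2 + 3 * ε))) (𝓝[>] 0) (𝓝 _) :=
    h1.tendsto.mono_left nhdsWithin_le_nhds
  have h3 := h2.eventually_const_lt (show (1 : ℝ) < T * ((1 - 0) * (2 - 5 * 0) / (2 + 3 * 0)) by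
    norm_num; exact hT)
  have h4 : ∀ᶠ ε : ℝ in 𝓝[>] 0, ε < 1 / 8 := nhdsWithin_le_nhds (gt_mem_nhds (by norm_num))
  obtain ⟨ε, h5, h6, h7⟩ := (h3.and (h4.and self_mem_nhdsWithin)).exists
  exact ⟨ε, h7, h6, h5⟩

/-- no window is missed -/
theorem upper (hw : ∀ n, 4 * w n ≤ n) (hreg : Regular w)
    (hbig : Tendsto (fun n : ℕ => (w n : ℝ) / (Real.log n) ^ 2) atTop atTop) {η C : ℝ} (hη : 0 < η)
    (hC : 1 < η * C) (hden : Dense w η) (P : Measure Ω) [IsProbabilityMeasure P] {X : ℕ → Ω → ℕ}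
    (hX : Displaced w P X) :
    ∀ᵐ ω ∂P, ∀ᶠ n : ℕ in atTop, ω ∉ miss X (Ioc n (n + ⌊C * (Real.log n) ^ 2⌋₊)) := by
  have hC0 : 0 < C := by
    by_contra h
    push Not at h
    nlinarith
  obtain ⟨ε, hε0, hε1, hε⟩ := uparam hC
  obtain ⟨τ, hτ1, hτ2⟩ := exists_between hε
  have key : ∀ᶠ n : ℕ in atTop, P.real (miss X (Ioc n (n + ⌊C * (Real.log n) ^ 2⌋₊))) ≤
      (n : ℝ) ^ (-τ) := by
    filter_upwards [reg_near hw hreg hε0 (by linarith), hden,
      hbig.eventually_ge_atTop (C / ε), hbig.eventually_ge_atTop (1 / ε),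
      tlog.eventually_ge_atTop 1, eventually_ge_atTop 4,
      (((tendsto_pow_atTop (two_ne_zero)).comp tlog).eventually_ge_atTop (1 / (ε * C)))]
      with n h1 h2 h3 h4 h5 h6 h7
    simp only [Function.comp] at h7
    set L := Real.log n with hL
    have hL0 : 0 < L := by linarith
    set H : ℕ := ⌊C * L ^ 2⌋₊ with hH
    have hHle : (H : ℝ) ≤ C * L ^ 2 := Nat.floor_le (by positivity)
    have hHge : (1 - ε) * (C * L ^ 2) ≤ H := by
      have g1 := Nat.lt_floor_add_one (C * L ^ 2)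
      rw [div_le_iff₀ (by positivity)] at h7
      nlinarith
    rw [div_le_div_iff₀ hε0 (by positivity)] at h3 h4
    have hHw : (H : ℝ) ≤ ε * w n := by linarith
    have h1w : (1 : ℝ) ≤ ε * w n := by nlinarith
    have hwn := hw n
    have hwn0 : (0 : ℝ) < w n := by
      by_contra hcon
      push Not at hcon
      nlinarith
    set v : ℕ := ⌊(1 - ε) * (w n : ℝ)⌋₊ with hv
    have hvle : (v : ℝ) ≤ (1 - ε) * w n := Nat.floor_le (mul_nonneg (by linarith) hwn0.le)
    have hvge : (1 - ε) * w n - 1 < v := by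
      have := Nat.lt_floor_add_one ((1 - ε) * (w n : ℝ))
      linarith
    have hvw : v ≤ w n := by
      have : (v : ℝ) ≤ w n := by nlinarith
      exact_mod_cast this
    have hHv : w n + H ≤ 2 * v := by
      have : (w n : ℝ) + H ≤ 2 * v := by nlinarith
      exact_mod_cast this
    have hvn : 4 * v ≤ n := by omega
    obtain ⟨a, ha⟩ : ∃ a, a + v = n + H := ⟨n + H - v, by omega⟩
    obtain ⟨b, hb⟩ : ∃ b, b = n + v := ⟨_, rfl⟩
    have h8 := h2 a b (by omega) (by omega) (by omega) (by omega)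
    have hba : (b : ℝ) - a = 2 * v - H := by
      have e1 : (a : ℝ) + v = n + H := by exact_mod_cast ha
      have e2 : (b : ℝ) = n + v := by exact_mod_cast hb
      linarith
    rw [hba] at h8
    refine (miss_le hw hX (M := 2 * (n + H)) (fun p _ hp =>
      far hw (fun u hu => (Finset.mem_Ioc.1 hu).2) hp)).trans ?_
    have hn0 : (0 : ℝ) < n := by
      have : 0 < n := by omega
      exact_mod_cast this
    rw [Real.rpow_def_of_pos hn0]
    apply Real.exp_le_exp.2
    have hmain : τ * L ≤ ∑ p ∈ (Iic (2 * (n + H))).filter Nat.Prime, pr w p (Ioc n (n + H)) := by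
      have g1 : ∀ p ∈ (Ioc a b).filter Nat.Prime, (H : ℝ) / ((2 + 3 * ε) * w n) ≤
          pr w p (Ioc n (n + H)) := by
        intro p hp
        rw [Finset.mem_filter, Finset.mem_Ioc] at hp
        obtain ⟨g2, g3⟩ := h1 p (by omega) (by omega)
        have g4 : v ≤ w p := by
          have : (v : ℝ) ≤ w p := hvle.trans g3
          exact_mod_cast this
        have g5 : Ioc n (n + H) ⊆ Icc (p - w p) (p + w p) := by
          intro u hu
          rw [Finset.mem_Ioc] at hu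
          rw [Finset.mem_Icc]
          omega
        unfold pr
        rw [Finset.inter_eq_left.2 g5, Nat.card_Ioc, Nat.add_sub_cancel_left]
        apply div_le_div_of_nonneg_left (Nat.cast_nonneg _) (by positivity)
        nlinarith
      have g2 : (Ioc a b).filter Nat.Prime ⊆ (Iic (2 * (n + H))).filter Nat.Prime := by
        intro p hp
        rw [Finset.mem_filter, Finset.mem_Ioc] at hp
        rw [Finset.mem_filter, Finset.mem_Iic]
        exact ⟨by omega, hp.2⟩
      refine le_trans ?_ (Finset.sum_le_sum_of_subset_of_nonneg g2 (fun p _ _ => pr_nonneg p _))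
      refine le_trans ?_ (Finset.sum_le_sum g1)
      rw [Finset.sum_const, nsmul_eq_mul]
      have g3 : η * ((2 - 5 * ε) * w n) / L ≤ (((Ioc a b).filter Nat.Prime).card : ℝ) := by
        refine le_trans ?_ h8
        have : (2 - 5 * ε) * (w n : ℝ) ≤ 2 * v - H := by nlinarith
        gcongr
      have g4 : 0 < (2 + 3 * ε) * (w n : ℝ) := by positivity
      have g5 : 0 ≤ η * ((2 - 5 * ε) * w n) / L := by
        have : 0 < 2 - 5 * ε := by linarith
        positivity
      have g6 : 0 ≤ ((1 - ε) * (C * L ^ 2)) / ((2 + 3 * ε) * w n) := by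
        have : 0 < 1 - ε := by linarith
        positivity
      calc τ * L ≤ η * C * ((1 - ε) * (2 - 5 * ε) / (2 + 3 * ε)) * L := by gcongr
        _ = (η * ((2 - 5 * ε) * w n) / L) * (((1 - ε) * (C * L ^ 2)) / ((2 + 3 * ε) * w n)) := by
            field_simp
        _ ≤ (((Ioc a b).filter Nat.Prime).card : ℝ) * ((H : ℝ) / ((2 + 3 * ε) * w n)) := by
            gcongr
    linarith
  obtain ⟨n0, hn0⟩ := eventually_atTop.1 key
  have hsum : (∑' n, P (miss X (Ioc (n + n0) ((n + n0) + ⌊C * (Real.log ((n + n0 : ℕ) : ℝ)) ^ 2⌋₊)))) ≠ ⊤ := by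
    have h1 : ∀ n, P (miss X (Ioc (n + n0) ((n + n0) + ⌊C * (Real.log ((n + n0 : ℕ) : ℝ)) ^ 2⌋₊))) ≤
        ENNReal.ofReal (((n + n0 : ℕ) : ℝ) ^ (-τ)) := by
      intro n
      rw [← ENNReal.ofReal_toReal (measure_ne_top P (miss X _))]
      exact ENNReal.ofReal_le_ofReal (hn0 (n + n0) (Nat.le_add_left _ _))
    have h2 : Summable (fun n : ℕ => (n : ℝ) ^ (-τ)) := by
      rw [Real.summable_nat_rpow]; linarith
    have h3 := (summable_nat_add_iff n0).2 h2
    exact ne_top_of_le_ne_top h3.tsum_ofReal_ne_top (ENNReal.tsum_le_tsum h1)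
  filter_upwards [ae_eventually_notMem hsum] with ω hω
  obtain ⟨n1, hn1⟩ := eventually_atTop.1 hω
  rw [eventually_atTop]
  refine ⟨n1 + n0, fun n hn => ?_⟩
  have := hn1 (n - n0) (by omega)
  rwa [Nat.sub_add_cancel (by omega)] at this

theorem upper_sup (hw : ∀ n, 4 * w n ≤ n) (hreg : Regular w)
    (hbig : Tendsto (fun n : ℕ => (w n : ℝ) / (Real.log n) ^ 2) atTop atTop) {η C : ℝ} (hη : 0 < η)
    (hC : 1 < η * C) (hden : Dense w η) (P : Measure Ω) [IsProbabilityMeasure P] {X : ℕ → Ω → ℕ}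
    (hX : Displaced w P X) :
    ∀ᵐ ω ∂P, ∀ᶠ k in atTop, ngap (dset X ω) k ≤ C := by
  have hC0 : 0 < C := by
    by_contra h
    push Not at h
    nlinarith
  filter_upwards [upper hw hreg hbig hη hC hden P hX] with ω hω
  apply ev_gap (dset_inf hw hX.mem ω) hC0.le
  refine hω.mono fun n hn hcon => hn ?_
  intro p hp hcon2
  rw [Finset.mem_Ioc] at hcon2
  refine hcon (X p ω - n) (Finset.mem_Icc.2 ⟨by omega, by omega⟩) ⟨p, hp, by omega⟩

end Pool.Agent.K4H77.Displ
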