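import Mathlib
import Pool.Agent.K4H77.DF
import Pool.Agent.H295R3.Hoheisel
import Pool.Agent.H442R2.EHI.PntErr

/-! Displaced primes: primes in short intervals; the numerical corollaries. -/

set_option autoImplicit false

open MeasureTheory ProbabilityTheory Filter Finset
open scoped Topology

namespace Pool.Agent.K4H77.Displ

open Pool.Agent.K4H77.Noise (logsq_le_rpow exp_le_one_sub floor_le_logsq freq_gap ev_gap
  le_limsup_seq limsup_seq_le ngap supGap exp_gamma_lt)

variable {Ω : Type*} [MeasurableSpace Ω] {w : ℕ → ℕ}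

/-- Hoheisel's theorem -/
theorem dense_hoheisel : ∃ δ η : ℝ, 0 < δ ∧ δ < 1 ∧ 0 < η ∧ ∀ w : ℕ → ℕ,
    (∀ᶠ n : ℕ in atTop, (n : ℝ) ^ (1 - δ) ≤ w n) → Dense w η := by
  obtain ⟨δ, η, hδ, hδ1, hη, X₀, hX₀, h⟩ := Pool.Agent.H295R3.D.hoheisel
  refine ⟨δ / 2, η / 2, by linarith, by linarith, by linarith, fun w hw => ?_⟩
  have e1 : ∀ᶠ n : ℕ in atTop, (2 : ℝ) ≤ (n : ℝ) ^ (δ / 2) :=
    ((tendsto_rpow_atTop (show 0 < δ / 2 by linarith)).comp
      (tendsto_natCast_atTop_atTop (R := ℝ))).eventually_ge_atTop _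
  filter_upwards [hw, e1, eventually_ge_atTop (2 * X₀), tlog.eventually_ge_atTop 1,
    eventually_ge_atTop 4] with n h1 h2 h3 h4 h5 a b h6 h7 h8 h9
  have hn : (4 : ℝ) ≤ n := by exact_mod_cast h5
  have ha2 : 2 ≤ a := by omega
  have ha : (2 : ℝ) ≤ a := by exact_mod_cast ha2
  have h8' : (a : ℝ) ≤ 2 * n := by
    have : a ≤ 2 * n := by omega
    exact_mod_cast this
  have hY : (a : ℝ) ^ (1 - δ) ≤ ((b - a : ℕ) : ℝ) := by
    have g1 : (n : ℝ) ^ (1 - δ / 2) = (n : ℝ) ^ (1 - δ) * (n : ℝ) ^ (δ / 2) := by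
      rw [← Real.rpow_add (by linarith)]
      congr 1
      ring
    have g2 : (a : ℝ) ^ (1 - δ) ≤ (2 * n) ^ (1 - δ) :=
      Real.rpow_le_rpow (by linarith) h8' (by linarith)
    rw [Real.mul_rpow (by norm_num) (by linarith)] at g2
    have g3 : (2 : ℝ) ^ (1 - δ) ≤ 2 := by
      calc (2 : ℝ) ^ (1 - δ) ≤ 2 ^ (1 : ℝ) :=
            Real.rpow_le_rpow_of_exponent_le (by norm_num) (by linarith)
        _ = 2 := Real.rpow_one 2
    have g4 : 0 < (n : ℝ) ^ (1 - δ) := Real.rpow_pos_of_pos (by linarith) _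
    have g5 : (w n : ℝ) ≤ ((b - a : ℕ) : ℝ) := by
      have : w n ≤ b - a := by omega
      exact_mod_cast this
    nlinarith
  have h10 := h a (b - a) (by omega) hY (by omega)
  rw [show a + (b - a) = b by omega, Nat.cast_sub (by omega)] at h10
  refine le_trans ?_ h10
  have hloga : 0 < Real.log a := Real.log_pos (by linarith)
  have hlogn : 0 < Real.log n := by linarith
  have g6 : Real.log a ≤ 2 * Real.log n := by
    have g7 : Real.log a ≤ Real.log (2 * n) := Real.log_le_log (by linarith) h8'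
    rw [Real.log_mul (by norm_num) (by linarith)] at g7
    have := Real.log_two_lt_d9
    linarith
  have g8 : (0 : ℝ) ≤ (b : ℝ) - a := by
    have : (a : ℝ) ≤ b := by
      have : a ≤ b := by omega
      exact_mod_cast this
    linarith
  rw [div_le_div_iff₀ hlogn hloga]
  have g9 : 0 ≤ η / 2 * ((b : ℝ) - a) := by positivity
  nlinarith

theorem theta_diff_le (a b : ℕ) (hab : a ≤ b) (hb : 1 ≤ b) :
    Chebyshev.theta (b : ℝ) - Chebyshev.theta (a : ℝ) ≤
      (((Ioc a b).filter Nat.Prime).card : ℝ) * Real.log b := by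
  unfold Chebyshev.theta
  rw [Nat.floor_natCast, Nat.floor_natCast]
  have h1 : (Ioc 0 b).filter Nat.Prime = (Ioc 0 a).filter Nat.Prime ∪ (Ioc a b).filter Nat.Prime := by
    rw [← Finset.filter_union, Finset.Ioc_union_Ioc_eq_Ioc (Nat.zero_le a) hab]
  rw [h1, Finset.sum_union]
  · rw [add_sub_cancel_left, ← nsmul_eq_mul, ← Finset.sum_const]
    apply Finset.sum_le_sum
    intro p hp
    rw [Finset.mem_filter, Finset.mem_Ioc] at hp
    exact Real.log_le_log (by exact_mod_cast hp.2.pos) (by exact_mod_cast hp.1.2)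
  · rw [Finset.disjoint_left]
    intro k hk1 hk2
    rw [Finset.mem_filter, Finset.mem_Ioc] at hk1 hk2
    omega

/-- the prime number theorem with an error term -/
theorem dense_pnt (A : ℕ) (hA : ∀ᶠ n : ℕ in atTop, (n : ℝ) / (Real.log n) ^ A ≤ w n) {η : ℝ}
    (hη : η < 1) : Dense w η := by
  obtain ⟨C, hC, h⟩ := Pool.Agent.H442R2.EHI.PntErrAux.thetaU (A + 1)
  obtain ⟨η', hη', hη1⟩ := exists_between (max_lt hη one_pos)
  have hη0 : 0 < η' := (le_max_right _ _).trans_lt hη'
  have hηη : η ≤ η' := ((le_max_left _ _).trans_lt hη').le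
  set ε := (1 - η') / 2 with hε
  have hε0 : 0 < ε := by rw [hε]; linarith
  have hη2 : η' * (1 + ε) ≤ 1 - ε := by
    rw [hε]; nlinarith [sq_nonneg (1 - η')]
  filter_upwards [hA, tlog.eventually_ge_atTop (1 / ε),
    tlog.eventually_ge_atTop (4 * C * 2 ^ (A + 1) / ε), tlog.eventually_ge_atTop 4,
    eventually_ge_atTop 4] with n h1 h2 h3 h4 h5 a b h6 h7 h8 h9
  have hn : (4 : ℝ) ≤ n := by exact_mod_cast h5
  have ha2 : 2 ≤ a := by omega
  have ha : (2 : ℝ) ≤ a := by exact_mod_cast ha2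
  have hna : (n : ℝ) ≤ 2 * a := by exact_mod_cast h6
  have hbn : (b : ℝ) ≤ 2 * n := by exact_mod_cast h8
  have hab : a ≤ b := by omega
  have hab' : (a : ℝ) + w n ≤ b := by exact_mod_cast h9
  set L := Real.log n with hL
  have hL0 : 0 < L := by linarith
  have hl2 := Real.log_two_lt_d9
  have hw0 : (0 : ℝ) ≤ w n := Nat.cast_nonneg _
  -- the error terms
  have herr : ∀ m : ℕ, n ≤ 2 * m → m ≤ 2 * n → |Chebyshev.theta (m : ℝ) - m| ≤ ε / 2 * w n := by
    intro m hm1 hm2
    have hm1' : (n : ℝ) ≤ 2 * m := by exact_mod_cast hm1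
    have hm2' : (m : ℝ) ≤ 2 * n := by exact_mod_cast hm2
    have hm0 : (0 : ℝ) < m := by linarith
    refine (h m (by omega)).trans ?_
    have g1 : L / 2 ≤ Real.log m := by
      have g2 : L ≤ Real.log (2 * m) := Real.log_le_log (by linarith) hm1'
      rw [Real.log_mul (by norm_num) hm0.ne'] at g2
      linarith
    have g3 : (L / 2) ^ (A + 1) ≤ Real.log m ^ (A + 1) := pow_le_pow_left₀ (by positivity) g1 _
    have g4 : C * ((m : ℝ) / Real.log m ^ (A + 1)) ≤ C * (2 * n / (L / 2) ^ (A + 1)) := by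
      gcongr
    refine g4.trans ?_
    have g5 : C * (2 * n / (L / 2) ^ (A + 1)) = (2 * C * 2 ^ (A + 1) / L) * (n / L ^ A) := by
      rw [div_pow, pow_succ L]
      field_simp
    rw [g5]
    have g6 : 2 * C * 2 ^ (A + 1) / L ≤ ε / 2 := by
      rw [div_le_iff₀ hε0] at h3
      rw [div_le_iff₀ hL0]
      nlinarith
    have g7 : 0 ≤ (n : ℝ) / L ^ A := by positivity
    calc _ ≤ ε / 2 * (n / L ^ A) := by gcongr
      _ ≤ ε / 2 * w n := by gcongr
  have hea := herr a h6 (by omega)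
  have heb := herr b (by omega) h8
  rw [abs_le] at hea heb
  have h10 := theta_diff_le a b hab (by omega)
  have hwab : (w n : ℝ) ≤ b - a := by linarith
  have h11 : (1 - ε) * ((b : ℝ) - a) ≤ Chebyshev.theta (b : ℝ) - Chebyshev.theta (a : ℝ) := by
    nlinarith [hea.2, heb.1]
  have h12 : Real.log b ≤ (1 + ε) * L := by
    have g1 : Real.log b ≤ Real.log (2 * n) := Real.log_le_log (by linarith) hbn
    rw [Real.log_mul (by norm_num) (by linarith)] at g1
    rw [div_le_iff₀ hε0] at h2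
    linarith
  have h13 : (1 - ε) * ((b : ℝ) - a) ≤ (((Ioc a b).filter Nat.Prime).card : ℝ) * ((1 + ε) * L) :=
    h11.trans (h10.trans (by gcongr))
  have hba0 : 0 ≤ (b : ℝ) - a := by linarith
  rw [div_le_iff₀ hL0]
  have h14 : η' * (1 + ε) * ((b : ℝ) - a) ≤
      (((Ioc a b).filter Nat.Prime).card : ℝ) * L * (1 + ε) := by
    calc η' * (1 + ε) * ((b : ℝ) - a) ≤ (1 - ε) * ((b : ℝ) - a) := by gcongr
      _ ≤ _ := h13
      _ = _ := by ring
  have h15 : η' * ((b : ℝ) - a) * (1 + ε) ≤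
      (((Ioc a b).filter Nat.Prime).card : ℝ) * L * (1 + ε) := by linarith
  have h16 := le_of_mul_le_mul_right h15 (by linarith)
  calc η * ((b : ℝ) - a) ≤ η' * ((b : ℝ) - a) := by gcongr
    _ ≤ _ := h16

/-- a bound for the cost -/
theorem dcost_le {lam c : ℝ} (hlam : 0 < lam) (hc : 0 < c) (h : 5 * c ≤ lam) :
    dcost lam c ≤ Real.exp Real.eulerMascheroniConstant / 2 * c * ((1 + c / (2 * lam)) *
      (1 + c / (2 * lam) / 2 + (c / (2 * lam)) ^ 2)) := by
  set y := c / (2 * lam) with hy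
  have hy0 : 0 < y := by positivity
  have hy1 : y ≤ 1 / 10 := by
    rw [hy, div_le_iff₀ (by positivity)]; linarith
  have hcy : c = 2 * lam * y := by rw [hy]; field_simp
  have h1 : Real.log (2 * lam / (2 * lam - c)) ≤ y * (1 + y / 2 + y ^ 2) := by
    have e1 : 2 * lam / (2 * lam - c) = (1 - y)⁻¹ := by
      rw [hcy, show 2 * lam - 2 * lam * y = 2 * lam * (1 - y) by ring]
      have : 1 - y ≠ 0 := by linarith
      field_simp
    rw [e1, Real.log_inv]
    have h2 := Real.abs_log_sub_add_sum_range_le (x := y) (by rw [abs_of_pos hy0]; linarith) 3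
    rw [abs_le] at h2
    have h3 := h2.1
    simp only [Finset.sum_range_succ, Finset.sum_range_zero] at h3
    rw [abs_of_pos hy0] at h3
    have h4 : y ^ (3 + 1) / (1 - y) ≤ 1 / 9 * y ^ 3 := by
      rw [div_le_iff₀ (by linarith)]
      have : y ^ (3 + 1) = y ^ 3 * y := by ring
      rw [this]
      nlinarith [pow_pos hy0 3]
    norm_num at h3 ⊢
    nlinarith [pow_pos hy0 3]
  unfold dcost
  have h0 : 0 < Real.exp Real.eulerMascheroniConstant := Real.exp_pos _
  calc Real.exp Real.eulerMascheroniConstant / 2 * (2 * lam + c) * Real.log (2 * lam / (2 * lam - c)) ≤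
        Real.exp Real.eulerMascheroniConstant / 2 * (2 * lam + c) * (y * (1 + y / 2 + y ^ 2)) := by
          gcongr
    _ = _ := by
      have : (2 * lam + c) * y = c * (1 + y) := by
        rw [hcy]; ring
      calc _ = Real.exp Real.eulerMascheroniConstant / 2 * ((2 * lam + c) * y) * (1 + y / 2 + y ^ 2) := by
            ring
        _ = _ := by rw [this]; ring

theorem cor_pos {lam : ℝ} (hlam : 0 < lam) : ∃ c : ℝ, 0 < c ∧ c < 2 * lam ∧ dcost lam c < 1 := by
  refine ⟨min (lam / 5) (1 / 2), lt_min (by positivity) (by norm_num), ?_, ?_⟩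
  · have : min (lam / 5) (1 / 2) ≤ lam / 5 := min_le_left _ _
    linarith
  · set c := min (lam / 5) (1 / 2) with hc
    have hc0 : 0 < c := lt_min (by positivity) (by norm_num)
    have hc1 : c ≤ lam / 5 := min_le_left _ _
    have hc2 : c ≤ 1 / 2 := min_le_right _ _
    refine (dcost_le hlam hc0 (by linarith)).trans_lt ?_
    set y := c / (2 * lam) with hy
    have hy0 : 0 < y := by positivity
    have hy1 : y ≤ 1 / 10 := by
      rw [hy, div_le_iff₀ (by positivity)]; linarith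
    have h1 : (1 + y) * (1 + y / 2 + y ^ 2) ≤ 1.1 * 1.06 := by
      apply mul_le_mul (by linarith) (by nlinarith) (by positivity) (by norm_num)
    have h2 := exp_gamma_lt
    have h3 : 0 < Real.exp Real.eulerMascheroniConstant := Real.exp_pos _
    calc Real.exp Real.eulerMascheroniConstant / 2 * c * ((1 + y) * (1 + y / 2 + y ^ 2)) ≤
          1.789 / 2 * (1 / 2) * (1.1 * 1.06) := by gcongr
      _ < 1 := by norm_num

theorem cor_seven {lam : ℝ} (hlam : 7 ≤ lam) : (1.001 : ℝ) < 2 * lam ∧ dcost lam 1.001 < 1 := by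
  refine ⟨by linarith, ?_⟩
  refine (dcost_le (by linarith) (by norm_num) (by linarith)).trans_lt ?_
  set y : ℝ := 1.001 / (2 * lam) with hy
  have hy0 : 0 < y := by positivity
  have hy1 : y ≤ 0.0715 := by
    rw [hy, div_le_iff₀ (by positivity)]; linarith
  have h1 : (1 + y) * (1 + y / 2 + y ^ 2) ≤ 1.0715 * 1.04087 := by
    apply mul_le_mul (by linarith) (by nlinarith) (by positivity) (by norm_num)
  have h2 := exp_gamma_lt
  have h3 : 0 < Real.exp Real.eulerMascheroniConstant := Real.exp_pos _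
  calc Real.exp Real.eulerMascheroniConstant / 2 * 1.001 * ((1 + y) * (1 + y / 2 + y ^ 2)) ≤
        1.789 / 2 * 1.001 * (1.0715 * 1.04087) := by gcongr
    _ < 1 := by norm_num

theorem cor_granville {c : ℝ} (hc : c < 2 * Real.exp (-Real.eulerMascheroniConstant)) :
    ∃ lam₀ : ℝ, 0 < lam₀ ∧ ∀ lam : ℝ, lam₀ ≤ lam → c ≤ 0 ∨ (0 < c ∧ c < 2 * lam ∧ dcost lam c < 1) := by
  rcases le_or_gt c 0 with hc0 | hc0
  · exact ⟨1, one_pos, fun lam _ => Or.inl hc0⟩
  set E := Real.exp Real.eulerMascheroniConstant with hE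
  have hE0 : 0 < E := Real.exp_pos _
  rw [Real.exp_neg, ← hE] at hc
  have hcE : E / 2 * c < 1 := by
    have : E / 2 * c < E / 2 * (2 * E⁻¹) := by gcongr
    refine this.trans_eq ?_
    field_simp
  have h1 : Tendsto (fun lam : ℝ => E / 2 * c * ((1 + c / (2 * lam)) *
      (1 + c / (2 * lam) / 2 + (c / (2 * lam)) ^ 2))) atTop
      (𝓝 (E / 2 * c * ((1 + 0) * (1 + 0 / 2 + 0 ^ 2)))) := by
    have h2 : Tendsto (fun lam : ℝ => c / (2 * lam)) atTop (𝓝 0) :=
      (tendsto_id.const_mul_atTop (show (0 : ℝ) < 2 by norm_num)).const_div_atTop c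
    exact ((h2.const_add 1).mul (((h2.div_const 2).const_add 1).add (h2.pow 2))).const_mul _
  have h3 := h1.eventually_lt_const (show E / 2 * c * ((1 + 0) * (1 + 0 / 2 + 0 ^ 2)) < 1 by
    norm_num; exact hcE)
  obtain ⟨lam₁, h4⟩ := eventually_atTop.1 h3
  refine ⟨max lam₁ (5 * c), lt_max_of_lt_right (by positivity), fun lam hlam => Or.inr ⟨hc0, ?_, ?_⟩⟩
  · have := (le_max_right lam₁ (5 * c)).trans hlam
    linarith
  · have h5 := (le_max_right lam₁ (5 * c)).trans hlam
    have h6 := (le_max_left lam₁ (5 * c)).trans hlam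
    exact (dcost_le (by linarith) hc0 h5).trans_lt (h4 lam h6)

end Pool.Agent.K4H77.Displ
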