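import Mathlib
import Pool.Agent.K4H77.NE

/-! Assembly. -/

set_option autoImplicit false

open MeasureTheory ProbabilityTheory Filter Finset
open scoped Topology

namespace Pool.Agent.K4H77.Noise

/-- the random set of the natural numbers `n` with `ω ∈ A n` -/
def rset {Ω : Type*} (A : ℕ → Set Ω) (ω : Ω) : Set ℕ := {n | ω ∈ A n}

/-- the random sets exist -/
theorem exists_perturbed {ℓ : ℕ → ℝ} {κ : ℝ} (hℓ : ∀ n, 0 ≤ ℓ n) (hκ : 0 ≤ κ) :
    ∃ (P : Measure (ℕ → Bool)) (_ : IsProbabilityMeasure P) (A : ℕ → Set (ℕ → Bool)),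
      Perturbed ℓ κ P A := by
  have h0 : ∀ n, 0 ≤ prb ℓ κ n := prb_nonneg hℓ hκ
  have h1 : ∀ n, prb ℓ κ n ≤ 1 := prb_le_one ℓ κ
  set μ : ℕ → Measure Bool := fun n =>
    ENNReal.ofReal (prb ℓ κ n) • Measure.dirac true + ENNReal.ofReal (1 - prb ℓ κ n) • Measure.dirac false
    with hμ
  have hprob : ∀ n, IsProbabilityMeasure (μ n) := by
    intro n
    constructor
    rw [hμ]
    simp only [Measure.coe_add, Measure.coe_smul, Pi.add_apply, Pi.smul_apply, smul_eq_mul,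
      measure_univ, mul_one]
    rw [← ENNReal.ofReal_add (h0 n) (by linarith [h1 n])]
    simp
  have htrue : ∀ n, μ n {true} = ENNReal.ofReal (prb ℓ κ n) := by
    intro n
    rw [hμ]
    simp only [Measure.coe_add, Measure.coe_smul, Pi.add_apply, Pi.smul_apply, smul_eq_mul]
    rw [Measure.dirac_apply' _ (measurableSet_singleton _),
      Measure.dirac_apply' _ (measurableSet_singleton _)]
    simp
  have hpi : ∀ s : Finset ℕ, Measure.infinitePi μ (⋂ n ∈ s, {ω : ℕ → Bool | ω n = true}) =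
      ∏ n ∈ s, ENNReal.ofReal (prb ℓ κ n) := by
    intro s
    have h2 := Measure.infinitePi_pi (μ := μ) (s := s) (t := fun _ => {true})
      (fun _ _ => measurableSet_singleton _)
    have h3 : (⋂ n ∈ s, {ω : ℕ → Bool | ω n = true}) = Set.pi (s : Set ℕ) (fun _ => {true}) := by
      ext ω
      simp [Set.mem_pi]
    rw [h3, h2]
    exact Finset.prod_congr rfl fun n _ => htrue n
  have hmeas : ∀ n, MeasurableSet {ω : ℕ → Bool | ω n = true} := by
    intro n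
    have h5 : MeasurableSet ((fun ω : ℕ → Bool => ω n) ⁻¹' {true}) :=
      (measurable_pi_apply n) (measurableSet_singleton true)
    exact h5
  refine ⟨Measure.infinitePi μ, inferInstance, fun n => {ω | ω n = true}, hmeas, ?_, ?_⟩
  · rw [iIndepSet_iff_meas_biInter]
    · intro s
      rw [hpi s]
      apply Finset.prod_congr rfl
      intro n _
      have h4 := hpi {n}
      simp only [Finset.mem_singleton, Set.iInter_iInter_eq_left, Finset.prod_singleton] at h4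
      exact h4.symm
    · exact hmeas
  · intro n
    have h4 := hpi {n}
    simpa only [Finset.mem_singleton, Set.iInter_iInter_eq_left, Finset.prod_singleton] using h4

variable {Ω : Type*} [MeasurableSpace Ω]

omit [MeasurableSpace Ω] in
theorem mem_emp_iff (A : ℕ → Set Ω) (ω : Ω) (n H : ℕ) :
    ω ∈ emp A n H ↔ ∀ j ∈ Icc 1 H, n + j ∉ rset A ω := by
  unfold emp rset
  simp only [Set.mem_iInter, Set.mem_compl_iff, Set.mem_ofPred_eq]

omit [MeasurableSpace Ω] in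
theorem rset_infinite {A : ℕ → Set Ω} {ω : Ω} (h : ∃ᶠ n : ℕ in atTop, ω ∈ A n) :
    (rset A ω).Infinite := Nat.frequently_atTop_iff_infinite.1 h

theorem wt_ratio {ℓ : ℕ → ℝ} {κ : ℝ} (hℓ : ∀ n, 0 ≤ ℓ n) (hmono : Monotone ℓ) (hκ : 0 ≤ κ)
    (h : 0 < ℓ 0 ∨ 0 < κ) (hsv : Tendsto (fun n => (1 + ℓ (2 * n)) / (1 + ℓ n)) atTop (𝓝 1)) :
    0 < wt ℓ κ 0 ∧ Tendsto (fun n => wt ℓ κ (2 * n) / wt ℓ κ n) atTop (𝓝 1) := by
  set E := Real.exp Real.eulerMascheroniConstant with hE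
  have hE0 : 0 < E := Real.exp_pos _
  obtain ⟨c, hc0, hc⟩ : ∃ c : ℝ, 0 < c ∧ ∀ n, c * (1 + ℓ n) ≤ wt ℓ κ n := by
    rcases h with h | h
    · refine ⟨E / 2 * (ℓ 0 / (1 + ℓ 0)), by positivity, fun n => ?_⟩
      have h1 : ℓ 0 ≤ ℓ n := hmono (Nat.zero_le n)
      have h2 : ℓ 0 / (1 + ℓ 0) * (1 + ℓ n) ≤ ℓ n := by
        rw [div_mul_eq_mul_div, div_le_iff₀ (by positivity)]
        nlinarith
      unfold wt
      calc E / 2 * (ℓ 0 / (1 + ℓ 0)) * (1 + ℓ n) = E / 2 * (ℓ 0 / (1 + ℓ 0) * (1 + ℓ n)) := by ring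
        _ ≤ E / 2 * ℓ n := by gcongr
        _ ≤ _ := by rw [← hE]; linarith
    · refine ⟨min κ (E / 2), lt_min h (by positivity), fun n => ?_⟩
      unfold wt
      have h1 : min κ (E / 2) ≤ κ := min_le_left _ _
      have h2 : min κ (E / 2) ≤ E / 2 := min_le_right _ _
      have h3 := hℓ n
      rw [← hE]
      nlinarith
  have hwpos : ∀ n, 0 < wt ℓ κ n := fun n =>
    lt_of_lt_of_le (mul_pos hc0 (by linarith [hℓ n])) (hc n)
  refine ⟨hwpos 0, ?_⟩
  have h1 : Tendsto (fun n => (1 + ℓ (2 * n)) / (1 + ℓ n) - 1) atTop (𝓝 0) := by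
    simpa using hsv.sub_const 1
  have h2 : Tendsto (fun n => E / 2 / c * ((1 + ℓ (2 * n)) / (1 + ℓ n) - 1)) atTop (𝓝 0) := by
    simpa using h1.const_mul (E / 2 / c)
  have h3 : Tendsto (fun n => wt ℓ κ (2 * n) / wt ℓ κ n - 1) atTop (𝓝 0) := by
    refine squeeze_zero (fun n => ?_) (fun n => ?_) h2
    · have : wt ℓ κ n ≤ wt ℓ κ (2 * n) := wt_mono κ hmono (by omega)
      have : 1 ≤ wt ℓ κ (2 * n) / wt ℓ κ n := by rwa [le_div_iff₀ (hwpos n), one_mul]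
      linarith
    · have h4 : 0 < 1 + ℓ n := by linarith [hℓ n]
      have h5 : ℓ n ≤ ℓ (2 * n) := hmono (by omega)
      have h6 : wt ℓ κ (2 * n) / wt ℓ κ n - 1 = E / 2 * (ℓ (2 * n) - ℓ n) / wt ℓ κ n := by
        rw [div_sub_one (hwpos n).ne']
        congr 1
        unfold wt
        rw [← hE]; ring
      have h7 : E / 2 / c * ((1 + ℓ (2 * n)) / (1 + ℓ n) - 1) =
          E / 2 * (ℓ (2 * n) - ℓ n) / (c * (1 + ℓ n)) := by
        field_simp
        ring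
      rw [h6, h7]
      apply div_le_div_of_nonneg_left _ (mul_pos hc0 h4) (hc n)
      have : 0 ≤ ℓ (2 * n) - ℓ n := by linarith
      positivity
  simpa using h3.add_const 1

/-- the general lower bound -/
theorem main_lower {ℓ : ℕ → ℝ} {κ C : ℝ} (hℓ : ∀ n, 0 ≤ ℓ n) (hmono : Monotone ℓ) (hκ : 0 ≤ κ)
    (h : 0 < ℓ 0 ∨ 0 < κ) (hsv : Tendsto (fun n => (1 + ℓ (2 * n)) / (1 + ℓ n)) atTop (𝓝 1))
    (hC : ∀ᶠ n : ℕ in atTop, ℓ n ≤ C * Real.log n)
    (P : Measure Ω) [IsProbabilityMeasure P] {A : ℕ → Set Ω} (hA : Perturbed ℓ κ P A) :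
    ∀ᵐ ω ∂P, (rset A ω).Infinite ∧ 1 ≤ limsup (fun k => ENNReal.ofReal
      (ngap (rset A ω) k * wt ℓ κ (Nat.nth (· ∈ rset A ω) k))) atTop := by
  obtain ⟨hw0, hw⟩ := wt_ratio hℓ hmono hκ h hsv
  have hwpos : ∀ n, 0 < wt ℓ κ n := fun n => hw0.trans_le (wt_mono κ hmono (Nat.zero_le n))
  have hC' : ∀ᶠ n : ℕ in atTop, ℓ n ≤ max C 0 * Real.log n := by
    filter_upwards [hC] with n hn
    exact hn.trans (mul_le_mul_of_nonneg_right (le_max_left _ _) (Real.log_natCast_nonneg n))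
  have h1 : ∀ j : ℕ, ∀ᵐ ω ∂P, ∃ᶠ n : ℕ in atTop, ∃ m : ℕ, n ≤ m ∧ m ≤ 2 * n ∧
      ω ∈ emp A m (len ℓ κ (1 - 1 / ((j : ℝ) + 3)) n) := by
    intro j
    have hj : (0 : ℝ) ≤ j := Nat.cast_nonneg j
    have hj1 : 1 / ((j : ℝ) + 3) < 1 := by
      rw [div_lt_one (by positivity)]; linarith
    have hj2 : 0 < 1 / ((j : ℝ) + 3) := by positivity
    exact gen_windows hℓ hmono hκ hw0 hw (le_max_right C 0) hC' (by linarith) (by linarith) P hA
  rw [← ae_all_iff] at h1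
  filter_upwards [h1, inf_set hℓ hmono hκ h P hA] with ω hω hinf
  have hS := rset_infinite hinf
  refine ⟨hS, ?_⟩
  rw [← ENNReal.ofReal_one]
  apply le_limsup_seq
  intro j
  have hj : (0 : ℝ) ≤ j := Nat.cast_nonneg j
  have hj0 : 1 / ((j : ℝ) + 2) < 1 := by
    rw [div_lt_one (by positivity)]; linarith
  have hj1 : 1 / ((j : ℝ) + 3) < 1 / ((j : ℝ) + 2) :=
    one_div_lt_one_div_of_lt (by positivity) (by linarith)
  rw [one_mul]
  apply freq_gap_w hS hwpos (wt_mono κ hmono) hw (by linarith)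
    (show 1 - 1 / ((j : ℝ) + 2) < 1 - 1 / ((j : ℝ) + 3) by linarith)
    (fun n => len_gt ℓ κ (1 - 1 / ((j : ℝ) + 3)) n)
  refine (hω j).mono fun n hn => ?_
  obtain ⟨m, hm1, hm2, hm3⟩ := hn
  exact ⟨m, hm1, hm2, (mem_emp_iff A ω m _).1 hm3⟩

/-- the upper bound -/
theorem main_upper {ℓ : ℕ → ℝ} {κ : ℝ} (hℓ : ∀ n, 0 ≤ ℓ n) (hmono : Monotone ℓ) (hκ : 0 < κ)
    (P : Measure Ω) [IsProbabilityMeasure P] {A : ℕ → Set Ω} (hA : Perturbed ℓ κ P A) :
    ∀ᵐ ω ∂P, supGap (rset A ω) ≤ ENNReal.ofReal (1 / κ) := by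
  have h1 : ∀ j : ℕ, ∀ᵐ ω ∂P, ∀ᶠ n : ℕ in atTop,
      ω ∉ emp A n ⌊1 / κ * (1 + 1 / ((j : ℝ) + 1)) * (Real.log n) ^ 2⌋₊ := by
    intro j
    have hj : 0 < 1 / ((j : ℝ) + 1) := by positivity
    apply no_windows hℓ hκ _ P hA
    have : 1 / κ * (1 + 1 / ((j : ℝ) + 1)) * κ = 1 + 1 / ((j : ℝ) + 1) := by field_simp
    rw [this]
    linarith
  rw [← ae_all_iff] at h1
  filter_upwards [h1, inf_set hℓ hmono hκ.le (Or.inr hκ) P hA] with ω hω hinf
  have hS := rset_infinite hinf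
  unfold supGap
  apply limsup_seq_le
  intro j
  apply ev_gap hS (by positivity)
  filter_upwards [hω j] with n hn
  intro hcon
  exact hn ((mem_emp_iff A ω n _).2 hcon)

/-- constant deletion probability, lower bound -/
theorem const_lower {lam κ : ℝ} (hlam : 0 ≤ lam) (hκ : 0 ≤ κ) (h : 0 < lam ∨ 0 < κ)
    (P : Measure Ω) [IsProbabilityMeasure P] {A : ℕ → Set Ω}
    (hA : Perturbed (fun _ => lam) κ P A) :
    ∀ᵐ ω ∂P, ENNReal.ofReal (1 / cost lam κ) ≤ supGap (rset A ω) := by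
  have hcost := cost_pos hlam hκ h
  have h1 : ∀ j : ℕ, ∀ᵐ ω ∂P, ∃ᶠ n : ℕ in atTop,
      ω ∈ emp A n ⌊1 / cost lam κ * (1 - 1 / ((j : ℝ) + 2)) * (Real.log n) ^ 2⌋₊ := by
    intro j
    have hj : (0 : ℝ) ≤ j := Nat.cast_nonneg j
    have hj0 : 1 / ((j : ℝ) + 2) < 1 := by
      rw [div_lt_one (by positivity)]; linarith
    have hj1 : 0 < 1 / ((j : ℝ) + 2) := by positivity
    apply windows hlam hκ _ _ P hA
    · apply mul_pos (by positivity)
      linarith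
    · have : 1 / cost lam κ * (1 - 1 / ((j : ℝ) + 2)) * cost lam κ = 1 - 1 / ((j : ℝ) + 2) := by
        field_simp
      rw [this]
      linarith
  rw [← ae_all_iff] at h1
  filter_upwards [h1, inf_set (fun _ => hlam) monotone_const hκ h P hA] with ω hω hinf
  have hS := rset_infinite hinf
  unfold supGap
  apply le_limsup_seq
  intro j
  have hj : (0 : ℝ) ≤ j := Nat.cast_nonneg j
  have hj0 : 1 / ((j : ℝ) + 2) < 1 := by
    rw [div_lt_one (by positivity)]; linarith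
  apply freq_gap hS
  · apply mul_nonneg (by positivity)
    linarith
  · exact (hω j).mono fun n hn => (mem_emp_iff A ω n _).1 hn

/-- constant deletion probability, limit points -/
theorem const_cluster {lam κ : ℝ} (hlam : 0 ≤ lam) (hκ : 0 < κ)
    (P : Measure Ω) [IsProbabilityMeasure P] {A : ℕ → Set Ω}
    (hA : Perturbed (fun _ => lam) κ P A) :
    ∀ᵐ ω ∂P, ∀ t ∈ Set.Icc (0 : ℝ) (1 / cost lam κ), MapClusterPt t atTop (ngap (rset A ω)) := by
  have hcost := cost_pos hlam hκ.le (Or.inr hκ)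
  have h1 : ∀ r : ℚ, ∀ᵐ ω ∂P, ((r : ℝ) ∈ Set.Ioo (0 : ℝ) (1 / cost lam κ) →
      ∃ᶠ n : ℕ in atTop, ω ∈ A n ∧ ω ∈ emp A n ⌊(r : ℝ) * (Real.log n) ^ 2⌋₊ ∧
      ω ∈ A (n + (⌊(r : ℝ) * (Real.log n) ^ 2⌋₊ + 1))) := by
    intro r
    by_cases hr : (r : ℝ) ∈ Set.Ioo (0 : ℝ) (1 / cost lam κ)
    · have h2 : (r : ℝ) * cost lam κ < 1 := by
        have := hr.2
        rwa [lt_div_iff₀ hcost] at this
      filter_upwards [windows_ends hlam hκ hr.1 h2 P hA] with ω hω _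
      exact hω
    · exact Eventually.of_forall fun ω h => absurd h hr
  rw [← ae_all_iff] at h1
  filter_upwards [h1, inf_set (fun _ => hlam) monotone_const hκ.le (Or.inr hκ) P hA] with ω hω hinf
  have hS := rset_infinite hinf
  have h3 : ∀ r : ℚ, (r : ℝ) ∈ Set.Ioo (0 : ℝ) (1 / cost lam κ) →
      MapClusterPt (r : ℝ) atTop (ngap (rset A ω)) := by
    intro r hr
    apply cluster_gap hS _ hr.1.le
    refine (hω r hr).mono fun n hn => ?_
    exact ⟨hn.1, (mem_emp_iff A ω n _).1 hn.2.1, hn.2.2⟩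
  have hclosed : IsClosed {t : ℝ | MapClusterPt t atTop (ngap (rset A ω))} :=
    isClosed_setOfPred_clusterPt
  intro t ht
  have h4 : Set.Icc (0 : ℝ) (1 / cost lam κ) ⊆
      closure (Set.Ioo (0 : ℝ) (1 / cost lam κ) ∩ Set.range ((↑) : ℚ → ℝ)) := by
    have h5 : Set.Ioo (0 : ℝ) (1 / cost lam κ) ⊆
        closure (Set.Ioo (0 : ℝ) (1 / cost lam κ) ∩ Set.range ((↑) : ℚ → ℝ)) :=
      Rat.denseRange_cast.open_subset_closure_inter isOpen_Ioo
    have h6 := closure_mono h5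
    rw [closure_closure, closure_Ioo (by positivity : (0 : ℝ) ≠ 1 / cost lam κ)] at h6
    exact h6
  have h7 : closure (Set.Ioo (0 : ℝ) (1 / cost lam κ) ∩ Set.range ((↑) : ℚ → ℝ)) ⊆
      {t : ℝ | MapClusterPt t atTop (ngap (rset A ω))} := by
    apply hclosed.closure_subset_iff.2
    rintro _ ⟨h8, r, rfl⟩
    exact h3 r h8
  exact h7 (h4 ht)

end Pool.Agent.K4H77.Noise
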