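import Mathlib
import Pool.Agent.K4H77.NG
import Pool.Agent.Helper601.PNT

/-! First occurrences of the gaps of a random perturbation of the primes. -/

set_option autoImplicit false

open MeasureTheory ProbabilityTheory Filter Finset
open Pool.Agent.H510R2.Maier
open scoped Topology

namespace Pool.Agent.K4H77.Noise

variable {Ω : Type*} [MeasurableSpace Ω]

/-- almost surely there are empty windows of length `c (log x)^2` below every large `x` -/
theorem windows_all {lam κ c : ℝ} (hlam : 0 ≤ lam) (hκ : 0 ≤ κ) (hc0 : 0 < c)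
    (hc : c * cost lam κ < 1) (P : Measure Ω) [IsProbabilityMeasure P] {A : ℕ → Set Ω}
    (hA : Perturbed (fun _ => lam) κ P A) :
    ∀ᵐ ω ∂P, ∀ᶠ x : ℕ in atTop, ∃ n : ℕ, n ≤ x ∧ (x : ℝ) ^ (1 / 2 : ℝ) < n ∧
      ∀ m : ℕ, n < m → (m : ℝ) ≤ n + c * (Real.log x) ^ 2 → m ∉ rset A ω := by
  classical
  have hcost := cost_nonneg hlam hκ
  set η : ℝ := (1 - c * cost lam κ) / 2 with hη
  have hη0 : 0 < η := by rw [hη]; linarith
  obtain ⟨θ, hθ0, hθ1, hθ⟩ : ∃ θ : ℝ, 1 / 2 < θ ∧ θ < 1 ∧ c / θ ^ 2 * cost lam κ < 1 - η := by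
    have h1 : Tendsto (fun θ : ℝ => c / θ ^ 2 * cost lam κ) (nhdsWithin 1 (Set.Iio 1))
        (nhds (c / 1 ^ 2 * cost lam κ)) := by
      apply Tendsto.mono_left _ nhdsWithin_le_nhds
      apply Tendsto.mul_const
      apply Tendsto.div tendsto_const_nhds
      · exact (continuous_pow 2).tendsto 1
      · norm_num
    have h2 : c / 1 ^ 2 * cost lam κ < 1 - η := by
      rw [one_pow, div_one, hη]; linarith
    have h3 := h1.eventually_lt_const h2
    have h4 : ∀ᶠ θ : ℝ in nhdsWithin 1 (Set.Iio 1), 1 / 2 < θ :=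
      nhdsWithin_le_nhds (lt_mem_nhds (by norm_num))
    obtain ⟨θ, h5, h6, h7⟩ := (h3.and (h4.and self_mem_nhdsWithin)).exists
    exact ⟨θ, h6, h7, h5⟩
  have hθp : 0 < θ := by linarith
  set c' := c / θ ^ 2 with hc'
  have hc'0 : 0 < c' := by positivity
  obtain ⟨κ₁, h1, h2, h3⟩ := params hlam hc'0 hθ
  obtain ⟨σ, h4, h5⟩ := exists_between h3
  rcases le_or_gt σ 0 with hσ | h6
  · exfalso
    have : 0 ≤ κ₁ * lam + c' * κ := by positivity
    linarith
  have key := core P hA.meas hA.indep (Wn κ₁ c') (fun n => ⌊c' * (Real.log n) ^ 2⌋₊)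
    (fun n => emp A n ⌊c' * (Real.log n) ^ 2⌋₊) σ h6.le c' hc'0.le
    (Eventually.of_forall fun n => floor_le_logsq hc'0.le n)
    (fun n => emp_meas A n _ _ (fun h hh => by
      rw [Finset.mem_Icc] at hh
      exact ⟨by omega, by omega⟩))
    (by
      filter_upwards [emp_ge_const (κ₁ := κ₁) hlam hκ hc'0.le,
        rpow_le_exp (b := 2 * c' * κ ^ 2) one_pos h4] with n h8 h9 h10
      rw [emp_prob (fun _ => hlam) hκ hA]
      apply ENNReal.ofReal_le_ofReal
      exact h9.1.trans (h8 _ (floor_le_logsq hc'0.le n) h10))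
    (fun η hη => Wn_many κ₁ c' h1 h2 η hη) θ hθp hθ1 (η / 2) (by linarith)
  obtain ⟨x0, hx0⟩ := eventually_atTop.1 key
  set E : ℕ → Set Ω := fun x =>
    ⋂ n ∈ (Icc 1 x).filter (fun n => Wn κ₁ c' n ∧ (x : ℝ) ^ θ < n),
      (emp A n ⌊c' * (Real.log n) ^ 2⌋₊)ᶜ with hE
  have hsum : (∑' x, P (E (x + x0))) ≠ ⊤ := by
    have g1 : ∀ x, P (E (x + x0)) ≤ ENNReal.ofReal (Real.exp (-((x + x0 : ℕ) : ℝ) ^ (η / 2))) :=
      fun x => hx0 (x + x0) (Nat.le_add_left _ _)
    have g2 := (summable_nat_add_iff x0).2 (summable_exp (η / 2) (by linarith))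
    exact ne_top_of_le_ne_top g2.tsum_ofReal_ne_top (ENNReal.tsum_le_tsum g1)
  filter_upwards [ae_eventually_notMem hsum] with ω hω
  obtain ⟨x1, hx1⟩ := eventually_atTop.1 hω
  filter_upwards [eventually_ge_atTop (x1 + x0 + 1)] with x hx
  have h7 := hx1 (x - x0) (by omega)
  rw [Nat.sub_add_cancel (by omega)] at h7
  rw [hE] at h7
  simp only [Set.mem_iInter, not_forall, Set.mem_compl_iff, not_not] at h7
  obtain ⟨n, hn, hn2⟩ := h7
  rw [Finset.mem_filter, Finset.mem_Icc] at hn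
  have hx1' : (1 : ℝ) ≤ x := by
    have : 1 ≤ x := by omega
    exact_mod_cast this
  refine ⟨n, hn.1.2, ?_, fun m hm1 hm2 => ?_⟩
  · exact lt_of_le_of_lt (Real.rpow_le_rpow_of_exponent_le hx1' hθ0.le) hn.2.2
  have hlogn : θ * Real.log x ≤ Real.log n := by
    rw [← Real.log_rpow (by linarith)]
    exact Real.log_le_log (by positivity) hn.2.2.le
  have hlogx : 0 ≤ Real.log x := Real.log_nonneg hx1'
  have h8 : c * (Real.log x) ^ 2 ≤ c' * (Real.log n) ^ 2 := by
    calc c * (Real.log x) ^ 2 = c' * (θ * Real.log x) ^ 2 := by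
          rw [hc']; field_simp
      _ ≤ c' * (Real.log n) ^ 2 := by gcongr
  have h9 : m - n ≤ ⌊c' * (Real.log n) ^ 2⌋₊ := by
    apply Nat.le_floor
    rw [Nat.cast_sub hm1.le]
    linarith
  have h10 := (mem_emp_iff A ω n _).1 hn2 (m - n) (Finset.mem_Icc.2 ⟨by omega, h9⟩)
  rwa [show n + (m - n) = m by omega] at h10

/-- many primes between `x` and `2 x` -/
theorem primes_dyadic : ∀ᶠ x : ℕ in atTop, (x : ℝ) ^ (1 / 2 : ℝ) ≤ (cnt x x : ℝ) := by
  have h1 := Pool.Agent.Helper601.PNT.pi_tendsto.comp (tendsto_natCast_atTop_atTop (R := ℝ))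
  have h2 : Tendsto (fun n : ℕ => 2 * n) atTop atTop := tendsto_id.const_mul_atTop' (by norm_num)
  have h3 := h1.comp h2
  have e1 := h1.eventually_lt_const (show (1 : ℝ) < 1.1 by norm_num)
  have e2 := h3.eventually_const_lt (show (0.9 : ℝ) < 1 by norm_num)
  have t1 : Tendsto (fun n : ℕ => Real.log n) atTop atTop :=
    Real.tendsto_log_atTop.comp (tendsto_natCast_atTop_atTop (R := ℝ))
  have e3 : ∀ᶠ x : ℕ in atTop, 10 * Real.log x ≤ (x : ℝ) ^ (1 / 2 : ℝ) := by
    have h4 := (isLittleO_log_rpow_atTop (show (0 : ℝ) < 1 / 2 by norm_num)).comp_tendsto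
      (tendsto_natCast_atTop_atTop (R := ℝ))
    filter_upwards [h4.bound (show (0 : ℝ) < 1 / 10 by norm_num), eventually_ge_atTop 1] with x h5 h6
    simp only [Function.comp] at h5
    have hx : (1 : ℝ) ≤ x := by exact_mod_cast h6
    rw [Real.norm_of_nonneg (Real.log_nonneg hx), Real.norm_of_nonneg (by positivity)] at h5
    linarith
  filter_upwards [e1, e2, t1.eventually_ge_atTop 20, e3, eventually_ge_atTop 2] with x g1 g2 g3 g4 g5
  have hx : (2 : ℝ) ≤ x := by exact_mod_cast g5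
  have hl : 0 < Real.log x := by linarith
  simp only [Function.comp, Nat.floor_natCast] at g1 g2
  have hl2 : Real.log ((2 * x : ℕ) : ℝ) ≤ 1.05 * Real.log x := by
    push_cast
    rw [Real.log_mul (by norm_num) (by linarith)]
    have := Real.log_two_lt_d9
    linarith
  have hl3 : 0 < Real.log ((2 * x : ℕ) : ℝ) := by
    push_cast
    exact Real.log_pos (by linarith)
  have hcnt := cnt_pi x x
  rw [show x + x = 2 * x by ring] at hcnt
  rw [div_lt_iff₀ (by linarith)] at g1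
  rw [lt_div_iff₀ (by push_cast; linarith)] at g2
  -- `π(x) log x < 1.1 x`, `0.9 * 2x < π(2x) log (2x)`
  have g6 : 0.9 * (2 * (x : ℝ)) < Nat.primeCounting (2 * x) * (1.05 * Real.log x) := by
    refine lt_of_lt_of_le (lt_of_eq_of_lt (by push_cast; ring) g2) ?_
    gcongr
  have g7 : (0.5 : ℝ) * x ≤ (cnt x x : ℝ) * Real.log x := by
    rw [hcnt, sub_mul]
    nlinarith
  have g8 : (x : ℝ) ^ (1 / 2 : ℝ) * (x : ℝ) ^ (1 / 2 : ℝ) = x := by
    rw [← Real.rpow_add (by linarith)]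
    norm_num
  have g9 : (x : ℝ) ^ (1 / 2 : ℝ) * Real.log x ≤ (cnt x x : ℝ) * Real.log x := by
    have : 0 ≤ (x : ℝ) ^ (1 / 2 : ℝ) := by positivity
    nlinarith
  exact le_of_mul_le_mul_right g9 hl

/-- the random set meets `(x, 2x]` for all large `x` -/
theorem dyadic {lam κ : ℝ} (hlam : 0 ≤ lam) (hκ : 0 ≤ κ) (h : 0 < lam ∨ 0 < κ)
    (P : Measure Ω) [IsProbabilityMeasure P] {A : ℕ → Set Ω}
    (hA : Perturbed (fun _ => lam) κ P A) :
    ∀ᵐ ω ∂P, ∀ᶠ x : ℕ in atTop, ∃ m : ℕ, x < m ∧ m ≤ 2 * x ∧ m ∈ rset A ω := by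
  rcases h with h | h
  · have hb : ∀ᶠ x : ℕ in atTop, P (emp A x x) ≤ ENNReal.ofReal (Real.exp (-(x : ℝ) ^ (1 / 4 : ℝ))) := by
      have e1 : ∀ᶠ x : ℕ in atTop, 1 / lam ≤ (x : ℝ) ^ (1 / 4 : ℝ) :=
        ((tendsto_rpow_atTop (show (0 : ℝ) < 1 / 4 by norm_num)).comp
          (tendsto_natCast_atTop_atTop (R := ℝ))).eventually_ge_atTop _
      filter_upwards [primes_dyadic, e1, eventually_ge_atTop 1] with x h1 h2 h3
      have hx : (0 : ℝ) < x := by exact_mod_cast h3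
      rw [emp_prob (fun _ => hlam) hκ hA]
      apply ENNReal.ofReal_le_ofReal
      have h4 : ∏ h ∈ Icc 1 x, (1 - prb (fun _ => lam) κ (x + h)) ≤
          ∏ h ∈ Icc 1 x, (if (x + h).Prime then Real.exp (-lam) else 1) := by
        apply Finset.prod_le_prod
        · intro h _
          have := prb_le_one (fun _ => lam) κ (x + h)
          linarith
        · intro h _
          rw [one_sub_prb]
          have g1 := ins_nonneg hκ (x + h)
          have g2 := ins_le_one κ (x + h)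
          have g3 : 0 ≤ (if (x + h).Prime then Real.exp (-lam) else 1) := by
            split_ifs
            · exact (Real.exp_pos _).le
            · exact zero_le_one
          nlinarith
      refine h4.trans ?_
      rw [← Finset.prod_filter, Finset.prod_const, ← Real.exp_nat_mul]
      apply Real.exp_le_exp.2
      have h5 : (x : ℝ) ^ (1 / 4 : ℝ) ≤ lam * cnt x x := by
        have h6 : (x : ℝ) ^ (1 / 4 : ℝ) * (x : ℝ) ^ (1 / 4 : ℝ) = (x : ℝ) ^ (1 / 2 : ℝ) := by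
          rw [← Real.rpow_add hx]; norm_num
        rw [div_le_iff₀ h] at h2
        have h7 : 0 ≤ (x : ℝ) ^ (1 / 4 : ℝ) := by positivity
        nlinarith
      have h8 : ((((Icc 1 x).filter (fun h => (x + h).Prime)).card : ℕ) : ℝ) = cnt x x := rfl
      rw [h8]
      linarith
    obtain ⟨x0, hx0⟩ := eventually_atTop.1 hb
    have hsum : (∑' x, P (emp A (x + x0) (x + x0))) ≠ ⊤ := by
      have g1 : ∀ x, P (emp A (x + x0) (x + x0)) ≤
          ENNReal.ofReal (Real.exp (-((x + x0 : ℕ) : ℝ) ^ (1 / 4 : ℝ))) :=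
        fun x => hx0 (x + x0) (Nat.le_add_left _ _)
      have g2 := (summable_nat_add_iff x0).2 (summable_exp (1 / 4) (by norm_num))
      exact ne_top_of_le_ne_top g2.tsum_ofReal_ne_top (ENNReal.tsum_le_tsum g1)
    filter_upwards [ae_eventually_notMem hsum] with ω hω
    obtain ⟨x1, hx1⟩ := eventually_atTop.1 hω
    filter_upwards [eventually_ge_atTop (x1 + x0)] with x hx
    have h7 := hx1 (x - x0) (by omega)
    rw [Nat.sub_add_cancel (by omega)] at h7
    rw [mem_emp_iff] at h7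
    push Not at h7
    obtain ⟨j, hj, hj2⟩ := h7
    rw [Finset.mem_Icc] at hj
    exact ⟨x + j, by omega, by omega, hj2⟩
  · have h1 := no_windows (C := 2 / κ) (fun _ => hlam) h (by rw [div_mul_cancel₀ _ h.ne']; norm_num) P hA
    filter_upwards [h1] with ω hω
    filter_upwards [hω, logsq_le_rpow (2 / κ) 1 one_pos] with x h2 h3
    rw [mem_emp_iff] at h2
    push Not at h2
    obtain ⟨j, hj, hj2⟩ := h2
    rw [Finset.mem_Icc] at hj
    rw [Real.rpow_one] at h3
    have h4 : ((⌊2 / κ * (Real.log x) ^ 2⌋₊ : ℕ) : ℝ) ≤ 2 / κ * (Real.log x) ^ 2 :=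
      floor_le_logsq (by positivity) x
    have h5 : (j : ℝ) ≤ x := by
      have : (j : ℝ) ≤ (⌊2 / κ * (Real.log x) ^ 2⌋₊ : ℕ) := by exact_mod_cast hj.2
      have h6 : 0 ≤ 2 / κ * (Real.log x) ^ 2 := by positivity
      linarith
    have h6 : j ≤ x := by exact_mod_cast h5
    exact ⟨x + j, by omega, by omega, hj2⟩

/-- the first element of `S` that follows a run of at least `g` consecutive integers between two
consecutive elements of `S`; for the set of the primes this is `p(g)` -/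
noncomputable def firstAfter (S : Set ℕ) (g : ℕ) : ℕ :=
  sInf {m : ℕ | ∃ k : ℕ, m = Nat.nth (· ∈ S) (k + 1) ∧ Nat.nth (· ∈ S) k + g < m}

theorem firstAfter_spec {S : Set ℕ} {g : ℕ}
    (h : ∃ k : ℕ, Nat.nth (· ∈ S) k + g < Nat.nth (· ∈ S) (k + 1)) :
    ∃ k : ℕ, firstAfter S g = Nat.nth (· ∈ S) (k + 1) ∧ Nat.nth (· ∈ S) k + g < firstAfter S g := by
  obtain ⟨k, hk⟩ := h
  exact Nat.sInf_mem (s := {m : ℕ | ∃ k : ℕ, m = Nat.nth (· ∈ S) (k + 1) ∧
    Nat.nth (· ∈ S) k + g < m}) ⟨_, k, rfl, hk⟩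

theorem firstAfter_le {S : Set ℕ} {g k : ℕ}
    (h : Nat.nth (· ∈ S) k + g < Nat.nth (· ∈ S) (k + 1)) :
    firstAfter S g ≤ Nat.nth (· ∈ S) (k + 1) := Nat.sInf_le ⟨k, rfl, h⟩

/-- upper bound for the first occurrence -/
theorem first_upper {S : Set ℕ} (hS : S.Infinite) {c ε : ℝ} (hc : 0 < c) (hε : 0 < ε)
    (h1 : ∀ᶠ x : ℕ in atTop, ∃ n : ℕ, n ≤ x ∧ (x : ℝ) ^ (1 / 2 : ℝ) < n ∧
      ∀ m : ℕ, n < m → (m : ℝ) ≤ n + c * (Real.log x) ^ 2 → m ∉ S)
    (h2 : ∀ᶠ x : ℕ in atTop, ∃ m : ℕ, x < m ∧ m ≤ 2 * x ∧ m ∈ S) :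
    ∀ᶠ g : ℕ in atTop, (∃ k : ℕ, Nat.nth (· ∈ S) k + g < Nat.nth (· ∈ S) (k + 1)) ∧
      (Real.log (firstAfter S g)) ^ 2 / g ≤ 1 / c + ε := by
  classical
  have hS' : (Set.ofPred (· ∈ S)).Infinite := hS
  -- `x = ⌈exp (sqrt (g / c))⌉`
  set X : ℕ → ℕ := fun g => ⌈Real.exp (Real.sqrt (g / c))⌉₊ with hX
  have tX' : Tendsto (fun g : ℕ => Real.sqrt ((g : ℝ) / c)) atTop atTop :=
    Real.tendsto_sqrt_atTop.comp ((tendsto_natCast_atTop_atTop (R := ℝ)).atTop_div_const hc)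
  have tX : Tendsto X atTop atTop := by
    apply tendsto_nat_ceil_atTop.comp
    exact Real.tendsto_exp_atTop.comp tX'
  obtain ⟨a, ha⟩ := hS.nonempty
  have e3 : ∀ᶠ x : ℕ in atTop, (a : ℝ) < (x : ℝ) ^ (1 / 2 : ℝ) :=
    ((tendsto_rpow_atTop (show (0 : ℝ) < 1 / 2 by norm_num)).comp
      (tendsto_natCast_atTop_atTop (R := ℝ))).eventually_gt_atTop _
  have e4 : ∀ᶠ g : ℕ in atTop, (Real.sqrt ((g : ℝ) / c) + 2) ^ 2 / g ≤ 1 / c + ε := by
    have g1 : Tendsto (fun g : ℕ => (Real.sqrt ((g : ℝ) / c) + 2) ^ 2 / g) atTop (𝓝 (1 / c)) := by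
      have g2 : Tendsto (fun g : ℕ => (1 / c) * (1 + 2 / Real.sqrt ((g : ℝ) / c)) ^ 2) atTop
          (𝓝 ((1 / c) * (1 + 0) ^ 2)) := by
        apply Tendsto.const_mul
        apply Tendsto.pow
        exact (tX'.const_div_atTop 2).const_add 1
      rw [show (1 / c) * (1 + 0) ^ 2 = 1 / c by ring] at g2
      refine g2.congr' ?_
      filter_upwards [eventually_gt_atTop 0] with g hg
      have hg0 : (0 : ℝ) < g := by exact_mod_cast hg
      have hsq : Real.sqrt ((g : ℝ) / c) ^ 2 = g / c := Real.sq_sqrt (by positivity)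
      have hs0 : 0 < Real.sqrt ((g : ℝ) / c) := Real.sqrt_pos.2 (by positivity)
      have g3 : (1 + 2 / Real.sqrt ((g : ℝ) / c)) ^ 2 =
          (Real.sqrt ((g : ℝ) / c) + 2) ^ 2 / Real.sqrt ((g : ℝ) / c) ^ 2 := by
        field_simp
      rw [g3, hsq]
      field_simp
    exact g1.eventually_le_const (by linarith)
  filter_upwards [tX.eventually h1, tX.eventually h2, tX.eventually e3, e4,
    eventually_ge_atTop 1] with g g1 g2 g3 g4 g5
  set x := X g with hx
  have hxr : Real.exp (Real.sqrt ((g : ℝ) / c)) ≤ x := Nat.le_ceil _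
  have hxr2 : (x : ℝ) ≤ Real.exp (Real.sqrt ((g : ℝ) / c)) + 1 := (Nat.ceil_lt_add_one (Real.exp_pos _).le).le
  obtain ⟨n, hn1, hn2, hn3⟩ := g1
  obtain ⟨b, hb1, hb2, hb3⟩ := g2
  have hlog : Real.sqrt ((g : ℝ) / c) ≤ Real.log x := by
    rw [Real.le_log_iff_exp_le (lt_of_lt_of_le (Real.exp_pos _) hxr)]
    exact hxr
  have hg : (g : ℝ) ≤ c * (Real.log x) ^ 2 := by
    have h6 : Real.sqrt ((g : ℝ) / c) ^ 2 = g / c := Real.sq_sqrt (by positivity)
    have h7 : Real.sqrt ((g : ℝ) / c) ^ 2 ≤ (Real.log x) ^ 2 :=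
      pow_le_pow_left₀ (Real.sqrt_nonneg _) hlog 2
    rw [h6, div_le_iff₀ hc] at h7
    linarith
  have han : a < n := by
    have : (a : ℝ) < n := g3.trans hn2
    exact_mod_cast this
  have hcpos : 0 < Nat.count (· ∈ S) (n + 1) := by
    rw [Nat.count_eq_card_filter_range, Finset.card_pos]
    exact ⟨a, Finset.mem_filter.2 ⟨Finset.mem_range.2 (by omega), ha⟩⟩
  have hempty : ∀ j ∈ Icc 1 g, n + j ∉ S := by
    intro j hj
    rw [Finset.mem_Icc] at hj
    apply hn3 (n + j) (by omega)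
    have : (j : ℝ) ≤ g := by exact_mod_cast hj.2
    push_cast
    linarith
  obtain ⟨h8, h9⟩ := nth_gap hS hempty hcpos
  set k := Nat.count (· ∈ S) (n + 1) - 1 with hk
  have hgap : Nat.nth (· ∈ S) k + g < Nat.nth (· ∈ S) (k + 1) := by omega
  refine ⟨⟨k, hgap⟩, ?_⟩
  have h10 := firstAfter_le hgap
  -- the next element is at most `2x`
  have h11 : Nat.nth (· ∈ S) (k + 1) ≤ b := by
    have h12 : k + 1 < Nat.count (· ∈ S) (b + 1) := by
      have h13 : Nat.count (· ∈ S) (b + 1) = Nat.count (· ∈ S) b + 1 := by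
        rw [Nat.count_succ, if_pos hb3]
      have h14 : Nat.count (· ∈ S) (n + 1) ≤ Nat.count (· ∈ S) b :=
        Nat.count_monotone _ (by omega)
      omega
    have := Nat.nth_lt_of_lt_count h12
    omega
  have h12 : firstAfter S g ≤ 2 * x := by omega
  have h13 : 1 ≤ firstAfter S g := by
    obtain ⟨k', hk'1, hk'2⟩ := firstAfter_spec ⟨k, hgap⟩
    omega
  have h14 : Real.log (firstAfter S g) ≤ Real.sqrt ((g : ℝ) / c) + 2 := by
    have h15 : (firstAfter S g : ℝ) ≤ Real.exp (Real.sqrt ((g : ℝ) / c) + 2) := by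
      have h16 : (firstAfter S g : ℝ) ≤ 2 * x := by exact_mod_cast h12
      have h17 : 1 ≤ Real.exp (Real.sqrt ((g : ℝ) / c)) := Real.one_le_exp (Real.sqrt_nonneg _)
      rw [Real.exp_add]
      have h18 : (4 : ℝ) ≤ Real.exp 2 := by
        have := Real.exp_one_gt_d9
        rw [show (2 : ℝ) = 1 + 1 by norm_num, Real.exp_add]
        nlinarith
      nlinarith
    calc Real.log (firstAfter S g) ≤ Real.log (Real.exp (Real.sqrt ((g : ℝ) / c) + 2)) :=
          Real.log_le_log (by exact_mod_cast h13) h15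
      _ = _ := Real.log_exp _
  have h15 : 0 ≤ Real.log (firstAfter S g) := Real.log_nonneg (by exact_mod_cast h13)
  refine le_trans ?_ g4
  have hg0 : (0 : ℝ) < g := by exact_mod_cast g5
  gcongr

/-- lower bound for the first occurrence -/
theorem first_lower {S : Set ℕ} (hS : S.Infinite) {C : ℝ} (hC : 0 < C)
    (h : ∀ᶠ k in atTop, ngap S k ≤ C)
    (hex : ∀ᶠ g : ℕ in atTop, ∃ k : ℕ, Nat.nth (· ∈ S) k + g < Nat.nth (· ∈ S) (k + 1)) :
    ∀ᶠ g : ℕ in atTop, 1 / C ≤ (Real.log (firstAfter S g)) ^ 2 / g := by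
  classical
  have hS' : (Set.ofPred (· ∈ S)).Infinite := hS
  obtain ⟨K, hK⟩ := eventually_atTop.1 h
  -- gaps with small index are bounded
  filter_upwards [hex, eventually_ge_atTop (Nat.nth (· ∈ S) (K + 3)), eventually_ge_atTop 1]
    with g g1 g2 g3
  obtain ⟨k, hk1, hk2⟩ := firstAfter_spec g1
  have hkK : K + 2 ≤ k := by
    by_contra hcon
    have h1 : k + 1 ≤ K + 3 := by omega
    have h2 : Nat.nth (· ∈ S) (k + 1) ≤ Nat.nth (· ∈ S) (K + 3) := (Nat.nth_monotone hS') h1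
    omega
  have h1 := hK k (by omega)
  have h2 : 2 ≤ Nat.nth (· ∈ S) k := by
    have := (Nat.nth_strictMono hS').id_le k
    simp only [id] at this
    omega
  have h3 : (2 : ℝ) ≤ Nat.nth (· ∈ S) k := by exact_mod_cast h2
  have h4 : 0 < Real.log (Nat.nth (· ∈ S) k) := Real.log_pos (by linarith)
  unfold ngap at h1
  rw [div_le_iff₀ (by positivity), ← hk1] at h1
  have h5 : (Nat.nth (· ∈ S) k : ℝ) + g < firstAfter S g := by exact_mod_cast hk2
  have h6 : Real.log (Nat.nth (· ∈ S) k) ≤ Real.log (firstAfter S g) := by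
    apply Real.log_le_log (by linarith)
    have : (0 : ℝ) ≤ g := Nat.cast_nonneg g
    linarith
  have hg0 : (0 : ℝ) < g := by exact_mod_cast g3
  rw [div_le_div_iff₀ hC hg0]
  have h7 : (Real.log (Nat.nth (· ∈ S) k)) ^ 2 ≤ (Real.log (firstAfter S g)) ^ 2 :=
    pow_le_pow_left₀ h4.le h6 2
  nlinarith

end Pool.Agent.K4H77.Noise
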