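import Mathlib
import Pool.Agent.K4H25.FH.Spec

/-!
# Fractional Gaussian noise, `1/2 < H < 1`: signs of the differences of the autocovariance
-/

set_option autoImplicit false

namespace Pool.Agent.K4H25.FH

open Finset

lemma mvt1 (F F' : ℝ → ℝ) (a : ℝ) (hc : Continuous F)
    (hd : ∀ x, a < x → HasDerivAt F (F' x) x) :
    ∃ ξ, a < ξ ∧ F (a + 1) - F a = F' ξ := by
  obtain ⟨c, hc1, hc2⟩ := exists_hasDerivAt_eq_slope F F' (show a < a + 1 by linarith)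
    hc.continuousOn (fun x hx => hd x hx.1)
  refine ⟨c, hc1.1, ?_⟩
  rw [hc2]
  have : a + 1 - a = 1 := by ring
  rw [this, div_one]

lemma mvt2 (F F' : ℝ → ℝ) (a : ℝ) (ha : 0 < a)
    (hd : ∀ x, 0 < x → HasDerivAt F (F' x) x) :
    ∃ ξ, a < ξ ∧ F (a + 1) - F a = F' ξ := by
  obtain ⟨c, hc1, hc2⟩ := exists_hasDerivAt_eq_slope F F' (show a < a + 1 by linarith)
    (fun x hx => (hd x (by linarith [hx.1])).continuousAt.continuousWithinAt)
    (fun x hx => hd x (by linarith [hx.1]))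
  refine ⟨c, hc1.1, ?_⟩
  rw [hc2]
  have : a + 1 - a = 1 := by ring
  rw [this, div_one]

lemma dpow (p c x : ℝ) (hx : 0 < x + c) :
    HasDerivAt (fun y : ℝ => (y + c) ^ p) (p * (x + c) ^ (p - 1)) x := by
  have h := (Real.hasDerivAt_rpow_const (x := x + c) (p := p) (Or.inl hx.ne'))
  have h2 : HasDerivAt (fun y : ℝ => y + c) 1 x := (hasDerivAt_id x).add_const c
  have h3 := h.comp x h2
  rw [mul_one] at h3
  exact h3

lemma cpow (p c : ℝ) (hp : 0 ≤ p) : Continuous (fun y : ℝ => (y + c) ^ p) :=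
  (continuous_id.add continuous_const).rpow_const (fun _ => Or.inr hp)

/-- the third difference of `x ^ s` -/
lemma d3_neg {s a : ℝ} (h1 : 1 < s) (h2 : s < 2) (ha : 0 ≤ a) :
    (a + 3) ^ s - 3 * (a + 2) ^ s + 3 * (a + 1) ^ s - a ^ s < 0 := by
  obtain ⟨x, hx, e1⟩ := mvt1 (fun y => (y + 2) ^ s - 2 * (y + 1) ^ s + (y + 0) ^ s)
    (fun y => s * (y + 2) ^ (s - 1) - 2 * (s * (y + 1) ^ (s - 1)) + s * (y + 0) ^ (s - 1)) a
    (((cpow s 2 (by linarith)).sub (continuous_const.mul (cpow s 1 (by linarith)))).add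
      (cpow s 0 (by linarith)))
    (fun x hx => ((dpow s 2 x (by linarith)).sub ((dpow s 1 x (by linarith)).const_mul 2)).add
      (dpow s 0 x (by linarith)))
  obtain ⟨z, hz, e2⟩ := mvt2 (fun y => (y + 1) ^ (s - 1) - (y + 0) ^ (s - 1))
    (fun y => (s - 1) * (y + 1) ^ (s - 1 - 1) - (s - 1) * (y + 0) ^ (s - 1 - 1)) x
    (by linarith) (fun x hx => (dpow (s - 1) 1 x (by linarith)).sub
      (dpow (s - 1) 0 x (by linarith)))
  have hz0 : 0 < z := by linarith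
  have h3 : (z + 1) ^ (s - 1 - 1) < (z + 0) ^ (s - 1 - 1) :=
    Real.rpow_lt_rpow_of_neg (by linarith) (by linarith) (by linarith)
  have e3 : (a + 1 + 2) = a + 3 := by ring
  have e4 : (a + 1 + 1) = a + 2 := by ring
  have e5 : (x + 1 + 1) = x + 2 := by ring
  rw [e3, e4] at e1
  rw [e5] at e2
  simp only [add_zero] at e1 e2 h3
  have h4 : (s - 1) * (z + 1) ^ (s - 1 - 1) - (s - 1) * z ^ (s - 1 - 1) < 0 := by
    have : 0 < (s - 1) * (z ^ (s - 1 - 1) - (z + 1) ^ (s - 1 - 1)) :=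
      mul_pos (by linarith) (by linarith)
    linarith
  have h5 : (x + 2) ^ (s - 1) - (x + 1) ^ (s - 1) - ((x + 1) ^ (s - 1) - x ^ (s - 1)) < 0 := by
    rw [e2]; exact h4
  have h6 : s * (x + 2) ^ (s - 1) - 2 * (s * (x + 1) ^ (s - 1)) + s * x ^ (s - 1) < 0 := by
    have : s * ((x + 2) ^ (s - 1) - (x + 1) ^ (s - 1) - ((x + 1) ^ (s - 1) - x ^ (s - 1))) < 0 :=
      mul_neg_of_pos_of_neg (by linarith) h5
    linarith
  linarith

/-- the fourth difference of `x ^ s` -/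
lemma d4_pos {s a : ℝ} (h1 : 1 < s) (h2 : s < 2) (ha : 0 ≤ a) :
    0 < (a + 4) ^ s - 4 * (a + 3) ^ s + 6 * (a + 2) ^ s - 4 * (a + 1) ^ s + a ^ s := by
  obtain ⟨x, hx, e1⟩ := mvt1 (fun y => (y + 3) ^ s - 3 * (y + 2) ^ s + 3 * (y + 1) ^ s -
      (y + 0) ^ s)
    (fun y => s * (y + 3) ^ (s - 1) - 3 * (s * (y + 2) ^ (s - 1)) +
      3 * (s * (y + 1) ^ (s - 1)) - s * (y + 0) ^ (s - 1)) a
    ((((cpow s 3 (by linarith)).sub (continuous_const.mul (cpow s 2 (by linarith)))).add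
      (continuous_const.mul (cpow s 1 (by linarith)))).sub (cpow s 0 (by linarith)))
    (fun x hx => (((dpow s 3 x (by linarith)).sub ((dpow s 2 x (by linarith)).const_mul 3)).add
      ((dpow s 1 x (by linarith)).const_mul 3)).sub (dpow s 0 x (by linarith)))
  obtain ⟨z, hz, e2⟩ := mvt2 (fun y => (y + 2) ^ (s - 1) - 2 * (y + 1) ^ (s - 1) +
      (y + 0) ^ (s - 1))
    (fun y => (s - 1) * (y + 2) ^ (s - 1 - 1) - 2 * ((s - 1) * (y + 1) ^ (s - 1 - 1)) +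
      (s - 1) * (y + 0) ^ (s - 1 - 1)) x
    (by linarith) (fun x hx => ((dpow (s - 1) 2 x (by linarith)).sub
      ((dpow (s - 1) 1 x (by linarith)).const_mul 2)).add (dpow (s - 1) 0 x (by linarith)))
  obtain ⟨w, hw, e3⟩ := mvt2 (fun y => (y + 1) ^ (s - 1 - 1) - (y + 0) ^ (s - 1 - 1))
    (fun y => (s - 1 - 1) * (y + 1) ^ (s - 1 - 1 - 1) - (s - 1 - 1) * (y + 0) ^ (s - 1 - 1 - 1)) z
    (by linarith) (fun x hx => (dpow (s - 1 - 1) 1 x (by linarith)).sub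
      (dpow (s - 1 - 1) 0 x (by linarith)))
  have hw0 : 0 < w := by linarith
  have h3 : (w + 1) ^ (s - 1 - 1 - 1) < (w + 0) ^ (s - 1 - 1 - 1) :=
    Real.rpow_lt_rpow_of_neg (by linarith) (by linarith) (by linarith)
  have a1 : (a + 1 + 3) = a + 4 := by ring
  have a2 : (a + 1 + 2) = a + 3 := by ring
  have a3 : (a + 1 + 1) = a + 2 := by ring
  have a4 : (x + 1 + 2) = x + 3 := by ring
  have a5 : (x + 1 + 1) = x + 2 := by ring
  have a6 : (z + 1 + 1) = z + 2 := by ring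
  rw [a1, a2, a3] at e1
  rw [a4, a5] at e2
  rw [a6] at e3
  simp only [add_zero] at e1 e2 e3 h3
  have h4 : 0 < (s - 1 - 1) * (w + 1) ^ (s - 1 - 1 - 1) - (s - 1 - 1) * w ^ (s - 1 - 1 - 1) := by
    have : 0 < (2 - s) * (w ^ (s - 1 - 1 - 1) - (w + 1) ^ (s - 1 - 1 - 1)) :=
      mul_pos (by linarith) (by linarith)
    linarith
  rw [← e3] at h4
  have h5 : 0 < (s - 1) * (z + 2) ^ (s - 1 - 1) - 2 * ((s - 1) * (z + 1) ^ (s - 1 - 1)) +
      (s - 1) * z ^ (s - 1 - 1) := by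
    have := mul_pos (show 0 < s - 1 by linarith) h4
    linarith
  rw [← e2] at h5
  have h6 : 0 < s * (x + 3) ^ (s - 1) - 3 * (s * (x + 2) ^ (s - 1)) +
      3 * (s * (x + 1) ^ (s - 1)) - s * x ^ (s - 1) := by
    have := mul_pos (show 0 < s by linarith) h5
    linarith
  rw [← e1] at h6
  linarith

theorem gam_neg (H : ℝ) (j : ℤ) : gam H (-j) = gam H j := by
  unfold gam
  have e1 : |((-j : ℤ) : ℝ) + 1| = |(j : ℝ) - 1| := by
    rw [← abs_neg]; congr 1; push_cast; ring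
  have e2 : |((-j : ℤ) : ℝ)| = |(j : ℝ)| := by
    rw [← abs_neg]; congr 1; push_cast; ring
  have e3 : |((-j : ℤ) : ℝ) - 1| = |(j : ℝ) + 1| := by
    rw [← abs_neg]; congr 1; push_cast; ring
  rw [e1, e2, e3]
  ring

theorem dlt_neg (H : ℝ) (j : ℤ) : dlt H (-j) = dlt H j := by
  unfold dlt
  have e1 : -j + 1 = -(j - 1) := by ring
  have e2 : -j - 1 = -(j + 1) := by ring
  rw [e1, e2, gam_neg, gam_neg, gam_neg]
  ring

lemma gam_succ (H : ℝ) (n : ℕ) :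
    gam H ((n : ℤ) + 1) = (((n : ℝ) + 2) ^ (2 * H) - 2 * ((n : ℝ) + 1) ^ (2 * H) +
      (n : ℝ) ^ (2 * H)) / 2 := by
  unfold gam
  have hn : (0 : ℝ) ≤ n := Nat.cast_nonneg n
  push_cast
  rw [abs_of_nonneg (by linarith : (0 : ℝ) ≤ (n : ℝ) + 1 + 1),
    abs_of_nonneg (by linarith : (0 : ℝ) ≤ (n : ℝ) + 1)]
  have e1 : (n : ℝ) + 1 + 1 = n + 2 := by ring
  have e2 : (n : ℝ) + 1 - 1 = n := by ring
  rw [e1, e2, abs_of_nonneg hn]

lemma phi_succ (H : ℝ) (n : ℕ) :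
    phi H (n + 1) = -(((n : ℝ) + 3) ^ (2 * H) - 3 * ((n : ℝ) + 2) ^ (2 * H) +
      3 * ((n : ℝ) + 1) ^ (2 * H) - (n : ℝ) ^ (2 * H)) / 2 := by
  unfold phi
  have e1 := gam_succ H n
  have e2 := gam_succ H (n + 1)
  push_cast at e1 e2 ⊢
  rw [e1, e2]
  have a1 : (n : ℝ) + 1 + 2 = n + 3 := by ring
  have a2 : (n : ℝ) + 1 + 1 = n + 2 := by ring
  rw [a1, a2]
  ring

lemma gam_zero {H : ℝ} (h : 0 < H) : gam H 0 = 1 := by
  unfold gam
  have : (2 * H) ≠ 0 := by positivity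
  simp [Real.zero_rpow this]

lemma gam_one {H : ℝ} (h : 0 < H) : gam H 1 = ((2 : ℝ) ^ (2 * H) - 2) / 2 := by
  have e := gam_succ H 0
  have : (2 * H) ≠ 0 := by positivity
  simp [Real.zero_rpow this] at e
  exact e

lemma phi_zero {H : ℝ} (h : 0 < H) : phi H 0 = 2 - (2 : ℝ) ^ (2 * H) / 2 := by
  unfold phi
  have e1 := gam_zero h
  have e2 := gam_one h
  push_cast
  rw [e1, e2]
  ring

theorem phi_pos {H : ℝ} (h : 1 / 2 < H) (h1 : H < 1) (n : ℕ) : 0 < phi H n := by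
  rcases n with _ | n
  · rw [phi_zero (by linarith)]
    have : (2 : ℝ) ^ (2 * H) < (2 : ℝ) ^ (2 : ℝ) :=
      Real.rpow_lt_rpow_of_exponent_lt (by norm_num) (by linarith)
    have e : (2 : ℝ) ^ (2 : ℝ) = 4 := by norm_num
    linarith
  · rw [phi_succ]
    have := d3_neg (s := 2 * H) (a := n) (by linarith) (by linarith) (Nat.cast_nonneg n)
    linarith

lemma dlt_succ (H : ℝ) (n : ℕ) : dlt H ((n : ℤ) + 1) = phi H (n + 1) - phi H n := by
  unfold dlt phi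
  push_cast
  have e : (n : ℤ) + 1 - 1 = n := by ring
  rw [e]
  ring

theorem dlt_one_neg {H : ℝ} (h : 1 / 2 < H) (h1 : H < 1) : dlt H 1 < 0 := by
  have e := dlt_succ H 0
  rw [phi_zero (by linarith), phi_succ H 0] at e
  have hz : (0 : ℝ) ^ (2 * H) = 0 := Real.zero_rpow (by linarith)
  have h3 : (3 : ℝ) ^ (2 * H) = 9 * (3 : ℝ) ^ (2 * H - 2) := by
    have e1 : (2 * H) = 2 + (2 * H - 2) := by ring
    rw [e1, Real.rpow_add (by norm_num)]
    have e2 : (2 + (2 * H - 2) - 2) = 2 * H - 2 := by ring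
    rw [e2]
    norm_num
  have h2 : (2 : ℝ) ^ (2 * H) = 4 * (2 : ℝ) ^ (2 * H - 2) := by
    have e1 : (2 * H) = 2 + (2 * H - 2) := by ring
    rw [e1, Real.rpow_add (by norm_num)]
    have e2 : (2 + (2 * H - 2) - 2) = 2 * H - 2 := by ring
    rw [e2]
    norm_num
  have h4 : (3 : ℝ) ≤ (2 : ℝ) ^ (16 / 9 : ℝ) := by
    have e1 : (3 : ℝ) = ((3 : ℝ) ^ (9 : ℕ)) ^ (1 / 9 : ℝ) := by
      rw [← Real.rpow_natCast, ← Real.rpow_mul (by norm_num)]
      norm_num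
    have e2 : (2 : ℝ) ^ (16 / 9 : ℝ) = ((2 : ℝ) ^ (16 : ℕ)) ^ (1 / 9 : ℝ) := by
      rw [← Real.rpow_natCast, ← Real.rpow_mul (by norm_num)]
      norm_num
    rw [e1, e2]
    exact Real.rpow_le_rpow (by norm_num) (by norm_num) (by norm_num)
  have h5 : ((2 : ℝ) ^ (16 / 9 : ℝ)) ^ (2 * H - 2) ≤ (3 : ℝ) ^ (2 * H - 2) :=
    Real.rpow_le_rpow_of_nonpos (by norm_num) h4 (by linarith)
  have h6 : ((2 : ℝ) ^ (16 / 9 : ℝ)) ^ (2 * H - 2) = ((2 : ℝ) ^ (2 * H - 2)) ^ (16 / 9 : ℝ) := by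
    rw [← Real.rpow_mul (by norm_num), ← Real.rpow_mul (by norm_num)]
    ring_nf
  have h7 : (2 : ℝ) ^ (2 * H - 2) < 1 :=
    Real.rpow_lt_one_of_one_lt_of_neg (by norm_num) (by linarith)
  have h8 : (0 : ℝ) < (2 : ℝ) ^ (2 * H - 2) := Real.rpow_pos_of_pos (by norm_num) _
  have h9 := one_add_mul_self_lt_rpow_one_add (s := (2 : ℝ) ^ (2 * H - 2) - 1)
    (by linarith) (by linarith) (p := 16 / 9) (by norm_num)
  have e10 : 1 + ((2 : ℝ) ^ (2 * H - 2) - 1) = (2 : ℝ) ^ (2 * H - 2) := by ring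
  rw [e10] at h9
  rw [h6] at h5
  have e11 : dlt H 1 = dlt H (((0 : ℕ) : ℤ) + 1) := by norm_num
  rw [e11, e]
  push_cast
  rw [hz]
  simp only [zero_add, Real.one_rpow]
  rw [h3, h2]
  linarith

theorem dlt_succ_neg {H : ℝ} (h : 1 / 2 < H) (h1 : H < 1) (n : ℕ) : dlt H ((n : ℤ) + 1) < 0 := by
  rcases n with _ | n
  · have := dlt_one_neg h h1
    simpa using this
  · have e := dlt_succ H (n + 1)
    rw [phi_succ, phi_succ] at e
    rw [e]
    have := d4_pos (s := 2 * H) (a := n) (by linarith) (by linarith) (Nat.cast_nonneg n)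
    push_cast
    have a1 : (n : ℝ) + 1 + 3 = n + 4 := by ring
    have a2 : (n : ℝ) + 1 + 2 = n + 3 := by ring
    have a3 : (n : ℝ) + 1 + 1 = n + 2 := by ring
    rw [a1, a2, a3]
    linarith

theorem dlt_lt_zero {H : ℝ} (h : 1 / 2 < H) (h1 : H < 1) {j : ℤ} (hj : j ≠ 0) : dlt H j < 0 := by
  rcases lt_or_gt_of_ne hj with h2 | h2
  · obtain ⟨n, hn⟩ : ∃ n : ℕ, -j = (n : ℤ) + 1 := ⟨(-j - 1).toNat, by omega⟩
    rw [← dlt_neg, hn]
    exact dlt_succ_neg h h1 n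
  · obtain ⟨n, hn⟩ : ∃ n : ℕ, j = (n : ℤ) + 1 := ⟨(j - 1).toNat, by omega⟩
    rw [hn]
    exact dlt_succ_neg h h1 n

theorem dlt_nonpos {H : ℝ} (h : 1 / 2 < H) (h1 : H < 1) {j : ℤ} (hj : j ≠ 0) : dlt H j ≤ 0 :=
  (dlt_lt_zero h h1 hj).le

theorem row {H : ℝ} (i n : ℕ) :
    ∑ m ∈ range (i + n + 1), dlt H ((i : ℤ) - (m : ℤ)) = phi H i + phi H n := by
  have h := Finset.sum_range_sub' (fun m : ℕ => gam H ((i : ℤ) - (m : ℤ)) -
    gam H ((i : ℤ) - (m : ℤ) + 1)) (i + n + 1)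
  have e : ∑ m ∈ range (i + n + 1), dlt H ((i : ℤ) - (m : ℤ)) =
      ∑ m ∈ range (i + n + 1), ((gam H ((i : ℤ) - (m : ℤ)) - gam H ((i : ℤ) - (m : ℤ) + 1)) -
        (gam H ((i : ℤ) - ((m + 1 : ℕ) : ℤ)) - gam H ((i : ℤ) - ((m + 1 : ℕ) : ℤ) + 1))) := by
    apply Finset.sum_congr rfl
    intro m _
    unfold dlt
    have a1 : (i : ℤ) - ((m + 1 : ℕ) : ℤ) = (i : ℤ) - m - 1 := by push_cast; ring
    have a2 : (i : ℤ) - m - 1 + 1 = (i : ℤ) - m := by ring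
    rw [a1, a2]
    ring
  rw [e, h]
  have a1 : (i : ℤ) - ((0 : ℕ) : ℤ) = i := by simp
  have a2 : (i : ℤ) - ((i + n + 1 : ℕ) : ℤ) = -((n : ℤ) + 1) := by push_cast; ring
  have a3 : -((n : ℤ) + 1) + 1 = -(n : ℤ) := by ring
  rw [a1, a2, a3, gam_neg, gam_neg]
  unfold phi
  ring

theorem gam_nonneg {H : ℝ} (h : 1 / 2 < H) (h1 : H < 1) (j : ℤ) : 0 ≤ gam H j := by
  have key : ∀ n : ℕ, 0 ≤ gam H ((n : ℤ) + 1) := by
    intro n
    rw [gam_succ]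
    have hn : (0 : ℝ) ≤ n := Nat.cast_nonneg n
    have hc := (convexOn_rpow (p := 2 * H) (by linarith)).2 (Set.mem_Ici.2 hn)
      (Set.mem_Ici.2 (by linarith : (0 : ℝ) ≤ (n : ℝ) + 2)) (by norm_num : (0 : ℝ) ≤ 1 / 2)
      (by norm_num : (0 : ℝ) ≤ 1 / 2) (by norm_num)
    simp only [smul_eq_mul] at hc
    have e : (1 / 2 : ℝ) * n + 1 / 2 * (n + 2) = n + 1 := by ring
    rw [e] at hc
    linarith
  rcases lt_trichotomy j 0 with h2 | h2 | h2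
  · obtain ⟨n, hn⟩ : ∃ n : ℕ, -j = (n : ℤ) + 1 := ⟨(-j - 1).toNat, by omega⟩
    rw [← gam_neg, hn]
    exact key n
  · rw [h2, gam_zero (by linarith)]
    exact zero_le_one
  · obtain ⟨n, hn⟩ : ∃ n : ℕ, j = (n : ℤ) + 1 := ⟨(j - 1).toNat, by omega⟩
    rw [hn]
    exact key n

end Pool.Agent.K4H25.FH
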