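import Mathlib
import Pool.Agent.K4H77.DG

/-! Displaced primes: existence of the model, the final statements. -/

set_option autoImplicit false

open MeasureTheory ProbabilityTheory Filter Finset
open scoped Topology

namespace Pool.Agent.K4H77.Displ

open Pool.Agent.K4H77.Noise (limsup_seq_le ngap supGap)

/-- `L` has the property `Q` almost surely, for the primes displaced with range `w` -/
def AlmostSurely (w : ℕ → ℕ) (Q : ENNReal → Prop) : Prop :=
  ∀ (Ω : Type) [MeasurableSpace Ω] (P : Measure Ω) [IsProbabilityMeasure P] (X : ℕ → Ω → ℕ),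
    Displaced w P X → ∀ᵐ ω ∂P, (dset X ω).Infinite ∧ Q (supGap (dset X ω))

/-- the displaced primes exist -/
theorem exists_displaced {w : ℕ → ℕ} (hw : ∀ n, 4 * w n ≤ n) :
    ∃ (Ω : Type) (_ : MeasurableSpace Ω) (P : Measure Ω) (_ : IsProbabilityMeasure P)
      (X : ℕ → Ω → ℕ), Displaced w P X := by
  classical
  set I : ℕ → Type := fun p => {t : ℕ // t ∈ Icc (p - w p) (p + w p)} with hI
  set μ : ∀ p : ℕ, Measure (I p) := fun p =>
    ENNReal.ofReal (1 / (2 * w p + 1)) • Measure.count with hμ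
  have hprob : ∀ p, IsProbabilityMeasure (μ p) := by
    intro p
    constructor
    rw [hμ]
    simp only [Measure.coe_smul, Pi.smul_apply, smul_eq_mul]
    have h1 : (Measure.count (Set.univ : Set (I p))) = ((2 * w p + 1 : ℕ) : ENNReal) := by
      rw [Measure.count_univ, ENat.card_eq_coe_fintype_card, Fintype.card_coe, card_rg hw p]
      rfl
    rw [h1, ← ENNReal.ofReal_natCast, ← ENNReal.ofReal_mul (by positivity)]
    push_cast
    rw [one_div, inv_mul_cancel₀ (by positivity), ENNReal.ofReal_one]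
  refine ⟨∀ p, I p, inferInstance, Measure.infinitePi μ, inferInstance, fun p ω => (ω p).1, ?_⟩
  have hval : ∀ p, Measurable (fun x : I p => x.1) := fun p => measurable_subtype_coe
  constructor
  · intro p
    exact (hval p).comp (measurable_pi_apply p)
  · exact iIndepFun_infinitePi (P := μ) (X := fun p (x : I p) => x.1) hval
  · intro p ω
    exact (ω p).2
  · intro p t ht
    have h1 : (fun ω : (∀ p, I p) => (ω p).1) ⁻¹' {t} =
        (fun ω : (∀ p, I p) => ω p) ⁻¹' {(⟨t, ht⟩ : I p)} := by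
      ext ω
      simp only [Set.mem_preimage, Set.mem_singleton_iff]
      constructor
      · intro h
        exact Subtype.ext h
      · intro h
        rw [h]
    have h2 := (measurePreserving_eval_infinitePi μ p).measure_preimage
      (measurableSet_singleton (⟨t, ht⟩ : I p)).nullMeasurableSet
    have h3 : Measure.infinitePi μ ((fun ω : (∀ p, I p) => ω p) ⁻¹' {(⟨t, ht⟩ : I p)}) =
        μ p {(⟨t, ht⟩ : I p)} := h2
    rw [h1, h3, hμ]
    simp only [Measure.coe_smul, Pi.smul_apply, smul_eq_mul]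
    rw [Measure.count_singleton, mul_one]

theorem main_a {w : ℕ → ℕ} (hw : ∀ n, 4 * w n ≤ n)
    (hlin : Tendsto (fun n : ℕ => (w n : ℝ) / n) atTop (𝓝 0))
    (hbig : Tendsto (fun n : ℕ => (w n : ℝ) / (Real.log n) ^ 2) atTop atTop) :
    AlmostSurely w (fun L => 1 ≤ L) := by
  intro Ω _ P _ X hX
  filter_upwards [lower_one hw hlin hbig P hX] with ω hω
  exact ⟨dset_inf hw hX.mem ω, hω⟩

theorem big_of_rpow {w : ℕ → ℕ} {δ : ℝ} (hδ : δ < 1)
    (h : ∀ᶠ n : ℕ in atTop, (n : ℝ) ^ (1 - δ) ≤ w n) :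
    Tendsto (fun n : ℕ => (w n : ℝ) / (Real.log n) ^ 2) atTop atTop := by
  rw [tendsto_atTop]
  intro b
  filter_upwards [h, Pool.Agent.K4H77.Noise.logsq_le_rpow (|b|) (1 - δ) (by linarith),
    tlog.eventually_gt_atTop 0] with n h1 h2 h3
  rw [le_div_iff₀ (by positivity)]
  have h4 : b * (Real.log n) ^ 2 ≤ |b| * (Real.log n) ^ 2 := by
    gcongr
    exact le_abs_self b
  have h5 : 0 ≤ |b| * (Real.log n) ^ 2 := by positivity
  linarith

theorem rpow_of_log {w : ℕ → ℕ} {A : ℕ} (hA : ∀ᶠ n : ℕ in atTop, (n : ℝ) / (Real.log n) ^ A ≤ w n) :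
    ∀ᶠ n : ℕ in atTop, (n : ℝ) ^ (1 - (1 / 2 : ℝ)) ≤ w n := by
  have h1 := (isLittleO_log_rpow_atTop (show (0 : ℝ) < 1 / (2 * (A + 1)) by positivity)).comp_tendsto
    (tendsto_natCast_atTop_atTop (R := ℝ))
  have h2 := h1.bound (show (0 : ℝ) < 1 by norm_num)
  filter_upwards [hA, h2, tlog.eventually_ge_atTop 1, eventually_ge_atTop 1] with n h3 h4 h5 h6
  have hn : (1 : ℝ) ≤ n := by exact_mod_cast h6
  have hn0 : (0 : ℝ) < n := by linarith
  simp only [Function.comp] at h4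
  rw [Real.norm_of_nonneg (by linarith), Real.norm_of_nonneg (by positivity), one_mul] at h4
  refine le_trans ?_ h3
  rw [le_div_iff₀ (by positivity)]
  have h7 : (Real.log n) ^ A ≤ (n : ℝ) ^ (1 / 2 : ℝ) := by
    calc (Real.log n) ^ A ≤ ((n : ℝ) ^ (1 / (2 * ((A : ℝ) + 1)))) ^ A := by
          gcongr
      _ = (n : ℝ) ^ (1 / (2 * ((A : ℝ) + 1)) * A) := by
          rw [← Real.rpow_natCast, ← Real.rpow_mul (by linarith)]
      _ ≤ (n : ℝ) ^ (1 / 2 : ℝ) := by
          apply Real.rpow_le_rpow_of_exponent_le hn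
          rw [div_mul_eq_mul_div, one_mul, div_le_div_iff₀ (by positivity) (by norm_num)]
          linarith
  calc (n : ℝ) ^ (1 - (1 / 2 : ℝ)) * (Real.log n) ^ A ≤
        (n : ℝ) ^ (1 - (1 / 2 : ℝ)) * (n : ℝ) ^ (1 / 2 : ℝ) := by gcongr
    _ = n := by
      rw [← Real.rpow_add hn0]
      norm_num

theorem main_b {w : ℕ → ℕ} (hw : ∀ n, 4 * w n ≤ n) (hreg : Regular w) {A : ℕ}
    (hA : ∀ᶠ n : ℕ in atTop, (n : ℝ) / (Real.log n) ^ A ≤ w n) :
    AlmostSurely w (fun L => L = 1) := by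
  intro Ω _ P _ X hX
  have hbig := big_of_rpow (δ := 1 / 2) (by norm_num) (rpow_of_log hA)
  have h1 : ∀ᵐ ω ∂P, ∀ j : ℕ, ∀ᶠ k in atTop,
      ngap (dset X ω) k ≤ 1 * (1 + 1 / ((j : ℝ) + 1)) := by
    rw [ae_all_iff]
    intro j
    set t : ℝ := 1 / ((j : ℝ) + 1) with ht
    have ht0 : 0 < t := by positivity
    have ht1 : t ≤ 1 := by
      rw [ht, div_le_one (by positivity)]
      have : (0 : ℝ) ≤ j := Nat.cast_nonneg j
      linarith
    rw [one_mul]
    refine upper_sup hw hreg hbig (η := 1 - t / 4) (by linarith) ?_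
      (dense_pnt A hA (by linarith)) P hX
    nlinarith
  filter_upwards [lower_one hw (reg_lin hreg) hbig P hX, h1] with ω h2 h3
  refine ⟨dset_inf hw hX.mem ω, le_antisymm ?_ h2⟩
  have h4 := limsup_seq_le h3
  rw [ENNReal.ofReal_one] at h4
  exact h4

theorem main_c : ∃ δ C : ℝ, 0 < δ ∧ ∀ w : ℕ → ℕ, (∀ n, 4 * w n ≤ n) → Regular w →
    (∀ᶠ n : ℕ in atTop, (n : ℝ) ^ (1 - δ) ≤ w n) →
    AlmostSurely w (fun L => 1 ≤ L ∧ L ≤ ENNReal.ofReal C) := by
  obtain ⟨δ, η, hδ, hδ1, hη, h⟩ := dense_hoheisel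
  refine ⟨δ, 2 / η, hδ, fun w hw hreg hpow => ?_⟩
  intro Ω _ P _ X hX
  have hbig := big_of_rpow hδ1 hpow
  have h1 := upper_sup hw hreg hbig hη (C := 2 / η) (by
    rw [mul_div_cancel₀ _ hη.ne']; norm_num) (h w hpow) P hX
  filter_upwards [lower_one hw (reg_lin hreg) hbig P hX, h1] with ω h2 h3
  refine ⟨dset_inf hw hX.mem ω, h2, ?_⟩
  apply Filter.limsup_le_of_le (by isBoundedDefault)
  exact h3.mono fun k hk => ENNReal.ofReal_le_ofReal hk

theorem main_d {w : ℕ → ℕ} (hw : ∀ n, 4 * w n ≤ n) {lam : ℝ} (hlam : 0 < lam)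
    (hlim : Tendsto (fun n : ℕ => (w n : ℝ) / (Real.log n) ^ 2) atTop (𝓝 lam)) :
    AlmostSurely w (fun L => 0 < L ∧ (7 ≤ lam → 1 < L)) := by
  intro Ω _ P _ X hX
  obtain ⟨c, hc0, hc2, hc⟩ := cor_pos hlam
  have h1 := small_range hw hlam hc0 hc2 hc hlim P hX
  have h2 : 7 ≤ lam → ∀ᵐ ω ∂P, ENNReal.ofReal 1.001 ≤ supGap (dset X ω) := fun h7 =>
    small_range hw hlam (by norm_num) (cor_seven h7).1 (cor_seven h7).2 hlim P hX
  by_cases h7 : 7 ≤ lam
  · filter_upwards [h1, h2 h7] with ω h3 h4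
    refine ⟨dset_inf hw hX.mem ω, lt_of_lt_of_le (ENNReal.ofReal_pos.2 hc0) h3, fun _ => ?_⟩
    refine lt_of_lt_of_le ?_ h4
    rw [← ENNReal.ofReal_one, ENNReal.ofReal_lt_ofReal_iff (by norm_num)]
    norm_num
  · filter_upwards [h1] with ω h3
    exact ⟨dset_inf hw hX.mem ω, lt_of_lt_of_le (ENNReal.ofReal_pos.2 hc0) h3,
      fun h => absurd h h7⟩

theorem main_e {c : ℝ} (hc : c < 2 * Real.exp (-Real.eulerMascheroniConstant)) :
    ∃ lam₀ : ℝ, ∀ (w : ℕ → ℕ) (lam : ℝ), (∀ n, 4 * w n ≤ n) → lam₀ ≤ lam →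
      Tendsto (fun n : ℕ => (w n : ℝ) / (Real.log n) ^ 2) atTop (𝓝 lam) →
      AlmostSurely w (fun L => ENNReal.ofReal c ≤ L) := by
  obtain ⟨lam₀, hlam₀, h⟩ := cor_granville hc
  refine ⟨lam₀, fun w lam hw hlam hlim => ?_⟩
  intro Ω _ P _ X hX
  rcases h lam hlam with h1 | ⟨h1, h2, h3⟩
  · refine Eventually.of_forall fun ω => ⟨dset_inf hw hX.mem ω, ?_⟩
    rw [ENNReal.ofReal_of_nonpos h1]
    exact zero_le
  · filter_upwards [small_range hw (hlam₀.trans_le hlam) h1 h2 h3 hlim P hX] with ω hω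
    exact ⟨dset_inf hw hX.mem ω, hω⟩

end Pool.Agent.K4H77.Displ
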