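import Mathlib
import Pool.Agent.K4H77.DH

/-! Displaced primes: comparison with the primes themselves. -/

set_option autoImplicit false

open MeasureTheory ProbabilityTheory Filter Finset
open scoped Topology

namespace Pool.Agent.K4H77.Displ

open Pool.Agent.K4H77.Noise (logsq_le_rpow ev_gap nth_large limsup_seq_le ngap supGap)

/-- small gaps give points in every window -/
theorem win_of_gap {S : Set ℕ} (hS : S.Infinite) {C : ℝ} (hC : 0 ≤ C)
    (h : ∀ᶠ k in atTop, ngap S k ≤ C) :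
    ∀ᶠ n : ℕ in atTop, ∃ t ∈ S, n < t ∧ (t : ℝ) ≤ n + C * (Real.log n) ^ 2 := by
  classical
  have hS' : (Set.ofPred (· ∈ S)).Infinite := hS
  obtain ⟨k0, hk0⟩ := eventually_atTop.1 h
  filter_upwards [eventually_ge_atTop (Nat.nth (· ∈ S) (k0 + 2) + 2)] with n hn
  -- the index of the largest element `≤ n`
  have hcnt : k0 + 2 < Nat.count (· ∈ S) (n + 1) := (Nat.lt_nth_iff_count_lt hS').2 (by omega)
  obtain ⟨k, hk⟩ : ∃ k, Nat.count (· ∈ S) (n + 1) = k + 1 := ⟨Nat.count (· ∈ S) (n + 1) - 1, by omega⟩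
  have h1 : Nat.nth (· ∈ S) k < n + 1 := Nat.nth_lt_of_lt_count (by omega)
  have h2 : n < Nat.nth (· ∈ S) (k + 1) := by
    have := (Nat.count_le_iff_le_nth hS' (a := n + 1) (b := k + 1)).1 (by omega)
    omega
  refine ⟨Nat.nth (· ∈ S) (k + 1), Nat.nth_mem_of_infinite hS' _, h2, ?_⟩
  have h3 := hk0 k (by omega)
  set a := Nat.nth (· ∈ S) k with ha
  set b := Nat.nth (· ∈ S) (k + 1) with hb
  have h4 : 2 ≤ a := by
    have := (Nat.nth_strictMono hS').id_le k
    simp only [id] at this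
    omega
  have h5 : (2 : ℝ) ≤ a := by exact_mod_cast h4
  have h6 : 0 < Real.log a := Real.log_pos (by linarith)
  unfold ngap at h3
  rw [← ha, ← hb, div_le_iff₀ (by positivity)] at h3
  have h7 : (a : ℝ) ≤ n := by
    have : a ≤ n := by omega
    exact_mod_cast this
  have h8 : Real.log a ≤ Real.log n := Real.log_le_log (by linarith) h7
  have h9 : C * (Real.log a) ^ 2 ≤ C * (Real.log n) ^ 2 := by gcongr
  linarith

/-- every large element of `T` has an element of `S` at distance at most `(lam + ε) (log t)^2` -/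
def Close (S T : Set ℕ) (lam : ℝ) : Prop := ∀ ε : ℝ, 0 < ε → ∀ᶠ t : ℕ in atTop, t ∈ T →
  ∃ s ∈ S, (s : ℝ) ≤ t + (lam + ε) * (Real.log t) ^ 2 ∧ (t : ℝ) ≤ s + (lam + ε) * (Real.log t) ^ 2

theorem gap_transfer {S T : Set ℕ} (hS : S.Infinite) (hT : T.Infinite) {lam : ℝ} (hlam : 0 ≤ lam)
    (hclose : Close S T lam) {C : ℝ} (hC : 0 ≤ C) (h : ∀ᶠ k in atTop, ngap T k ≤ C) {ε : ℝ}
    (hε : 0 < ε) : ∀ᶠ k in atTop, ngap S k ≤ C + 2 * lam + ε := by
  apply ev_gap hS (by positivity)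
  -- choose `δ`
  obtain ⟨δ, hδ0, hδ1, hδ⟩ : ∃ δ : ℝ, 0 < δ ∧ δ < 1 ∧
      (lam + 2 * δ) * (1 + δ) + C * (1 + δ) + (lam + δ) * (1 + δ) < C + 2 * lam + ε := by
    have h1 : Tendsto (fun δ : ℝ => (lam + 2 * δ) * (1 + δ) + C * (1 + δ) + (lam + δ) * (1 + δ))
        (𝓝[>] 0) (𝓝 ((lam + 2 * 0) * (1 + 0) + C * (1 + 0) + (lam + 0) * (1 + 0))) := by
      apply Tendsto.mono_left _ nhdsWithin_le_nhds
      apply ContinuousAt.tendsto
      fun_prop
    have h2 := h1.eventually_lt_const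
      (show (lam + 2 * 0) * (1 + 0) + C * (1 + 0) + (lam + 0) * (1 + 0) < C + 2 * lam + ε by
        linarith)
    have h3 : ∀ᶠ δ : ℝ in 𝓝[>] 0, δ < 1 := nhdsWithin_le_nhds (gt_mem_nhds (by norm_num))
    obtain ⟨δ, h4, h5, h6⟩ := (h2.and (h3.and self_mem_nhdsWithin)).exists
    exact ⟨δ, h6, h5, h4⟩
  obtain ⟨n0, hn0⟩ := eventually_atTop.1 (win_of_gap hT hC h)
  obtain ⟨t0, ht0⟩ := eventually_atTop.1 (hclose δ hδ0)
  set B := (lam + 2 * δ) * (1 + δ) + C * (1 + δ) + (lam + δ) * (1 + δ) with hB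
  have hB0 : 0 < B := by positivity
  filter_upwards [logsq_close hδ0, logsq_le_rpow (B + 1) 1 one_pos, eventually_ge_atTop (n0 + t0 + 4),
    tlog.eventually_ge_atTop 1, tlog.eventually_ge_atTop (1 / δ),
    (((tendsto_pow_atTop (two_ne_zero)).comp tlog).eventually_ge_atTop (1 / (δ * δ)))]
    with n h1 h2 h3 h4 h5 h6
  simp only [Function.comp] at h6
  rw [Real.rpow_one] at h2
  set L := Real.log n with hL
  have hL0 : 0 < L := by linarith
  have hL1 : 1 ≤ L ^ 2 := by nlinarith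
  have hn4 : (4 : ℝ) ≤ n := by
    have : 4 ≤ n := by omega
    exact_mod_cast this
  have hBn : B * L ^ 2 + 1 ≤ n / 2 := by nlinarith
  have hδL : 1 ≤ δ * (1 + δ) * L ^ 2 := by
    rw [div_le_iff₀ (by positivity)] at h6
    nlinarith [mul_pos hδ0 hL0, mul_pos (mul_pos hδ0 hδ0) (show 0 < L ^ 2 by positivity)]
  -- the shifted start
  set v : ℕ := ⌈(lam + δ) * (1 + δ) * L ^ 2⌉₊ with hv
  have hv1 : (lam + δ) * (1 + δ) * L ^ 2 ≤ v := Nat.le_ceil _
  have hv2 : (v : ℝ) ≤ (lam + 2 * δ) * (1 + δ) * L ^ 2 := by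
    have := Nat.ceil_lt_add_one (show 0 ≤ (lam + δ) * (1 + δ) * L ^ 2 by positivity)
    nlinarith
  have hvB : (lam + 2 * δ) * (1 + δ) * L ^ 2 ≤ B * L ^ 2 := by
    have : (lam + 2 * δ) * (1 + δ) ≤ B := by
      rw [hB]
      have : 0 ≤ C * (1 + δ) := by positivity
      have : 0 ≤ (lam + δ) * (1 + δ) := by positivity
      linarith
    gcongr
  have hvn : v ≤ n := by
    have : (v : ℝ) ≤ n := by linarith
    exact_mod_cast this
  obtain ⟨t, htT, ht1, ht2⟩ := hn0 (n + v) (by omega)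
  have e1 := (h1 (n + v) (by omega) (by omega)).2
  have ht2' : (t : ℝ) ≤ n + (lam + 2 * δ) * (1 + δ) * L ^ 2 + C * (1 + δ) * L ^ 2 := by
    push_cast at ht2 e1
    have : C * (Real.log ((n : ℝ) + v)) ^ 2 ≤ C * ((1 + δ) * L ^ 2) := by gcongr
    linarith
  have hBdef : (lam + 2 * δ) * (1 + δ) * L ^ 2 + C * (1 + δ) * L ^ 2 +
      (lam + δ) * (1 + δ) * L ^ 2 = B * L ^ 2 := by rw [hB]; ring
  have hpos1 : 0 ≤ (lam + δ) * (1 + δ) * L ^ 2 := by positivity
  have htn : t ≤ 2 * n := by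
    have : (t : ℝ) ≤ 2 * n := by linarith
    exact_mod_cast this
  have e2 := (h1 t (by omega) htn).2
  obtain ⟨s, hsS, hs1, hs2⟩ := ht0 t (by omega) htT
  have e3 : (lam + δ) * (Real.log t) ^ 2 ≤ (lam + δ) * ((1 + δ) * L ^ 2) := by gcongr
  have ht1' : (n : ℝ) + v < t := by exact_mod_cast ht1
  have hs_gt : (n : ℝ) < s := by
    have : (lam + δ) * ((1 + δ) * L ^ 2) = (lam + δ) * (1 + δ) * L ^ 2 := by ring
    linarith
  have hs_gt' : n < s := by exact_mod_cast hs_gt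
  have hs_le : (s : ℝ) ≤ n + B * L ^ 2 := by
    have : (lam + δ) * ((1 + δ) * L ^ 2) = (lam + δ) * (1 + δ) * L ^ 2 := by ring
    linarith
  intro hcon
  refine hcon (s - n) (Finset.mem_Icc.2 ⟨by omega, ?_⟩) (by
    rwa [show n + (s - n) = s by omega])
  apply Nat.le_floor
  rw [Nat.cast_sub hs_gt'.le]
  have : B * L ^ 2 ≤ (C + 2 * lam + ε) * L ^ 2 := by gcongr
  linarith

theorem sup_transfer {S T : Set ℕ} (hS : S.Infinite) (hT : T.Infinite) {lam : ℝ} (hlam : 0 ≤ lam)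
    (hclose : Close S T lam) : supGap S ≤ supGap T + ENNReal.ofReal (2 * lam) := by
  by_cases htop : supGap T = ⊤
  · rw [htop, top_add]
    exact le_top
  set l := (supGap T).toReal with hl
  have hl0 : 0 ≤ l := ENNReal.toReal_nonneg
  have hlT : supGap T = ENNReal.ofReal l := (ENNReal.ofReal_toReal htop).symm
  rw [hlT, ← ENNReal.ofReal_add hl0 (by positivity)]
  have h1 : ∀ ε : ℝ, 0 < ε → supGap S ≤ ENNReal.ofReal (l + 2 * lam + 2 * ε) := by
    intro ε hε
    have h2 : supGap T < ENNReal.ofReal (l + ε) := by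
      rw [hlT, ENNReal.ofReal_lt_ofReal_iff (by positivity)]
      linarith
    have h3 : ∀ᶠ k in atTop, ngap T k ≤ l + ε := by
      have h4 := Filter.eventually_lt_of_limsup_lt h2 (by isBoundedDefault)
      filter_upwards [h4] with k hk
      exact ((ENNReal.ofReal_lt_ofReal_iff (by positivity)).1 hk).le
    have h5 := gap_transfer hS hT hlam hclose (by positivity) h3 hε
    apply Filter.limsup_le_of_le (by isBoundedDefault)
    filter_upwards [h5] with k hk
    apply ENNReal.ofReal_le_ofReal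
    linarith
  have h2 : Tendsto (fun ε : ℝ => ENNReal.ofReal (l + 2 * lam + 2 * ε)) (𝓝[>] 0)
      (𝓝 (ENNReal.ofReal (l + 2 * lam + 2 * 0))) := by
    apply Tendsto.mono_left _ nhdsWithin_le_nhds
    apply ENNReal.tendsto_ofReal
    apply ContinuousAt.tendsto
    fun_prop
  rw [mul_zero, add_zero] at h2
  exact ge_of_tendsto h2 (by
    filter_upwards [self_mem_nhdsWithin] with ε hε
    exact h1 ε hε)

/-- comparison with the primes -/
theorem main_f {w : ℕ → ℕ} (hw : ∀ n, 4 * w n ≤ n) {lam : ℝ} (hlam : 0 ≤ lam)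
    (hlim : Tendsto (fun n : ℕ => (w n : ℝ) / (Real.log n) ^ 2) atTop (𝓝 lam)) :
    AlmostSurely w (fun L => L ≤ supGap {p | p.Prime} + ENNReal.ofReal (2 * lam) ∧
      supGap {p | p.Prime} ≤ L + ENNReal.ofReal (2 * lam)) := by
  intro Ω _ P _ X hX
  refine Eventually.of_forall fun ω => ?_
  have hS := dset_inf hw hX.mem ω
  have hT : ({p | p.Prime} : Set ℕ).Infinite := Nat.infinite_setOfPred_prime
  -- the range
  have hr : ∀ ε : ℝ, 0 < ε → ∀ᶠ p : ℕ in atTop, (w p : ℝ) ≤ (lam + ε) * (Real.log p) ^ 2 := by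
    intro ε hε
    filter_upwards [hlim.eventually_lt_const (show lam < lam + ε by linarith),
      tlog.eventually_gt_atTop 0] with p hp hl
    rw [div_lt_iff₀ (by positivity)] at hp
    exact hp.le
  refine ⟨hS, sup_transfer hS hT hlam ?_, sup_transfer hT hS hlam ?_⟩
  · intro ε hε
    filter_upwards [hr ε hε] with p hp hpp
    refine ⟨X p ω, ⟨p, hpp, rfl⟩, ?_⟩
    have h1 := hX.mem p ω
    rw [Finset.mem_Icc] at h1
    have h2 : (X p ω : ℝ) ≤ p + w p := by exact_mod_cast h1.2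
    have h3 : (p : ℝ) ≤ X p ω + w p := by
      have : p ≤ X p ω + w p := by omega
      exact_mod_cast this
    constructor <;> linarith
  · intro ε hε
    -- `δ` with `(lam + δ)(1 + δ) ≤ lam + ε`
    obtain ⟨δ, hδ0, hδ⟩ : ∃ δ : ℝ, 0 < δ ∧ (lam + δ) * (1 + δ) < lam + ε := by
      have h1 : Tendsto (fun δ : ℝ => (lam + δ) * (1 + δ)) (𝓝[>] 0)
          (𝓝 ((lam + 0) * (1 + 0))) := by
        apply Tendsto.mono_left _ nhdsWithin_le_nhds
        apply ContinuousAt.tendsto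
        fun_prop
      have h2 := h1.eventually_lt_const (show (lam + 0) * (1 + 0) < lam + ε by linarith)
      obtain ⟨δ, h4, h6⟩ := (h2.and self_mem_nhdsWithin).exists
      exact ⟨δ, h6, h4⟩
    obtain ⟨p0, hp0⟩ := eventually_atTop.1 (hr δ hδ0)
    filter_upwards [logsq_close hδ0, eventually_ge_atTop (2 * p0), eventually_ge_atTop 2]
      with s h1 h2 h3 hs
    obtain ⟨p, hp, hps⟩ := hs
    have h4 := hX.mem p ω
    rw [Finset.mem_Icc, hps] at h4
    have hwp := hw p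
    refine ⟨p, hp, ?_⟩
    have h5 := hp0 p (by omega)
    have h6 := (h1 p (by omega) (by omega)).2
    have h7 : (w p : ℝ) ≤ (lam + ε) * (Real.log s) ^ 2 := by
      calc (w p : ℝ) ≤ (lam + δ) * (Real.log p) ^ 2 := h5
        _ ≤ (lam + δ) * ((1 + δ) * (Real.log s) ^ 2) := by gcongr
        _ = (lam + δ) * (1 + δ) * (Real.log s) ^ 2 := by ring
        _ ≤ _ := by gcongr
    have h8 : (s : ℝ) ≤ p + w p := by exact_mod_cast h4.2
    have h9 : (p : ℝ) ≤ s + w p := by
      have : p ≤ s + w p := by omega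
      exact_mod_cast this
    constructor <;> linarith

end Pool.Agent.K4H77.Displ
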