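import Mathlib
import Pool.Agent.K4H77.SA

/-! First occurrences: assembly. -/

set_option autoImplicit false

open MeasureTheory ProbabilityTheory Filter Finset
open scoped Topology

namespace Pool.Agent.K4H77.Noise

variable {Ω : Type*} [MeasurableSpace Ω]

theorem first_main {lam κ : ℝ} (hlam : 0 ≤ lam) (hκ : 0 ≤ κ) (h : 0 < lam ∨ 0 < κ)
    (P : Measure Ω) [IsProbabilityMeasure P] {A : ℕ → Set Ω}
    (hA : Perturbed (fun _ => lam) κ P A) :
    ∀ᵐ ω ∂P, (rset A ω).Infinite ∧ ∀ ε : ℝ, 0 < ε → ∀ᶠ g : ℕ in atTop,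
      (∃ k : ℕ, Nat.nth (· ∈ rset A ω) k + g < Nat.nth (· ∈ rset A ω) (k + 1)) ∧
      κ - ε ≤ (Real.log (firstAfter (rset A ω) g)) ^ 2 / g ∧
      (Real.log (firstAfter (rset A ω) g)) ^ 2 / g ≤ cost lam κ + ε := by
  have hcost := cost_pos hlam hκ h
  have h1 : ∀ j : ℕ, ∀ᵐ ω ∂P, ∀ᶠ x : ℕ in atTop, ∃ n : ℕ, n ≤ x ∧ (x : ℝ) ^ (1 / 2 : ℝ) < n ∧
      ∀ m : ℕ, n < m → (m : ℝ) ≤ n + (1 / (cost lam κ + 1 / ((j : ℝ) + 1))) * (Real.log x) ^ 2 →
        m ∉ rset A ω := by
    intro j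
    have hj : 0 < 1 / ((j : ℝ) + 1) := by positivity
    apply windows_all hlam hκ (by positivity) _ P hA
    rw [one_div_mul_eq_div, div_lt_one (by positivity)]
    linarith
  have h2 : ∀ j : ℕ, ∀ᵐ ω ∂P, 0 < κ → ∀ᶠ n : ℕ in atTop,
      ω ∉ emp A n ⌊1 / κ * (1 + 1 / ((j : ℝ) + 1)) * (Real.log n) ^ 2⌋₊ := by
    intro j
    rcases hκ.eq_or_lt with h0 | h0
    · exact Eventually.of_forall fun ω hω => absurd hω (by rw [← h0]; exact lt_irrefl 0)
    · have hj : 0 < 1 / ((j : ℝ) + 1) := by positivity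
      have h3 := no_windows (C := 1 / κ * (1 + 1 / ((j : ℝ) + 1))) (fun _ => hlam) h0 (by
        have : 1 / κ * (1 + 1 / ((j : ℝ) + 1)) * κ = 1 + 1 / ((j : ℝ) + 1) := by field_simp
        rw [this]
        linarith) P hA
      filter_upwards [h3] with ω hω _
      exact hω
  rw [← ae_all_iff] at h1 h2
  filter_upwards [h1, h2, inf_set (fun _ => hlam) monotone_const hκ h P hA, dyadic hlam hκ h P hA]
    with ω hω1 hω2 hinf hdy
  have hS := rset_infinite hinf
  refine ⟨hS, ?_⟩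
  intro ε hε
  obtain ⟨j, hj⟩ := exists_nat_one_div_lt (show 0 < ε / 2 by positivity)
  have hj0 : 0 < 1 / ((j : ℝ) + 1) := by positivity
  have hup := first_upper hS (c := 1 / (cost lam κ + 1 / ((j : ℝ) + 1))) (by positivity)
    (show 0 < ε / 2 by positivity) (hω1 j) hdy
  rcases hκ.eq_or_lt with h0 | h0
  · filter_upwards [hup] with g hg
    refine ⟨hg.1, ?_, ?_⟩
    · rw [← h0]
      have : 0 ≤ (Real.log (firstAfter (rset A ω) g)) ^ 2 / g := by positivity
      linarith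
    · refine hg.2.trans ?_
      rw [one_div_one_div]
      linarith
  · obtain ⟨i, hi⟩ := exists_nat_one_div_lt (show 0 < ε / κ by positivity)
    have hi0 : 0 < 1 / ((i : ℝ) + 1) := by positivity
    have hC : 0 < 1 / κ * (1 + 1 / ((i : ℝ) + 1)) := by positivity
    have hgap : ∀ᶠ k in atTop, ngap (rset A ω) k ≤ 1 / κ * (1 + 1 / ((i : ℝ) + 1)) := by
      apply ev_gap hS hC.le
      filter_upwards [hω2 i h0] with n hn
      intro hcon
      exact hn ((mem_emp_iff A ω n _).2 hcon)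
    have hlow := first_lower hS hC hgap (hup.mono fun g hg => hg.1)
    filter_upwards [hup, hlow] with g hg hg2
    refine ⟨hg.1, ?_, ?_⟩
    · refine le_trans ?_ hg2
      rw [le_div_iff₀ hC]
      have h3 : (κ - ε) * (1 / κ * (1 + 1 / ((i : ℝ) + 1))) =
          (1 - ε / κ) * (1 + 1 / ((i : ℝ) + 1)) := by field_simp
      rw [h3]
      nlinarith
    · refine hg.2.trans ?_
      rw [one_div_one_div]
      linarith

end Pool.Agent.K4H77.Noise
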