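import Mathlib
import Pool.Agent.K4H77.DI
import Pool.Agent.K4H77.SB

/-! Displaced primes: empty windows below every large `x`; first occurrences. -/

set_option autoImplicit false

open MeasureTheory ProbabilityTheory Filter Finset
open scoped Topology

namespace Pool.Agent.K4H77.Displ

open Pool.Agent.K4H77.Noise (logsq_le_rpow exists_residue exp_le_one_sub floor_le_logsq freq_gap ev_gap
  le_limsup_seq limsup_seq_le ngap supGap Wn Wn_many exp_gamma_lt firstAfter first_upper first_lower)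

variable {Ω : Type*} [MeasurableSpace Ω]

theorem core_theta {w : ℕ → ℕ} (hw : ∀ n, 4 * w n ≤ n) (P : Measure Ω) [IsProbabilityMeasure P]
    {X : ℕ → Ω → ℕ} (hX : Displaced w P X) (W : ℕ → Prop) [DecidablePred W]
    (K : ℕ → ℕ) (U : ℕ → Finset ℕ) (σ c : ℝ) (hσ0 : 0 ≤ σ) (hc : 0 ≤ c)
    (hK : ∀ᶠ n : ℕ in atTop, (K n : ℝ) ≤ c * (Real.log n) ^ 2)
    (hU : ∀ n, U n ⊆ Icc n (n + K n))
    (hP : ∀ᶠ n : ℕ in atTop, W n → (n : ℝ) ^ (-σ) ≤ P.real (miss X (U n)))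
    (hW : ∀ η : ℝ, 0 < η → ∀ᶠ x : ℕ in atTop, (x : ℝ) ^ (1 - η) ≤ (((Icc 1 x).filter W).card : ℝ))
    (η : ℝ) (hη : η < 1 - σ) (θ : ℝ) (hθ0 : 0 < θ) (hθ : θ < 1) :
    ∀ᶠ x : ℕ in atTop, P.real (⋂ n ∈ (Icc 1 x).filter (fun n => W n ∧ (x : ℝ) ^ θ < n),
      (miss X (U n))ᶜ) ≤ (x : ℝ) ^ (-η) := by
  set δ := min ((1 - σ - η) / 2) ((1 - θ) / 2) with hδ
  have hδ0 : 0 < δ := lt_min (by linarith) (by linarith)
  have hδ1 : δ ≤ (1 - σ - η) / 2 := min_le_left _ _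
  have hδ2 : δ ≤ (1 - θ) / 2 := min_le_right _ _
  have e1 := hW δ hδ0
  obtain ⟨n0, hn0⟩ := eventually_atTop.1 (hK.and hP)
  have e2 : ∀ᶠ x : ℕ in atTop, (n0 : ℝ) ≤ (x : ℝ) ^ θ :=
    ((tendsto_rpow_atTop hθ0).comp (tendsto_natCast_atTop_atTop (R := ℝ))).eventually_ge_atTop _
  have hdt : 0 < 1 - δ - θ := by linarith
  have e3 : ∀ᶠ x : ℕ in atTop, (2 : ℝ) ≤ (x : ℝ) ^ (1 - δ - θ) :=
    ((tendsto_rpow_atTop hdt).comp (tendsto_natCast_atTop_atTop (R := ℝ))).eventually_ge_atTop _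
  have e4 := logsq_le_rpow c δ hδ0
  filter_upwards [e1, e2, e3, e4, eventually_ge_atTop 1] with x h1 h2 h3 h4 h5
  have hx1 : (1 : ℝ) ≤ x := by exact_mod_cast h5
  have hx0 : (0 : ℝ) < x := by linarith
  set F := (Icc 1 x).filter (fun n => W n ∧ (x : ℝ) ^ θ < n) with hF
  set L : ℕ := ⌊c * (Real.log x) ^ 2⌋₊ + 1 with hL
  have hLpos : 0 < L := Nat.succ_pos _
  have hLle : (L : ℝ) ≤ c * (Real.log x) ^ 2 + 1 := by
    rw [hL]; push_cast
    have := Nat.floor_le (show 0 ≤ c * (Real.log x) ^ 2 by positivity)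
    linarith
  have hFcard : (x : ℝ) ^ (1 - δ) / 2 ≤ (F.card : ℝ) := by
    have a1 : (Icc 1 x).filter W ⊆ F ∪ (Icc 1 ⌊(x : ℝ) ^ θ⌋₊) := by
      intro n hn
      rw [Finset.mem_filter] at hn
      rw [Finset.mem_union]
      by_cases h : (x : ℝ) ^ θ < n
      · exact Or.inl (Finset.mem_filter.2 ⟨hn.1, hn.2, h⟩)
      · refine Or.inr (Finset.mem_Icc.2 ⟨(Finset.mem_Icc.1 hn.1).1, Nat.le_floor ?_⟩)
        exact not_lt.1 h
    have a2 := Finset.card_le_card a1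
    have a3 := a2.trans (Finset.card_union_le _ _)
    rw [Nat.card_Icc, Nat.add_sub_cancel] at a3
    have a4 : ((((Icc 1 x).filter W).card : ℕ) : ℝ) ≤ (F.card : ℝ) + (⌊(x : ℝ) ^ θ⌋₊ : ℕ) := by
      exact_mod_cast a3
    have a5 : ((⌊(x : ℝ) ^ θ⌋₊ : ℕ) : ℝ) ≤ (x : ℝ) ^ θ := Nat.floor_le (by positivity)
    have a6 : 2 * (x : ℝ) ^ θ ≤ (x : ℝ) ^ (1 - δ) := by
      calc 2 * (x : ℝ) ^ θ ≤ (x : ℝ) ^ (1 - δ - θ) * (x : ℝ) ^ θ := by gcongr
        _ = (x : ℝ) ^ (1 - δ) := by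
          rw [← Real.rpow_add hx0]; congr 1; ring
    linarith
  obtain ⟨r, -, hr⟩ := exists_residue F L hLpos
  set s := F.filter (fun n => n % L = r) with hs
  have hsF : s ⊆ F := Finset.filter_subset _ _
  have hmem : ∀ n ∈ s, n0 ≤ n ∧ n ≤ x ∧ 1 ≤ n ∧ W n := by
    intro n hn
    have b1 := Finset.mem_filter.1 (hsF hn)
    have b2 := Finset.mem_Icc.1 b1.1
    refine ⟨?_, b2.2, b2.1, b1.2.1⟩
    have b3 : (n0 : ℝ) ≤ n := h2.trans b1.2.2.le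
    exact_mod_cast b3
  have hKL : ∀ n ∈ s, K n < L := by
    intro n hn
    obtain ⟨b1, b2, b3, -⟩ := hmem n hn
    have b4 := (hn0 n b1).1
    have b5 : Real.log n ≤ Real.log x :=
      Real.log_le_log (by exact_mod_cast b3) (by exact_mod_cast b2)
    have b6 : 0 ≤ Real.log n := Real.log_nonneg (by exact_mod_cast b3)
    have b7 : (K n : ℝ) ≤ c * (Real.log x) ^ 2 := b4.trans (by gcongr)
    exact Nat.lt_succ_of_le (Nat.le_floor b7)
  have hdis : ∀ i ∈ s, ∀ j ∈ s, i ≠ j → Disjoint (U i) (U j) := by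
    have key : ∀ i ∈ s, ∀ j ∈ s, i < j → Disjoint (U i) (U j) := by
      intro i hi' j hj' hij
      rw [Finset.disjoint_left]
      intro m m12 m34
      obtain ⟨m1, m2⟩ := Finset.mem_Icc.1 (hU i m12)
      obtain ⟨m3, m4⟩ := Finset.mem_Icc.1 (hU j m34)
      have d1 := (Finset.mem_filter.1 hi').2
      have d2 := (Finset.mem_filter.1 hj').2
      have d3 := hKL i hi'
      have d4 : i ≡ j [MOD L] := by unfold Nat.ModEq; rw [d1, d2]
      have d5 : L ∣ j - i := (Nat.modEq_iff_dvd' hij.le).1 d4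
      have d6 := Nat.le_of_dvd (by omega) d5
      omega
    intro i hi' j hj' hij
    rcases lt_or_gt_of_ne hij with h | h
    · exact key i hi' j hj' h
    · exact (key j hj' i hi' h).symm
  have hprob := second_moment P s (fun n => miss X (U n)) (fun n _ => miss_meas hw hX (U n))
    (fun i hi j hj hij => neg_corr hw hX (hdis i hi j hj hij))
  have hterm : ∀ n ∈ s, (x : ℝ) ^ (-σ) ≤ P.real (miss X (U n)) := by
    intro n hn
    obtain ⟨b1, b2, b3, b4⟩ := hmem n hn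
    refine le_trans ?_ ((hn0 n b1).2 b4)
    exact Real.rpow_le_rpow_of_nonpos (by exact_mod_cast b3) (by exact_mod_cast b2) (by linarith)
  have hsum : s.card * (x : ℝ) ^ (-σ) ≤ ∑ n ∈ s, P.real (miss X (U n)) := by
    rw [← nsmul_eq_mul, ← Finset.sum_const]
    exact Finset.sum_le_sum hterm
  have hsub : (⋂ n ∈ F, (miss X (U n))ᶜ) ⊆ ⋂ n ∈ s, (miss X (U n))ᶜ := by
    intro ω hω
    rw [Set.mem_iInter₂] at hω ⊢
    exact fun n hn => hω n (hsF hn)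
  refine (measureReal_mono hsub).trans ?_
  have hscard : (x : ℝ) ^ (1 - δ) / 2 ≤ L * (s.card : ℝ) := by
    refine hFcard.trans ?_
    exact_mod_cast hr
  have f1 : (x : ℝ) ^ (1 - δ) ≤ (x : ℝ) ^ δ * s.card := by
    have : 2 * (L : ℝ) ≤ (x : ℝ) ^ δ := by linarith
    calc (x : ℝ) ^ (1 - δ) = 2 * ((x : ℝ) ^ (1 - δ) / 2) := by ring
      _ ≤ 2 * (L * (s.card : ℝ)) := by gcongr
      _ = (2 * L) * s.card := by ring
      _ ≤ (x : ℝ) ^ δ * s.card := by gcongr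
  have f2 : (x : ℝ) ^ (1 - 2 * δ) ≤ s.card := by
    have : (x : ℝ) ^ (1 - 2 * δ) * (x : ℝ) ^ δ ≤ s.card * (x : ℝ) ^ δ := by
      rw [← Real.rpow_add hx0, show 1 - 2 * δ + δ = 1 - δ by ring, mul_comm (s.card : ℝ)]
      exact f1
    exact le_of_mul_le_mul_right this (by positivity)
  have f3 : (x : ℝ) ^ η ≤ ∑ n ∈ s, P.real (miss X (U n)) := by
    calc (x : ℝ) ^ η ≤ (x : ℝ) ^ (1 - 2 * δ + -σ) :=
          Real.rpow_le_rpow_of_exponent_le hx1 (by linarith)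
      _ = (x : ℝ) ^ (1 - 2 * δ) * (x : ℝ) ^ (-σ) := by rw [Real.rpow_add hx0]
      _ ≤ s.card * (x : ℝ) ^ (-σ) := by gcongr
      _ ≤ _ := hsum
  have hxη : 0 < (x : ℝ) ^ η := Real.rpow_pos_of_pos hx0 _
  rw [Real.rpow_neg hx0.le, ← one_div, le_div_iff₀ hxη]
  exact le_trans (mul_le_mul_of_nonneg_left f3 measureReal_nonneg) hprob


theorem all_scales {w : ℕ → ℕ} (hw : ∀ n, 4 * w n ≤ n) (P : Measure Ω) [IsProbabilityMeasure P]
    {X : ℕ → Ω → ℕ} (hX : Displaced w P X) (W : ℕ → Prop)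
    (K : ℕ → ℕ) (U : ℕ → Finset ℕ) (σ c : ℝ) (hσ0 : 0 ≤ σ) (hσ1 : σ < 1) (hc : 0 ≤ c)
    (hK : ∀ᶠ n : ℕ in atTop, (K n : ℝ) ≤ c * (Real.log n) ^ 2)
    (hU : ∀ n, U n ⊆ Icc n (n + K n))
    (hP : ∀ᶠ n : ℕ in atTop, W n → (n : ℝ) ^ (-σ) ≤ P.real (miss X (U n)))
    (hW : ∀ [DecidablePred W], ∀ η : ℝ, 0 < η → ∀ᶠ x : ℕ in atTop,
      (x : ℝ) ^ (1 - η) ≤ (((Icc 1 x).filter W).card : ℝ)) (θ : ℝ) (hθ0 : 0 < θ) (hθ : θ < 1) :
    ∀ᵐ ω ∂P, ∀ᶠ x : ℕ in atTop, ∃ n : ℕ, n ≤ x ∧ (x : ℝ) ^ θ < n ∧ ω ∈ miss X (U n) := by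
  classical
  obtain ⟨θ', hθ1, hθ2⟩ := exists_between hθ
  set η := (1 - σ) / 2 with hη
  have hη0 : 0 < η := by rw [hη]; linarith
  have hc1 := core_theta hw P hX W K U σ c hσ0 hc hK hU hP hW η (by linarith) θ' (by linarith) hθ2
  set E : ℕ → Set Ω := fun x =>
    ⋂ n ∈ (Icc 1 x).filter (fun n => W n ∧ (x : ℝ) ^ θ' < n), (miss X (U n))ᶜ with hE
  obtain ⟨x0, hx0⟩ := eventually_atTop.1 hc1
  have hpow : ∀ j : ℕ, x0 ≤ 2 ^ (j + x0) := fun j =>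
    (Nat.lt_two_pow_self (n := x0)).le.trans (Nat.pow_le_pow_right (by norm_num) (by omega))
  have hsum : (∑' j : ℕ, P (E (2 ^ (j + x0)))) ≠ ⊤ := by
    set r : ℝ := 2 ^ (-η) with hr
    have hr0 : 0 ≤ r := by positivity
    have hr1 : r < 1 := Real.rpow_lt_one_of_one_lt_of_neg (by norm_num) (by linarith)
    have h1 : ∀ j : ℕ, P (E (2 ^ (j + x0))) ≤ ENNReal.ofReal (r ^ (j + x0)) := by
      intro j
      rw [← ENNReal.ofReal_toReal (measure_ne_top P (E (2 ^ (j + x0))))]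
      apply ENNReal.ofReal_le_ofReal
      refine (hx0 _ (hpow j)).trans (le_of_eq ?_)
      rw [hr, ← Real.rpow_natCast ((2 : ℝ) ^ (-η)), ← Real.rpow_mul (by norm_num)]
      push_cast
      rw [← Real.rpow_natCast (2 : ℝ) (j + x0), ← Real.rpow_mul (by norm_num)]
      push_cast
      congr 1
      ring
    have h2 : Summable (fun j : ℕ => r ^ (j + x0)) :=
      (summable_nat_add_iff x0).2 (summable_geometric_of_lt_one hr0 hr1)
    exact ne_top_of_le_ne_top h2.tsum_ofReal_ne_top (ENNReal.tsum_le_tsum h1)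
  -- comparison of consecutive scales
  obtain ⟨y0, hy0⟩ : ∃ y0 : ℕ, ∀ y : ℕ, y0 ≤ y → ((2 * y : ℕ) : ℝ) ^ θ ≤ (y : ℝ) ^ θ' := by
    have e1 : ∀ᶠ y : ℕ in atTop, (2 : ℝ) ^ θ ≤ (y : ℝ) ^ (θ' - θ) :=
      ((tendsto_rpow_atTop (show 0 < θ' - θ by linarith)).comp
        (tendsto_natCast_atTop_atTop (R := ℝ))).eventually_ge_atTop _
    obtain ⟨y0, hy0⟩ := eventually_atTop.1 (e1.and (eventually_ge_atTop 1))
    refine ⟨y0, fun y hy => ?_⟩
    obtain ⟨g1, g2⟩ := hy0 y hy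
    have g3 : (0 : ℝ) < y := by exact_mod_cast g2
    push_cast
    rw [Real.mul_rpow (by norm_num) g3.le]
    calc (2 : ℝ) ^ θ * (y : ℝ) ^ θ ≤ (y : ℝ) ^ (θ' - θ) * (y : ℝ) ^ θ := by gcongr
      _ = (y : ℝ) ^ θ' := by rw [← Real.rpow_add g3]; congr 1; ring
  filter_upwards [ae_eventually_notMem hsum] with ω hω
  obtain ⟨j1, hj1⟩ := eventually_atTop.1 hω
  filter_upwards [eventually_ge_atTop (2 ^ (j1 + x0 + y0 + 1))] with x hx
  -- the scale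
  have hx1 : x ≠ 0 := by
    have : 0 < 2 ^ (j1 + x0 + y0 + 1) := by positivity
    omega
  set J := Nat.log 2 x with hJ
  have hJ1 : 2 ^ J ≤ x := Nat.pow_log_le_self 2 hx1
  have hJ2 : x < 2 ^ (J + 1) := Nat.lt_pow_succ_log_self (by norm_num) x
  have hJ3 : j1 + x0 + y0 + 1 ≤ J := by
    rw [hJ]
    exact (Nat.le_log_iff_pow_le (by norm_num) hx1).2 hx
  have h4 := hj1 (J - x0) (by omega)
  rw [Nat.sub_add_cancel (by omega)] at h4
  rw [hE] at h4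
  simp only [Set.mem_iInter, not_forall, Set.mem_compl_iff, not_not] at h4
  obtain ⟨n, hn, hn2⟩ := h4
  rw [Finset.mem_filter, Finset.mem_Icc] at hn
  refine ⟨n, hn.1.2.trans hJ1, ?_, hn2⟩
  have g1 : y0 ≤ 2 ^ J := by
    have : y0 < 2 ^ y0 := Nat.lt_two_pow_self
    have : 2 ^ y0 ≤ 2 ^ J := Nat.pow_le_pow_right (by norm_num) (by omega)
    omega
  have g2 := hy0 (2 ^ J) g1
  have g3 : (x : ℝ) ≤ ((2 * 2 ^ J : ℕ) : ℝ) := by
    have : x ≤ 2 * 2 ^ J := by rw [pow_succ] at hJ2; omega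
    exact_mod_cast this
  calc (x : ℝ) ^ θ ≤ ((2 * 2 ^ J : ℕ) : ℝ) ^ θ := Real.rpow_le_rpow (Nat.cast_nonneg _) g3 hθ0.le
    _ ≤ ((2 ^ J : ℕ) : ℝ) ^ θ' := g2
    _ < n := hn.2.2

end Pool.Agent.K4H77.Displ
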