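import Mathlib
import Pool.Agent.K4H77.DJ

/-! Displaced primes: first occurrences. -/

set_option autoImplicit false

open MeasureTheory ProbabilityTheory Filter Finset
open Pool.Agent.H510R2.Maier
open scoped Topology

namespace Pool.Agent.K4H77.Displ

open Pool.Agent.K4H77.Noise (logsq_le_rpow exists_residue exp_le_one_sub floor_le_logsq freq_gap ev_gap
  le_limsup_seq limsup_seq_le ngap supGap Wn Wn_many exp_gamma_lt firstAfter first_upper first_lower)

variable {Ω : Type*} [MeasurableSpace Ω] {w : ℕ → ℕ}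

/-- ranges comparable to `(log n)^2`: the windows after few primes -/
theorem small_all (hw : ∀ n, 4 * w n ≤ n) {lam c : ℝ} (hlam : 0 < lam) (hc0 : 0 < c)
    (hc2 : c < 2 * lam) (hcost : dcost lam c < 1)
    (hlim : Tendsto (fun n : ℕ => (w n : ℝ) / (Real.log n) ^ 2) atTop (𝓝 lam))
    (P : Measure Ω) [IsProbabilityMeasure P] {X : ℕ → Ω → ℕ} (hX : Displaced w P X) :
    ∀ᵐ ω ∂P, ∀ᶠ x : ℕ in atTop, ∃ n : ℕ, n ≤ x ∧ (x : ℝ) ^ (1 / 2 : ℝ) < n ∧
      ∀ m : ℕ, n < m → (m : ℝ) ≤ n + c * (Real.log x) ^ 2 → m ∉ dset X ω := by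
  obtain ⟨ε, κ₁, hε, hε1, hκ₁, hp1, hp2, hp3⟩ := dparams hlam hc0 hc2 hcost
  set c' := c * (1 + ε) with hc'
  have hc'0 : 0 < c' := by positivity
  set c₂ := 2 * (lam * (1 + 2 * ε)) + c' with hc₂
  set θ := c' / (2 * lam * (1 - ε)) with hθ
  have hden : 0 < 2 * lam * (1 - ε) := by
    have : 0 < 1 - ε := by linarith
    positivity
  have hθ0 : 0 < θ := by positivity
  have hθ1 : θ < 1 := by rw [hθ, div_lt_one hden]; exact hp1
  obtain ⟨σ, hσ1, hσ2⟩ := exists_between hp3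
  have hlogθ : 0 ≤ Real.log (1 / (1 - θ)) := by
    apply Real.log_nonneg
    rw [le_div_iff₀ (by linarith)]
    linarith
  set s : ℕ → ℕ := fun n => ⌊lam * (1 + 2 * ε) * (Real.log n) ^ 2⌋₊ with hs
  set H : ℕ → ℕ := fun n => ⌊c' * (Real.log n) ^ 2⌋₊ with hH
  have hlam2 : 0 ≤ lam * (1 + 2 * ε) := by positivity
  -- the exponent
  obtain ⟨θ₁, hθ₁0, hθ₁1, hθ₁2⟩ : ∃ θ₁ : ℝ, 1 / 2 < θ₁ ∧ θ₁ < 1 ∧ 1 < θ₁ ^ 2 * (1 + ε) := by
    have h1 : Tendsto (fun θ : ℝ => θ ^ 2 * (1 + ε)) (nhdsWithin 1 (Set.Iio 1))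
        (nhds (1 ^ 2 * (1 + ε))) := by
      apply Tendsto.mono_left _ nhdsWithin_le_nhds
      apply ContinuousAt.tendsto
      fun_prop
    have h3 := h1.eventually_const_lt (show (1 : ℝ) < 1 ^ 2 * (1 + ε) by linarith)
    have h4 : ∀ᶠ θ : ℝ in nhdsWithin 1 (Set.Iio 1), 1 / 2 < θ :=
      nhdsWithin_le_nhds (lt_mem_nhds (by norm_num))
    obtain ⟨θ, h5, h6, h7⟩ := (h3.and (h4.and self_mem_nhdsWithin)).exists
    exact ⟨θ, h6, h7, h5⟩
  have key := all_scales hw P hX (Wn κ₁ c₂) (fun n => s n + H n)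
    (fun n => Ioc (n + s n) (n + s n + H n)) σ c₂ (by
      have : 0 ≤ κ₁ * Real.log (1 / (1 - θ)) := by positivity
      linarith) hσ2 (by positivity)
    (by
      filter_upwards with n
      push_cast
      have h1 := floor_le_logsq hlam2 n
      have h2 := floor_le_logsq hc'0.le n
      have h3 : 0 ≤ lam * (1 + 2 * ε) * (Real.log n) ^ 2 := by positivity
      rw [hc₂]
      simp only [hs, hH]
      linarith)
    (fun n => by
      intro u hu
      rw [Finset.mem_Ioc] at hu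
      rw [Finset.mem_Icc]
      omega)
    (by
      filter_upwards [range_close hlam hlim hε hε1, logsq_le_rpow (c₂ + 1) 1 one_pos,
        tlog.eventually_ge_atTop 1, tlog.eventually_ge_atTop (1 / (lam * ε)),
        eventually_ge_atTop 4] with n h1 h2 h3 h3' h4 h5
      rw [Real.rpow_one] at h2
      have hn0 : (4 : ℝ) ≤ n := by exact_mod_cast h4
      have hL1 : 1 ≤ (Real.log n) ^ 2 := by nlinarith
      have hsH : ((s n + H n : ℕ) : ℝ) ≤ c₂ * (Real.log n) ^ 2 := by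
        push_cast
        have g1 := floor_le_logsq hlam2 n
        have g2 := floor_le_logsq hc'0.le n
        have g3 : 0 ≤ lam * (1 + 2 * ε) * (Real.log n) ^ 2 := by positivity
        rw [hc₂]
        simp only [hs, hH]
        linarith
      have hsH2 : 2 * (s n + H n) ≤ n := by
        have : 2 * ((s n + H n : ℕ) : ℝ) ≤ n := by nlinarith
        exact_mod_cast this
      -- the relevant primes
      have hrel : ∀ p : ℕ, ¬ Disjoint (Ioc (n + s n) (n + s n + H n)) (Icc (p - w p) (p + w p)) →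
          n < p ∧ p ≤ n + ⌊c₂ * (Real.log n) ^ 2⌋₊ ∧ pr w p (Ioc (n + s n) (n + s n + H n)) ≤ θ := by
        intro p hp
        rw [Finset.not_disjoint_iff] at hp
        obtain ⟨u, hu1, hu2⟩ := hp
        rw [Finset.mem_Ioc] at hu1
        rw [Finset.mem_Icc] at hu2
        have hwp := hw p
        obtain ⟨g1, g2⟩ := h1 p (by omega) (by omega)
        have g3 : w p ≤ s n := by
          rw [hs]
          apply Nat.le_floor
          nlinarith
        refine ⟨by omega, ?_, ?_⟩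
        · have g4 : s n + H n + w p ≤ ⌊c₂ * (Real.log n) ^ 2⌋₊ := by
            apply Nat.le_floor
            push_cast
            have g5 := floor_le_logsq hlam2 n
            have g6 := floor_le_logsq hc'0.le n
            have g7 : lam * (1 + ε) * (Real.log n) ^ 2 ≤ lam * (1 + 2 * ε) * (Real.log n) ^ 2 := by
              gcongr
              linarith
            rw [hc₂]
            simp only [hs, hH]
            linarith
          omega
        · refine (pr_le_card p _).trans ?_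
          rw [Nat.card_Ioc, Nat.add_sub_cancel_left, hθ, div_le_div_iff₀ (by positivity) hden]
          have g5 := floor_le_logsq hc'0.le n
          have g6 : ((H n : ℕ) : ℝ) ≤ c' * (Real.log n) ^ 2 := g5
          calc ((H n : ℕ) : ℝ) * (2 * lam * (1 - ε)) ≤ c' * (Real.log n) ^ 2 * (2 * lam * (1 - ε)) := by
                gcongr
            _ = c' * (2 * (lam * (1 - ε) * (Real.log n) ^ 2)) := by ring
            _ ≤ c' * (2 * w p + 1) := by
                apply mul_le_mul_of_nonneg_left _ hc'0.le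
                linarith
      rw [prob_miss hw hX (M := 2 * (n + s n + H n))
        (fun p _ hp => far hw (fun u hu => (Finset.mem_Ioc.1 hu).2) hp)]
      set T := (Ioc n (n + ⌊c₂ * (Real.log n) ^ 2⌋₊)).filter Nat.Prime with hT
      have hcard : T.card = cnt n ⌊c₂ * (Real.log n) ^ 2⌋₊ := by
        unfold cnt
        rw [hT]
        symm
        apply Finset.card_bij (fun h _ => n + h)
        · intro h hh
          rw [Finset.mem_filter, Finset.mem_Icc] at hh
          rw [Finset.mem_filter, Finset.mem_Ioc]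
          exact ⟨by omega, hh.2⟩
        · intro a _ b _ hab
          omega
        · intro b hb
          rw [Finset.mem_filter, Finset.mem_Ioc] at hb
          refine ⟨b - n, ?_, by omega⟩
          rw [Finset.mem_filter, Finset.mem_Icc]
          refine ⟨by omega, ?_⟩
          rw [show n + (b - n) = b by omega]
          exact hb.2
      have hprod : (1 - θ) ^ T.card ≤
          ∏ p ∈ (Iic (2 * (n + s n + H n))).filter Nat.Prime,
            (1 - pr w p (Ioc (n + s n) (n + s n + H n))) := by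
        have g1 : ∏ p ∈ (Iic (2 * (n + s n + H n))).filter Nat.Prime, (if p ∈ T then (1 - θ) else 1) ≤
            ∏ p ∈ (Iic (2 * (n + s n + H n))).filter Nat.Prime,
              (1 - pr w p (Ioc (n + s n) (n + s n + H n))) := by
          apply Finset.prod_le_prod
          · intro p _
            split_ifs <;> linarith
          · intro p hp
            rw [Finset.mem_filter] at hp
            by_cases hd : Disjoint (Ioc (n + s n) (n + s n + H n)) (Icc (p - w p) (p + w p))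
            · rw [pr_eq_zero hd]
              split_ifs <;> linarith
            · obtain ⟨g2, g3, g4⟩ := hrel p hd
              rw [if_pos (by
                rw [hT, Finset.mem_filter, Finset.mem_Ioc]
                exact ⟨⟨g2, g3⟩, hp.2⟩)]
              linarith
        refine le_trans ?_ g1
        rw [Finset.prod_ite, Finset.prod_const, Finset.prod_const_one, mul_one]
        apply pow_le_pow_of_le_one (by linarith) (by linarith)
        apply Finset.card_le_card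
        intro p hp
        exact (Finset.mem_filter.1 hp).2
      refine le_trans ?_ hprod
      have hW : ((cnt n ⌊c₂ * (Real.log n) ^ 2⌋₊ : ℕ) : ℝ) ≤ κ₁ * Real.log n := h5
      rw [hcard]
      have hθp : 0 < 1 - θ := by linarith
      have e1 : (1 - θ) ^ (cnt n ⌊c₂ * (Real.log n) ^ 2⌋₊) =
          Real.exp (-((cnt n ⌊c₂ * (Real.log n) ^ 2⌋₊ : ℕ) * Real.log (1 / (1 - θ)))) := by
        rw [one_div, Real.log_inv, mul_neg, neg_neg, Real.exp_nat_mul, Real.exp_log hθp]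
      rw [e1]
      refine (rpow_le_exp_mul (a := κ₁ * Real.log (1 / (1 - θ))) hσ1.le (by omega)).trans ?_
      apply Real.exp_le_exp.2
      apply neg_le_neg
      calc ((cnt n ⌊c₂ * (Real.log n) ^ 2⌋₊ : ℕ) : ℝ) * Real.log (1 / (1 - θ)) ≤
            (κ₁ * Real.log n) * Real.log (1 / (1 - θ)) := by gcongr
        _ = _ := by ring)
    (fun η hη => Wn_many κ₁ c₂ hκ₁ hp2 η hη) θ₁ (by linarith) hθ₁1
  -- conclusion
  have e1 : ∀ᶠ x : ℕ in atTop, (x : ℝ) ^ (1 / 2 : ℝ) ≤ ((x / 2 : ℕ) : ℝ) ^ θ₁ := by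
    have g1 : ∀ᶠ x : ℕ in atTop, (4 : ℝ) ^ θ₁ ≤ (x : ℝ) ^ (θ₁ - 1 / 2) :=
      ((tendsto_rpow_atTop (show 0 < θ₁ - 1 / 2 by linarith)).comp
        (tendsto_natCast_atTop_atTop (R := ℝ))).eventually_ge_atTop _
    filter_upwards [g1, eventually_ge_atTop 2] with x g2 g3
    have g4 : (0 : ℝ) < x := by
      have : 0 < x := by omega
      exact_mod_cast this
    have g5 : (x : ℝ) / 4 ≤ ((x / 2 : ℕ) : ℝ) := by
      have : x ≤ 4 * (x / 2) := by omega
      have : (x : ℝ) ≤ 4 * ((x / 2 : ℕ) : ℝ) := by exact_mod_cast this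
      linarith
    calc (x : ℝ) ^ (1 / 2 : ℝ) = (x : ℝ) ^ θ₁ / (x : ℝ) ^ (θ₁ - 1 / 2) := by
          rw [← Real.rpow_sub g4]; congr 1; ring
      _ ≤ (x : ℝ) ^ θ₁ / (4 : ℝ) ^ θ₁ := by gcongr
      _ = ((x : ℝ) / 4) ^ θ₁ := by rw [Real.div_rpow g4.le (by norm_num)]
      _ ≤ _ := Real.rpow_le_rpow (by positivity) g5 (by linarith)
  have e2 : ∀ᶠ x : ℕ in atTop, (Real.log x) ^ 2 ≤ (1 + ε) * (θ₁ * Real.log ((x / 2 : ℕ) : ℝ)) ^ 2 := by
    have g1 : ∀ᶠ L : ℝ in atTop, L ^ 2 ≤ (1 + ε) * (θ₁ * (L - 2)) ^ 2 := by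
      set τ := θ₁ ^ 2 * (1 + ε) with hτ
      filter_upwards [eventually_ge_atTop (4 * τ / (τ - 1))] with L hL
      rw [div_le_iff₀ (by linarith)] at hL
      have : (1 + ε) * (θ₁ * (L - 2)) ^ 2 = τ * (L - 2) ^ 2 := by rw [hτ]; ring
      rw [this]
      have h0 : 0 ≤ L := by
        by_contra hcon
        push Not at hcon
        nlinarith
      nlinarith
    filter_upwards [tlog.eventually g1, tlog.eventually_ge_atTop 4, eventually_ge_atTop 4]
      with x g2 g2' g3
    refine g2.trans ?_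
    have g4 : (0 : ℝ) < x := by
      have : 0 < x := by omega
      exact_mod_cast this
    have g5 : (x : ℝ) ≤ 4 * ((x / 2 : ℕ) : ℝ) := by
      have : x ≤ 4 * (x / 2) := by omega
      exact_mod_cast this
    have g6 : Real.log x - 2 ≤ Real.log ((x / 2 : ℕ) : ℝ) := by
      have g7 : (0 : ℝ) < ((x / 2 : ℕ) : ℝ) := by linarith
      have g8 : Real.log x ≤ Real.log (4 * ((x / 2 : ℕ) : ℝ)) := Real.log_le_log g4 g5
      rw [Real.log_mul (by norm_num) g7.ne', show (4 : ℝ) = 2 ^ 2 by norm_num, Real.log_pow] at g8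
      have := Real.log_two_lt_d9
      push_cast at g8
      linarith
    have g9 : 0 ≤ θ₁ * (Real.log x - 2) := mul_nonneg (by linarith) (by linarith)
    gcongr
  have hhalf : Tendsto (fun x : ℕ => x / 2) atTop atTop :=
    Nat.tendsto_div_const_atTop (by norm_num)
  have e3 : ∀ᶠ n : ℕ in atTop, s n ≤ n := by
    filter_upwards [logsq_le_rpow c₂ 1 one_pos] with n h2
    rw [Real.rpow_one] at h2
    have g1 := floor_le_logsq hlam2 n
    have g2 : 0 ≤ lam * (1 + 2 * ε) * (Real.log n) ^ 2 := by positivity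
    have g3 : 0 ≤ c' * (Real.log n) ^ 2 := by positivity
    have : ((s n : ℕ) : ℝ) ≤ n := by
      simp only [hs]
      rw [hc₂] at h2
      nlinarith
    exact_mod_cast this
  obtain ⟨n0, hn0⟩ := eventually_atTop.1 e3
  have e4 : ∀ᶠ x : ℕ in atTop, (n0 : ℝ) + 1 ≤ (x : ℝ) ^ (1 / 2 : ℝ) :=
    ((tendsto_rpow_atTop (show (0 : ℝ) < 1 / 2 by norm_num)).comp
      (tendsto_natCast_atTop_atTop (R := ℝ))).eventually_ge_atTop _
  filter_upwards [key] with ω hω
  filter_upwards [hhalf.eventually hω, e1, e2, e4] with x hx h1 h2 h3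
  obtain ⟨n, hn1, hn2, hn3⟩ := hx
  have hn4 : n0 ≤ n := by
    have : (n0 : ℝ) ≤ n := by linarith
    exact_mod_cast this
  have hsn := hn0 n hn4
  refine ⟨n + s n, by omega, ?_, fun m hm1 hm2 => ?_⟩
  · push_cast
    have : (0 : ℝ) ≤ s n := Nat.cast_nonneg _
    linarith
  · have hx2 : (1 : ℝ) ≤ ((x / 2 : ℕ) : ℝ) := by
      have g1 : (0 : ℝ) < ((x / 2 : ℕ) : ℝ) ^ θ₁ := lt_of_lt_of_le (by positivity) (h3.trans h1)
      have : 1 ≤ x / 2 := by
        by_contra hcon
        have h0 : x / 2 = 0 := by omega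
        rw [h0, Nat.cast_zero, Real.zero_rpow (by linarith)] at g1
        exact lt_irrefl _ g1
      exact_mod_cast this
    have hlogn : θ₁ * Real.log ((x / 2 : ℕ) : ℝ) ≤ Real.log n := by
      rw [← Real.log_rpow (by linarith)]
      exact Real.log_le_log (by positivity) hn2.le
    have hlog0 : 0 ≤ θ₁ * Real.log ((x / 2 : ℕ) : ℝ) :=
      mul_nonneg (by linarith) (Real.log_nonneg hx2)
    have g1 : c * (Real.log x) ^ 2 ≤ c' * (Real.log n) ^ 2 := by
      calc c * (Real.log x) ^ 2 ≤ c * ((1 + ε) * (θ₁ * Real.log ((x / 2 : ℕ) : ℝ)) ^ 2) := by gcongr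
        _ ≤ c * ((1 + ε) * (Real.log n) ^ 2) := by gcongr
        _ = c' * (Real.log n) ^ 2 := by rw [hc']; ring
    have g2 : m - (n + s n) ≤ H n := by
      simp only [hH]
      apply Nat.le_floor
      rw [Nat.cast_sub hm1.le]
      linarith
    have g3 := miss_dset hn3 (m - (n + s n)) (Finset.mem_Icc.2 ⟨by omega, g2⟩)
    rwa [show n + s n + (m - (n + s n)) = m by omega] at g3


/-- ranges larger than `(log n)^2`: empty windows below every large `x` -/
theorem one_all (hw : ∀ n, 4 * w n ≤ n)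
    (hlin : Tendsto (fun n : ℕ => (w n : ℝ) / n) atTop (𝓝 0))
    (hbig : Tendsto (fun n : ℕ => (w n : ℝ) / (Real.log n) ^ 2) atTop atTop)
    (P : Measure Ω) [IsProbabilityMeasure P] {X : ℕ → Ω → ℕ} (hX : Displaced w P X) {c : ℝ}
    (hc : 0 < c) (hc1 : c < 1) :
    ∀ᵐ ω ∂P, ∀ᶠ x : ℕ in atTop, ∃ n : ℕ, n ≤ x ∧ (x : ℝ) ^ (1 / 2 : ℝ) < n ∧
      ∀ m : ℕ, n < m → (m : ℝ) ≤ n + c * (Real.log x) ^ 2 → m ∉ dset X ω := by
  obtain ⟨c', hcc', hc'1⟩ := exists_between hc1
  have hc'0 : 0 < c' := hc.trans hcc'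
  obtain ⟨κ, hκ, hκ1⟩ := exists_between hc'1
  obtain ⟨σ, hσ, hσ1⟩ := exists_between hκ1
  have hκ0 : 0 < κ := hc'0.trans hκ
  obtain ⟨θ₁, hθ₁0, hθ₁1, hθ₁2⟩ : ∃ θ₁ : ℝ, 1 / 2 < θ₁ ∧ θ₁ < 1 ∧ c < θ₁ ^ 2 * c' := by
    have h1 : Tendsto (fun θ : ℝ => θ ^ 2 * c') (nhdsWithin 1 (Set.Iio 1))
        (nhds (1 ^ 2 * c')) := by
      apply Tendsto.mono_left _ nhdsWithin_le_nhds
      apply ContinuousAt.tendsto
      fun_prop
    have h3 := h1.eventually_const_lt (show c < 1 ^ 2 * c' by linarith)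
    have h4 : ∀ᶠ θ : ℝ in nhdsWithin 1 (Set.Iio 1), 1 / 2 < θ :=
      nhdsWithin_le_nhds (lt_mem_nhds (by norm_num))
    obtain ⟨θ, h5, h6, h7⟩ := (h3.and (h4.and self_mem_nhdsWithin)).exists
    exact ⟨θ, h6, h7, h5⟩
  set θ := min (1 / 2) ((σ - κ) / (2 * κ)) with hθ
  have hθ0 : 0 < θ := lt_min (by norm_num) (div_pos (by linarith) (by linarith))
  have hθ1 : θ ≤ 1 / 2 := min_le_left _ _
  have hθ2 : (1 + 2 * θ) * κ ≤ σ := by
    have h1 : θ ≤ (σ - κ) / (2 * κ) := min_le_right _ _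
    rw [le_div_iff₀ (by linarith)] at h1
    nlinarith
  have h := all_scales hw P hX (Few w c' κ) (fun n => ⌊c' * (Real.log n) ^ 2⌋₊)
    (fun n => Ioc n (n + ⌊c' * (Real.log n) ^ 2⌋₊)) σ c' (by linarith) hσ1 hc'0.le
    (Eventually.of_forall fun n => floor_le_logsq hc'0.le n)
    (fun n => Finset.Ioc_subset_Icc_self)
    (by
      filter_upwards [pr_small hw hbig hc'0 hθ0, eventually_ge_atTop 1] with n h1 hn h2
      refine le_trans ?_ (miss_ge hw hX (M := 2 * (n + ⌊c' * (Real.log n) ^ 2⌋₊))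
        (fun p _ hp => far hw (fun u hu => (Finset.mem_Ioc.1 hu).2) hp) hθ1 h1)
      refine (rpow_le_exp_mul hθ2 hn).trans ?_
      apply Real.exp_le_exp.2
      unfold Few at h2
      have h3 : (1 + 2 * θ) * ex w (Ioc n (n + ⌊c' * (Real.log n) ^ 2⌋₊))
          (2 * (n + ⌊c' * (Real.log n) ^ 2⌋₊)) ≤ (1 + 2 * θ) * (κ * Real.log n) := by gcongr
      unfold ex at h3
      linarith)
    (fun η hη => few_many hw hlin hc'0 hκ η hη) θ₁ (by linarith) hθ₁1
  filter_upwards [h] with ω hω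
  filter_upwards [hω, eventually_ge_atTop 1] with x hx hx1
  obtain ⟨n, hn1, hn2, hn3⟩ := hx
  have hx1' : (1 : ℝ) ≤ x := by exact_mod_cast hx1
  refine ⟨n, hn1, lt_of_le_of_lt (Real.rpow_le_rpow_of_exponent_le hx1' hθ₁0.le) hn2, fun m hm1 hm2 => ?_⟩
  have hlogn : θ₁ * Real.log x ≤ Real.log n := by
    rw [← Real.log_rpow (by linarith)]
    exact Real.log_le_log (by positivity) hn2.le
  have hlogx : 0 ≤ Real.log x := Real.log_nonneg hx1'
  have g1 : c * (Real.log x) ^ 2 ≤ c' * (Real.log n) ^ 2 := by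
    calc c * (Real.log x) ^ 2 ≤ (θ₁ ^ 2 * c') * (Real.log x) ^ 2 := by gcongr
      _ = c' * (θ₁ * Real.log x) ^ 2 := by ring
      _ ≤ c' * (Real.log n) ^ 2 := by
        have : 0 ≤ θ₁ * Real.log x := mul_nonneg (by linarith) hlogx
        gcongr
  have g2 : m - n ≤ ⌊c' * (Real.log n) ^ 2⌋₊ := by
    apply Nat.le_floor
    rw [Nat.cast_sub hm1.le]
    linarith
  have g3 := miss_dset hn3 (m - n) (Finset.mem_Icc.2 ⟨by omega, g2⟩)
  rwa [show n + (m - n) = m by omega] at g3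

/-- the displaced set meets `(x, 2x]` -/
theorem dyadic_dset (hw : ∀ n, 4 * w n ≤ n)
    (hlin : Tendsto (fun n : ℕ => (w n : ℝ) / n) atTop (𝓝 0)) {X : ℕ → Ω → ℕ}
    (hmem : ∀ p ω, X p ω ∈ Icc (p - w p) (p + w p)) (ω : Ω) :
    ∀ᶠ x : ℕ in atTop, ∃ m : ℕ, x < m ∧ m ≤ 2 * x ∧ m ∈ dset X ω := by
  have h1 := (pnt_scale (show (0 : ℝ) < 1.6 by norm_num)).sub (pnt_scale (show (0 : ℝ) < 1.3 by norm_num))
  have h2 := h1.eventually_const_lt (show (0 : ℝ) < 1.6 - 1.3 by norm_num)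
  obtain ⟨p0, hp0⟩ := eventually_atTop.1 (hlin.eventually_le_const (show (0 : ℝ) < 1 / 10 by norm_num))
  filter_upwards [h2, tlog.eventually_gt_atTop 0, eventually_ge_atTop (p0 + 1)] with x hx hl hx0
  have hxp : (0 : ℝ) < x := by
    have : 0 < x := by omega
    exact_mod_cast this
  rw [← sub_mul] at hx
  have h3 : 0 < (Nat.primeCounting ⌊(1.6 : ℝ) * x⌋₊ : ℝ) - Nat.primeCounting ⌊(1.3 : ℝ) * x⌋₊ :=
    pos_of_mul_pos_left hx (by positivity)
  have h4 : Nat.primeCounting ⌊(1.3 : ℝ) * x⌋₊ < Nat.primeCounting ⌊(1.6 : ℝ) * x⌋₊ := by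
    have : (Nat.primeCounting ⌊(1.3 : ℝ) * x⌋₊ : ℝ) < Nat.primeCounting ⌊(1.6 : ℝ) * x⌋₊ := by linarith
    exact_mod_cast this
  obtain ⟨p, hp1, hp2, hp3⟩ : ∃ p : ℕ, ⌊(1.3 : ℝ) * x⌋₊ < p ∧ p ≤ ⌊(1.6 : ℝ) * x⌋₊ ∧ p.Prime := by
    by_contra hcon
    push Not at hcon
    have h5 : Nat.primeCounting ⌊(1.6 : ℝ) * x⌋₊ ≤ Nat.primeCounting ⌊(1.3 : ℝ) * x⌋₊ := by
      unfold Nat.primeCounting Nat.primeCounting'
      rcases le_total ⌊(1.6 : ℝ) * x⌋₊ ⌊(1.3 : ℝ) * x⌋₊ with h | h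
      · exact Nat.count_monotone _ (by omega)
      · obtain ⟨d, hd⟩ := Nat.exists_eq_add_of_le h
        have e1 : ⌊(1.6 : ℝ) * x⌋₊ + 1 = (⌊(1.3 : ℝ) * x⌋₊ + 1) + d := by omega
        rw [e1, Nat.count_add]
        have e2 : Nat.count (fun k => Nat.Prime (⌊(1.3 : ℝ) * x⌋₊ + 1 + k)) d = 0 := by
          rw [Nat.count_eq_card_filter_range, Finset.card_eq_zero, Finset.filter_eq_empty_iff]
          intro k hk
          rw [Finset.mem_range] at hk
          exact hcon _ (by omega) (by omega)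
        omega
    omega
  have g1 : (1.3 : ℝ) * x < p := (Nat.floor_lt (by positivity)).1 hp1
  have g2 : (p : ℝ) ≤ 1.6 * x := (Nat.cast_le.2 hp2).trans (Nat.floor_le (by positivity))
  have hpx : x < p := by
    have : (x : ℝ) < p := by linarith
    exact_mod_cast this
  have g3 := hp0 p (by omega)
  have hpp : (0 : ℝ) < p := by exact_mod_cast hp3.pos
  rw [div_le_iff₀ hpp] at g3
  have g4 := hmem p ω
  rw [Finset.mem_Icc] at g4
  refine ⟨X p ω, ?_, ?_, ⟨p, hp3, rfl⟩⟩
  · have g5 : (p : ℝ) ≤ X p ω + w p := by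
      have : p ≤ X p ω + w p := by omega
      exact_mod_cast this
    have : (x : ℝ) < X p ω := by linarith
    exact_mod_cast this
  · have g5 : (X p ω : ℝ) ≤ p + w p := by exact_mod_cast g4.2
    have : (X p ω : ℝ) ≤ 2 * x := by linarith
    exact_mod_cast this

end Pool.Agent.K4H77.Displ
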