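import Mathlib
import Pool.Agent.K4H77.DK

/-! Displaced primes: first occurrences, final statements. -/

set_option autoImplicit false

open MeasureTheory ProbabilityTheory Filter Finset
open Pool.Agent.H510R2.Maier
open scoped Topology

namespace Pool.Agent.K4H77.Displ

open Pool.Agent.K4H77.Noise (firstAfter first_upper first_lower ngap)

/-- the set of the displaced primes almost surely is infinite and has the property `Q` -/
def AlmostSurelySet (w : ℕ → ℕ) (Q : Set ℕ → Prop) : Prop :=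
  ∀ (Ω : Type) [MeasurableSpace Ω] (P : Measure Ω) [IsProbabilityMeasure P] (X : ℕ → Ω → ℕ),
    Displaced w P X → ∀ᵐ ω ∂P, (dset X ω).Infinite ∧ Q (dset X ω)

/-- for all large `g`, some two consecutive elements of `S` differ by more than `g`, and
`(log p_S(g))^2 ≤ D g` -/
def FirstLe (S : Set ℕ) (D : ℝ) : Prop := ∀ᶠ g : ℕ in atTop,
  (∃ k : ℕ, Nat.nth (· ∈ S) k + g < Nat.nth (· ∈ S) (k + 1)) ∧
    (Real.log (firstAfter S g)) ^ 2 / g ≤ D

theorem first_small {w : ℕ → ℕ} (hw : ∀ n, 4 * w n ≤ n) {lam c D : ℝ} (hlam : 0 < lam) (hc0 : 0 < c)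
    (hc2 : c < 2 * lam) (hcost : dcost lam c < 1) (hD : 1 / c < D)
    (hlim : Tendsto (fun n : ℕ => (w n : ℝ) / (Real.log n) ^ 2) atTop (𝓝 lam)) :
    AlmostSurelySet w (fun S => FirstLe S D) := by
  intro Ω _ P _ X hX
  have hlin : Tendsto (fun n : ℕ => (w n : ℝ) / n) atTop (𝓝 0) := by
    have h1 : Tendsto (fun n : ℕ => (Real.log n) ^ 2 / (n : ℝ)) atTop (𝓝 0) := by
      have h2 := (Real.isLittleO_pow_log_id_atTop (n := 2)).tendsto_div_nhds_zero.comp
        (tendsto_natCast_atTop_atTop (R := ℝ))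
      exact h2
    have h3 := hlim.mul h1
    rw [mul_zero] at h3
    refine h3.congr' ?_
    filter_upwards [tlog.eventually_gt_atTop 0] with n hn
    field_simp
  filter_upwards [small_all hw hlam hc0 hc2 hcost hlim P hX] with ω hω
  refine ⟨dset_inf hw hX.mem ω, ?_⟩
  have h1 := first_upper (dset_inf hw hX.mem ω) hc0 (show 0 < D - 1 / c by linarith) hω
    (dyadic_dset hw hlin hX.mem ω)
  unfold FirstLe
  filter_upwards [h1] with g hg
  exact ⟨hg.1, hg.2.trans (by linarith)⟩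

theorem fo_a {w : ℕ → ℕ} (hw : ∀ n, 4 * w n ≤ n) {lam : ℝ} (hlam : 0 < lam)
    (hlim : Tendsto (fun n : ℕ => (w n : ℝ) / (Real.log n) ^ 2) atTop (𝓝 lam)) :
    ∃ D : ℝ, (7 ≤ lam → D < 1) ∧ AlmostSurelySet w (fun S => FirstLe S D) := by
  by_cases h7 : 7 ≤ lam
  · refine ⟨0.9995, fun _ => by norm_num, ?_⟩
    exact first_small hw hlam (by norm_num) (cor_seven h7).1 (cor_seven h7).2 (by norm_num) hlim
  · obtain ⟨c, hc0, hc2, hc⟩ := cor_pos hlam
    exact ⟨1 / c + 1, fun h => absurd h h7, first_small hw hlam hc0 hc2 hc (by linarith) hlim⟩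

theorem fo_b {D : ℝ} (hD : Real.exp Real.eulerMascheroniConstant / 2 < D) :
    ∃ lam₀ : ℝ, ∀ (w : ℕ → ℕ) (lam : ℝ), (∀ n, 4 * w n ≤ n) → lam₀ ≤ lam →
      Tendsto (fun n : ℕ => (w n : ℝ) / (Real.log n) ^ 2) atTop (𝓝 lam) →
      AlmostSurelySet w (fun S => FirstLe S D) := by
  have hE := Real.exp_pos Real.eulerMascheroniConstant
  have hD0 : 0 < D := by linarith
  have h1 : 1 / D < 2 * Real.exp (-Real.eulerMascheroniConstant) := by
    rw [Real.exp_neg, div_lt_iff₀ hD0]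
    have : 2 * (Real.exp Real.eulerMascheroniConstant)⁻¹ * D =
        D / (Real.exp Real.eulerMascheroniConstant / 2) := by field_simp
    rw [this, lt_div_iff₀ (by positivity)]
    linarith
  obtain ⟨c, hc1, hc2⟩ := exists_between h1
  have hc0 : 0 < c := lt_trans (by positivity) hc1
  obtain ⟨lam₀, hlam₀, h⟩ := cor_granville hc2
  refine ⟨lam₀, fun w lam hw hlam hlim => ?_⟩
  rcases h lam hlam with g1 | ⟨g1, g2, g3⟩
  · linarith
  · refine first_small hw (hlam₀.trans_le hlam) g1 g2 g3 ?_ hlim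
    rw [div_lt_iff₀ hD0] at hc1
    rw [div_lt_iff₀ g1]
    linarith

theorem fo_c {w : ℕ → ℕ} (hw : ∀ n, 4 * w n ≤ n)
    (hlin : Tendsto (fun n : ℕ => (w n : ℝ) / n) atTop (𝓝 0))
    (hbig : Tendsto (fun n : ℕ => (w n : ℝ) / (Real.log n) ^ 2) atTop atTop) :
    AlmostSurelySet w (fun S => ∀ D : ℝ, 1 < D → FirstLe S D) := by
  intro Ω _ P _ X hX
  have h1 : ∀ j : ℕ, ∀ᵐ ω ∂P, ∀ᶠ x : ℕ in atTop, ∃ n : ℕ, n ≤ x ∧ (x : ℝ) ^ (1 / 2 : ℝ) < n ∧
      ∀ m : ℕ, n < m → (m : ℝ) ≤ n + (1 - 1 / ((j : ℝ) + 2)) * (Real.log x) ^ 2 → m ∉ dset X ω := by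
    intro j
    have hj : (0 : ℝ) ≤ j := Nat.cast_nonneg j
    have h3 : 1 / ((j : ℝ) + 2) < 1 := by
      rw [div_lt_one (by positivity)]; linarith
    have h4 : 0 < 1 / ((j : ℝ) + 2) := by positivity
    exact one_all hw hlin hbig P hX (by linarith) (by linarith)
  rw [← ae_all_iff] at h1
  filter_upwards [h1] with ω hω
  refine ⟨dset_inf hw hX.mem ω, fun D hD => ?_⟩
  have hD0 : 0 < D := by linarith
  -- choose `j`
  have hD1 : 0 < (1 - 1 / D) / 2 := by
    have : 1 / D < 1 := by rw [div_lt_one hD0]; exact hD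
    linarith
  obtain ⟨j, hj⟩ := exists_nat_one_div_lt hD1
  have hj0 : (0 : ℝ) ≤ j := Nat.cast_nonneg j
  have hj2 : 1 / ((j : ℝ) + 2) < (1 - 1 / D) / 2 := by
    refine lt_of_le_of_lt ?_ hj
    apply one_div_le_one_div_of_le (by positivity)
    linarith
  set c := 1 - 1 / ((j : ℝ) + 2) with hc
  have hcD : 1 / D < c := by linarith
  have hc0 : 0 < c := lt_trans (by positivity) hcD
  have hcD2 : 1 / c < D := by
    rw [div_lt_iff₀ hD0] at hcD
    rw [div_lt_iff₀ hc0]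
    linarith
  have h2 := first_upper (dset_inf hw hX.mem ω) hc0 (show 0 < D - 1 / c by linarith) (hω j)
    (dyadic_dset hw hlin hX.mem ω)
  unfold FirstLe
  filter_upwards [h2] with g hg
  exact ⟨hg.1, hg.2.trans (by linarith)⟩

theorem fo_d : ∃ δ a : ℝ, 0 < δ ∧ 0 < a ∧ ∀ w : ℕ → ℕ, (∀ n, 4 * w n ≤ n) → Regular w →
    (∀ᶠ n : ℕ in atTop, (n : ℝ) ^ (1 - δ) ≤ w n) →
    AlmostSurelySet w (fun S => ∀ᶠ g : ℕ in atTop, a ≤ (Real.log (firstAfter S g)) ^ 2 / g) := by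
  obtain ⟨δ, η, hδ, hδ1, hη, h⟩ := dense_hoheisel
  refine ⟨δ, 1 / (2 / η), hδ, by positivity, fun w hw hreg hpow => ?_⟩
  intro Ω _ P _ X hX
  have hbig := big_of_rpow hδ1 hpow
  have h1 := upper_sup hw hreg hbig hη (C := 2 / η) (by
    rw [mul_div_cancel₀ _ hη.ne']; norm_num) (h w hpow) P hX
  filter_upwards [fo_c hw (reg_lin hreg) hbig Ω P X hX, h1] with ω h2 h3
  refine ⟨h2.1, ?_⟩
  have h4 := h2.2 2 (by norm_num)
  exact first_lower h2.1 (by positivity) h3 (h4.mono fun g hg => hg.1)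

theorem fo_e {w : ℕ → ℕ} (hw : ∀ n, 4 * w n ≤ n) (hreg : Regular w) {A : ℕ}
    (hA : ∀ᶠ n : ℕ in atTop, (n : ℝ) / (Real.log n) ^ A ≤ w n) :
    AlmostSurelySet w (fun S => Tendsto (fun g : ℕ => Real.log (firstAfter S g) / Real.sqrt g)
      atTop (𝓝 1)) := by
  intro Ω _ P _ X hX
  have hbig := big_of_rpow (δ := 1 / 2) (by norm_num) (rpow_of_log hA)
  have h1 : ∀ᵐ ω ∂P, ∀ j : ℕ, ∀ᶠ k in atTop,
      ngap (dset X ω) k ≤ 1 + 1 / ((j : ℝ) + 1) := by
    rw [ae_all_iff]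
    intro j
    set t : ℝ := 1 / ((j : ℝ) + 1) with ht
    have ht0 : 0 < t := by positivity
    have ht1 : t ≤ 1 := by
      rw [ht, div_le_one (by positivity)]
      have : (0 : ℝ) ≤ j := Nat.cast_nonneg j
      linarith
    refine upper_sup hw hreg hbig (η := 1 - t / 4) (by linarith) ?_
      (dense_pnt A hA (by linarith)) P hX
    nlinarith
  filter_upwards [fo_c hw (reg_lin hreg) hbig Ω P X hX, h1] with ω h2 h3
  refine ⟨h2.1, ?_⟩
  have h4 : Tendsto (fun g : ℕ => (Real.log (firstAfter (dset X ω) g)) ^ 2 / g) atTop (𝓝 1) := by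
    rw [Metric.tendsto_atTop]
    intro ε hε
    obtain ⟨j, hj⟩ := exists_nat_one_div_lt hε
    have hj0 : 0 < 1 / ((j : ℝ) + 1) := by positivity
    have h5 := h2.2 (1 + ε / 2) (by linarith)
    have h6 := first_lower h2.1 (C := 1 + 1 / ((j : ℝ) + 1)) (by positivity) (h3 j)
      (h5.mono fun g hg => hg.1)
    obtain ⟨N, hN⟩ := eventually_atTop.1 (h5.and h6)
    refine ⟨N, fun n hn => ?_⟩
    obtain ⟨⟨-, h7⟩, h8⟩ := hN n hn
    rw [Real.dist_eq, abs_lt]
    constructor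
    · have h9 : 1 - ε < 1 / (1 + 1 / ((j : ℝ) + 1)) := by
        rw [lt_div_iff₀ (by positivity)]
        nlinarith
      linarith
    · linarith
  have h5 := h4.sqrt
  rw [Real.sqrt_one] at h5
  refine h5.congr fun g => ?_
  rw [Real.sqrt_div (by positivity), Real.sqrt_sq (Real.log_natCast_nonneg _)]

end Pool.Agent.K4H77.Displ
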