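import Mathlib
import Pool.Agent.K4H40.NS.Spec

/-!
# [KEY] of MP_233bd3_co
-/

set_option autoImplicit false

namespace Pool.Agent.K4H77.NS

open MvPolynomial Module Pool.Agent.K4H40.NS

noncomputable section

variable {n k : ℕ} {K : Type} [Field K] {I : Ideal (R n K)}

lemma hs_le {d : ℕ} (P : Submodule K (R n K))
    (h : ∀ m : Fin n →₀ ℕ, m.degree = d → monomial m (1 : K) ∈ P) : hs n K d ≤ P := by
  intro f hf
  rw [← MvPolynomial.support_sum_monomial_coeff f]
  refine Submodule.sum_mem _ fun m hm => ?_
  have hd : m.degree = d := by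
    by_contra hne
    exact (MvPolynomial.mem_support_iff.1 hm) (IsHomogeneous.coeff_eq_zero hf hne)
  have e : monomial m (coeff m f) = coeff m f • monomial m (1 : K) := by
    rw [MvPolynomial.smul_monomial, smul_eq_mul, mul_one]
  rw [e]
  exact P.smul_mem _ (h m hd)

lemma mono_mem {d : ℕ} {m : Fin n →₀ ℕ} (hm : m.degree = d) : monomial m (1 : K) ∈ hs n K d :=
  isHomogeneous_monomial _ hm

theorem key : StKEY := by
  intro n k K _ I s hphi h hh hnJ
  by_contra hcon
  push Not at hcon
  classical
  -- the choice of `a`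
  have hch : ∀ f : R n K, ∃ a : R n K, f ∈ hs n K (k + 1) → a ∈ hs n K k ∧ f - s.ω * a ∈ s.J := by
    intro f
    by_cases hf : f ∈ hs n K (k + 1)
    · obtain ⟨a, ha, ha2⟩ := hphi f hf
      exact ⟨a, fun _ => ⟨ha, ha2⟩⟩
    · exact ⟨0, fun h => absurd h hf⟩
  choose a ha using hch
  let φ : R n K →ₗ[K] R n K := (basisMonomials (Fin n) K).constr K fun m => a (monomial m 1)
  have φm : ∀ m : Fin n →₀ ℕ, φ (monomial m (1 : K)) = a (monomial m 1) := by
    intro m
    have := (basisMonomials (Fin n) K).constr_basis K (fun m => a (monomial m (1 : K))) m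
    rwa [coe_basisMonomials] at this
  have φ1 : ∀ f ∈ hs n K (k + 1), φ f ∈ hs n K k := by
    have : hs n K (k + 1) ≤ (hs n K k).comap φ := by
      apply hs_le
      intro m hm
      rw [Submodule.mem_comap, φm]
      exact (ha _ (mono_mem hm)).1
    exact fun f hf => this hf
  have φ2 : ∀ f ∈ hs n K (k + 1), f - s.ω * φ f ∈ s.J := by
    have : hs n K (k + 1) ≤ (s.J.restrictScalars K).comap
        ((LinearMap.id : R n K →ₗ[K] R n K) - (LinearMap.mulLeft K s.ω) ∘ₗ φ) := by
      apply hs_le
      intro m hm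
      rw [Submodule.mem_comap]
      have e : ((LinearMap.id : R n K →ₗ[K] R n K) - (LinearMap.mulLeft K s.ω) ∘ₗ φ)
          (monomial m (1 : K)) = monomial m (1 : K) - s.ω * φ (monomial m (1 : K)) := rfl
      rw [e, φm]
      exact (ha _ (mono_mem hm)).2
    intro f hf
    have h2 := this hf
    rw [Submodule.mem_comap] at h2
    exact h2
  have φ3 : ∀ f ∈ hs n K (k + 1), f ∈ s.J → φ f ∈ s.J := by
    intro f hf hfJ
    apply s.lefschetz _ (φ1 f hf)
    have h3 := s.J.sub_mem hfJ (φ2 f hf)
    have e : f - (f - s.ω * φ f) = s.ω * φ f := by ring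
    rw [e] at h3
    exact h3
  -- the symmetry
  have sym : ∀ (i l : Fin n) (g : R n K), g ∈ hs n K k →
      X i * φ (X l * g) - X l * φ (X i * g) ∈ s.J := by
    intro i l g hg
    have h1 : ∀ j : Fin n, X j * g ∈ hs n K (k + 1) := by
      intro j
      have := (isHomogeneous_X K j).mul hg
      rwa [add_comm] at this
    exact hcon (X i) (isHomogeneous_X K i) (X l) (isHomogeneous_X K l) g hg (φ (X l * g))
      (φ1 _ (h1 l)) (φ (X i * g)) (φ1 _ (h1 i)) (φ2 _ (h1 l)) (φ2 _ (h1 i))
  -- the map `Φ`
  have hl : ∀ e : Fin n →₀ ℕ, ∃ r : R n K, ∀ i m, e = Finsupp.single i 1 + m → m.degree = k + 1 →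
      r - X i * φ (monomial m (1 : K)) ∈ s.J := by
    intro e
    by_cases he : ∃ i m, e = Finsupp.single i 1 + m ∧ m.degree = k + 1
    · obtain ⟨i, m, he, hm⟩ := he
      refine ⟨X i * φ (monomial m (1 : K)), ?_⟩
      intro j m' he' hm'
      by_cases hij : i = j
      · subst hij
        have : m = m' := by
          rw [he] at he'
          exact add_left_cancel he'
        rw [this, sub_self]
        exact s.J.zero_mem
      · -- common part
        have hmj : m j ≠ 0 := by
          intro h0
          have := congrArg (fun t : Fin n →₀ ℕ => t j) (he.symm.trans he')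
          simp [hij, h0] at this
          omega
        obtain ⟨c, hc⟩ : ∃ c : Fin n →₀ ℕ, m = Finsupp.single j 1 + c := by
          refine ⟨m - Finsupp.single j 1, ?_⟩
          rw [add_tsub_cancel_of_le]
          rw [Finsupp.single_le_iff]
          omega
        have hc' : m' = Finsupp.single i 1 + c := by
          have h5 := he.symm.trans he'
          rw [hc, ← add_assoc, add_comm (Finsupp.single i 1), add_assoc] at h5
          exact (add_left_cancel h5).symm
        have hcd : c.degree = k := by
          rw [hc, map_add, Finsupp.degree_single] at hm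
          omega
        have e1 : monomial m (1 : K) = X j * monomial c 1 := by
          rw [hc, X, monomial_mul, one_mul]
        have e2 : monomial m' (1 : K) = X i * monomial c 1 := by
          rw [hc', X, monomial_mul, one_mul]
        rw [e1, e2]
        exact sym i j _ (mono_mem hcd)
    · refine ⟨0, ?_⟩
      intro i m he' hm
      exact absurd ⟨i, m, he', hm⟩ he
  choose r hr using hl
  let Φ : R n K →ₗ[K] R n K := (basisMonomials (Fin n) K).constr K r
  have Φm : ∀ m : Fin n →₀ ℕ, Φ (monomial m (1 : K)) = r m := by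
    intro m
    have := (basisMonomials (Fin n) K).constr_basis K r m
    rwa [coe_basisMonomials] at this
  have Φ1 : ∀ i : Fin n, ∀ f ∈ hs n K (k + 1), Φ (X i * f) - X i * φ f ∈ s.J := by
    intro i
    have : hs n K (k + 1) ≤ (s.J.restrictScalars K).comap
        (Φ ∘ₗ (LinearMap.mulLeft K (X i)) - (LinearMap.mulLeft K (X i)) ∘ₗ φ) := by
      apply hs_le
      intro m hm
      rw [Submodule.mem_comap]
      have e : (Φ ∘ₗ (LinearMap.mulLeft K (X i)) - (LinearMap.mulLeft K (X i)) ∘ₗ φ)
          (monomial m (1 : K)) = Φ (X i * monomial m 1) - X i * φ (monomial m 1) := rfl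
      rw [e]
      have e2 : (X i * monomial m 1 : R n K) = monomial (Finsupp.single i 1 + m) 1 := by
        rw [X, monomial_mul, one_mul]
      rw [e2, Φm]
      exact hr _ i m rfl hm
    intro f hf
    exact this hf
  have Φ2 : ∀ x ∈ hs n K 1, ∀ f ∈ hs n K (k + 1), Φ (x * f) - x * φ f ∈ s.J := by
    intro x hx f hf
    have : hs n K 1 ≤ (s.J.restrictScalars K).comap
        (Φ ∘ₗ (LinearMap.mulRight K f) - (LinearMap.mulRight K (φ f))) := by
      apply hs_le
      intro m hm
      rw [Submodule.mem_comap]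
      obtain ⟨i, hi⟩ : ∃ i, m i ≠ 0 := by
        by_contra hno
        push Not at hno
        have : m = 0 := Finsupp.ext hno
        rw [this] at hm
        simp at hm
      obtain ⟨c, hc⟩ : ∃ c : Fin n →₀ ℕ, m = Finsupp.single i 1 + c := by
        refine ⟨m - Finsupp.single i 1, ?_⟩
        rw [add_tsub_cancel_of_le]
        rw [Finsupp.single_le_iff]
        omega
      have hc0 : c = 0 := by
        rw [hc, map_add, Finsupp.degree_single] at hm
        have : c.degree = 0 := by omega
        exact (Finsupp.degree_eq_zero_iff c).1 this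
      have hm2 : (monomial m (1 : K) : R n K) = X i := by
        rw [hc, hc0, add_zero, X]
      rw [hm2]
      exact Φ1 i f hf
    exact this hx
  -- `Φ = 0` on `P`
  have ΦP : s.P ≤ (s.J.restrictScalars K).comap Φ := by
    unfold Sys.P RI Sys.Th
    rw [sup_le_iff, Submodule.span_le, Submodule.span_le]
    constructor
    · rintro _ ⟨x, hx, f, hf, rfl⟩
      have hf2 : f ∈ hs n K (k + 1) := hf.2
      have hfJ : f ∈ s.J := Ideal.mem_sup_left hf.1
      have h1 := Φ2 x hx f hf2
      have h2 := s.J.mul_mem_left x (φ3 f hf2 hfJ)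
      have h3 := s.J.add_mem h1 h2
      have e : Φ (x * f) - x * φ f + x * φ f = Φ (x * f) := by ring
      rw [e] at h3
      exact h3
    · rintro _ ⟨i, f, hf, rfl⟩
      have h1 := Φ2 _ (s.θ_lin i) f hf
      have h2 : s.θ i * φ f ∈ s.J :=
        s.J.mul_mem_right _ (Ideal.mem_sup_right (Ideal.subset_span ⟨i, rfl⟩))
      have h3 := s.J.add_mem h1 h2
      have e : Φ (s.θ i * f) - s.θ i * φ f + s.θ i * φ f = Φ (s.θ i * f) := by ring
      rw [e] at h3
      exact h3
  have hh1 : s.ω * h ∈ s.P := hh.1
  have hh2 : h ∈ hs n K (k + 1) := hh.2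
  have h4 : Φ (s.ω * h) ∈ s.J := ΦP hh1
  have h5 := Φ2 _ s.ω_lin h hh2
  have h6 := φ2 h hh2
  apply hnJ
  have h7 := s.J.add_mem (s.J.sub_mem h4 h5) h6
  have e : Φ (s.ω * h) - (Φ (s.ω * h) - s.ω * φ h) + (h - s.ω * φ h) = h := by ring
  rw [e] at h7
  exact h7

end

end Pool.Agent.K4H77.NS
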