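import Mathlib

set_option autoImplicit false

namespace Pool.Agent.K4H47.PM

theorem lp_mono {n : ℕ} (q : ENNReal) [Fact (1 ≤ q)] (x y : Fin n → ℝ) (h : ∀ i, |x i| ≤ |y i|) :
    ‖(WithLp.toLp q x : PiLp q fun _ : Fin n => ℝ)‖ ≤
      ‖(WithLp.toLp q y : PiLp q fun _ : Fin n => ℝ)‖ := by
  rcases eq_or_ne q ⊤ with hq | hq
  · subst hq
    rw [PiLp.norm_eq_ciSup, PiLp.norm_eq_ciSup]
    rcases isEmpty_or_nonempty (Fin n) with he | he
    · simp
    · apply ciSup_mono (Set.finite_range _).bddAbove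
      intro i
      simpa using h i
  · have hq1 : 1 ≤ q := Fact.out
    have hq0 : 0 < q.toReal := ENNReal.toReal_pos (by
      intro h0; rw [h0] at hq1; exact absurd hq1 (by norm_num)) hq
    rw [PiLp.norm_eq_sum hq0, PiLp.norm_eq_sum hq0]
    apply Real.rpow_le_rpow
    · exact Finset.sum_nonneg fun i _ => Real.rpow_nonneg (norm_nonneg _) _
    · apply Finset.sum_le_sum
      intro i _
      apply Real.rpow_le_rpow (norm_nonneg _) _ hq0.le
      simpa using h i
    · positivity

end Pool.Agent.K4H47.PM
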