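import Mathlib

set_option autoImplicit false

namespace Pool.Agent.K4H77.PM

open Matrix Polynomial Unitary

lemma norm_congr {n : ℕ} (q : ENNReal) [Fact (1 ≤ q)] (f g : Fin n → ℝ)
    (h : (Finset.univ : Finset (Fin n)).val.map (fun i => |f i|) =
      (Finset.univ : Finset (Fin n)).val.map (fun i => |g i|)) :
    ‖(WithLp.toLp q f : PiLp q fun _ : Fin n => ℝ)‖ =
      ‖(WithLp.toLp q g : PiLp q fun _ : Fin n => ℝ)‖ := by
  rcases eq_or_ne q ⊤ with hq | hq
  · subst hq
    rw [PiLp.norm_eq_ciSup, PiLp.norm_eq_ciSup]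
    have e : Set.range (fun i => ‖(WithLp.toLp ⊤ f : PiLp ⊤ fun _ : Fin n => ℝ) i‖) =
        Set.range (fun i => ‖(WithLp.toLp ⊤ g : PiLp ⊤ fun _ : Fin n => ℝ) i‖) := by
      ext x
      have h2 : x ∈ (Finset.univ : Finset (Fin n)).val.map (fun i => |f i|) ↔
          x ∈ (Finset.univ : Finset (Fin n)).val.map (fun i => |g i|) := by rw [h]
      simpa [Multiset.mem_map] using h2
    exact congrArg sSup e
  · have hq1 : 1 ≤ q := Fact.out
    have hq0 : 0 < q.toReal := ENNReal.toReal_pos (by
      intro h0; rw [h0] at hq1; exact absurd hq1 (by norm_num)) hq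
    rw [PiLp.norm_eq_sum hq0, PiLp.norm_eq_sum hq0]
    congr 1
    have h2 := congrArg (fun M : Multiset ℝ => (M.map (fun t => t ^ q.toReal)).sum) h
    simp only [Multiset.map_map] at h2
    exact h2

theorem schatten_herm {n : ℕ} (q : ENNReal) [Fact (1 ≤ q)] (A : Matrix (Fin n) (Fin n) ℂ)
    (hA : A.IsHermitian) :
    ‖(WithLp.toLp q (fun i => Real.sqrt
      ((Matrix.isHermitian_conjTranspose_mul_self A).eigenvalues i)) :
        PiLp q fun _ : Fin n => ℝ)‖ =
      ‖(WithLp.toLp q hA.eigenvalues : PiLp q fun _ : Fin n => ℝ)‖ := by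
  apply norm_congr
  set hB := Matrix.isHermitian_conjTranspose_mul_self A
  have h1 : (Aᴴ * A).charpoly = ∏ i, (X - C (((hA.eigenvalues i) ^ 2 : ℝ) : ℂ)) := by
    rw [hA.eq]
    have e : A * A = conjStarAlgAut ℂ _ hA.eigenvectorUnitary
        (diagonal (fun i => (((hA.eigenvalues i) ^ 2 : ℝ) : ℂ))) := by
      conv_lhs => rw [hA.spectral_theorem, ← map_mul, diagonal_mul_diagonal]
      congr 1
      ext i j
      simp [diagonal, pow_two]
    rw [e, conjStarAlgAut_apply, charpoly_mul_comm, ← mul_assoc]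
    simp [charpoly_diagonal]
  have h2 : (Finset.univ : Finset (Fin n)).val.map hB.eigenvalues =
      (Finset.univ : Finset (Fin n)).val.map (fun i => (hA.eigenvalues i) ^ 2) := by
    have h3 := hB.roots_charpoly_eq_eigenvalues
    rw [h1, Polynomial.roots_prod _ _ (by
      apply Finset.prod_ne_zero_iff.2
      intro i _
      exact X_sub_C_ne_zero _)] at h3
    have h4 : (Finset.univ : Finset (Fin n)).val.map
        (fun i => (((hA.eigenvalues i) ^ 2 : ℝ) : ℂ)) =
        (Finset.univ : Finset (Fin n)).val.map (RCLike.ofReal ∘ hB.eigenvalues) := by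
      rw [← h3]
      simp only [roots_X_sub_C, Multiset.bind_singleton]
    have hinj : Function.Injective (fun t : ℝ => (t : ℂ)) := Complex.ofReal_injective
    apply Multiset.map_injective hinj
    simp only [Multiset.map_map]
    exact h4.symm
  have h5 := congrArg (fun M : Multiset ℝ => M.map Real.sqrt) h2
  simp only [Multiset.map_map, Function.comp_def, Real.sqrt_sq_eq_abs] at h5
  rw [← h5]
  apply Multiset.map_congr rfl
  intro i _
  exact abs_of_nonneg (Real.sqrt_nonneg _)

end Pool.Agent.K4H77.PM
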